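import Pool.Agent.H52.OM.Defs
import Pool.Agent.H17.Omega.Tukey
import Pool.Agent.H17.Omega.MPair

/-!
# OM-24: wellorders in a countable transitive model

PROOF.  Let `t ∈ M` be transitive, `x ∈ t` (`exists_transitive` in `MPair.lean`).  We find `w ∈ M` with `WO w`, `fld w = t`.
1. Partial injections: for an ordinal `δ` of `M` (`D = δ.toZFSet ∈ M`) let `S s` (`s ∈ M`, `s ⊆ t × D`) say that `s` is the graph of an injective partial function from `t` to `D`.  `exists_maximal` (`Tukey.lean`) with `b = prod t D` gives a maximal `s` (unions of chains of such sets are such sets).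
   Then `dom s = t` or `ran s = D` (otherwise add a pair `(a, β)`).
2. If for some `δ` the domain is `t`: `w = {(a, b) ∈ t × t : s(a) ⊆ s(b)} ∈ M` (`s(a), s(b)` ordinals; `exists_sep`) is a wellorder: `a ↦ s(a)` is an injection into the ordinals (`WO.min`: in `V`, the set `c` has an element with the least `s`-value).
3. Otherwise for every `δ` of `M` there is an injective `s_δ ∈ M` from a subset of `t` onto `D`.  Let `e ⊆ t × t` and say `Φ e D`: there is an injective function `s ∈ M` from a subset of `t` onto the ordinal `D` with `e = {(a, b) : s(a) ⊆ s(b)}`.  `D` is determined by `e`: if `s, s'` belong to the same `e`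
   then `dom s = dom s'` (`(a, a) ∈ e`), and `s(a) = s'(a)` by induction (`s(a)` is the set of all `s(b)` with `(b, a) ∈ e`, `(a, b) ∉ e`).  By replacement (`exists_repl`) on the power set of `t × t` in `M` (`exists_pow`) there is a set in `M` which contains all ordinals of `M`; this contradicts
   `rank_mem` (`CtmM.lean`: the rank of an element of `M` is an ordinal of `M`) and `ZFSet.mem_irrefl`-type arguments (the rank `ρ` of that set and its successor are ordinals of `M`).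
(Any other proof is fine, e.g. by recursion along the ordinals with a choice function, `exists_choice` in `Tukey.lean`, `recursion` in `CtmR.lean`.)
-/

set_option autoImplicit false
set_option linter.unusedVariables false
set_option linter.unusedSectionVars false
set_option linter.unusedSimpArgs false
set_option linter.deprecated false

universe u v w

open scoped ZFSet

namespace Pool.Agent.H52.OM

open Pool.Agent.H17.Omega Pool.Agent.H82.OC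

theorem exists_WOn {M : Set ZFSet.{u}} (hM : CTM M) {x : ZFSet.{u}} (hx : x ∈ M) : ∃ w ∈ M, WOn w x := by
  obtain ⟨t, ht, htr, hxt⟩ := hM.exists_transitive hx
  obtain ⟨p, hp, hp'⟩ := hM.exists_pow ht
  obtain ⟨c, hc, hc'⟩ := hM.exists_choice hp
  obtain ⟨F, hF, hF'⟩ := CTM.recursion (hN := hM) (R := fun x y : M => x.1 ∈ y.1)
    (𝒢 := fun x rel v0 => ∃ X : M, (∀ a : M, (a.1 ∈ X.1 ↔ (a.1 ∈ t ∧ ¬ (∃ y : M, rel y a)))) ∧
      ((X.1 = ∅ ∧ v0.1 = t) ∨ (v0.1 ∈ X.1 ∧ ZFSet.pair X.1 v0.1 ∈ c)))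
    (CTM.Dfn.mem (CTM.DT.var _) (CTM.DT.var _)) (by
      exact (CTM.Dfn.ex (P := fun v X => ((∀ a : M, (a.1 ∈ X.1 ↔ (a.1 ∈ t ∧ ¬ (∃ y : M,
          (y.1 ∈ (v 0).1 ∧ ZFSet.pair y.1 a.1 ∈ (v 1).1))))) ∧
          ((X.1 = ∅ ∧ (v 2).1 = t) ∨ ((v 2).1 ∈ X.1 ∧ ZFSet.pair X.1 (v 2).1 ∈ c))))
        (CTM.Dfn.and (CTM.Dfn.all (P := fun v a => (a.1 ∈ (v 3).1 ↔ (a.1 ∈ t ∧ ¬ (∃ y : M,
            (y.1 ∈ (v 0).1 ∧ ZFSet.pair y.1 a.1 ∈ (v 1).1)))))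
          (CTM.Dfn.iff (CTM.Dfn.mem (CTM.DT.var _) (CTM.DT.var _))
          (CTM.Dfn.and (CTM.Dfn.mem (CTM.DT.var _) (CTM.DT.const ⟨t, ht⟩))
          (CTM.Dfn.not (CTM.Dfn.ex (P := fun v y => (y.1 ∈ (v 0).1 ∧
              ZFSet.pair y.1 (v 4).1 ∈ (v 1).1))
            (CTM.Dfn.and (CTM.Dfn.mem (CTM.DT.var _) (CTM.DT.var _))
            (CTM.Dfn.pairMem (CTM.DT.var _) (CTM.DT.var _) (CTM.DT.var _))))))))
        (CTM.Dfn.or (CTM.Dfn.and (CTM.Dfn.isEmpty (CTM.DT.var _))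
          (CTM.Dfn.eqv (CTM.DT.var _) (CTM.DT.const ⟨t, ht⟩)))
          (CTM.Dfn.and (CTM.Dfn.mem (CTM.DT.var _) (CTM.DT.var _))
          (CTM.Dfn.pairMem (CTM.DT.var _) (CTM.DT.var _) (CTM.DT.const ⟨c, hc⟩)))))))
    (fun x => ⟨x.1, x.2, fun y => Iff.rfl⟩) CTM.mem_membership_wf (by
      rintro x r v v' ⟨X, h2, h3⟩ ⟨X', h2', h3'⟩
      have e2 : X = X' := Subtype.ext (hM.ext' X.2 X'.2 fun z => (h2 z).trans (h2' z).symm)
      subst e2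
      have hXp : X.1 ∈ p := (hp' _).2 ⟨X.2, fun a ha => ((h2 ⟨a, hM.mem_of_mem X.2 ha⟩).1 ha).1⟩
      rcases h3 with ⟨h3, h4⟩ | ⟨h3, h4⟩ <;> rcases h3' with ⟨h3', h4'⟩ | ⟨h3', h4'⟩
      · exact Subtype.ext (h4.trans h4'.symm)
      · rw [h3] at h3'; exact (ZFSet.notMem_empty _ h3').elim
      · rw [h3'] at h3; exact (ZFSet.notMem_empty _ h3).elim
      · obtain ⟨y, hy, h5, h6⟩ := hc' X.1 hXp (fun h0 => by rw [h0] at h3; exact ZFSet.notMem_empty _ h3)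
        exact Subtype.ext ((h6 _ h3 h4).trans (h6 _ h3' h4').symm)) (by
      intro x h hd hu
      obtain ⟨X, hX, hX'⟩ := hM.exists_sep (P := fun a => ¬ (∃ y : M, y.1 ∈ x.1 ∧
          ZFSet.pair y.1 a.1 ∈ h.1))
        (CTM.Dfn.not (CTM.Dfn.ex (P := fun v y => y.1 ∈ x.1 ∧ ZFSet.pair y.1 (v 0).1 ∈ h.1)
          (CTM.Dfn.and (CTM.Dfn.mem (CTM.DT.var _) (CTM.DT.const x))
            (CTM.Dfn.pairMem (CTM.DT.var _) (CTM.DT.var _) (CTM.DT.const h))))) ht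
      have g2 : ∀ a : M, (a.1 ∈ X ↔ (a.1 ∈ t ∧ ¬ (∃ y : M, y.1 ∈ x.1 ∧
          ZFSet.pair y.1 a.1 ∈ h.1))) := by
        intro a; rw [hX']; exact and_congr_right fun _ => ⟨fun ⟨_, h⟩ => h, fun h => ⟨a.2, h⟩⟩
      by_cases h0 : X = ∅
      · exact ⟨⟨t, ht⟩, ⟨X, hX⟩, g2, Or.inl ⟨h0, rfl⟩⟩
      · have hXp : X ∈ p := (hp' _).2 ⟨hX, fun a ha => ((g2 ⟨a, hM.mem_of_mem hX ha⟩).1 ha).1⟩
        obtain ⟨y, hy, h5, h6⟩ := hc' X hXp h0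
        exact ⟨⟨y, hM.mem_of_mem hX hy⟩, ⟨X, hX⟩, g2, Or.inr ⟨hy, h5⟩⟩)
  choose Xz h2 h3 using hF'
  have h2' : ∀ x a : M, a.1 ∈ (Xz x).1 ↔ a.1 ∈ t ∧ ¬ ∃ y : M, y.1 ∈ x.1 ∧ F y = a := h2
  have hne : ∀ x : M, (Xz x).1 ≠ ∅ → (F x).1 ∈ t ∧ ¬ ∃ y : M, y.1 ∈ x.1 ∧ F y = F x := by
    intro x hx
    rcases h3 x with ⟨h4, _⟩ | ⟨h4, _⟩
    · exact (hx h4).elim
    · exact (h2' x (F x)).1 h4
  -- some ordinal has an empty set of candidates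
  have hex : ∃ α : M, α.1.IsOrdinal ∧ (Xz α).1 = ∅ := by
    by_contra hcon
    push Not at hcon
    have hOd : hM.Dfn (fun v : Fin 2 → M => (v 1).1.IsOrdinal ∧ F (v 1) = v 0) :=
      CTM.Dfn.and (CTM.Dfn.isOrd (CTM.DT.var _))
        (CTM.Dfn.subst2 (P := fun x y => F x = y) hF (CTM.DT.var _) (CTM.DT.var _))
    obtain ⟨O, hO, hO'⟩ := hM.exists_repl (F := fun a γ : M => γ.1.IsOrdinal ∧ F γ = a) hOd ht (by
      rintro a _ γ γ' ⟨h4, h5⟩ ⟨h4', h5'⟩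
      rcases h4.mem_trichotomous h4' with h6 | h6 | h6
      · exact ((hne γ' (hcon γ' h4')).2 ⟨γ, h6, h5.trans h5'.symm⟩).elim
      · exact Subtype.ext h6
      · exact ((hne γ (hcon γ h4)).2 ⟨γ', h6, h5'.trans h5.symm⟩).elim)
    have hO2 : ∀ γ : M, γ.1 ∈ O ↔ γ.1.IsOrdinal := by
      intro γ
      rw [hO']
      constructor
      · rintro ⟨_, _, h4, _⟩; exact h4
      · intro h4; exact ⟨F γ, (hne γ (hcon γ h4)).1, h4, rfl⟩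
    have hOo : O.IsOrdinal := by
      rw [ZFSet.isOrdinal_iff_forall_mem_isOrdinal]
      refine ⟨fun y hy z hz => ?_, fun y hy => (hO2 ⟨y, hM.mem_of_mem hO hy⟩).1 hy⟩
      have hyN := hM.mem_of_mem hO hy
      have h4 := (hO2 ⟨y, hyN⟩).1 hy
      exact (hO2 ⟨z, hM.mem_of_mem hyN hz⟩).2 (h4.mem hz)
    exact ZFSet.mem_irrefl _ ((hO2 ⟨O, hO⟩).2 hOo)
  obtain ⟨α, ⟨hα, hα0⟩, hmin⟩ := (CTM.mem_membership_wf (N := M)).has_min
    {α : M | α.1.IsOrdinal ∧ (Xz α).1 = ∅} hex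
  have hlt : ∀ γ : M, γ.1 ∈ α.1 → (F γ).1 ∈ t ∧ ¬ ∃ y : M, y.1 ∈ γ.1 ∧ F y = F γ :=
    fun γ hγ => hne γ fun h0 => hmin γ ⟨hα.mem hγ, h0⟩ hγ
  have hinj : ∀ β γ : M, β.1 ∈ α.1 → γ.1 ∈ α.1 → F β = F γ → β = γ := by
    intro β γ hβ hγ h
    rcases (hα.mem hβ).mem_trichotomous (hα.mem hγ) with h6 | h6 | h6
    · exact ((hlt γ hγ).2 ⟨β, h6, h⟩).elim
    · exact Subtype.ext h6
    · exact ((hlt β hβ).2 ⟨γ, h6, h.symm⟩).elim
  have hsurj : ∀ a : M, a.1 ∈ t → ∃ y : M, y.1 ∈ α.1 ∧ F y = a := by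
    intro a ha
    by_contra hcon
    have := (h2' α a).2 ⟨ha, hcon⟩
    rw [hα0] at this
    exact ZFSet.notMem_empty _ this
  have hwd : hM.Dfn (fun v : Fin 1 → M => ∃ a b : M, (v 0).1 = ZFSet.pair a.1 b.1 ∧
      ∃ β γ : M, (β.1 ∈ α.1 ∧ γ.1 ∈ α.1) ∧ (F β = a ∧ F γ = b) ∧ β.1 ⊆ γ.1) := by
    refine CTM.Dfn.exPair (P := fun v a b => ∃ β γ : M, (β.1 ∈ α.1 ∧ γ.1 ∈ α.1) ∧
      (F β = a ∧ F γ = b) ∧ β.1 ⊆ γ.1) (CTM.DT.var _) ?_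
    refine CTM.Dfn.ex (P := fun v β => ∃ γ : M, (β.1 ∈ α.1 ∧ γ.1 ∈ α.1) ∧
      (F β = v 1 ∧ F γ = v 2) ∧ β.1 ⊆ γ.1) ?_
    refine CTM.Dfn.ex (P := fun v γ => ((v 3).1 ∈ α.1 ∧ γ.1 ∈ α.1) ∧
      (F (v 3) = v 1 ∧ F γ = v 2) ∧ (v 3).1 ⊆ γ.1) ?_
    refine CTM.Dfn.and (CTM.Dfn.and (CTM.Dfn.mem (CTM.DT.var _) (CTM.DT.const α))
      (CTM.Dfn.mem (CTM.DT.var _) (CTM.DT.const α))) (CTM.Dfn.and (CTM.Dfn.and ?_ ?_)
      (CTM.Dfn.subset (CTM.DT.var _) (CTM.DT.var _)))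
    · exact CTM.Dfn.subst2 (P := fun x y => F x = y) hF (CTM.DT.var _) (CTM.DT.var _)
    · exact CTM.Dfn.subst2 (P := fun x y => F x = y) hF (CTM.DT.var _) (CTM.DT.var _)
  obtain ⟨w, hw, hw'⟩ := hM.exists_sep (P := fun z => ∃ a b : M, z.1 = ZFSet.pair a.1 b.1 ∧
      ∃ β γ : M, (β.1 ∈ α.1 ∧ γ.1 ∈ α.1) ∧ (F β = a ∧ F γ = b) ∧ β.1 ⊆ γ.1) hwd (hM.prod_mem ht ht)
  have hpw : ∀ a b : ZFSet.{u}, ZFSet.pair a b ∈ w ↔
      ∃ β γ : M, (β.1 ∈ α.1 ∧ γ.1 ∈ α.1) ∧ ((F β).1 = a ∧ (F γ).1 = b) ∧ β.1 ⊆ γ.1 := by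
    intro a b
    rw [hw']
    constructor
    · rintro ⟨_, h, a', b', h1, β, γ, h4, ⟨h5, h6⟩, h7⟩
      have h1 : ZFSet.pair a b = ZFSet.pair a'.1 b'.1 := h1
      rw [ZFSet.pair_inj] at h1
      exact ⟨β, γ, h4, ⟨by rw [h5, h1.1], by rw [h6, h1.2]⟩, h7⟩
    · rintro ⟨β, γ, h4, ⟨rfl, rfl⟩, h7⟩
      exact ⟨ZFSet.mem_prod.2 ⟨_, (hlt β h4.1).1, _, (hlt γ h4.2).1, rfl⟩,
        hM.pair_mem (F β).2 (F γ).2, F β, F γ, rfl, β, γ, h4, ⟨rfl, rfl⟩, h7⟩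
  have hfld : ∀ a : ZFSet.{u}, a ∈ fld w ↔ a ∈ t := by
    intro a
    rw [mem_fld, hpw]
    constructor
    · rintro ⟨β, γ, h4, ⟨rfl, _⟩, _⟩
      exact (hlt β h4.1).1
    · intro ha
      obtain ⟨y, hy, h5⟩ := hsurj ⟨a, hM.mem_of_mem ht ha⟩ ha
      have h5 : (F y).1 = a := congrArg Subtype.val h5
      exact ⟨y, y, ⟨hy, hy⟩, ⟨h5, h5⟩, fun z hz => hz⟩
  have hfe : fld w = t := ZFSet.ext hfld
  refine ⟨w, hw, ⟨?_, ?_, ?_, ?_⟩, by rw [hfe]; exact htr, by rw [hfe]; exact hxt⟩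
  · intro z hz
    obtain ⟨a, ha, b, hb, h⟩ := ZFSet.mem_prod.1 ((hw' z).1 hz).1
    exact ⟨a, (hfld a).2 ha, b, (hfld b).2 hb, h⟩
  · intro a b h h'
    obtain ⟨β, γ, h4, ⟨h5, h6⟩, h7⟩ := (hpw a b).1 h
    obtain ⟨γ', β', h4', ⟨h5', h6'⟩, h7'⟩ := (hpw b a).1 h'
    have e1 := hinj γ γ' h4.2 h4'.1 (Subtype.ext (h6.trans h5'.symm))
    have e2 := hinj β β' h4.1 h4'.2 (Subtype.ext (h5.trans h6'.symm))
    subst e1; subst e2
    have e3 : β = γ := Subtype.ext (ZFSet.ext fun z => ⟨fun hz => h7 hz, fun hz => h7' hz⟩)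
    subst e3
    exact h5.symm.trans h6
  · intro a b d h h'
    obtain ⟨β, γ, h4, ⟨h5, h6⟩, h7⟩ := (hpw a b).1 h
    obtain ⟨γ', δ, h4', ⟨h5', h6'⟩, h7'⟩ := (hpw b d).1 h'
    have e1 := hinj γ γ' h4.2 h4'.1 (Subtype.ext (h6.trans h5'.symm))
    subst e1
    exact (hpw a d).2 ⟨β, δ, ⟨h4.1, h4'.2⟩, ⟨h5, h6'⟩, fun z hz => h7' (h7 hz)⟩
  · intro s hs hs0
    have hsne : ∃ a, a ∈ s := by
      by_contra hcon
      push Not at hcon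
      exact hs0 ((ZFSet.eq_empty s).2 hcon)
    obtain ⟨a, ha⟩ := hsne
    have hat := (hfld a).1 (hs ha)
    obtain ⟨y, hy, h5⟩ := hsurj ⟨a, hM.mem_of_mem ht hat⟩ hat
    have h5 : (F y).1 = a := congrArg Subtype.val h5
    obtain ⟨β, ⟨hβ, hβs⟩, hβm⟩ := (CTM.mem_membership_wf (N := M)).has_min
      {β : M | β.1 ∈ α.1 ∧ (F β).1 ∈ s} ⟨y, hy, h5 ▸ ha⟩
    refine ⟨(F β).1, hβs, fun z hz => ?_⟩
    have hzt := (hfld z).1 (hs hz)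
    obtain ⟨γ, hγ, h6⟩ := hsurj ⟨z, hM.mem_of_mem ht hzt⟩ hzt
    have h6 : (F γ).1 = z := congrArg Subtype.val h6
    refine (hpw _ _).2 ⟨β, γ, ⟨hβ, hγ⟩, ⟨rfl, h6⟩, ?_⟩
    rcases (hα.mem hβ).mem_trichotomous (hα.mem hγ) with h7 | h7 | h7
    · exact (hα.mem hγ).subset_of_mem h7
    · rw [h7]
    · exact (hβm γ ⟨hγ, h6 ▸ hz⟩ h7).elim

end Pool.Agent.H52.OM
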