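import Pool.Agent.H52.OM.Defs

/-!
# OM-13: the forcing relation for reals: monotonicity, locality, congruence

PROOF.  `forcesAG_mono`, `forcesAG_reg`: immediate from the definition (`∀ r ≤ q, ∃ s ≤ r, ...`).
`forcesAG_congr`: if `feq τ τ' q` and `r ≤ q` then `fmem X τ r ↔ fmem X τ' r` (`feq_mono`, `fmem_congr_right`, `feq_symm` in `H17/Omega/Base.lean`), so `ForcesVal τ i j r ↔ ForcesVal τ' i j r`, hence
`ForcesReal τ r → ForcesReal τ' r`, `ForcesProj T τ r → ForcesProj T τ' r` (all quantifiers are over conditions below `r`) and `ForcesAG A τ q → ForcesAG A τ' q`; symmetric.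
-/

set_option autoImplicit false
set_option linter.unusedVariables false
set_option linter.unusedSectionVars false
set_option linter.unusedSimpArgs false
set_option linter.deprecated false

universe u v w

open scoped ZFSet

namespace Pool.Agent.H52.OM

open Pool.Agent.H17.Omega Pool.Agent.H82.OC

private theorem agc_fmem {Q : Type u} [Preorder Q] {τ τ' X : Name Q} {q r : Q}
    (h : Name.feq τ τ' q) (hr : r ≤ q) : Name.fmem X τ r ↔ Name.fmem X τ' r :=
  ⟨Name.fmem_congr_right (Name.feq_mono hr h),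
    Name.fmem_congr_right (Name.feq_symm (Name.feq_mono hr h))⟩

private theorem agc_val {Q : Type u} [Preorder Q] {τ τ' : Name Q} {q r : Q}
    (h : Name.feq τ τ' q) (hr : r ≤ q) (i j : ℕ) : ForcesVal τ i j r ↔ ForcesVal τ' i j r :=
  agc_fmem h hr

private theorem agc_real {Q : Type u} [Preorder Q] {τ τ' : Name Q} {q r : Q}
    (h : Name.feq τ τ' q) (hr : r ≤ q) (H : ForcesReal τ r) : ForcesReal τ' r := by
  obtain ⟨h1, h2, h3⟩ := H
  refine ⟨fun X s hs hX => h1 X s hs ((agc_fmem h (hs.trans hr)).2 hX), fun i s hs => ?_,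
    fun i j j' s hs a b => h3 i j j' s hs ((agc_val h (hs.trans hr) i j).2 a)
      ((agc_val h (hs.trans hr) i j').2 b)⟩
  obtain ⟨t, ht, j, hj⟩ := h2 i s hs
  exact ⟨t, ht, j, (agc_val h (ht.trans (hs.trans hr)) i j).1 hj⟩

private theorem agc_proj {Q : Type u} [Preorder Q] {τ τ' : Name Q} {q r : Q} {K : Type u}
    {T : Set (List (ℕ × K))} (h : Name.feq τ τ' q) (hr : r ≤ q) (H : ForcesProj T τ r) :
    ForcesProj T τ' r := by
  obtain ⟨h1, B, h2, h3, h4⟩ := H
  refine ⟨agc_real h hr h1, B, h2, h3, fun n s hs => ?_⟩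
  obtain ⟨t, ht, x, b, hT, hb⟩ := h4 n s hs
  exact ⟨t, ht, x, b, hT, fun i => ⟨(agc_val h (ht.trans (hs.trans hr)) i (x i)).1 (hb i).1,
    (hb i).2⟩⟩

private theorem agc_AG {Q : Type u} [Preorder Q] {A : Set (ℕ → ℕ)} {τ τ' : Name Q} {q : Q}
    (h : Name.feq τ τ' q) (H : ForcesAG A τ q) : ForcesAG A τ' q := by
  intro r hr
  obtain ⟨s, hs, K, T, h1, h2, h3⟩ := H r hr
  exact ⟨s, hs, K, T, h1, h2, agc_proj h (hs.trans hr) h3⟩

theorem forcesAG_mono {Q : Type u} [Preorder Q] {A : Set (ℕ → ℕ)} {τ : Name Q} {q r : Q} (h : r ≤ q)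
    (hA : ForcesAG A τ q) : ForcesAG A τ r := fun s hs => hA s (hs.trans h)

theorem forcesAG_reg {Q : Type u} [Preorder Q] {A : Set (ℕ → ℕ)} {τ : Name Q} {q : Q}
    (h : ∀ r ≤ q, ∃ s ≤ r, ForcesAG A τ s) : ForcesAG A τ q := by
  intro r hr
  obtain ⟨s, hs, hA⟩ := h r hr
  obtain ⟨t, ht, rest⟩ := hA s le_rfl
  exact ⟨t, ht.trans hs, rest⟩

theorem forcesAG_congr {Q : Type u} [Preorder Q] {A : Set (ℕ → ℕ)} {τ τ' : Name Q} {q : Q}
    (h : Name.feq τ τ' q) : ForcesAG A τ q ↔ ForcesAG A τ' q :=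
  ⟨agc_AG h, agc_AG (Name.feq_symm h)⟩

end Pool.Agent.H52.OM
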