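import Pool.Agent.H52.OM.Dich

/-!
# OM-5: preorders as sets and as types

* `exists_poset`: `Q := Shrink.{u} {x // x ∈ P}` with `c q = ((equivShrink _).symm q).1` and `p ≤ q :↔ pair (c p) (c q) ∈ R` (`Nice.refl`, `Nice.trans`).
* `btZ_iff`: translate dense sets and sequences: for `→`, `D' n = {q | c q ∈ D n}`, a descending sequence `s` in `Q` gives `c ∘ s`
  (`IsSeq`: consecutive elements); for `←`, `D n = ` the set of all `c q`, `q ∈ D' n` (`ZFSet.sep` of `P`), a sequence in `P` is of the form `c ∘ s`, antitone by `antitone_nat_of_succ_le`.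
* `dichotomyZ`: `exists_poset`, `dichotomy` for `bb i j q := pair (c q) (pair (natZ i) (natZ j)) ∈ T` and `btZ_iff`.
* `not_bad_of_btZ`: if `BtZ A P R r T` and `r' ≤ r` then not `BadZ P R r' T`: take a descending sequence below `r'` that meets all `D n`
  (and, for the second alternative of `BadZ`, starts at `r'`); it evaluates `T` to a total function, single-valued.
* `not_btZ_both`: `BtZ A P R r T`, `BtZ Aᶜ P R r T` contradict each other (a sequence that meets the dense sets of both).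
* `btZ_mono`: `BtZ A P R r T`, `r' ≤ r` give `BtZ A P R r' T` (dense sets below `r` are dense below `r'`; a sequence below `r'` is one below `r`).
-/

set_option autoImplicit false
set_option linter.unusedVariables false
set_option linter.unusedSectionVars false
set_option linter.unusedSimpArgs false
set_option linter.deprecated false

universe u v w

open scoped ZFSet

namespace Pool.Agent.H52.OM

open Pool.Agent.H17.Omega Pool.Agent.H82.OC

theorem exists_poset {P R T : ZFSet.{u}} (h : Nice P R T) : ∃ (Q : Type u) (_ : Preorder Q) (c : Q → ZFSet.{u}),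
    Function.Injective c ∧ (∀ z, z ∈ P ↔ ∃ q, z = c q) ∧ ∀ p q, p ≤ q ↔ ZFSet.pair (c p) (c q) ∈ R := by
  let c : Shrink.{u} {x : ZFSet.{u} // x ∈ P} → ZFSet.{u} := fun q => ((equivShrink _).symm q).1
  have hc : ∀ q, c q ∈ P := fun q => ((equivShrink _).symm q).2
  refine ⟨Shrink.{u} {x : ZFSet.{u} // x ∈ P},
    { le := fun p q => ZFSet.pair (c p) (c q) ∈ R
      lt := fun p q => ZFSet.pair (c p) (c q) ∈ R ∧ ¬ ZFSet.pair (c q) (c p) ∈ R
      lt_iff_le_not_ge := fun _ _ => Iff.rfl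
      le_refl := fun p => h.refl _ (hc p)
      le_trans := fun a b d hab hbd => h.trans _ _ _ hab hbd }, c, ?_, ?_, fun p q => Iff.rfl⟩
  · intro a b hab
    exact (equivShrink _).symm.injective (Subtype.ext hab)
  · intro z
    constructor
    · intro hz
      exact ⟨equivShrink _ ⟨z, hz⟩, by simp [c]⟩
    · rintro ⟨q, rfl⟩
      exact hc q

theorem btZ_iff {Q : Type u} [Preorder Q] {c : Q → ZFSet.{u}} {P R T : ZFSet.{u}} {A : Set (ℕ → ℕ)}
    (hinj : Function.Injective c) (hP : ∀ z, z ∈ P ↔ ∃ q, z = c q)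
    (hR : ∀ p q, p ≤ q ↔ ZFSet.pair (c p) (c q) ∈ R) (r : Q) :
    BtZ A P R (c r) T ↔ BtF A (fun i j q => ZFSet.pair (c q) (ZFSet.pair (natZ i) (natZ j)) ∈ T) r := by
  constructor
  · rintro ⟨D, h1, h2⟩
    refine ⟨fun n => {q | c q ∈ D n}, ?_, ?_⟩
    · intro n q hq
      obtain ⟨q', h3, h4, h5⟩ := h1 n (c q) ((hP _).2 ⟨q, rfl⟩) ((hR _ _).1 hq)
      obtain ⟨q'', rfl⟩ := (hP _).1 h4
      exact ⟨q'', (hR _ _).2 h5, h3⟩
    · intro s hs hs0 hm
      exact h2 (fun k => c (s k)) ⟨fun k => (hP _).2 ⟨_, rfl⟩, (hR _ _).1 hs0,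
        fun k => (hR _ _).1 (hs (Nat.le_succ k))⟩ hm
  · rintro ⟨D, h1, h2⟩
    refine ⟨fun n => ZFSet.sep (fun z => ∃ q ∈ D n, z = c q) P, ?_, ?_⟩
    · intro n q hqP hq
      obtain ⟨q0, rfl⟩ := (hP _).1 hqP
      obtain ⟨q', h3, h4⟩ := h1 n q0 ((hR _ _).2 hq)
      refine ⟨c q', ?_, (hP _).2 ⟨_, rfl⟩, (hR _ _).1 h3⟩
      rw [ZFSet.mem_sep]
      exact ⟨(hP _).2 ⟨_, rfl⟩, q', h4, rfl⟩
    · intro s hs hm
      have h3 : ∀ k, ∃ q, s k = c q := fun k => (hP _).1 (hs.mem k)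
      choose t ht using h3
      have h4 : Antitone t := by
        refine antitone_nat_of_succ_le fun k => ?_
        rw [hR, ← ht, ← ht]
        exact hs.desc k
      obtain ⟨x, hx, h5⟩ := h2 t h4 (by rw [hR, ← ht]; exact hs.fst) (fun n => by
        obtain ⟨k, hk⟩ := hm n
        rw [ZFSet.mem_sep] at hk
        obtain ⟨-, q, hq, e⟩ := hk
        refine ⟨k, ?_⟩
        have : t k = q := hinj (by rw [← ht, e])
        rw [this]
        exact hq)
      refine ⟨x, hx, fun i j => ?_⟩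
      rw [← h5 i j]
      unfold Ev
      simp only [ht]

theorem dichotomyZ {A : Set (ℕ → ℕ)} (hA : UB.{u} A) {P R T r : ZFSet.{u}} (h : Nice P R T) (hr : r ∈ P) :
    ∃ r' ∈ P, ZFSet.pair r' r ∈ R ∧ (BtZ A P R r' T ∨ BtZ Aᶜ P R r' T ∨ BadZ P R r' T) := by
  obtain ⟨Q, _, c, hinj, hP, hR⟩ := exists_poset h
  obtain ⟨r0, rfl⟩ := (hP _).1 hr
  obtain ⟨r', hr', h1⟩ := dichotomy hA
    (bb := fun i j q => ZFSet.pair (c q) (ZFSet.pair (natZ i) (natZ j)) ∈ T)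
    (fun i j q q' hq hb => h.down _ _ _ hb ((hR _ _).1 hq)) r0
  refine ⟨c r', (hP _).2 ⟨_, rfl⟩, (hR _ _).1 hr', ?_⟩
  rcases h1 with h1 | h1 | ⟨i, h1⟩ | ⟨i, j, j', h1, h2, h3⟩
  · exact Or.inl ((btZ_iff hinj hP hR r').2 h1)
  · exact Or.inr (Or.inl ((btZ_iff hinj hP hR r').2 h1))
  · refine Or.inr (Or.inr (Or.inl ⟨i, fun q hq hqr j => ?_⟩))
    obtain ⟨q0, rfl⟩ := (hP _).1 hq
    exact h1 q0 ((hR _ _).2 hqr) j
  · exact Or.inr (Or.inr (Or.inr ⟨i, j, j', h1, h2, h3⟩))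

theorem btZ_mono {A : Set (ℕ → ℕ)} {P R T r r' : ZFSet.{u}} (h : Nice P R T)
    (hr' : ZFSet.pair r' r ∈ R) (hB : BtZ A P R r T) : BtZ A P R r' T := by
  obtain ⟨D, h1, h2⟩ := hB
  refine ⟨D, fun n q hq hqr => h1 n q hq (h.trans _ _ _ hqr hr'), fun s hs hm => ?_⟩
  exact h2 s ⟨hs.mem, h.trans _ _ _ hs.fst hr', hs.desc⟩ hm

/-- descending sequences that start at `r` and meet countably many dense sets -/
theorem btzf_exists_seq {P R T r : ZFSet.{u}} (h : Nice P R T) (hr : r ∈ P) {D : ℕ → ZFSet.{u}}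
    (hD : ∀ n, DenB P R r (D n)) :
    ∃ s : ℕ → ZFSet.{u}, s 0 = r ∧ IsSeq P R r s ∧ ∀ n, ∃ k, s k ∈ D n := by
  have h1 : ∀ (n : ℕ) (q : {q : ZFSet.{u} // q ∈ P ∧ ZFSet.pair q r ∈ R}),
      ∃ q' : {q : ZFSet.{u} // q ∈ P ∧ ZFSet.pair q r ∈ R}, q'.1 ∈ D n ∧ ZFSet.pair q'.1 q.1 ∈ R := by
    intro n q
    obtain ⟨q', h2, h3, h4⟩ := hD n q.1 q.2.1 q.2.2
    exact ⟨⟨q', h3, h.trans _ _ _ h4 q.2.2⟩, h2, h4⟩
  choose g hg1 hg2 using h1
  let s : ℕ → {q : ZFSet.{u} // q ∈ P ∧ ZFSet.pair q r ∈ R} :=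
    fun n => Nat.rec ⟨r, hr, h.refl r hr⟩ (fun n q => g n q) n
  refine ⟨fun n => (s n).1, rfl, ⟨fun k => (s k).2.1, (s 0).2.2, fun k => hg2 k (s k)⟩,
    fun n => ⟨n + 1, hg1 n (s n)⟩⟩

theorem not_bad_of_btZ {A : Set (ℕ → ℕ)} {P R T r r' : ZFSet.{u}} (h : Nice P R T)
    (hr' : ZFSet.pair r' r ∈ R) (hB : BtZ A P R r T) : ¬ BadZ P R r' T := by
  intro hbad
  obtain ⟨D, h1, h2⟩ := btZ_mono h hr' hB
  have hrP := (h.dom _ _ hr').1
  obtain ⟨s, hs0, hs, hm⟩ := btzf_exists_seq h hrP h1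
  obtain ⟨x, -, hx⟩ := h2 s hs hm
  have hle : ∀ k, ZFSet.pair (s k) r' ∈ R := by
    intro k
    induction k with
    | zero => exact hs.fst
    | succ k ih => exact h.trans _ _ _ (hs.desc k) ih
  rcases hbad with ⟨i, hi⟩ | ⟨i, j, j', hne, h3, h4⟩
  · obtain ⟨k, hk⟩ := (hx i (x i)).2 rfl
    exact hi (s k) (hs.mem k) (hle k) _ hk
  · have h5 : x i = j := (hx i j).1 ⟨0, by rw [hs0]; exact h3⟩
    have h6 : x i = j' := (hx i j').1 ⟨0, by rw [hs0]; exact h4⟩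
    exact hne (h5.symm.trans h6)

theorem not_btZ_both {A : Set (ℕ → ℕ)} {P R T r : ZFSet.{u}} (h : Nice P R T) (hr : r ∈ P)
    (hB : BtZ A P R r T) (hB' : BtZ Aᶜ P R r T) : False := by
  obtain ⟨D, h1, h2⟩ := hB
  obtain ⟨D', h1', h2'⟩ := hB'
  obtain ⟨s, hs0, hs, hm⟩ := btzf_exists_seq h hr
    (D := fun n => if n % 2 = 0 then D (n / 2) else D' (n / 2)) (fun n => by
      split_ifs
      · exact h1 _
      · exact h1' _)
  obtain ⟨x, hxA, hx⟩ := h2 s hs (fun n => by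
    obtain ⟨k, hk⟩ := hm (2 * n)
    refine ⟨k, ?_⟩
    rw [if_pos (by omega)] at hk
    have e : 2 * n / 2 = n := by omega
    rwa [e] at hk)
  obtain ⟨y, hyA, hy⟩ := h2' s hs (fun n => by
    obtain ⟨k, hk⟩ := hm (2 * n + 1)
    refine ⟨k, ?_⟩
    rw [if_neg (by omega)] at hk
    have e : (2 * n + 1) / 2 = n := by omega
    rwa [e] at hk)
  have hxy : x = y := by
    funext i
    exact ((hy i (x i)).1 ((hx i (x i)).2 rfl)).symm
  rw [hxy] at hxA
  exact hyA hxA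

end Pool.Agent.H52.OM
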