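import Pool.Agent.H52.OM.TauTa

/-!
# OM-14b: nice names for reals in an arbitrary partial order, second part

`T` is a downward closed set of pairs `(q, (i, j))`; `IsTauT F T t`: `t` is the name `{((i,j)ˇ, q) : (q, (i, j)) ∈ T}`, where `F x` is a name of `x` (`hF`).

* `exists_valT`: `T = {(c q, (i,j)) : q ⊩ (i,j) ∈ τ}` is a set of `M`: by `exists_fmem` (`MForce.lean`) the relation `fmem (nm c a) (nm c b) q` is definable in `M`; separation from `prod P (prod omZ omZ) ∈ M`.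
* `exists_tau`: for `T ∈ M` the set `t` exists in `M`: replacement (`exists_repl` in `CtmC.lean`).
-/

set_option autoImplicit false
set_option linter.unusedVariables false
set_option linter.unusedSectionVars false
set_option linter.unusedSimpArgs false
set_option linter.deprecated false

universe u v w

open scoped ZFSet

namespace Pool.Agent.H52.OM

open Pool.Agent.H17.Omega Pool.Agent.H82.OC Pool.Agent.H17.Omega.CTM

section

variable {M : Set ZFSet.{u}} (hM : CTM M) {Q : Type u} [PartialOrder Q] {c : Q → ZFSet.{u}} {P R : ZFSet.{u}}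
  (hPR : CTM.PR M c P R) {F : M → M} (hFd : hM.Dfn (fun v : Fin 2 → M => F (v 0) = v 1))
  (hF : ∀ x : M, ∀ q : Q, Name.feq (nm c (F x).1) (Name.check x.1) q)

include hM hPR hFd hF

theorem exists_valT {τ : ZFSet.{u}} (hτ : τ ∈ M) : ∃ T ∈ M, IsTT c T ∧ Nice P R T ∧
    ∀ q i j, ZFSet.pair (c q) (ZFSet.pair (natZ i) (natZ j)) ∈ T ↔ ForcesVal (nm c τ) i j q := by
  obtain ⟨MF, hMF, hMF'⟩ := hM.exists_fmem hPR
  have hdef : hM.Dfn (fun v : Fin 1 → M => ∃ w e : M, (v 0).1 = ZFSet.pair w.1 e.1 ∧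
      ∃ fe : M, F e = fe ∧ MF w fe ⟨τ, hτ⟩) := by
    refine Dfn.exPair (P := fun v w e => ∃ fe : M, F e = fe ∧ MF w fe ⟨τ, hτ⟩) (DT.var 0) ?_
    refine Dfn.ex (P := fun v fe => F (v 2) = fe ∧ MF (v 1) fe ⟨τ, hτ⟩) ?_
    exact (Dfn.subst2 (P := fun a b => F a = b) hFd (DT.var _) (DT.var _)).and
      (Dfn.subst3 (P := MF) hMF (DT.var _) (DT.var _) (DT.const _))
  obtain ⟨T, hT, hT'⟩ := hM.exists_sep (P := fun z => ∃ w e : M, z.1 = ZFSet.pair w.1 e.1 ∧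
      ∃ fe : M, F e = fe ∧ MF w fe ⟨τ, hτ⟩) hdef (hM.prod_mem hPR.hP (hM.prod_mem hM.omZ_mem hM.omZ_mem))
  have key : ∀ q i j, ZFSet.pair (c q) (ZFSet.pair (natZ i) (natZ j)) ∈ T ↔ ForcesVal (nm c τ) i j q := by
    intro q i j
    rw [hT']
    unfold ForcesVal
    constructor
    · rintro ⟨h1, h2, w, e, h3, fe, h4, h5⟩
      have h3 : ZFSet.pair (c q) (ZFSet.pair (natZ i) (natZ j)) = ZFSet.pair w.1 e.1 := h3
      rw [ZFSet.pair_inj] at h3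
      have h6 := (hMF' q w fe ⟨τ, hτ⟩ h3.1.symm).1 h5
      rw [← h4] at h6
      have h7 := Name.fmem_congr_left (hF e q) h6
      rw [← h3.2] at h7
      exact h7
    · intro h
      have he : ZFSet.pair (natZ i) (natZ j) ∈ M := hM.pair_mem (hM.natZ_mem_N i) (hM.natZ_mem_N j)
      have hc : c q ∈ M := CTM.PR.c_mem_N hM hPR q
      refine ⟨?_, hM.pair_mem hc he, ⟨c q, hc⟩, ⟨_, he⟩, rfl, F ⟨_, he⟩, rfl, ?_⟩
      · rw [ZFSet.pair_mem_prod, ZFSet.pair_mem_prod]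
        exact ⟨(hPR.memP _).2 ⟨q, rfl⟩, natZ_mem_omZ i, natZ_mem_omZ j⟩
      · refine (hMF' q _ _ _ rfl).2 ?_
        exact Name.fmem_congr_left (Name.feq_symm (hF ⟨_, he⟩ q)) h
  have hTT : IsTT c T := by
    intro z hz
    obtain ⟨h1, -⟩ := (hT' z).1 hz
    rw [ZFSet.mem_prod] at h1
    obtain ⟨a, ha, b, hb, rfl⟩ := h1
    rw [ZFSet.mem_prod] at hb
    obtain ⟨x, hx, y, hy, rfl⟩ := hb
    obtain ⟨q, rfl⟩ := (hPR.memP _).1 ha
    obtain ⟨i, rfl⟩ := mem_omZ.1 hx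
    obtain ⟨j, rfl⟩ := mem_omZ.1 hy
    exact ⟨q, i, j, rfl⟩
  refine ⟨T, hT, hTT, ⟨?_, ?_, ?_, ?_⟩, key⟩
  · intro p hp
    obtain ⟨q, rfl⟩ := (hPR.memP _).1 hp
    exact hPR.le_iff.2 le_rfl
  · intro a b d hab hbd
    obtain ⟨p, q, h1, rfl, rfl⟩ := hPR.of_pair_mem hab
    obtain ⟨p', q', h2, h3, rfl⟩ := hPR.of_pair_mem hbd
    have h4 := hPR.inj h3
    subst h4
    exact hPR.le_iff.2 (h1.trans h2)
  · intro a b hab
    obtain ⟨p, q, h1, rfl, rfl⟩ := hPR.of_pair_mem hab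
    exact ⟨(hPR.memP _).2 ⟨p, rfl⟩, (hPR.memP _).2 ⟨q, rfl⟩⟩
  · intro a a' e hae ha'
    obtain ⟨p, q, h1, rfl, rfl⟩ := hPR.of_pair_mem ha'
    obtain ⟨q', i, j, h2⟩ := hTT _ hae
    rw [ZFSet.pair_inj] at h2
    have h3 := hPR.inj h2.1
    subst h3
    have h4 := h2.2
    subst h4
    exact (key p i j).2 (Name.fmem_mono h1 ((key q i j).1 hae))

theorem exists_tau {T : ZFSet.{u}} (hTM : T ∈ M) (hT : IsTT c T) : ∃ t ∈ M, IsTauT F T t := by
  have hdef : hM.Dfn (fun v : Fin 2 → M => ∃ x e : M, (v 0).1 = ZFSet.pair x.1 e.1 ∧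
      ∃ fe : M, F e = fe ∧ (v 1).1 = ZFSet.pair fe.1 x.1) := by
    refine Dfn.exPair (P := fun v x e => ∃ fe : M, F e = fe ∧ (v 1).1 = ZFSet.pair fe.1 x.1) (DT.var 0) ?_
    refine Dfn.ex (P := fun v fe => F (v 3) = fe ∧ (v 1).1 = ZFSet.pair fe.1 (v 2).1) ?_
    exact (Dfn.subst2 (P := fun a b => F a = b) hFd (DT.var _) (DT.var _)).and
      (Dfn.isPair (DT.var _) (DT.var _) (DT.var _))
  obtain ⟨t, ht, ht'⟩ := hM.exists_repl (F := fun y z => ∃ x e : M, y.1 = ZFSet.pair x.1 e.1 ∧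
      ∃ fe : M, F e = fe ∧ z.1 = ZFSet.pair fe.1 x.1) hdef hTM (by
    rintro y - z z' ⟨x, e, h1, fe, h2, h3⟩ ⟨x', e', h1', fe', h2', h3'⟩
    rw [h1, ZFSet.pair_inj] at h1'
    have hx : x = x' := Subtype.ext h1'.1
    have he : e = e' := Subtype.ext h1'.2
    subst hx he
    subst h2 h2'
    exact Subtype.ext (h3.trans h3'.symm))
  refine ⟨t, ht, fun z => ?_⟩
  constructor
  · intro hz
    obtain ⟨y, hy, x, e, h1, fe, h2, h3⟩ := (ht' ⟨z, hM.mem_of_mem ht hz⟩).1 hz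
    subst h2
    exact ⟨x, e, h1 ▸ hy, h3⟩
  · rintro ⟨x, e, h1, rfl⟩
    exact (ht' ⟨_, hM.pair_mem (F e).2 x.2⟩).2 ⟨⟨_, hM.mem_of_mem hTM h1⟩, h1, x, e, rfl, F e, rfl, rfl⟩

end

end Pool.Agent.H52.OM
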