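import Pool.Agent.H52.OM.AGiff
import Pool.Agent.H52.OM.BtZF
import Pool.Agent.H52.OM.AGcongr
import Pool.Agent.H52.OM.TauT

/-!
# OM-15: closure under the forcing predicate `BB A` implies `A`-closure

PROOF.  Let `Q, c` be as in `AClosed`; `PosetIn.exists_PR` gives `P, R ∈ M` with `PR M c P R`, and `exists_chk` (`H17/Omega/MName.lean`) gives `F`.  We find `σ ∈ M` that works for all conditions (take `q := p`).
Let `pw ∈ M` be the set of all `T ∈ M`, `T ⊆ P × (ω × ω)` (`exists_pow`, `prod_mem`, `omZ_mem`), `u = {pair P R} × (P × pw) ∈ M`, `b = sep (BB A) u ∈ M` (hypothesis).  By replacement (`exists_repl`, functional because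
`IsTauT F T t` determines `t` by extensionality) there is `σ ∈ M` with `z ∈ σ ↔ ∃ x T t ∈ M, x ∈ P, T ∈ pw, pair (pair P R) (pair x T) ∈ b ∧ IsTauT F T t ∧ z = pair t x`
(`IsTauT F T t` is definable: quantifiers over `M` suffice because `t ∈ M`).  For `T ∈ pw` we have `IsTT c T`.
Note: `BB A (pair (pair P R) (pair (c r) T))` is, by `ZFSet.pair_inj`, `c r ∈ P ∧ Nice P R T ∧ BtZ A P R (c r) T`, and `BtZ A P R (c r) T ↔ BtF A bb r` for `bb i j q := pair (c q) (pair (natZ i) (natZ j)) ∈ T` (`btZ_iff`), and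
`BtF A bb r ↔ ForcesAG A (nm c t) r` for `IsTauT F T t` (`forcesAG_iff_btF` with `H1 = val_tau`, `H2 = pairs_tau`, `hmono` from `Nice.down`).
CLAIM: for `τ ∈ M`, `r`: `fmem (nm c τ) (nm c σ) r ↔ ForcesAG A (nm c τ) r`.
`→`: by `fmem_nm`, below every `r1 ≤ r` there is `r2`, `pair b' (c r3) ∈ σ`, `r2 ≤ r3`, `feq (nm c τ) (nm c b') r2`; `b' = t`, `IsTauT F T t`, so `ForcesAG A (nm c t) r3`, and by `forcesAG_mono`, `forcesAG_congr`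
`ForcesAG A (nm c τ) r2`; `forcesAG_reg`.
`←`: let `r1 ≤ r`; `ForcesAG A (nm c τ) r` gives `s ≤ r1` with `ForcesReal (nm c τ) s`.  Take `T` from `exists_valT`, `t` from `exists_tau`; `feq (nm c τ) (nm c t) s` by `feq_tau_val`, so `ForcesAG A (nm c t) s`
(`forcesAG_mono`, `forcesAG_congr`), so `BB A (pair (pair P R) (pair (c s) T))`, `pair t (c s) ∈ σ`, and `fmem_nm` gives `fmem (nm c τ) (nm c σ) r` (for each `r1 ≤ r` we found `s ≤ r1`).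
-/

set_option autoImplicit false
set_option linter.unusedVariables false
set_option linter.unusedSectionVars false
set_option linter.unusedSimpArgs false
set_option linter.deprecated false

universe u v w

open scoped ZFSet

namespace Pool.Agent.H52.OM

open Pool.Agent.H17.Omega Pool.Agent.H82.OC
open Pool.Agent.H17.Omega.CTM

/-- the relation of the replacement -/
private def sigG {M : Set ZFSet.{u}} (F : M → M) (PR b : ZFSet.{u}) (y z : M) : Prop :=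
  ∃ x T t : M, y.1 = ZFSet.pair x.1 T.1 ∧ ZFSet.pair PR y.1 ∈ b ∧
    (∀ z : M, (z.1 ∈ t.1 ↔ ∃ x' e s : M, (ZFSet.pair x'.1 e.1 ∈ T.1 ∧ (fun e s => F e = s) e s ∧
      z.1 = ZFSet.pair s.1 x'.1))) ∧ z.1 = ZFSet.pair t.1 x.1

private theorem sigb_tau {M : Set ZFSet.{u}} (hM : CTM M) {F : M → M} {T t : M} :
    (∀ z : M, (z.1 ∈ t.1 ↔ ∃ x' e s : M, (ZFSet.pair x'.1 e.1 ∈ T.1 ∧ (fun e s => F e = s) e s ∧
      z.1 = ZFSet.pair s.1 x'.1))) ↔ IsTauT F T.1 t.1 := by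
  constructor
  · intro h z
    constructor
    · intro hz
      obtain ⟨x, e, s, h1, h2, h3⟩ := (h ⟨z, hM.mem_of_mem t.2 hz⟩).1 hz
      have h2' : F e = s := h2
      exact ⟨x, e, h1, by rw [h2']; exact h3⟩
    · rintro ⟨x, e, h1, rfl⟩
      exact (h ⟨ZFSet.pair (F e).1 x.1, hM.pair_mem (F e).2 x.2⟩).2 ⟨x, e, F e, h1, rfl, rfl⟩
  · intro h z
    rw [h z.1]
    constructor
    · rintro ⟨x, e, h1, h2⟩
      exact ⟨x, e, F e, h1, rfl, h2⟩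
    · rintro ⟨x, e, s, h1, h2, h3⟩
      have h2' : F e = s := h2
      exact ⟨x, e, h1, by rw [h2']; exact h3⟩

private theorem sigG_dfn {M : Set ZFSet.{u}} (hM : CTM M) {F : M → M}
    (hF : hM.Dfn (fun v : Fin 2 → M => F (v 0) = v 1)) {PR b : ZFSet.{u}} (hPR : PR ∈ M) (hb : b ∈ M) :
    hM.Dfn (fun v : Fin 2 → M => sigG F PR b (v 0) (v 1)) := by
  show hM.Dfn (fun v : Fin 2 → M => ∃ x T t : M, (v 0).1 = ZFSet.pair x.1 T.1 ∧
    ZFSet.pair PR (v 0).1 ∈ b ∧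
    (∀ z : M, (z.1 ∈ t.1 ↔ ∃ x' e s : M, (ZFSet.pair x'.1 e.1 ∈ T.1 ∧ (fun e s => F e = s) e s ∧
      z.1 = ZFSet.pair s.1 x'.1))) ∧ (v 1).1 = ZFSet.pair t.1 x.1)
  exact (Dfn.ex (P := fun v x => ∃ T t : M, (v 0).1 = ZFSet.pair x.1 T.1 ∧
    ZFSet.pair PR (v 0).1 ∈ b ∧
    (∀ z : M, (z.1 ∈ t.1 ↔ ∃ x' e s : M, (ZFSet.pair x'.1 e.1 ∈ T.1 ∧ (fun e s => F e = s) e s ∧
      z.1 = ZFSet.pair s.1 x'.1))) ∧ (v 1).1 = ZFSet.pair t.1 x.1)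
    (Dfn.ex (P := fun v T => ∃ t : M, (v 0).1 = ZFSet.pair (v 2).1 T.1 ∧
    ZFSet.pair PR (v 0).1 ∈ b ∧
    (∀ z : M, (z.1 ∈ t.1 ↔ ∃ x' e s : M, (ZFSet.pair x'.1 e.1 ∈ T.1 ∧ (fun e s => F e = s) e s ∧
      z.1 = ZFSet.pair s.1 x'.1))) ∧ (v 1).1 = ZFSet.pair t.1 (v 2).1)
    (Dfn.ex (P := fun v t => (v 0).1 = ZFSet.pair (v 2).1 (v 3).1 ∧
    ZFSet.pair PR (v 0).1 ∈ b ∧
    (∀ z : M, (z.1 ∈ t.1 ↔ ∃ x' e s : M, (ZFSet.pair x'.1 e.1 ∈ (v 3).1 ∧ (fun e s => F e = s) e s ∧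
      z.1 = ZFSet.pair s.1 x'.1))) ∧ (v 1).1 = ZFSet.pair t.1 (v 2).1)
    (Dfn.and (Dfn.isPair (DT.var _) (DT.var _) (DT.var _))
    (Dfn.and (Dfn.pairMem (DT.const ⟨PR, hPR⟩) (DT.var _) (DT.const ⟨b, hb⟩))
    (Dfn.and (Dfn.all (P := fun v z => (z.1 ∈ (v 4).1 ↔ ∃ x' e s : M,
      (ZFSet.pair x'.1 e.1 ∈ (v 3).1 ∧ (fun e s => F e = s) e s ∧ z.1 = ZFSet.pair s.1 x'.1)))
      (Dfn.iff (Dfn.mem (DT.var _) (DT.var _))
      (Dfn.ex (P := fun v x' => ∃ e s : M, (ZFSet.pair x'.1 e.1 ∈ (v 3).1 ∧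
        (fun e s => F e = s) e s ∧ (v 5).1 = ZFSet.pair s.1 x'.1))
      (Dfn.ex (P := fun v e => ∃ s : M, (ZFSet.pair (v 6).1 e.1 ∈ (v 3).1 ∧
        (fun e s => F e = s) e s ∧ (v 5).1 = ZFSet.pair s.1 (v 6).1))
      (Dfn.ex (P := fun v s => (ZFSet.pair (v 6).1 (v 7).1 ∈ (v 3).1 ∧
        (fun e s => F e = s) (v 7) s ∧ (v 5).1 = ZFSet.pair s.1 (v 6).1))
      (Dfn.and (Dfn.pairMem (DT.var _) (DT.var _) (DT.var _))
      (Dfn.and (Dfn.subst2 (P := (fun e s => F e = s)) hF (DT.var _) (DT.var _))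
      (Dfn.isPair (DT.var _) (DT.var _) (DT.var _)))))))))
    (Dfn.isPair (DT.var _) (DT.var _) (DT.var _))))))))

theorem aclosed_of_BB {A : Set (ℕ → ℕ)} (hA : UB.{u} A) {M : Set ZFSet.{u}} (hM : CTM M)
    (hB : ∀ x ∈ M, ZFSet.sep (BB A) x ∈ M) : AClosed A M := by
  intro Q _ c hQ p
  obtain ⟨P, R, h⟩ := hQ.exists_PR
  obtain ⟨F, hF, hF'⟩ := hM.exists_chk h
  obtain ⟨pw, hpw, hpw'⟩ := hM.exists_pow (hM.prod_mem h.hP (hM.prod_mem hM.omZ_mem hM.omZ_mem))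
  have hPR : ZFSet.pair P R ∈ M := hM.pair_mem h.hP h.hR
  have hu : ZFSet.prod {ZFSet.pair P R} (ZFSet.prod P pw) ∈ M :=
    hM.prod_mem (hM.singleton_mem hPR) (hM.prod_mem h.hP hpw)
  set b := ZFSet.sep (BB A) (ZFSet.prod {ZFSet.pair P R} (ZFSet.prod P pw)) with hb
  have hbM : b ∈ M := hB _ hu
  have hle : ∀ p q : Q, p ≤ q ↔ ZFSet.pair (c p) (c q) ∈ R := fun p q => h.le_iff.symm
  obtain ⟨σ, hσ, hσ'⟩ := hM.exists_repl (F := sigG F (ZFSet.pair P R) b)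
    (sigG_dfn hM hF hPR hbM) (hM.prod_mem h.hP hpw) (by
      rintro y - z z' ⟨x, T, t, h1, -, h2, h3⟩ ⟨x', T', t', h1', -, h2', h3'⟩
      rw [sigb_tau hM] at h2 h2'
      rw [h1, ZFSet.pair_inj] at h1'
      have ht : t.1 = t'.1 := by
        ext w
        rw [h2 w, h2' w, h1'.2]
      apply Subtype.ext
      rw [h3, h3', ht, h1'.1])
  -- the meaning of `b`
  have hTT : ∀ T ∈ pw, IsTT c T := by
    intro T hT z hz
    have h1 := ((hpw' T).1 hT).2 hz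
    rw [ZFSet.mem_prod] at h1
    obtain ⟨x, hx, y, hy, rfl⟩ := h1
    rw [ZFSet.mem_prod] at hy
    obtain ⟨i, hi, j, hj, rfl⟩ := hy
    obtain ⟨q, rfl⟩ := (h.memP x).1 hx
    obtain ⟨i', rfl⟩ := mem_omZ.1 hi
    obtain ⟨j', rfl⟩ := mem_omZ.1 hj
    exact ⟨q, i', j', rfl⟩
  have hmono : ∀ T, Nice P R T → ∀ (i j : ℕ) (q q' : Q), q' ≤ q →
      ZFSet.pair (c q) (ZFSet.pair (natZ i) (natZ j)) ∈ T →
      ZFSet.pair (c q') (ZFSet.pair (natZ i) (natZ j)) ∈ T := by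
    intro T hT i j q q' hq hm
    exact hT.down _ _ _ hm ((hle _ _).1 hq)
  have hforce : ∀ (T t : M) (q : Q), T.1 ∈ pw → Nice P R T.1 → IsTauT F T.1 t.1 →
      (BtZ A P R (c q) T.1 ↔ ForcesAG A (nm c t.1) q) := by
    intro T t q hTp hN ht
    have h1 := hTT T.1 hTp
    rw [btZ_iff h.inj h.memP hle q]
    exact (forcesAG_iff_btF hA
      (bb := fun i j q => ZFSet.pair (c q) (ZFSet.pair (natZ i) (natZ j)) ∈ T.1)
      (hmono T.1 hN) (fun i j r => val_tau hM h hF hF' h1 hN T.2 ht i j r)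
      (fun X r hX => pairs_tau hM h hF hF' h1 T.2 ht X r hX)).symm
  refine ⟨p, le_rfl, σ, hσ, fun τ hτ r _ => ⟨fun hfm => ?_, fun hAG => ?_⟩⟩
  · refine forcesAG_reg fun r1 hr1 => ?_
    obtain ⟨r2, hr2, b', r3, h1, h2, h3⟩ := (fmem_nm c).1 hfm r1 hr1
    obtain ⟨y, hy, x, T, t, h4, h5, h6, h7⟩ :=
      (hσ' ⟨ZFSet.pair b' (c r3), hM.mem_of_mem hσ h1⟩).1 h1
    rw [sigb_tau hM] at h6
    have h7' : b' = t.1 ∧ c r3 = x.1 := ZFSet.pair_inj.1 h7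
    rw [hb, ZFSet.mem_sep] at h5
    obtain ⟨-, P', R', r', T', e, hrP, hN, hBt⟩ := h5
    rw [h4, ZFSet.pair_inj, ZFSet.pair_inj, ZFSet.pair_inj] at e
    obtain ⟨⟨rfl, rfl⟩, rfl, rfl⟩ := e
    have hTp : T.1 ∈ pw := by
      rw [h4, ZFSet.pair_mem_prod] at hy
      exact hy.2
    rw [← h7'.2] at hBt
    have h8 := (hforce T t r3 hTp hN h6).1 hBt
    refine ⟨r2, hr2, ?_⟩
    rw [h7'.1] at h3
    exact (forcesAG_congr h3).2 (forcesAG_mono h2 h8)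
  · rw [fmem_nm]
    intro r1 hr1
    obtain ⟨s, hs, K, T0, -, -, hproj⟩ := hAG r1 hr1
    have hreal : ForcesReal (nm c τ) s := hproj.1
    obtain ⟨T, hTM, hT1, hN, hT2⟩ := exists_valT hM h hF hF' hτ
    obtain ⟨t, htM, ht⟩ := exists_tau hM h hF hF' hTM hT1
    have hfeq := feq_tau_val hM h hF hF' hτ hTM hT1 hT2 ht hreal
    have hTp : T ∈ pw := by
      rw [hpw']
      refine ⟨hTM, fun z hz => ?_⟩
      obtain ⟨q, i, j, rfl⟩ := hT1 z hz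
      rw [ZFSet.pair_mem_prod, ZFSet.pair_mem_prod]
      exact ⟨h.c_mem_P q, natZ_mem_omZ i, natZ_mem_omZ j⟩
    have hAGs : ForcesAG A (nm c t) s :=
      (forcesAG_congr hfeq).1 (forcesAG_mono (hs.trans hr1) hAG)
    have hBt : BtZ A P R (c s) T := (hforce ⟨T, hTM⟩ ⟨t, htM⟩ s hTp hN ht).2 hAGs
    have hcs : c s ∈ M := h.c_mem_N hM s
    refine ⟨s, hs, t, s, ?_, le_rfl, hfeq⟩
    refine (hσ' ⟨ZFSet.pair t (c s), hM.pair_mem htM hcs⟩).2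
      ⟨⟨ZFSet.pair (c s) T, hM.pair_mem hcs hTM⟩, ?_, ⟨c s, hcs⟩, ⟨T, hTM⟩, ⟨t, htM⟩, rfl, ?_, ?_, rfl⟩
    · show ZFSet.pair (c s) T ∈ ZFSet.prod P pw
      rw [ZFSet.pair_mem_prod]
      exact ⟨h.c_mem_P s, hTp⟩
    · show ZFSet.pair (ZFSet.pair P R) (ZFSet.pair (c s) T) ∈ b
      rw [hb, ZFSet.mem_sep, ZFSet.pair_mem_prod, ZFSet.pair_mem_prod]
      exact ⟨⟨by simp, h.c_mem_P s, hTp⟩, P, R, c s, T, rfl, h.c_mem_P s, hN, hBt⟩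
    · exact (sigb_tau hM (T := ⟨T, hTM⟩) (t := ⟨t, htM⟩)).2 ht

end Pool.Agent.H52.OM
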