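import Pool.Agent.H52.OM.ColD
import Pool.Agent.H52.OM.SigB

/-!
# OM-21: the first model of ZFC over `w` is a countable transitive `A`-closed model

PROOF.
* `countable_New`: if `fld W` has countably many elements then so has `{z | New B W z}` (a new element is determined by `(p, q, θ)`, `Fml` is countable).
* `countable_KL`: for `γ` countable (`γ.card ≤ ℵ₀`) and `fld w` countable, `KL B w γ` is countable, by `mem_fld_Wl` (`Hier.lean`) and induction on `γ` (the set of `δ < γ` is countable: `Set.Iio γ` has cardinality `γ.card` (lifted)).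
* `bet_spec`: `Zl B w (bet B w)` and `(bet B w).card ≤ ℵ₀`: `bet` is the infimum of a nonempty set (`csInf_mem`, `exists_countable_Zl`), `bet ≤ β`, `Ordinal.card_le_card`.
* `ctm_bet`: `CTM`: nonempty (`x`: `fld w ⊆ fld (Wl ..)`), countable, transitive (`trans_Wl`), `zfc` from `Zl`.
* `aclosed_bet`: `aclosed_of_BB` (`SigB.lean`) and `KL_amenable` (`LimKb.lean`).
-/

set_option autoImplicit false
set_option linter.unusedVariables false
set_option linter.unusedSectionVars false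
set_option linter.unusedSimpArgs false
set_option linter.deprecated false

universe u v w

open scoped ZFSet

namespace Pool.Agent.H52.OM

open Pool.Agent.H17.Omega Pool.Agent.H82.OC

theorem countable_New {B : ZFSet.{u} → Prop} {W : ZFSet.{u}} (h : {x | x ∈ fld W}.Countable) :
    {z | New B W z}.Countable := by
  have h1 : ({x | x ∈ fld W} ×ˢ ({x | x ∈ fld W} ×ˢ (Set.univ : Set Fml))).Countable :=
    h.prod (h.prod Set.countable_univ)
  refine (h1.image (fun t => Hh B W t.1 t.2.1 t.2.2)).mono ?_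
  rintro z ⟨_, p, q, θ, hc⟩
  exact ⟨(p, q, θ), ⟨hc.hp, hc.hq, trivial⟩, hc.eq.symm⟩

theorem countable_KL {B : ZFSet.{u} → Prop} {w : ZFSet.{u}} (hw : WO w) (h : {x | x ∈ fld w}.Countable)
    {γ : Ordinal.{u}} (hγ : γ.card ≤ Cardinal.aleph0) : (KL B w γ).Countable := by
  induction γ using WellFoundedLT.induction with
  | ind γ ih =>
    have hI : (Set.Iio γ).Countable := by
      rw [← Cardinal.le_aleph0_iff_set_countable, Cardinal.mk_Iio_ordinal, Cardinal.lift_le_aleph0]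
      exact hγ
    have h1 : KL B w γ ⊆ {x | x ∈ fld w} ∪ ⋃ δ ∈ Set.Iio γ, {z | New B (Wl B w δ) z} := by
      intro x hx
      rcases (mem_fld_Wl hw).1 hx with h2 | ⟨δ, hδ, h2⟩
      · exact Or.inl h2
      · exact Or.inr (Set.mem_biUnion hδ h2)
    refine (h.union (hI.biUnion fun δ hδ => countable_New ?_)).mono h1
    exact ih δ hδ ((Ordinal.card_le_card (le_of_lt hδ)).trans hγ)

theorem bet_spec (hI : ManyInacc.{u}) {A : Set (ℕ → ℕ)} (hA : UB.{u} A) {w x : ZFSet.{u}}
    (hc : HC w) (hw : WOn w x) : Zl (BB A) w (bet (BB A) w) ∧ (bet (BB A) w).card ≤ Cardinal.aleph0 := by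
  obtain ⟨β, h1, h2⟩ := exists_countable_Zl hI hA hc hw
  have hne : {γ | Zl (BB A) w γ}.Nonempty := ⟨β, h2⟩
  exact ⟨csInf_mem hne, (Ordinal.card_le_card (csInf_le' h2)).trans h1⟩

theorem ctmk_fld_countable {w : ZFSet.{u}} (hc : HC w) : {x | x ∈ fld w}.Countable := by
  obtain ⟨T, hT, htr, hwT⟩ := hc
  refine hT.mono fun x hx => ?_
  have h1 := (mem_sUnion_sUnion_pair (mem_fld.1 hx)).1
  obtain ⟨y, hy, hxy⟩ := ZFSet.mem_sUnion.1 h1
  obtain ⟨z, hz, hyz⟩ := ZFSet.mem_sUnion.1 hy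
  exact htr y (htr z (htr w hwT z hz) y hyz) x hxy

theorem subset_bet {B : ZFSet.{u} → Prop} {w x : ZFSet.{u}} (hw : WOn w x) :
    x ∈ KL B w (bet B w) ∧ ∀ a ∈ fld w, a ∈ KL B w (bet B w) :=
  ⟨fld_mono (hier_w_sub _) hw.mem, fun a ha => fld_mono (hier_w_sub _) ha⟩

theorem ctm_bet (hI : ManyInacc.{u}) {A : Set (ℕ → ℕ)} (hA : UB.{u} A) {w x : ZFSet.{u}}
    (hc : HC w) (hw : WOn w x) : CTM (KL (BB A) w (bet (BB A) w)) where
  nonempty := ⟨x, (subset_bet hw).1⟩
  countable := countable_KL hw.wo (ctmk_fld_countable hc) (bet_spec hI hA hc hw).2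
  trans := fun x hx y hy => trans_Wl hw.wo hw.tr _ x hx hy
  zfc := (bet_spec hI hA hc hw).1.2

theorem aclosed_bet (hI : ManyInacc.{u}) {A : Set (ℕ → ℕ)} (hA : UB.{u} A) {w x : ZFSet.{u}}
    (hc : HC w) (hw : WOn w x) : AClosed A (KL (BB A) w (bet (BB A) w)) :=
  aclosed_of_BB hA (ctm_bet hI hA hc hw) fun x hx =>
    KL_amenable hw.wo hw.tr ⟨_, hw.mem⟩ (bet_spec hI hA hc hw).1.1 hx

/-- The field of `w` is an element of the model. -/
theorem fld_mem_bet (hI : ManyInacc.{u}) {A : Set (ℕ → ℕ)} (hA : UB.{u} A) {w x : ZFSet.{u}}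
    (hc : HC w) (hw : WOn w x) : fld w ∈ KL (BB A) w (bet (BB A) w) := by
  have h := level_mem (B := BB A) hw.wo (bet_spec hI hA hc hw).1.1.bot_lt ⟨_, hw.mem⟩
  have h0 : Wl (BB A) w (⊥ : Ordinal.{u}) = w := Wl_zero
  rw [h0] at h
  exact h

end Pool.Agent.H52.OM
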