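import Pool.Agent.H52.OM.StepB

/-!
# OM-7: the hierarchy of wellorders

PROOF.  `mem_Wl` (Defs).  `Wl_mono`: clear from `mem_Wl`.  Prove `wo_Wl` together with end-extension by strong induction on `γ`:
(1) `WO (Wl B w γ)`, (2) for all `δ ≤ γ`: `pair a b ∈ Wl γ`, `b ∈ fld (Wl δ)` imply `pair a b ∈ Wl δ`.
Induction step: `Wl γ = w ∪ ⋃ δ<γ, step (Wl δ)` is a union of the chain of wellorders `step (Wl δ)` (`δ < γ`; `WO` by `wo_step` and the induction hypothesis), each an end-extension of the earlier ones: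
for `δ < δ' < γ`, `step (Wl δ) ⊆ Wl δ' ⊆ step (Wl δ')`, and if `pair a b ∈ step (Wl δ')`, `b ∈ fld (step (Wl δ))` then (`step_end`, as `b ∈ fld (Wl δ')`) `pair a b ∈ Wl δ'`, i.e. in `w` or in some `step (Wl δ'')`
with `δ'' < δ'`; if `δ'' ≤ δ` it is in `step (Wl δ)` by monotonicity, otherwise use induction (on `δ'`) again.  (It may be convenient to prove first by induction on `δ'`: for all `δ ≤ δ'`, if `pair a b ∈ Wl δ'`
and `b ∈ fld (Wl δ)` then `pair a b ∈ Wl δ`, using only `WO (Wl δ)` for smaller indices: `pair a b ∈ step (Wl δ'')`, `δ'' < δ'`; if `δ'' < δ` it is in `Wl δ`; if `δ ≤ δ''`, then `b ∈ fld (Wl δ) ⊆ fld (Wl δ'')`, so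
`pair a b ∈ Wl δ''` by `step_end`, and the induction hypothesis for `δ''` applies.)
A union of a chain of wellorders, ordered by end-extension, is a wellorder: `min`: for nonempty `c ⊆ fld (Wl γ)` pick `x ∈ c`, `x ∈ fld (step (Wl δ))` or `x ∈ fld w`; the least element of `c ∩ fld (step (Wl δ))` is the least
element of `c` (an element `z ∈ c` outside is not before anything inside by end-extension, and any two elements are comparable because they lie in a common member of the chain).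
`Wl_succ`: `Wl (γ+1) = w ∪ ⋃ δ≤γ step (Wl δ) = step (Wl γ)`, because `step (Wl δ) ⊆ Wl γ ⊆ step (Wl γ)` for `δ < γ`.
`mem_fld_Wl`: `x ∈ fld (Wl γ) ↔ x ∈ fld w ∨ ∃ δ < γ, New (Wl δ) x` (least `δ`).
`Wl_limit`: by `mem_Wl` and `Wl_succ`.
-/

set_option autoImplicit false
set_option linter.unusedVariables false
set_option linter.unusedSectionVars false
set_option linter.unusedSimpArgs false
set_option linter.deprecated false

universe u v w

open scoped ZFSet

namespace Pool.Agent.H52.OM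

open Pool.Agent.H17.Omega Pool.Agent.H82.OC

section

variable {B : ZFSet.{u} → Prop} {w : ZFSet.{u}}

theorem Wl_zero : Wl B w 0 = w := by
  ext z
  rw [mem_Wl]
  constructor
  · rintro (h | ⟨δ, hδ, _⟩)
    · exact h
    · exact absurd hδ not_lt_bot
  · exact Or.inl

theorem Wl_mono {γ δ : Ordinal.{u}} (h : γ ≤ δ) : Wl B w γ ⊆ Wl B w δ := by
  intro z hz
  rw [mem_Wl] at hz ⊢
  rcases hz with hz | ⟨ε, hε, hz⟩
  · exact Or.inl hz
  · exact Or.inr ⟨ε, hε.trans_le h, hz⟩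

theorem fld_mono {W W' : ZFSet.{u}} (h : W ⊆ W') : fld W ⊆ fld W' := by
  intro x hx
  rw [mem_fld] at hx ⊢
  exact h hx

theorem hier_w_sub (γ : Ordinal.{u}) : w ⊆ Wl B w γ := fun z hz => by
  rw [mem_Wl]; exact Or.inl hz

theorem hier_step_sub {ε γ : Ordinal.{u}} (h : ε < γ) : step B (Wl B w ε) ⊆ Wl B w γ :=
  fun z hz => by rw [mem_Wl]; exact Or.inr ⟨ε, h, hz⟩

theorem hier_succ {ε : Ordinal.{u}} (hW : WO (Wl B w ε)) :
    Wl B w (Order.succ ε) = step B (Wl B w ε) := by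
  ext z
  constructor
  · intro hz
    rw [mem_Wl] at hz
    rcases hz with hz | ⟨ε', hε', hz⟩
    · exact subset_step hW (hier_w_sub ε hz)
    · rcases (Order.lt_succ_iff.1 hε').lt_or_eq with h | h
      · exact subset_step hW (hier_step_sub h hz)
      · rw [← h]; exact hz
  · intro hz
    exact hier_step_sub (Order.lt_succ ε) hz

/-- A wellorder which is an initial part of `W`. -/
structure HierGood (W U : ZFSet.{u}) : Prop where
  wo : WO U
  sub : U ⊆ W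
  ie : ∀ a b, ZFSet.pair a b ∈ W → b ∈ fld U → ZFSet.pair a b ∈ U

theorem hier_wo {W : ZFSet.{u}}
    (h : ∀ z₁ ∈ W, ∀ z₂ ∈ W, ∃ U, HierGood W U ∧ z₁ ∈ U ∧ z₂ ∈ U) : WO W := by
  refine ⟨?_, ?_, ?_, ?_⟩
  · intro z hz
    obtain ⟨U, hU, h1, _⟩ := h z hz z hz
    obtain ⟨a, ha, b, hb, e⟩ := hU.wo.rel z h1
    exact ⟨a, fld_mono hU.sub ha, b, fld_mono hU.sub hb, e⟩
  · intro a b h1 h2
    obtain ⟨U, hU, h3, h4⟩ := h _ h1 _ h2
    exact hU.wo.anti a b h3 h4
  · intro a b c h1 h2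
    obtain ⟨U, hU, h3, h4⟩ := h _ h1 _ h2
    exact hU.sub (hU.wo.trans a b c h3 h4)
  · intro c hc hne
    obtain ⟨x, hx⟩ : ∃ x, x ∈ c := by
      by_contra hcon
      push Not at hcon
      exact hne ((ZFSet.eq_empty c).2 hcon)
    have hxW : ZFSet.pair x x ∈ W := mem_fld.1 (hc hx)
    obtain ⟨U, hU, h1, _⟩ := h _ hxW _ hxW
    obtain ⟨m, hm, hmin⟩ := hU.wo.min (ZFSet.sep (fun z => z ∈ fld U) c)
      (fun z hz => (ZFSet.mem_sep.1 hz).2)
      (by
        intro he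
        have : x ∈ ZFSet.sep (fun z => z ∈ fld U) c := ZFSet.mem_sep.2 ⟨hx, mem_fld.2 h1⟩
        rw [he] at this
        exact ZFSet.notMem_empty _ this)
    rw [ZFSet.mem_sep] at hm
    refine ⟨m, hm.1, fun z hz => ?_⟩
    by_cases hzU : z ∈ fld U
    · exact hU.sub (hmin z (ZFSet.mem_sep.2 ⟨hz, hzU⟩))
    · obtain ⟨U', hU', h2, h3⟩ := h _ (mem_fld.1 (hc hz)) _ (mem_fld.1 (hc hm.1))
      rcases hU'.wo.total (mem_fld.2 h3) (mem_fld.2 h2) with h4 | h4
      · exact hU'.sub h4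
      · exact absurd ((hU.wo.mem_fld_of (hU.ie _ _ (hU'.sub h4) hm.2)).1) hzU

theorem hier_main (hw : WO w) (δ : Ordinal.{u}) : WO (Wl B w δ) ∧
    ∀ γ ≤ δ, ∀ a b, ZFSet.pair a b ∈ Wl B w δ → b ∈ fld (Wl B w γ) →
      ZFSet.pair a b ∈ Wl B w γ := by
  induction δ using WellFoundedLT.induction with
  | ind δ ih =>
    have hE : ∀ γ ≤ δ, ∀ a b, ZFSet.pair a b ∈ Wl B w δ → b ∈ fld (Wl B w γ) →
        ZFSet.pair a b ∈ Wl B w γ := by
      intro γ hγ a b hab hb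
      rw [mem_Wl] at hab
      rcases hab with hab | ⟨ε, hε, hab⟩
      · exact hier_w_sub γ hab
      · rcases lt_or_ge ε γ with h | h
        · exact hier_step_sub h hab
        · have h1 := step_end (ih ε hε).1 hab (fld_mono (Wl_mono h) hb)
          exact (ih ε hε).2 γ h a b h1 hb
    refine ⟨hier_wo ?_, hE⟩
    have hgw : HierGood (Wl B w δ) w := by
      refine ⟨hw, hier_w_sub δ, fun a b hab hb => ?_⟩
      have := hE 0 (zero_le) a b hab (by rw [Wl_zero]; exact hb)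
      rwa [Wl_zero] at this
    have hgs : ∀ ε < δ, HierGood (Wl B w δ) (step B (Wl B w ε)) := by
      intro ε hε
      refine ⟨wo_step (ih ε hε).1, hier_step_sub hε, fun a b hab hb => ?_⟩
      have := hE (Order.succ ε) (Order.succ_le_of_lt hε) a b hab
        (by rw [hier_succ (ih ε hε).1]; exact hb)
      rwa [hier_succ (ih ε hε).1] at this
    have hws : ∀ ε < δ, w ⊆ step B (Wl B w ε) := fun ε hε z hz =>
      subset_step (ih ε hε).1 (hier_w_sub ε hz)
    have hss : ∀ ε ε' : Ordinal.{u}, ε ≤ ε' → ε' < δ →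
        step B (Wl B w ε) ⊆ step B (Wl B w ε') := by
      intro ε ε' h h' z hz
      rcases h.lt_or_eq with h1 | h1
      · exact subset_step (ih ε' h').1 (hier_step_sub h1 hz)
      · rw [← h1]; exact hz
    intro z₁ hz₁ z₂ hz₂
    rw [mem_Wl] at hz₁ hz₂
    rcases hz₁ with hz₁ | ⟨ε, hε, hz₁⟩ <;> rcases hz₂ with hz₂ | ⟨ε', hε', hz₂⟩
    · exact ⟨w, hgw, hz₁, hz₂⟩
    · exact ⟨_, hgs ε' hε', hws ε' hε' hz₁, hz₂⟩
    · exact ⟨_, hgs ε hε, hz₁, hws ε hε hz₂⟩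
    · rcases le_total ε ε' with h | h
      · exact ⟨_, hgs ε' hε', hss ε ε' h hε' hz₁, hz₂⟩
      · exact ⟨_, hgs ε hε, hz₁, hss ε' ε h hε hz₂⟩

variable (hw : WO w)

include hw

theorem wo_Wl (γ : Ordinal.{u}) : WO (Wl B w γ) := (hier_main hw γ).1

theorem Wl_end {γ δ : Ordinal.{u}} (h : γ ≤ δ) {a b : ZFSet.{u}} (hab : ZFSet.pair a b ∈ Wl B w δ)
    (hb : b ∈ fld (Wl B w γ)) : ZFSet.pair a b ∈ Wl B w γ :=
  (hier_main hw δ).2 γ h a b hab hb

theorem Wl_succ (γ : Ordinal.{u}) : Wl B w (Order.succ γ) = step B (Wl B w γ) :=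
  hier_succ (wo_Wl hw γ)

theorem Wl_limit {γ : Ordinal.{u}} (hγ : Order.IsSuccLimit γ) {z : ZFSet.{u}} :
    z ∈ Wl B w γ ↔ ∃ δ < γ, z ∈ Wl B w δ := by
  constructor
  · intro hz
    rw [mem_Wl] at hz
    rcases hz with hz | ⟨ε, hε, hz⟩
    · exact ⟨0, hγ.bot_lt, hier_w_sub 0 hz⟩
    · exact ⟨Order.succ ε, hγ.succ_lt hε, by rw [Wl_succ hw]; exact hz⟩
  · rintro ⟨δ, hδ, hz⟩
    exact Wl_mono hδ.le hz

theorem fld_Wl_limit {γ : Ordinal.{u}} (hγ : Order.IsSuccLimit γ) {x : ZFSet.{u}} :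
    x ∈ fld (Wl B w γ) ↔ ∃ δ < γ, x ∈ fld (Wl B w δ) := by
  rw [mem_fld, Wl_limit hw hγ]
  simp only [mem_fld]

theorem mem_fld_Wl {γ : Ordinal.{u}} {x : ZFSet.{u}} :
    x ∈ fld (Wl B w γ) ↔ x ∈ fld w ∨ ∃ δ < γ, New B (Wl B w δ) x := by
  constructor
  · induction γ using WellFoundedLT.induction with
    | ind γ ih =>
      intro hx
      rw [mem_fld, mem_Wl] at hx
      rcases hx with hx | ⟨ε, hε, hx⟩
      · exact Or.inl (mem_fld.2 hx)
      · rcases (fld_step (wo_Wl hw ε)).1 (mem_fld.2 hx) with h | h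
        · rcases ih ε hε h with h' | ⟨δ, hδ, h'⟩
          · exact Or.inl h'
          · exact Or.inr ⟨δ, hδ.trans hε, h'⟩
        · exact Or.inr ⟨ε, hε, h⟩
  · rintro (hx | ⟨δ, hδ, hx⟩)
    · exact fld_mono (hier_w_sub γ) hx
    · exact fld_mono (hier_step_sub hδ) ((fld_step (wo_Wl hw δ)).2 (Or.inr hx))

theorem trans_Wl (ht : (fld w).IsTransitive) (γ : Ordinal.{u}) : (fld (Wl B w γ)).IsTransitive := by
  induction γ using WellFoundedLT.induction with
  | ind γ ih =>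
    intro x hx
    rw [mem_fld, mem_Wl] at hx
    rcases hx with hx | ⟨ε, hε, hx⟩
    · exact fun y hy => fld_mono (hier_w_sub γ) (ht x (mem_fld.2 hx) hy)
    · exact fun y hy => fld_mono (hier_step_sub hε)
        (trans_step (wo_Wl hw ε) (ih ε hε) x (mem_fld.2 hx) hy)

/-- The level `γ` is an element of the level `δ` for `γ < δ`. -/
theorem level_mem {γ δ : Ordinal.{u}} (h : γ < δ) (hne : ∃ x, x ∈ fld w) :
    fld (Wl B w γ) ∈ fld (Wl B w δ) := by
  obtain ⟨x, hx⟩ := hne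
  exact (mem_fld_Wl hw).2 (Or.inr ⟨γ, h, level_new (wo_Wl hw γ)
    ⟨x, fld_mono (hier_w_sub γ) hx⟩⟩)

/-- Definable subsets of the level `γ` are elements of the level `δ` for `γ < δ`. -/
theorem Hh_mem {γ δ : Ordinal.{u}} (h : γ < δ) {θ : Fml} (hθ : θ.Delta0) {p q : ZFSet.{u}}
    (hp : p ∈ fld (Wl B w γ)) (hq : q ∈ fld (Wl B w γ)) : Hh B (Wl B w γ) p q θ ∈ fld (Wl B w δ) := by
  by_cases hn : Hh B (Wl B w γ) p q θ ∈ fld (Wl B w γ)
  · exact fld_mono (Wl_mono h.le) hn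
  · exact (mem_fld_Wl hw).2 (Or.inr ⟨γ, h, hn, p, q, θ, hθ, hp, hq, rfl⟩)

end

end Pool.Agent.H52.OM
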