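import Pool.Agent.H52.OM.UDH
import Pool.Agent.H52.OM.Hier

/-!
# OM-31: the first model over `w` is given by a universally Baire predicate

Context calculus of `UDb.lean`, `UDc.lean`; `hB : UPred B`.

PROOF.
* `isHier_iff`: `→` by strong induction on `γ ≤ β`: let `pair γ.toZFSet W ∈ h`; `z ∈ W` iff `z ∈ w` or for some `δ < γ` (elements of `γ.toZFSet` are the `δ.toZFSet`, `ZFSet.mem_toZFSet_iff`), `W'` with `pair δ.toZFSet W' ∈ h`, i.e. (induction hypothesis) `W' = Wl B w δ`, `z ∈ step B W'`; this is `mem_Wl`.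
  `←`: `mem_Wl`, `wo_Wl` (`Hier.lean`).
* `hc_Wl`: strong induction on `γ` (`γ.card ≤ ℵ₀`): the elements of `Wl B w γ` are elements of `w` or of `step B (Wl B w δ)`, `δ < γ`: `hc_iff`, `hc_step` (`UDH.lean`), `wo_Wl`; `{δ | δ < γ}` is countable.
* `hc_toZFSet`: ordinals `β.toZFSet` with `β.card ≤ ℵ₀` are in `HC`.
* `exists_hier`: `h = {pair γ.toZFSet (Wl B w γ) : γ ≤ β}` (`ZFSet.range` over `Set.Iic β`), in `HC` by `hc_iff`, `HC.pair`, `hc_Wl`; `isHier_iff`.
* `ud_isHier`: quantifiers over `γ`: `γ ∈ b ∨ γ = b`: write `∀ γ ∈ HC, (γ ∈ b ∨ γ = b) → ..`; `W, W', U, z`: elements of components of elements of `h`, or `U = step B W'`: all in `HC` (`hc_step`); `UD.congr`, `UD.exH`, `UD.allH`, `ud_pairMem`, `ud_step`, `ud_wo`.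
* `ud_isOrd`: `(v i).IsOrdinal` iff it is transitive and all its elements are transitive (Mathlib: `ZFSet.IsOrdinal`): `ud_trans`, `UD.ball`.
* `ud_satIn`: induction on `φ`, in the context `Option ℕ` (`none` is the set): quantifiers are bounded: `∀ y ∈ El (v none)`, `UD.ball none` and `UD.subst` (as in `UD.sat`, `UDc.lean`).
* `ud_models`: `models_iff` (Defs): for all sequences `f : ℕ → V` with values in `v i` (so in `HC`): `UD.allS` and `ud_satIn` (substituted).
* `ud_zlZ`: clauses with `UD.ball`, `UD.bex`; `UD.allN` over `Fml` (`ZFC ψ →` is a constant proposition: `by_cases`), `El (fld W)`: introduce `L = fld W` with `UD.exH`, `ud_fldEq`, `hc_fld`.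
* `zlZ_iff`: `β.toZFSet ≠ ∅` and no largest element iff `Order.IsSuccLimit β`; `KL B w β = El (fld (Wl B w β))` by definition.
* `ud_best`: for `w, x, W` in `HC`: `WOn w x ∧ W = Wl B w (bet B w)` iff `WOn w x` and there are `b, h ∈ HC` with `b.IsOrdinal`, `IsHier B w b h`, `pair b W ∈ h`, `ZlZ b W` and for all `γ ∈ b`, `W' ∈ HC`: `pair γ W' ∈ h → ¬ ZlZ γ W'`.  `→`: `b = (bet B w).toZFSet`, `exists_hier`, `hbet`; `¬ Zl B w γ` for `γ < bet`
  (`notMem_of_lt_csInf'`, or `csInf_le'`).  `←`: `b = β.toZFSet`, `isHier_iff`, `zlZ_iff`; `β` is the least with `Zl`, so `β = bet B w`.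
-/

set_option autoImplicit false
set_option linter.unusedVariables false
set_option linter.unusedSectionVars false
set_option linter.unusedSimpArgs false
set_option linter.deprecated false

universe u v w

open scoped ZFSet

namespace Pool.Agent.H52.OM

open Pool.Agent.H17.Omega Pool.Agent.H82.OC

/-- `h` is the sequence of the levels over `w` up to the ordinal `b`. -/
structure IsHier (B : ZFSet.{u} → Prop) (w b h : ZFSet.{u}) : Prop where
  fn : ∀ γ, (γ ∈ b ∨ γ = b) → ∃ W, ZFSet.pair γ W ∈ h ∧ ∀ W', ZFSet.pair γ W' ∈ h → W' = W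
  eq : ∀ γ W, (γ ∈ b ∨ γ = b) → ZFSet.pair γ W ∈ h → ∀ z, z ∈ W ↔
    z ∈ w ∨ ∃ δ ∈ γ, ∃ W' U, ZFSet.pair δ W' ∈ h ∧ (WO W' ∧ U = step B W') ∧ z ∈ U

/-- The ordinal `b` is a limit and the level `W` satisfies ZFC. -/
structure ZlZ (b W : ZFSet.{u}) : Prop where
  ne : b ≠ ∅
  lim : ∀ γ ∈ b, ∃ δ ∈ b, γ ∈ δ
  zfc : ∀ ψ, ZFC ψ → Models (El (fld W)) ψ

theorem hier_mem_iff {β : Ordinal.{u}} {g : ZFSet.{u}} :
    (g ∈ β.toZFSet ∨ g = β.toZFSet) ↔ ∃ γ ≤ β, γ.toZFSet = g := by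
  rw [Ordinal.mem_toZFSet_iff]
  constructor
  · rintro (⟨γ, hγ, rfl⟩ | rfl)
    · exact ⟨γ, hγ.le, rfl⟩
    · exact ⟨β, le_refl _, rfl⟩
  · rintro ⟨γ, hγ, rfl⟩
    rcases hγ.lt_or_eq with h | h
    · exact Or.inl ⟨γ, h, rfl⟩
    · exact Or.inr (by rw [h])

theorem isHier_iff {B : ZFSet.{u} → Prop} {w h : ZFSet.{u}} (hw : WO w) (β : Ordinal.{u}) :
    IsHier B w β.toZFSet h ↔ ∀ γ ≤ β, ∀ W, ZFSet.pair γ.toZFSet W ∈ h ↔ W = Wl B w γ := by
  constructor
  · intro H
    have key : ∀ γ : Ordinal.{u}, γ ≤ β → ∀ W, ZFSet.pair γ.toZFSet W ∈ h → W = Wl B w γ := by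
      intro γ
      induction γ using WellFoundedLT.induction with
      | ind γ ih =>
        intro hγ W hWh
        have hγ' := hier_mem_iff.2 ⟨γ, hγ, rfl⟩
        ext z
        rw [H.eq _ W hγ' hWh z, mem_Wl]
        constructor
        · rintro (hz | ⟨δ, hδ, W', U, h1, ⟨-, rfl⟩, h3⟩)
          · exact Or.inl hz
          · obtain ⟨d, hd, rfl⟩ := Ordinal.mem_toZFSet_iff.1 hδ
            have := ih d hd (hd.le.trans hγ) W' h1
            rw [this] at h3
            exact Or.inr ⟨d, hd, h3⟩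
        · rintro (hz | ⟨d, hd, h3⟩)
          · exact Or.inl hz
          · obtain ⟨W', h1, -⟩ := H.fn d.toZFSet (hier_mem_iff.2 ⟨d, hd.le.trans hγ, rfl⟩)
            have h2 := ih d hd (hd.le.trans hγ) W' h1
            rw [h2] at h1
            exact Or.inr ⟨_, Ordinal.toZFSet_mem_toZFSet_iff.2 hd, _, _, h1, ⟨wo_Wl hw d, rfl⟩, h3⟩
    intro γ hγ W
    refine ⟨key γ hγ W, ?_⟩
    rintro rfl
    obtain ⟨W', h1, -⟩ := H.fn γ.toZFSet (hier_mem_iff.2 ⟨γ, hγ, rfl⟩)
    have h2 := key γ hγ W' h1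
    rwa [h2] at h1
  · intro H
    refine ⟨?_, ?_⟩
    · intro g hg
      obtain ⟨γ, hγ, rfl⟩ := hier_mem_iff.1 hg
      exact ⟨Wl B w γ, (H γ hγ _).2 rfl, fun W' hW' => (H γ hγ W').1 hW'⟩
    · intro g W hg hWh z
      obtain ⟨γ, hγ, rfl⟩ := hier_mem_iff.1 hg
      rw [(H γ hγ W).1 hWh, mem_Wl]
      constructor
      · rintro (hz | ⟨d, hd, h3⟩)
        · exact Or.inl hz
        · exact Or.inr ⟨_, Ordinal.toZFSet_mem_toZFSet_iff.2 hd, _, _,
            (H d (hd.le.trans hγ) _).2 rfl, ⟨wo_Wl hw d, rfl⟩, h3⟩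
      · rintro (hz | ⟨δ, hδ, W', U, h1, ⟨-, rfl⟩, h3⟩)
        · exact Or.inl hz
        · obtain ⟨d, hd, rfl⟩ := Ordinal.mem_toZFSet_iff.1 hδ
          rw [(H d (hd.le.trans hγ) W').1 h1] at h3
          exact Or.inr ⟨d, hd, h3⟩

theorem hier_countable_Iio {β : Ordinal.{u}} (hβ : β.card ≤ Cardinal.aleph0) : (Set.Iio β).Countable := by
  rw [← Cardinal.le_aleph0_iff_set_countable, Cardinal.mk_Iio_ordinal, Cardinal.lift_le_aleph0]
  exact hβ

theorem hier_countable_Iic {β : Ordinal.{u}} (hβ : β.card ≤ Cardinal.aleph0) : (Set.Iic β).Countable := by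
  have h1 : Set.Iic β ⊆ insert β (Set.Iio β) := by
    intro x hx
    rcases (Set.mem_Iic.1 hx).lt_or_eq with h | h
    · exact Set.mem_insert_of_mem _ h
    · rw [h]
      exact Set.mem_insert _ _
  exact ((hier_countable_Iio hβ).insert β).mono h1

theorem hc_toZFSet {β : Ordinal.{u}} (hβ : β.card ≤ Cardinal.aleph0) : HC β.toZFSet := by
  refine ⟨Ordinal.toZFSet '' Set.Iic β, (hier_countable_Iic hβ).image _, ?_, ⟨β, Set.mem_Iic.2 (le_refl _), rfl⟩⟩
  rintro a ⟨γ, hγ, rfl⟩ b hb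
  obtain ⟨d, hd, rfl⟩ := Ordinal.mem_toZFSet_iff.1 hb
  exact ⟨d, hd.le.trans hγ, rfl⟩

theorem hc_Wl {B : ZFSet.{u} → Prop} {w : ZFSet.{u}} (hw : WO w) (hc : HC w) {γ : Ordinal.{u}}
    (hγ : γ.card ≤ Cardinal.aleph0) : HC (Wl B w γ) := by
  induction γ using WellFoundedLT.induction with
  | ind γ ih =>
    have h1 : ∀ δ < γ, HC (step B (Wl B w δ)) := fun δ hδ =>
      hc_step (ih δ hδ ((Ordinal.card_le_card hδ.le).trans hγ)) (wo_Wl hw δ)
    rw [hc_iff]
    constructor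
    · have h2 : {y | y ∈ Wl B w γ} ⊆ {y | y ∈ w} ∪ ⋃ δ ∈ Set.Iio γ, {y | y ∈ step B (Wl B w δ)} := by
        intro y hy
        rcases (mem_Wl (B := B)).1 hy with h | ⟨δ, hδ, h⟩
        · exact Or.inl h
        · exact Or.inr (Set.mem_biUnion (Set.mem_Iio.2 hδ) h)
      refine Set.Countable.mono h2 (hc.countable.union ?_)
      exact (hier_countable_Iio hγ).biUnion fun δ hδ => (h1 δ hδ).countable
    · intro y hy
      rcases (mem_Wl (B := B)).1 hy with h | ⟨δ, hδ, h⟩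
      · exact HC.mem hc h
      · exact HC.mem (h1 δ hδ) h

theorem exists_hier {B : ZFSet.{u} → Prop} {w : ZFSet.{u}} (hw : WO w) (hc : HC w) {β : Ordinal.{u}}
    (hβ : β.card ≤ Cardinal.aleph0) : ∃ h, HC h ∧ IsHier B w β.toZFSet h := by
  refine ⟨ZFSet.range (fun γ : Set.Iic β => ZFSet.pair γ.1.toZFSet (Wl B w γ.1)), ?_, ?_⟩
  · rw [hc_iff]
    constructor
    · have : Countable (Set.Iic β) := (hier_countable_Iic hβ).to_subtype
      refine (Set.countable_range (fun γ : Set.Iic β => ZFSet.pair γ.1.toZFSet (Wl B w γ.1))).mono ?_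
      intro y hy
      exact ZFSet.mem_range.1 hy
    · intro y hy
      obtain ⟨γ, rfl⟩ := ZFSet.mem_range.1 hy
      have hγ : γ.1.card ≤ Cardinal.aleph0 := (Ordinal.card_le_card γ.2).trans hβ
      exact HC.pair (hc_toZFSet hγ) (hc_Wl hw hc hγ)
  · rw [isHier_iff hw]
    intro γ hγ W
    rw [ZFSet.mem_range]
    constructor
    · rintro ⟨δ, hδ⟩
      obtain ⟨h1, h2⟩ := ZFSet.pair_inj.1 hδ
      rw [← h2, Ordinal.toZFSet_injective h1]
    · rintro rfl
      exact ⟨⟨γ, hγ⟩, rfl⟩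

theorem zlZ_iff {B : ZFSet.{u} → Prop} {w : ZFSet.{u}} (β : Ordinal.{u}) :
    ZlZ β.toZFSet (Wl B w β) ↔ Zl B w β := by
  constructor
  · rintro ⟨h1, h2, h3⟩
    refine ⟨?_, h3⟩
    rw [Ordinal.isSuccLimit_iff]
    refine ⟨?_, Order.isSuccPrelimit_of_succ_lt fun a ha => ?_⟩
    · rintro rfl
      exact h1 Ordinal.toZFSet_zero
    · obtain ⟨δ, hδ, had⟩ := h2 _ (Ordinal.toZFSet_mem_toZFSet_iff.2 ha)
      obtain ⟨d, hd, rfl⟩ := Ordinal.mem_toZFSet_iff.1 hδ
      exact (Order.succ_le_of_lt (Ordinal.toZFSet_mem_toZFSet_iff.1 had)).trans_lt hd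
  · rintro ⟨h1, h3⟩
    refine ⟨?_, ?_, h3⟩
    · intro h0
      rw [← Ordinal.toZFSet_zero] at h0
      have := Ordinal.toZFSet_injective h0
      rw [this] at h1
      exact absurd h1.bot_lt not_lt_bot
    · intro g hg
      obtain ⟨a, ha, rfl⟩ := Ordinal.mem_toZFSet_iff.1 hg
      exact ⟨_, Ordinal.toZFSet_mem_toZFSet_iff.2 (h1.succ_lt ha),
        Ordinal.toZFSet_mem_toZFSet_iff.2 (Order.lt_succ a)⟩

section

variable (hW : ManyWoodin.{u}) {Z : Type} [TopologicalSpace Z] [Bs Z] {ι : Type}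

include hW

theorem ud_isOrd (i : ι) : UD (fun (_ : Z) (v : ι → ZFSet.{u}) => (v i).IsOrdinal) := by
  have h1 : UD (fun (_ : Z) (v : ι → ZFSet.{u}) => ∀ y ∈ v i, y.IsTransitive) :=
    UD.ball hW i (ud_trans hW none)
  refine UD.congr (fun z v hv => ?_) ((ud_trans hW i).and h1)
  constructor
  · rintro ⟨g1, g2⟩
    exact ⟨g1, fun hy hz hw => g2 _ hw _ hz hy⟩
  · intro h
    exact ⟨h.isTransitive, fun w hw z hz y hy => h.mem_trans' hy hz hw⟩

theorem ud_satIn (φ : Fml) : UD (ι := Option ℕ) (fun (_ : Z) (v : Option ℕ → ZFSet.{u}) =>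
    SatIn (El (v none)) φ (fun i => v (some i))) := by
  have key : ∀ (k : ℕ) (v : Option (Option ℕ) → ZFSet.{u}),
      (fun i => v ((fun o : Option ℕ => o.elim (some none) fun i => if i = k then none else some (some i))
        (some i))) = upd (fun i => v (some (some i))) k (v none) := by
    intro k v
    funext i
    unfold upd
    by_cases h : i = k
    · simp [h]
    · simp [h]
  induction φ with
  | mem i j => exact UD.mem hW (some i) (some j)
  | eq i j => exact UD.eq hW (some i) (some j)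
  | bot =>
    refine UD.congr (fun z v hv => ?_) (UD.not hW (UD.eq (Z := Z) hW (none : Option ℕ) none))
    exact iff_of_false (fun h => h rfl) id
  | imp φ ψ ih1 ih2 => exact UD.imp hW ih1 ih2
  | and φ ψ ih1 ih2 => exact ih1.and ih2
  | or φ ψ ih1 ih2 => exact ih1.or ih2
  | all k φ ih =>
    have h1 := UD.subst hW ih
      (fun o : Option ℕ => o.elim (some none) fun i => if i = k then none else some (some i))
    refine UD.ball hW (P := fun (_ : Z) (v : Option ℕ → ZFSet.{u}) y =>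
      SatIn (El (v none)) φ (upd (fun i => v (some i)) k y)) none ?_
    refine UD.congr (fun z v hv => ?_) h1
    rw [key k v]
    exact Iff.rfl
  | ex k φ ih =>
    have h1 := UD.subst hW ih
      (fun o : Option ℕ => o.elim (some none) fun i => if i = k then none else some (some i))
    refine UD.bex hW (P := fun (_ : Z) (v : Option ℕ → ZFSet.{u}) y =>
      SatIn (El (v none)) φ (upd (fun i => v (some i)) k y)) none ?_
    refine UD.congr (fun z v hv => ?_) h1
    rw [key k v]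
    exact Iff.rfl

theorem ud_models (φ : Fml) (i : ι) : UD (fun (_ : Z) (v : ι → ZFSet.{u}) => Models (El (v i)) φ) := by
  have h1 : UD (fun (_ : Z) (v : ι → ZFSet.{u}) => ∀ D : ℕ → ZFSet.{u}, (∀ n, HC (D n)) →
      ((∀ n, D n ∈ v i) → SatIn (El (v i)) φ D)) := by
    refine UD.allS hW (P := fun (_ : Z) (v : ι → ZFSet.{u}) D => (∀ n, D n ∈ v i) → SatIn (El (v i)) φ D) ?_
    refine UD.imp hW (UD.allN fun n => UD.mem hW (Sum.inr n) (Sum.inl i)) ?_
    exact UD.subst hW (ud_satIn hW φ) (fun o : Option ℕ => o.elim (Sum.inl i) Sum.inr)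
  refine UD.congr (fun z v hv => ?_) h1
  rw [models_iff]
  constructor
  · intro h f hf
    exact h f (fun n => HC.mem (hv i) (hf n)) hf
  · intro h f _ hf
    exact h f hf

theorem ud_zlZ (b W : ι) : UD (fun (_ : Z) (v : ι → ZFSet.{u}) => ZlZ (v b) (v W)) := by
  have hcf : Countable Fml := Fml.code_injective.countable
  have hnf : Nonempty Fml := ⟨.bot⟩
  have h1 : UD (fun (_ : Z) (v : ι → ZFSet.{u}) => ∃ y ∈ v b, y = y) :=
    UD.bex hW b (UD.eq hW none none)
  have h2 : UD (fun (_ : Z) (v : ι → ZFSet.{u}) => ∀ γ ∈ v b, ∃ δ ∈ v b, γ ∈ δ) :=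
    UD.ball hW b (UD.bex hW (some b) (UD.mem hW (some none) none))
  have h3 : UD (fun (_ : Z) (v : ι → ZFSet.{u}) => ∃ L, HC L ∧ (L = fld (v W) ∧
      ∀ ψ, (ZFC ψ → Models (El L) ψ))) := by
    refine UD.exH hW ((ud_fldEq hW none (some W)).and (UD.allN fun ψ => ?_))
    by_cases hψ : ZFC ψ
    · refine UD.congr (fun z v hv => ?_) (ud_models hW ψ none)
      exact ⟨fun h _ => h, fun h => h hψ⟩
    · refine UD.congr (fun z v hv => ?_) (UD.eq hW none none)
      exact iff_of_true rfl fun h => (hψ h).elim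
  refine UD.congr (fun z v hv => ?_) (h1.and (h2.and h3))
  constructor
  · rintro ⟨⟨y, hy, -⟩, g2, L, -, rfl, g3⟩
    refine ⟨?_, g2, g3⟩
    intro h
    rw [h] at hy
    exact ZFSet.notMem_empty _ hy
  · rintro ⟨g1, g2, g3⟩
    refine ⟨?_, g2, _, hc_fld (hv W), rfl, g3⟩
    by_contra hcon
    push Not at hcon
    exact g1 ((ZFSet.eq_empty _).2 fun y hy => hcon y hy rfl)

variable {B : ZFSet.{u} → Prop} (hB : UPred B)

include hB

theorem ud_isHier (w b h : ι) : UD (fun (_ : Z) (v : ι → ZFSet.{u}) => IsHier B (v w) (v b) (v h)) := by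
  have h1 : UD (fun (_ : Z) (v : ι → ZFSet.{u}) => ∀ γ, HC γ → ((γ ∈ v b ∨ γ = v b) →
      ∃ W, HC W ∧ (ZFSet.pair γ W ∈ v h ∧ ∀ W', HC W' → (ZFSet.pair γ W' ∈ v h → W' = W)))) :=
    UD.allH hW (UD.imp hW ((UD.mem hW none (some b)).or (UD.eq hW none (some b)))
      (UD.exH hW ((ud_pairMem hW (some none) none (some (some h))).and
        (UD.allH hW (UD.imp hW (ud_pairMem hW (some (some none)) none (some (some (some h))))
          (UD.eq hW none (some none)))))))
  have h2 : UD (fun (_ : Z) (v : ι → ZFSet.{u}) => ∀ γ, HC γ → ∀ W, HC W →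
      ((γ ∈ v b ∨ γ = v b) → (ZFSet.pair γ W ∈ v h → ∀ z, HC z → (z ∈ W ↔ (z ∈ v w ∨
        ∃ δ ∈ γ, ∃ W', HC W' ∧ ∃ U, HC U ∧ (ZFSet.pair δ W' ∈ v h ∧
          ((WO W' ∧ U = step B W') ∧ z ∈ U))))))) :=
    UD.allH hW (UD.allH hW (UD.imp hW
      ((UD.mem hW (some none) (some (some b))).or (UD.eq hW (some none) (some (some b))))
      (UD.imp hW (ud_pairMem hW (some none) none (some (some h)))
        (UD.allH hW (UD.iff hW (UD.mem hW none (some none))
          ((UD.mem hW none (some (some (some w)))).or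
            (UD.bex hW (some (some none)) (UD.exH hW (UD.exH hW
              ((ud_pairMem hW (some (some none)) (some none)
                (some (some (some (some (some (some h))))))).and
                ((ud_step hW hB none (some none)).and
                  (UD.mem hW (some (some (some none))) none))))))))))))
  refine UD.congr (fun z v hv => ?_) (h1.and h2)
  have hp : ∀ γ W, ZFSet.pair γ W ∈ v h → HC γ ∧ HC W := fun γ W hm =>
    HC.of_pair (HC.mem (hv h) hm)
  constructor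
  · rintro ⟨g1, g2⟩
    refine ⟨fun γ hγ => ?_, fun γ W hγ hm z => ?_⟩
    · have hγH : HC γ := by
        rcases hγ with h3 | h3
        · exact HC.mem (hv b) h3
        · rw [h3]; exact hv b
      obtain ⟨W, -, h4, h5⟩ := g1 γ hγH hγ
      exact ⟨W, h4, fun W' hm => h5 W' (hp γ W' hm).2 hm⟩
    · have hγW := hp γ W hm
      have h3 := g2 γ hγW.1 W hγW.2 hγ hm z
      constructor
      · intro hz
        rcases (h3 (HC.mem hγW.2 hz)).1 hz with h4 | ⟨δ, hδ, W', -, U, -, h5, h6, h7⟩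
        · exact Or.inl h4
        · exact Or.inr ⟨δ, hδ, W', U, h5, h6, h7⟩
      · rintro (h4 | ⟨δ, hδ, W', U, h5, h6, h7⟩)
        · exact (h3 (HC.mem (hv w) h4)).2 (Or.inl h4)
        · have hW' : HC W' := (hp δ W' h5).2
          have hU : HC U := by rw [h6.2]; exact hc_step hW' h6.1
          exact (h3 (HC.mem hU h7)).2 (Or.inr ⟨δ, hδ, W', hW', U, hU, h5, h6, h7⟩)
  · intro g
    refine ⟨fun γ _ hγ => ?_, fun γ _ W _ hγ hm z _ => ?_⟩
    · obtain ⟨W, h4, h5⟩ := g.fn γ hγ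
      exact ⟨W, (hp γ W h4).2, h4, fun W' _ hm => h5 W' hm⟩
    · rw [g.eq γ W hγ hm z]
      constructor
      · rintro (h4 | ⟨δ, hδ, W', U, h5, h6, h7⟩)
        · exact Or.inl h4
        · have hW' : HC W' := (hp δ W' h5).2
          have hU : HC U := by rw [h6.2]; exact hc_step hW' h6.1
          exact Or.inr ⟨δ, hδ, W', hW', U, hU, h5, h6, h7⟩
      · rintro (h4 | ⟨δ, hδ, W', -, U, -, h5, h6, h7⟩)
        · exact Or.inl h4
        · exact Or.inr ⟨δ, hδ, W', U, h5, h6, h7⟩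

theorem ud_best (hbet : ∀ w x : ZFSet.{u}, HC w → WOn w x → Zl B w (bet B w) ∧ (bet B w).card ≤ Cardinal.aleph0)
    (w x W : ι) : UD (fun (_ : Z) (v : ι → ZFSet.{u}) =>
      WOn (v w) (v x) ∧ v W = Wl B (v w) (bet B (v w))) := by
  have h1 : UD (fun (_ : Z) (v : ι → ZFSet.{u}) => ∃ b, HC b ∧ ∃ h, HC h ∧ (b.IsOrdinal ∧
      (IsHier B (v w) b h ∧ (ZFSet.pair b (v W) ∈ h ∧ (ZlZ b (v W) ∧
        ∀ γ ∈ b, ∀ W', HC W' → (ZFSet.pair γ W' ∈ h → ¬ ZlZ γ W')))))) :=
    UD.exH hW (UD.exH hW ((ud_isOrd hW (some none)).and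
      ((ud_isHier hW hB (some (some w)) (some none) none).and
        ((ud_pairMem hW (some none) (some (some W)) none).and
          ((ud_zlZ hW (some none) (some (some W))).and
            (UD.ball hW (some none) (UD.allH hW (UD.imp hW
              (ud_pairMem hW (some none) none (some (some none)))
              (UD.not hW (ud_zlZ hW (some none) none))))))))))
  refine UD.congr (fun z v hv => ?_) ((ud_wOn hW w x).and h1)
  refine and_congr_right fun hwx => ?_
  constructor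
  · rintro ⟨b, -, h, hh, hb, hhier, hbW, hzl, hmin⟩
    obtain ⟨β, rfl⟩ : ∃ β : Ordinal.{u}, β.toZFSet = b := ⟨b.rank, hb.toZFSet_rank_eq⟩
    have hiff := (isHier_iff hwx.wo β).1 hhier
    have hWβ : v W = Wl B (v w) β := (hiff β le_rfl (v W)).1 hbW
    rw [hWβ] at hzl
    have hZ : Zl B (v w) β := (zlZ_iff β).1 hzl
    have hbet' : bet B (v w) = β := by
      refine le_antisymm (csInf_le' hZ) (le_csInf ⟨β, hZ⟩ fun γ hγ => ?_)
      by_contra hlt
      rw [not_le] at hlt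
      have hm := (hiff γ hlt.le (Wl B (v w) γ)).2 rfl
      exact hmin _ (Ordinal.toZFSet_mem_toZFSet_iff.2 hlt) _ (HC.of_pair (HC.mem hh hm)).2 hm
        ((zlZ_iff γ).2 hγ)
    rw [hbet']
    exact hWβ
  · intro hWβ
    obtain ⟨hZ, hcard⟩ := hbet (v w) (v x) (hv w) hwx
    obtain ⟨h, hh, hhier⟩ := exists_hier (B := B) hwx.wo (hv w) hcard
    have hiff := (isHier_iff hwx.wo _).1 hhier
    refine ⟨_, hc_toZFSet hcard, h, hh, ZFSet.isOrdinal_toZFSet _, hhier,
      (hiff _ le_rfl _).2 hWβ, ?_, ?_⟩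
    · rw [hWβ]
      exact (zlZ_iff _).2 hZ
    · intro γ hγ W' _ hm hzl
      obtain ⟨δ, hδ, rfl⟩ := Ordinal.mem_toZFSet_iff.1 hγ
      rw [(hiff δ hδ.le W').1 hm] at hzl
      have hZδ : Zl B (v w) δ := (zlZ_iff δ).1 hzl
      have hle : bet B (v w) ≤ δ := csInf_le' hZδ
      exact absurd hle (not_le.2 hδ)

end

end Pool.Agent.H52.OM
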