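import Pool.Agent.H52.OM.Defs

/-!
# OM-6a: the order of the definitions (first part of: one step of the hierarchy is a wellorder again)

PROOF.  Throughout `WO W`.  `WO.total`: apply `min` to `{a, b}`.  `WO.mem_fld_of`: `pair a b ∈ W` gives `a, b ∈ fld W` (by `rel` and `ZFSet.pair_inj`).
`mem_step`: membership in the product: if `pair a b ∈ W` then `a, b ∈ fld W`; a new element is some `Hh B W p q θ ⊆ fld W`, so in the power set.
CODES.  `CLt` is a strict linear order on triples `(p, q, θ)` with `p, q ∈ fld W` (lexicographic; `Fml.code_injective` in `H17/Omega/Collapse.lean`) and every nonempty class of such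
triples has a least element: first minimise `p` (`WO.min` for the set `{p ∈ fld W | ...}`), then `q`, then `θ.code` (`Nat.find`/`WellFounded.min`).  Hence `exists_least`, and least codes are unique
(`least_unique`); if `a, b` have the same least code then `a = b` (both are `Hh ..`).
`fld_step`: `StepR a a` iff `a ∈ fld W` or `New a`.
`step_end`: `StepR a b` with `b ∈ fld W`: the last two alternatives have `New b`, so `b ∉ fld W`.
`wo_step`: `rel` by `mem_step`, `fld_step`; `anti`, `trans`: case distinctions (old/old: `W`; old before new; new/new: codes); `min`: if `c` meets `fld W` take the `W`-least element of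
`c ∩ fld W`, otherwise the element of `c` whose least code is the least.
`trans_step`: a new element is a subset of `fld W`.
`subset_step`, `level_new`: `fld W = {z ∈ fld W | z = z}` is definable (`θ = eq 0 0`, `p = q =` any element) and `fld W ∉ fld W` if `fld W` is transitive or not (foundation: `ZFSet.mem_irrefl`), so it is a
new element.
-/

set_option autoImplicit false
set_option linter.unusedVariables false
set_option linter.unusedSectionVars false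
set_option linter.unusedSimpArgs false
set_option linter.deprecated false

universe u v w

open scoped ZFSet

namespace Pool.Agent.H52.OM

open Pool.Agent.H17.Omega Pool.Agent.H82.OC

theorem WO.total {W a b : ZFSet.{u}} (hW : WO W) (ha : a ∈ fld W) (hb : b ∈ fld W) :
    ZFSet.pair a b ∈ W ∨ ZFSet.pair b a ∈ W := by
  have hc : ({a, b} : ZFSet.{u}) ⊆ fld W := by
    intro z hz
    rcases ZFSet.mem_pair.1 hz with rfl | rfl
    · exact ha
    · exact hb
  have hne : ({a, b} : ZFSet.{u}) ≠ ∅ := by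
    intro h
    have h1 : a ∈ ({a, b} : ZFSet.{u}) := ZFSet.mem_pair.2 (Or.inl rfl)
    rw [h] at h1
    exact ZFSet.notMem_empty _ h1
  obtain ⟨m, hm, hmin⟩ := hW.min _ hc hne
  rcases ZFSet.mem_pair.1 hm with rfl | rfl
  · exact Or.inl (hmin b (ZFSet.mem_pair.2 (Or.inr rfl)))
  · exact Or.inr (hmin a (ZFSet.mem_pair.2 (Or.inl rfl)))

theorem WO.mem_fld_of {W a b : ZFSet.{u}} (hW : WO W) (h : ZFSet.pair a b ∈ W) : a ∈ fld W ∧ b ∈ fld W := by
  obtain ⟨a', ha', b', hb', he⟩ := hW.rel _ h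
  obtain ⟨rfl, rfl⟩ := ZFSet.pair_inj.1 he
  exact ⟨ha', hb'⟩

section

variable {B : ZFSet.{u} → Prop} {W : ZFSet.{u}} (hW : WO W)

omit hW in
theorem sa_new_pow {z : ZFSet.{u}} (h : New B W z) : z ∈ fld W ∪ ZFSet.powerset (fld W) := by
  obtain ⟨_, p, q, θ, hc⟩ := h
  rw [ZFSet.mem_union, ZFSet.mem_powerset]
  right
  rw [hc.eq, Hh]
  intro x hx
  exact (ZFSet.mem_sep.1 hx).1

include hW

theorem sa_slt_trans {a b c : ZFSet.{u}} (h : ZFSet.pair a b ∈ W ∧ a ≠ b) (h' : ZFSet.pair b c ∈ W ∧ b ≠ c) :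
    ZFSet.pair a c ∈ W ∧ a ≠ c := by
  refine ⟨hW.trans _ _ _ h.1 h'.1, ?_⟩
  rintro rfl
  exact h.2 (hW.anti _ _ h.1 h'.1)

theorem mem_step {a b : ZFSet.{u}} : ZFSet.pair a b ∈ step B W ↔ StepR B W a b := by
  rw [step, ZFSet.mem_sep]
  constructor
  · rintro ⟨_, a', b', he, h⟩
    obtain ⟨rfl, rfl⟩ := ZFSet.pair_inj.1 he
    exact h
  · intro h
    refine ⟨?_, a, b, rfl, h⟩
    rw [ZFSet.pair_mem_prod]
    rcases h with h | ⟨h1, h2⟩ | ⟨h1, h2, _⟩
    · obtain ⟨ha, hb⟩ := hW.mem_fld_of h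
      exact ⟨ZFSet.mem_union.2 (Or.inl ha), ZFSet.mem_union.2 (Or.inl hb)⟩
    · exact ⟨ZFSet.mem_union.2 (Or.inl h1), sa_new_pow h2⟩
    · exact ⟨sa_new_pow h1, sa_new_pow h2⟩

theorem clt_trichotomy {p q p' q' : ZFSet.{u}} {θ θ' : Fml} (hp : p ∈ fld W) (hq : q ∈ fld W) (hp' : p' ∈ fld W)
    (hq' : q' ∈ fld W) : CLt W p q θ p' q' θ' ∨ (p = p' ∧ q = q' ∧ θ = θ') ∨ CLt W p' q' θ' p q θ := by
  by_cases h1 : p = p'
  · subst h1
    by_cases h2 : q = q'
    · subst h2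
      rcases lt_trichotomy θ.code θ'.code with h | h | h
      · exact Or.inl (Or.inr (Or.inr ⟨rfl, rfl, h⟩))
      · exact Or.inr (Or.inl ⟨rfl, rfl, Fml.code_injective h⟩)
      · exact Or.inr (Or.inr (Or.inr (Or.inr ⟨rfl, rfl, h⟩)))
    · rcases hW.total hq hq' with h | h
      · exact Or.inl (Or.inr (Or.inl ⟨rfl, h, h2⟩))
      · exact Or.inr (Or.inr (Or.inr (Or.inl ⟨rfl, h, fun h3 => h2 h3.symm⟩)))
  · rcases hW.total hp hp' with h | h
    · exact Or.inl (Or.inl ⟨h, h1⟩)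
    · exact Or.inr (Or.inr (Or.inl ⟨h, fun h3 => h1 h3.symm⟩))

theorem clt_trans {p q p' q' p'' q'' : ZFSet.{u}} {θ θ' θ'' : Fml} (h : CLt W p q θ p' q' θ')
    (h' : CLt W p' q' θ' p'' q'' θ'') : CLt W p q θ p'' q'' θ'' := by
  rcases h with h | ⟨rfl, h⟩ | ⟨rfl, rfl, h⟩
  · rcases h' with h' | ⟨rfl, h'⟩ | ⟨rfl, rfl, h'⟩
    · exact Or.inl (sa_slt_trans hW h h')
    · exact Or.inl h
    · exact Or.inl h
  · rcases h' with h' | ⟨rfl, h'⟩ | ⟨rfl, rfl, h'⟩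
    · exact Or.inl h'
    · exact Or.inr (Or.inl ⟨rfl, sa_slt_trans hW h h'⟩)
    · exact Or.inr (Or.inl ⟨rfl, h⟩)
  · rcases h' with h' | ⟨rfl, h'⟩ | ⟨rfl, rfl, h'⟩
    · exact Or.inl h'
    · exact Or.inr (Or.inl ⟨rfl, h'⟩)
    · exact Or.inr (Or.inr ⟨rfl, rfl, h.trans h'⟩)

theorem clt_irrefl {p q : ZFSet.{u}} {θ : Fml} : ¬ CLt W p q θ p q θ := by
  rintro (h | h | h)
  · exact h.2 rfl
  · exact h.2.2 rfl
  · exact lt_irrefl _ h.2.2

/-- The least element of a nonempty class of elements of the field. -/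
theorem sa_min {C : ZFSet.{u} → Prop} (hC : ∀ p, C p → p ∈ fld W) (hne : ∃ p, C p) :
    ∃ p, C p ∧ ∀ p', C p' → ZFSet.pair p p' ∈ W := by
  obtain ⟨p0, hp0⟩ := hne
  have h1 : ZFSet.sep C (fld W) ≠ ∅ := by
    intro h
    have h2 : p0 ∈ ZFSet.sep C (fld W) := ZFSet.mem_sep.2 ⟨hC _ hp0, hp0⟩
    rw [h] at h2
    exact ZFSet.notMem_empty _ h2
  obtain ⟨m, hm, hmin⟩ := hW.min (ZFSet.sep C (fld W)) (fun z hz => (ZFSet.mem_sep.1 hz).1) h1
  exact ⟨m, (ZFSet.mem_sep.1 hm).2, fun p' hp' => hmin p' (ZFSet.mem_sep.2 ⟨hC _ hp', hp'⟩)⟩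

/-- Every nonempty class of triples has a least element. -/
theorem clt_min {C : ZFSet.{u} → ZFSet.{u} → Fml → Prop} (hC : ∀ p q θ, C p q θ → p ∈ fld W ∧ q ∈ fld W)
    (hne : ∃ p q θ, C p q θ) : ∃ p q θ, C p q θ ∧ ∀ p' q' θ', C p' q' θ' → ¬ CLt W p' q' θ' p q θ := by
  classical
  obtain ⟨p, ⟨q0, θ0, h0⟩, hp⟩ := sa_min hW (C := fun p => ∃ q θ, C p q θ)
    (fun p ⟨q, θ, h⟩ => (hC p q θ h).1) hne
  obtain ⟨q, ⟨θ1, h1⟩, hq⟩ := sa_min hW (C := fun q => ∃ θ, C p q θ)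
    (fun q ⟨θ, h⟩ => (hC p q θ h).2) ⟨q0, θ0, h0⟩
  have hex : ∃ n, ∃ θ, C p q θ ∧ θ.code = n := ⟨_, θ1, h1, rfl⟩
  obtain ⟨θ, hθ, hn⟩ := Nat.find_spec hex
  refine ⟨p, q, θ, hθ, ?_⟩
  intro p' q' θ' h' hlt
  rcases hlt with h | ⟨rfl, h⟩ | ⟨rfl, rfl, h⟩
  · exact h.2 (hW.anti _ _ h.1 (hp p' ⟨q', θ', h'⟩))
  · exact h.2 (hW.anti _ _ h.1 (hq q' ⟨θ', h'⟩))
  · rw [hn] at h
    exact Nat.find_min hex h ⟨θ', h', rfl⟩

theorem exists_least {z : ZFSet.{u}} (h : ∃ p q θ, IsCode B W z p q θ) : ∃ p q θ, Least B W z p q θ := by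
  obtain ⟨p, q, θ, h1, h2⟩ := clt_min hW (C := fun p q θ => IsCode B W z p q θ)
    (fun p q θ h => ⟨h.hp, h.hq⟩) h
  exact ⟨p, q, θ, h1, h2⟩

theorem least_unique {z p q p' q' : ZFSet.{u}} {θ θ' : Fml} (h : Least B W z p q θ) (h' : Least B W z p' q' θ') :
    p = p' ∧ q = q' ∧ θ = θ' := by
  rcases clt_trichotomy hW (θ := θ) (θ' := θ') h.1.hp h.1.hq h'.1.hp h'.1.hq with h1 | h1 | h1
  · exact absurd h1 (h'.2 _ _ _ h.1)
  · exact h1
  · exact absurd h1 (h.2 _ _ _ h'.1)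

end

end Pool.Agent.H52.OM
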