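import Pool.Agent.H52.OM.Defs

/-!
# OM-2: the Banach-Mazur form implies the forcing relation

This generalises `forcesAG_of_meagre` (`Pool/Agent/H17/Omega/KL.lean`, a model for the Lean code) to arbitrary preorders.

PROOF.  Let `D` be the dense sets.  (G) For countably many further sets that are dense below some `r1 ≤ r` there is a descending sequence `s`, `s 0 ≤ r1`,
that meets all of them and all `D n` (choose recursively); then `∃ x ∈ A, ∀ i j, (∃ k, bb i j (s k)) ↔ x i = j`.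
Let `r' ≤ r`; we take `s := r'` in the definition of `ForcesAG`.
`K := ULift ((ℕ → ℕ)) ⊕ Q`, and `T` = all `l : List (ℕ × K)` such that either `∃ x ∈ A, ∀ i < l.length, l[i] = (x i, inl x)` or
`∀ i < l.length, ∃ q, l[i].2 = inr q ∧ q ≤ r' ∧ q ∈ D i ∧ bb i (l[i].1) q` and `q_{i+1} ≤ q_i` for consecutive entries.
* `T` is a tree; `proj T = A`: `⊇` by the first kind; `⊆`: a branch `(x, b)` with `b 0 = inl x'` has `x = x' ∈ A`; otherwise all `b i = inr (q i)`,
  `q` is descending below `r'`, meets all `D i`, so `x ∈ A` (`x i` is the digit because `bb i (x i) (q i)`).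
* `ForcesReal τ r'`: first clause `H2`; totality: for `i`, `r1 ≤ r'` take a sequence as in (G) below `r1`, `x i = j` gives `bb i j (s k)` for some `k`, and
  `ForcesVal τ i j (s k)` by `H1` and `hmono`; single-valued: if `ForcesVal τ i j r1` and `ForcesVal τ i j' r1`, the sets `{q | bb i j q}`, `{q | bb i j' q}` are dense below
  `r1` (`H1`), take a sequence as in (G) that meets them: `x i = j`, `x i = j'`.
* the branch: fix a wellorder `<_w` of `Q` (`WellOrderingRel`).  For `σ : Fin (n+1) → Q` (or a list) let `Seq n σ r1` say: for every `i ≤ n`: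
  `σ i ∈ Cand i (σ (i-1))`, `r1 ≤ σ i`, and every `q <_w σ i` with `q ∈ Cand i (σ (i-1))` is incompatible with `r1` (no common lower bound), where
  `Cand i q⁻ = {q | q ≤ q⁻ ∧ q ∈ D i ∧ ∃ j, bb i j q}` (`q⁻ = r'` for `i = 0`).  `Seq` is preserved by passing to smaller `r1`, `σ` is determined by `r1` (if
  `σ i ≠ σ' i` for the first such `i`, the `<_w`-smaller one is compatible with `r1`, contradiction), and every `Seq n σ r1` extends: the set of `q ∈ Cand (n+1) (σ n)`
  compatible with `r1` is nonempty (density of `D (n+1)` and totality of `bb`, `hmono`), take the `<_w`-least one and a common lower bound.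
  `B i k q := ∃ n ≥ i, ∃ σ, Seq n σ q ∧ k = inr (σ i)` (or with `n = i`; initial segments of a `Seq` are `Seq`).
-/

set_option autoImplicit false
set_option linter.unusedVariables false
set_option linter.unusedSectionVars false
set_option linter.unusedSimpArgs false
set_option linter.deprecated false

universe u v w

open scoped ZFSet

namespace Pool.Agent.H52.OM

open Pool.Agent.H17.Omega Pool.Agent.H82.OC

/-- A descending sequence through countably many dense sets. -/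
private theorem btag_seq {Q : Type u} [Preorder Q] (F : ℕ → Set Q) (r1 : Q)
    (hF : ∀ n, ∀ q ≤ r1, ∃ q' ≤ q, q' ∈ F n) :
    ∃ s : ℕ → Q, Antitone s ∧ s 0 ≤ r1 ∧ ∀ n, s n ∈ F n := by
  choose f hf1 hf2 using hF
  let s' : ℕ → {q : Q // q ≤ r1} := fun n => Nat.rec ⟨f 0 r1 le_rfl, hf1 _ _ _⟩
    (fun n q => ⟨f (n + 1) q.1 q.2, (hf1 _ _ _).trans q.2⟩) n
  refine ⟨fun n => (s' n).1, antitone_nat_of_succ_le fun n => ?_, (s' 0).2, fun n => ?_⟩
  · exact hf1 (n + 1) (s' n).1 (s' n).2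
  · cases n with
    | zero => exact hf2 0 r1 le_rfl
    | succ n => exact hf2 (n + 1) (s' n).1 (s' n).2

/-- previous entry -/
private def pv {Q : Type u} (r' : Q) (q : ℕ → Q) : ℕ → Q
  | 0 => r'
  | i + 1 => q i

/-- candidates -/
private def Cand {Q : Type u} [Preorder Q] (D : ℕ → Set Q) (bb : ℕ → ℕ → Q → Prop) (i : ℕ)
    (q0 : Q) : Set Q := {q | q ≤ q0 ∧ q ∈ D i ∧ ∃ j, bb i j q}

/-- compatibility -/
private def Cmp {Q : Type u} [Preorder Q] (q r : Q) : Prop := ∃ t, t ≤ q ∧ t ≤ r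

private def Sq {Q : Type u} [Preorder Q] (D : ℕ → Set Q) (bb : ℕ → ℕ → Q → Prop) (r' : Q)
    (n : ℕ) (σ : ℕ → Q) (r1 : Q) : Prop :=
  ∀ i < n, σ i ∈ Cand D bb i (pv r' σ i) ∧ r1 ≤ σ i ∧
    ∀ q, WellOrderingRel q (σ i) → q ∈ Cand D bb i (pv r' σ i) → ¬ Cmp q r1

section

variable {Q : Type u} [Preorder Q] {D : ℕ → Set Q} {bb : ℕ → ℕ → Q → Prop} {r' : Q}

private theorem Sq.mono {n : ℕ} {σ : ℕ → Q} {r1 r2 : Q} (h : Sq D bb r' n σ r1) (hr : r2 ≤ r1) :
    Sq D bb r' n σ r2 := by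
  intro i hi
  obtain ⟨h1, h2, h3⟩ := h i hi
  refine ⟨h1, hr.trans h2, fun q hq hq' hc => h3 q hq hq' ?_⟩
  obtain ⟨t, ht1, ht2⟩ := hc
  exact ⟨t, ht1, ht2.trans hr⟩

private theorem pv_congr {σ σ' : ℕ → Q} {i : ℕ} (h : ∀ k < i, σ k = σ' k) :
    pv r' σ i = pv r' σ' i := by
  cases i with
  | zero => rfl
  | succ i => exact h i (Nat.lt_succ_self i)

private theorem Sq.unique {n m : ℕ} {σ σ' : ℕ → Q} {r1 : Q} (h : Sq D bb r' n σ r1)
    (h' : Sq D bb r' m σ' r1) (i : ℕ) (hi : i < n) (hi' : i < m) : σ i = σ' i := by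
  induction i using Nat.strong_induction_on with
  | _ i ih =>
    have hpv : pv r' σ i = pv r' σ' i :=
      pv_congr fun k hk => ih k hk (hk.trans hi) (hk.trans hi')
    obtain ⟨h1, h2, h3⟩ := h i hi
    obtain ⟨h1', h2', h3'⟩ := h' i hi'
    rcases trichotomous_of WellOrderingRel (σ i) (σ' i) with hlt | heq | hlt
    · exact (h3' _ hlt (hpv ▸ h1) ⟨r1, h2, le_rfl⟩).elim
    · exact heq
    · exact (h3 _ hlt (hpv ▸ h1') ⟨r1, h2', le_rfl⟩).elim

private theorem Sq.le_pv {n : ℕ} {σ : ℕ → Q} {r1 : Q} (h : Sq D bb r' n σ r1) (hr : r1 ≤ r') :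
    r1 ≤ pv r' σ n := by
  cases n with
  | zero => exact hr
  | succ n => exact (h n (Nat.lt_succ_self n)).2.1

private theorem Sq.extend (hD : ∀ n, ∀ q ≤ r', ∃ q' ≤ q, q' ∈ Cand D bb n q)
    {n : ℕ} {σ : ℕ → Q} {r1 : Q} (h : Sq D bb r' n σ r1) (hr : r1 ≤ r') :
    ∃ σ' : ℕ → Q, ∃ r2 ≤ r1, Sq D bb r' (n + 1) σ' r2 := by
  have hle := h.le_pv hr
  obtain ⟨q0, hq0, hq0'⟩ := hD n r1 hr
  let S : Set Q := {q | q ∈ Cand D bb n (pv r' σ n) ∧ Cmp q r1}
  have hS : S.Nonempty := ⟨q0, ⟨hq0.trans hle, hq0'.2⟩, q0, le_rfl, hq0⟩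
  obtain ⟨m, hm, hmin⟩ := (IsWellFounded.wf (r := (WellOrderingRel : Q → Q → Prop))).has_min S hS
  obtain ⟨hm1, r2, hr2, hr2'⟩ := hm
  refine ⟨Function.update σ n m, r2, hr2', fun i hi => ?_⟩
  have hpv : pv r' (Function.update σ n m) i = pv r' σ i :=
    pv_congr fun k hk => Function.update_of_ne (by omega) _ _
  rw [hpv]
  rcases Nat.lt_succ_iff_lt_or_eq.1 hi with hi' | rfl
  · rw [Function.update_of_ne hi'.ne]
    exact (h.mono hr2') i hi'
  · rw [Function.update_self]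
    refine ⟨hm1, hr2, fun q hq hq' hc => ?_⟩
    obtain ⟨t, ht1, ht2⟩ := hc
    exact hmin q ⟨hq', t, ht1, ht2.trans hr2'⟩ hq

private theorem Sq.exists (hD : ∀ n, ∀ q ≤ r', ∃ q' ≤ q, q' ∈ Cand D bb n q) (n : ℕ) {r1 : Q}
    (hr : r1 ≤ r') : ∃ σ : ℕ → Q, ∃ r2 ≤ r1, Sq D bb r' n σ r2 := by
  induction n with
  | zero => exact ⟨fun _ => r1, r1, le_rfl, fun i hi => (Nat.not_lt_zero i hi).elim⟩
  | succ n ih =>
    obtain ⟨σ, r2, hr2, h⟩ := ih
    obtain ⟨σ', r3, hr3, h'⟩ := h.extend hD (hr2.trans hr)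
    exact ⟨σ', r3, hr3.trans hr2, h'⟩

end

theorem forcesAG_of_btF {Q : Type u} [Preorder Q] {A : Set (ℕ → ℕ)} {bb : ℕ → ℕ → Q → Prop}
    (hmono : ∀ i j q q', q' ≤ q → bb i j q → bb i j q') {τ : Name Q}
    (H1 : ∀ i j r, ForcesVal τ i j r ↔ ∀ r1 ≤ r, ∃ r2 ≤ r1, bb i j r2)
    (H2 : ∀ (X : Name Q) (r : Q), X.fmem τ r → ∃ s ≤ r, ∃ i j,
      X.feq (Name.check (ZFSet.pair (natZ i) (natZ j))) s) {r : Q} (h : BtF A bb r) : ForcesAG A τ r := by
  obtain ⟨D, hDd, hDA⟩ := h
  intro r' hr'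
  refine ⟨r', le_rfl, ?_⟩
  have hval : ∀ i j q, bb i j q → ForcesVal τ i j q := fun i j q hq =>
    (H1 i j q).2 fun r1 hr1 => ⟨r1, le_rfl, hmono i j q r1 hr1 hq⟩
  -- totality
  have htot : ∀ i, ∀ r1 ≤ r', ∃ s ≤ r1, ∃ j, bb i j s := by
    intro i r1 hr1
    obtain ⟨s, hs1, hs2, hs3⟩ := btag_seq D r1 fun n q hq => hDd n q (hq.trans (hr1.trans hr'))
    obtain ⟨x, -, hx⟩ := hDA s hs1 (hs2.trans (hr1.trans hr')) fun n => ⟨n, hs3 n⟩
    obtain ⟨k, hk⟩ := (hx i (x i)).2 rfl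
    exact ⟨s k, (hs1 (Nat.zero_le k)).trans hs2, x i, hk⟩
  have hD : ∀ n, ∀ q ≤ r', ∃ q' ≤ q, q' ∈ Cand D bb n q := by
    intro n q hq
    obtain ⟨s, hs, j, hj⟩ := htot n q hq
    obtain ⟨t, ht, ht'⟩ := hDd n s (hs.trans (hq.trans hr'))
    exact ⟨t, ht.trans hs, ht.trans hs, ht', j, hmono n j s t ht hj⟩
  let K : Type u := ULift.{u} (ℕ → ℕ) ⊕ Q
  let kl : (ℕ → ℕ) → K := fun x => Sum.inl (ULift.up x)
  let kr : Q → K := fun q => Sum.inr q
  have hkl : ∀ x x', kl x = kl x' → x = x' := fun x x' h =>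
    ULift.up_injective (Sum.inl_injective h)
  have hkr : ∀ q q', kr q = kr q' → q = q' := fun q q' h => Sum.inr_injective h
  have hlr : ∀ x q, kl x ≠ kr q := fun x q h => by
    simp [kl, kr] at h
  let T : Set (List (ℕ × K)) := {l | (∃ x ∈ A, ∀ i (hi : i < l.length), l[i] = (x i, kl x)) ∨
    ∃ q : ℕ → Q, ∀ i (hi : i < l.length), l[i].2 = kr (q i) ∧ q i ≤ pv r' q i ∧ q i ∈ D i ∧
      bb i l[i].1 (q i)}
  refine ⟨K, T, ?_, ?_, ⟨?_, ?_, ?_⟩,
    fun i k q => ∃ (n : ℕ) (σ : ℕ → Q), i < n ∧ Sq D bb r' n σ q ∧ k = kr (σ i), ?_, ?_, ?_⟩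
  · -- tree
    rintro s t (⟨x, hx, h1⟩ | ⟨q, h1⟩)
    · refine Or.inl ⟨x, hx, fun i hi => ?_⟩
      rw [← h1 i (by simp; omega), List.getElem_append_left hi]
    · refine Or.inr ⟨q, fun i hi => ?_⟩
      have h2 := h1 i (by simp; omega)
      rwa [List.getElem_append_left hi] at h2
  · -- projection
    ext x
    constructor
    · rintro ⟨b, hb⟩
      by_cases hcase : ∃ x', b 0 = kl x'
      · obtain ⟨x', hx'⟩ := hcase
        have h2 : ∀ n, ∃ x'' ∈ A, (∀ i < n, x i = x'' i) ∧ b 0 = kl x'' := by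
          intro n
          rcases hb (n + 1) with ⟨x'', hx'', h1⟩ | ⟨q, h1⟩
          · refine ⟨x'', hx'', fun i hi => ?_, ?_⟩
            · have := h1 i (by simp; omega)
              simp only [List.getElem_ofFn, Prod.mk.injEq] at this
              exact this.1
            · have := h1 0 (by simp)
              simp only [List.getElem_ofFn, Prod.mk.injEq] at this
              exact this.2
          · have := (h1 0 (by simp)).1
            simp only [List.getElem_ofFn] at this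
            exact (hlr _ _ (hx'.symm.trans this)).elim
        have h3 : x = x' := by
          funext i
          obtain ⟨x'', _, h4, h5⟩ := h2 (i + 1)
          rw [h4 i (Nat.lt_succ_self i), hkl _ _ (hx'.symm.trans h5)]
        obtain ⟨x'', h4, _, h5⟩ := h2 0
        rw [h3, hkl _ _ (hx'.symm.trans h5)]; exact h4
      · have h2 : ∀ n, ∃ q : ℕ → Q, ∀ i < n + 1, b i = kr (q i) ∧ q i ≤ pv r' q i ∧ q i ∈ D i ∧
            bb i (x i) (q i) := by
          intro n
          rcases hb (n + 1) with ⟨x'', hx'', h1⟩ | ⟨q, h1⟩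
          · have := h1 0 (by simp)
            simp only [List.getElem_ofFn, Prod.mk.injEq] at this
            exact (hcase ⟨_, this.2⟩).elim
          · refine ⟨q, fun i hi => ?_⟩
            have := h1 i (by simp; omega)
            simp only [List.getElem_ofFn] at this
            exact this
        have h3 : ∀ i, ∃ q, b i = kr q := fun i => by
          obtain ⟨q, hq⟩ := h2 i
          exact ⟨q i, (hq i (Nat.lt_succ_self i)).1⟩
        choose q hq using h3
        have h4 : ∀ i, q i ≤ pv r' q i ∧ q i ∈ D i ∧ bb i (x i) (q i) := by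
          intro i
          obtain ⟨q', hq'⟩ := h2 i
          have h5 : ∀ k < i + 1, q' k = q k := fun k hk =>
            hkr _ _ ((hq' k hk).1.symm.trans (hq k))
          have h6 := (hq' i (Nat.lt_succ_self i)).2
          rw [h5 i (Nat.lt_succ_self i), pv_congr (σ' := q) fun k hk => h5 k (by omega)] at h6
          exact h6
        have hanti : Antitone q := antitone_nat_of_succ_le fun n => (h4 (n + 1)).1
        obtain ⟨x', hx'A, hx'⟩ := hDA q hanti ((h4 0).1.trans hr') fun n => ⟨n, (h4 n).2.1⟩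
        have hxx : x = x' := by
          funext i
          exact ((hx' i (x i)).1 ⟨i, (h4 i).2.2⟩).symm
        rw [hxx]
        exact hx'A
    · intro hx
      refine ⟨fun _ => kl x, fun n => Or.inl ⟨x, hx, fun i hi => ?_⟩⟩
      simp
  · -- elements are pairs
    exact fun X r1 hr1 hX => H2 X r1 hX
  · -- total
    intro i r1 hr1
    obtain ⟨s, hs, j, hj⟩ := htot i r1 hr1
    exact ⟨s, hs, j, hval i j s hj⟩
  · -- functional
    intro i j j' r1 hr1 h1 h2
    rw [H1] at h1 h2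
    let F : ℕ → Set Q := fun n => if n = 0 then {q | bb i j q} else
      if n = 1 then {q | bb i j' q} else D (n - 2)
    obtain ⟨s, hs1, hs2, hs3⟩ := btag_seq F r1 (by
      intro n q hq
      by_cases hn0 : n = 0
      · simp only [F, if_pos hn0]
        exact h1 q hq
      · by_cases hn1 : n = 1
        · simp only [F, if_neg hn0, if_pos hn1]
          exact h2 q hq
        · simp only [F, if_neg hn0, if_neg hn1]
          exact hDd _ q (hq.trans (hr1.trans hr')))
    obtain ⟨x, -, hx⟩ := hDA s hs1 (hs2.trans (hr1.trans hr')) fun n => ⟨n + 2, by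
      have := hs3 (n + 2)
      simpa [F] using this⟩
    have e1 : x i = j := (hx i j).1 ⟨0, by simpa [F] using hs3 0⟩
    have e2 : x i = j' := (hx i j').1 ⟨1, by simpa [F] using hs3 1⟩
    exact e1.symm.trans e2
  · -- monotone
    rintro i k q q' hq' ⟨n, σ, h1, h2, h3⟩
    exact ⟨n, σ, h1, h2.mono hq', h3⟩
  · -- unique
    rintro i k k' q ⟨n, σ, h1, h2, rfl⟩ ⟨n', σ', h1', h2', rfl⟩
    rw [h2.unique h2' i h1 h1']
  · -- dense
    intro n r1 hr1
    obtain ⟨σ, s, hs, hσ⟩ := Sq.exists hD n hr1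
    have hj : ∀ i : Fin n, ∃ j, bb i j (σ i) := fun i => (hσ i i.2).1.2.2
    choose j hj using hj
    refine ⟨s, hs, j, fun i => kr (σ i), Or.inr ⟨σ, fun i hi => ?_⟩, fun i => ⟨?_, ?_⟩⟩
    · have hi' : i < n := by simpa using hi
      simp only [List.getElem_ofFn]
      have h5 := (hσ i hi').1
      exact ⟨trivial, h5.1, h5.2.1, hj ⟨i, hi'⟩⟩
    · exact hval i (j i) s (hmono i (j i) (σ i) s (hσ i i.2).2.1 (hj i))
    · exact ⟨n, σ, i.2, hσ, rfl⟩

end Pool.Agent.H52.OM
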