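import Pool.Agent.H52.OM.Defs

/-!
# OM-3: a real is not forced to be in `A_G` and in `(Aᶜ)_G`

PROOF.  By definition of `ForcesAG` there are `s ≤ r` and a tree `T` with `proj T = A`, `ForcesProj T τ s`, and (`h'` below `s`, `ForcesAG` is inherited by smaller
conditions) `s' ≤ s` and a tree `T'` with `proj T' = Aᶜ`, `ForcesProj T' τ s'`.  Let `B, B'` be the names of the branches.  Choose a descending sequence
`t : ℕ → Q`, `t 0 ≤ s'`, such that for every `n` there is `k` with the property of the last clause of `ForcesProj` for `n` at `t k`, for `T, B` and for `T', B'`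
(these are dense sets below `s'`).  The digits: `ForcesVal τ i (x i) (t k)` is unique in `x i` along the sequence (`ForcesReal`, third clause, monotonicity of `ForcesVal`), the
values of `B i` and `B' i` are unique along the sequence.  So we get `x`, `b`, `b'` with `List.ofFn (x i, b i) ∈ T`, `List.ofFn (x i, b' i) ∈ T'` for all `n`, i.e.
`x ∈ proj T ∩ proj T' = A ∩ Aᶜ`, a contradiction.  (`meagre_of_forcesAG` in `Pool/Agent/H17/Omega/KL.lean` is a model for the Lean code.)
-/

set_option autoImplicit false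
set_option linter.unusedVariables false
set_option linter.unusedSectionVars false
set_option linter.unusedSimpArgs false
set_option linter.deprecated false

universe u v w

open scoped ZFSet

namespace Pool.Agent.H52.OM

open Pool.Agent.H17.Omega Pool.Agent.H82.OC

/-- The last clause of `ForcesProj`, at one condition. -/
def ExclGood {Q : Type u} [Preorder Q] {K : Type u} (T : Set (List (ℕ × K))) (τ : Name Q) (B : ℕ → K → Q → Prop)
    (n : ℕ) (s : Q) : Prop :=
  ∃ (x : Fin n → ℕ) (b : Fin n → K),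
    List.ofFn (fun i => (x i, b i)) ∈ T ∧ ∀ i : Fin n, ForcesVal τ i (x i) s ∧ B i (b i) s

theorem excl_branch {Q : Type u} [Preorder Q] {K : Type u} {T : Set (List (ℕ × K))} {τ : Name Q} {B : ℕ → K → Q → Prop}
    (hBmono : ∀ i k, ∀ r, ∀ s ≤ r, B i k r → B i k s)
    (hBuniq : ∀ i k k' r, B i k r → B i k' r → k = k')
    (t : ℕ → Q) (ht : Antitone t) (hg : ∀ n, ExclGood T τ B n (t n))
    (X : ℕ → ℕ) (hX : ∀ i j n, ForcesVal τ i j (t n) → j = X i) : X ∈ proj T := by
  choose x b hxb hval using hg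
  refine ⟨fun i => b (i + 1) ⟨i, Nat.lt_succ_self i⟩, fun n => ?_⟩
  have h1 : (fun i : Fin n => (X i, b ((i : ℕ) + 1) ⟨i, Nat.lt_succ_self _⟩)) = fun i : Fin n => (x n i, b n i) := by
    funext i
    have hi := hval n i
    have hi' := hval ((i : ℕ) + 1) ⟨i, Nat.lt_succ_self _⟩
    have e1 : x n i = X i := hX _ _ _ hi.1
    have hle : t n ≤ t ((i : ℕ) + 1) := ht (by have := i.2; omega)
    have e2 : b ((i : ℕ) + 1) ⟨i, Nat.lt_succ_self _⟩ = b n i :=
      hBuniq i _ _ (t n) (hBmono _ _ _ _ hle hi'.2) hi.2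
    rw [e1, e2]
  rw [h1]
  exact hxb n

theorem not_forcesAG_both {Q : Type u} [Preorder Q] {A : Set (ℕ → ℕ)} {τ : Name Q} {r : Q}
    (h : ForcesAG A τ r) (h' : ForcesAG Aᶜ τ r) : False := by
  obtain ⟨s, hs, K, T, hT, hTA, hR, B, hBmono, hBuniq, hBd⟩ := h r le_rfl
  obtain ⟨s', hs', K', T', hT', hTA', hR', B', hBmono', hBuniq', hBd'⟩ := h' s hs
  have hgmono : ∀ n, ∀ p q : Q, q ≤ p → ExclGood T τ B n p → ExclGood T τ B n q := by
    rintro n p q hqp ⟨x, b, h1, h2⟩
    exact ⟨x, b, h1, fun i => ⟨Name.fmem_mono hqp (h2 i).1, hBmono _ _ _ _ hqp (h2 i).2⟩⟩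
  have hgmono' : ∀ n, ∀ p q : Q, q ≤ p → ExclGood T' τ B' n p → ExclGood T' τ B' n q := by
    rintro n p q hqp ⟨x, b, h1, h2⟩
    exact ⟨x, b, h1, fun i => ⟨Name.fmem_mono hqp (h2 i).1, hBmono' _ _ _ _ hqp (h2 i).2⟩⟩
  have hex : ∀ n : ℕ, ∀ p : {p : Q // p ≤ s'}, ∃ q : {q : Q // q ≤ s'}, q.1 ≤ p.1 ∧ ExclGood T τ B n q.1 ∧
      ExclGood T' τ B' n q.1 := by
    rintro n ⟨p, hp⟩
    obtain ⟨q, hq, hg⟩ := hBd n p (hp.trans hs')
    obtain ⟨q', hq', hg'⟩ := hBd' n q (hq.trans hp)
    exact ⟨⟨q', hq'.trans (hq.trans hp)⟩, hq'.trans hq, hgmono n _ _ hq' hg, hg'⟩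
  choose f hf1 hf2 hf3 using hex
  let t : ℕ → {p : Q // p ≤ s'} := fun n => Nat.rec (f 0 ⟨s', le_rfl⟩) (fun n p => f (n + 1) p) n
  have ht0 : ∀ n, (t (n + 1)).1 ≤ (t n).1 := fun n => hf1 (n + 1) (t n)
  have ht : Antitone (fun n => (t n).1) := antitone_nat_of_succ_le ht0
  have hg : ∀ n, ExclGood T τ B n (t n).1 := by
    intro n
    cases n with
    | zero => exact hf2 0 _
    | succ n => exact hf2 (n + 1) _
  have hg' : ∀ n, ExclGood T' τ B' n (t n).1 := by
    intro n
    cases n with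
    | zero => exact hf3 0 _
    | succ n => exact hf3 (n + 1) _
  have hX : ∃ X : ℕ → ℕ, ∀ i j n, ForcesVal τ i j (t n).1 → j = X i := by
    have : ∀ i, ∃ j0, ∀ j n, ForcesVal τ i j (t n).1 → j = j0 := by
      intro i
      by_cases hj : ∃ j0 n0, ForcesVal τ i j0 (t n0).1
      · obtain ⟨j0, n0, h0⟩ := hj
        refine ⟨j0, fun j n hn => ?_⟩
        have ha : ForcesVal τ i j (t (max n n0)).1 := Name.fmem_mono (ht (le_max_left n n0)) hn
        have hb : ForcesVal τ i j0 (t (max n n0)).1 := Name.fmem_mono (ht (le_max_right n n0)) h0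
        exact hR'.2.2 i j j0 _ (t (max n n0)).2 ha hb
      · push Not at hj
        exact ⟨0, fun j n hn => absurd hn (hj j n)⟩
    choose X hX using this
    exact ⟨X, hX⟩
  obtain ⟨X, hX⟩ := hX
  have hXA : X ∈ A := by
    rw [← hTA]
    exact excl_branch hBmono hBuniq (fun n => (t n).1) ht hg X hX
  have hXA' : X ∈ Aᶜ := by
    rw [← hTA']
    exact excl_branch hBmono' hBuniq' (fun n => (t n).1) ht hg' X hX
  exact hXA' hXA

end Pool.Agent.H52.OM
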