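import Pool.Agent.H52.OM.Dich
import Pool.Agent.H52.OM.BtAG
import Pool.Agent.H52.OM.Excl

/-!
# OM-4: the Banach-Mazur form is equivalent to the forcing relation

PROOF.  `←` is `forcesAG_of_btF`.  `→`: let `ForcesAG A τ r`.  For every `r1 ≤ r` there is `r2 ≤ r1` with `BtF A bb r2`: apply `dichotomy` at `r1`; `BtF Aᶜ bb r2` is impossible by
`forcesAG_of_btF` (for `Aᶜ`) and `not_forcesAG_both` (`ForcesAG` is inherited by smaller conditions); the third alternative (`∀ q ≤ r2, ∀ j, ¬ bb i j q`) is impossible because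
`ForcesAG A τ r2` gives `s ≤ r2` with `ForcesReal τ s`, so `ForcesVal τ i j s'` for some `s' ≤ s`, and `H1` gives `r3 ≤ s'` with `bb i j r3`; the fourth alternative is impossible
by the third clause of `ForcesReal` at some `s ≤ r2` (`bb i j r2 → ForcesVal τ i j s` by `H1`, `hmono`).
GLUEING (`btF_of_dense`): let `𝒜` be a maximal set of pairwise incompatible conditions `a ≤ r` with `BtF A bb a` (Zorn); every `q ≤ r` is compatible with some `a ∈ 𝒜` (otherwise
some `q' ≤ q` with `BtF A bb q'` could be added).  Choose the dense sets `Da a n` for `a ∈ 𝒜` and put `D n = {q | ∃ a ∈ 𝒜, q ≤ a ∧ q ∈ Da a n}`: dense below `r`.  If `s` is descending below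
`r` and meets all `D n`, say `s (k n) ∈ Da (a n) n`, `s (k n) ≤ a n`, then the conditions `a n` are pairwise compatible (`s (max ..)`), so all `a n` are one and the same `a`.  Let `m0` be the
least `m` with `s m ≤ a`; then `k n ≥ m0` for all `n`, so `s' m = s (m + m0)` is descending below `a` and meets all `Da a n`.  The evaluation of `s'` is that of `s` by `hmono`.
-/

set_option autoImplicit false
set_option linter.unusedVariables false
set_option linter.unusedSectionVars false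
set_option linter.unusedSimpArgs false
set_option linter.deprecated false

universe u v w

open scoped ZFSet

namespace Pool.Agent.H52.OM

open Pool.Agent.H17.Omega Pool.Agent.H82.OC

theorem btF_of_dense {Q : Type u} [Preorder Q] {A : Set (ℕ → ℕ)} {bb : ℕ → ℕ → Q → Prop}
    (hmono : ∀ i j q q', q' ≤ q → bb i j q → bb i j q') {r : Q}
    (h : ∀ r1 ≤ r, ∃ r2 ≤ r1, BtF A bb r2) : BtF A bb r := by
  classical
  obtain ⟨𝒜, hmax⟩ := zorn_subset
    {𝒜 : Set Q | (∀ a ∈ 𝒜, a ≤ r ∧ BtF A bb a) ∧ ∀ a ∈ 𝒜, ∀ b ∈ 𝒜, ∀ c, c ≤ a → c ≤ b → a = b} (by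
      intro c hc hch
      refine ⟨⋃₀ c, ⟨?_, ?_⟩, fun s hs => Set.subset_sUnion_of_mem hs⟩
      · rintro a ⟨s, hs, ha⟩
        exact (hc hs).1 a ha
      · rintro a ⟨s, hs, ha⟩ b ⟨t, ht, hb⟩
        rcases hch.total hs ht with hst | hts
        · exact (hc ht).2 a (hst ha) b hb
        · exact (hc hs).2 a ha b (hts hb))
  have hm1 := hmax.1.1
  have hm2 := hmax.1.2
  have hcomp : ∀ q ≤ r, ∃ a ∈ 𝒜, ∃ c ≤ q, c ≤ a := by
    intro q hq
    by_contra hne
    push Not at hne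
    obtain ⟨q', hq', hB⟩ := h q hq
    have hins : insert q' 𝒜 ∈ {𝒜 : Set Q | (∀ a ∈ 𝒜, a ≤ r ∧ BtF A bb a) ∧
        ∀ a ∈ 𝒜, ∀ b ∈ 𝒜, ∀ c, c ≤ a → c ≤ b → a = b} := by
      refine ⟨?_, ?_⟩
      · intro a ha
        rcases Set.mem_insert_iff.1 ha with rfl | ha
        · exact ⟨hq'.trans hq, hB⟩
        · exact hm1 a ha
      · intro a ha b hb c hca hcb
        rcases Set.mem_insert_iff.1 ha with ha1 | ha1
        · rcases Set.mem_insert_iff.1 hb with hb1 | hb1
          · rw [ha1, hb1]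
          · rw [ha1] at hca
            exact (hne b hb1 c (hca.trans hq') hcb).elim
        · rcases Set.mem_insert_iff.1 hb with hb1 | hb1
          · rw [hb1] at hcb
            exact (hne a ha1 c (hcb.trans hq') hca).elim
          · exact hm2 a ha1 b hb1 c hca hcb
    have hsub := hmax.2 hins (Set.subset_insert q' 𝒜)
    have hmem : q' ∈ 𝒜 := hsub (Set.mem_insert q' 𝒜)
    exact hne q' hmem q' hq' le_rfl
  have hD : ∀ a ∈ 𝒜, ∃ D : ℕ → Set Q, (∀ n, ∀ q ≤ a, ∃ q' ≤ q, q' ∈ D n) ∧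
      ∀ s : ℕ → Q, Antitone s → s 0 ≤ a → (∀ n, ∃ k, s k ∈ D n) →
        ∃ x ∈ A, ∀ i j, (∃ k, bb i j (s k)) ↔ x i = j := fun a ha => (hm1 a ha).2
  choose! Da hDa1 hDa2 using hD
  refine ⟨fun n => {q | ∃ a ∈ 𝒜, q ≤ a ∧ q ∈ Da a n}, ?_, ?_⟩
  · intro n q hq
    obtain ⟨a, ha, c, hcq, hca⟩ := hcomp q hq
    obtain ⟨q', hq', hq2⟩ := hDa1 a ha n c hca
    exact ⟨q', hq'.trans hcq, a, ha, hq'.trans hca, hq2⟩
  · intro s hs hs0 hmeet
    choose k a ha hka hkD using hmeet
    have hall : ∀ n, a n = a 0 := by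
      intro n
      refine hm2 (a n) (ha n) (a 0) (ha 0) (s (max (k n) (k 0))) ?_ ?_
      · exact (hs (le_max_left _ _)).trans (hka n)
      · exact (hs (le_max_right _ _)).trans (hka 0)
    have hex : ∃ m, s m ≤ a 0 := ⟨k 0, hka 0⟩
    have hm0 : s (Nat.find hex) ≤ a 0 := Nat.find_spec hex
    have hk : ∀ n, Nat.find hex ≤ k n := by
      intro n
      apply Nat.find_min' hex
      have := hka n
      rwa [hall n] at this
    obtain ⟨x, hxA, hx⟩ := hDa2 (a 0) (ha 0) (fun m => s (m + Nat.find hex))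
      (fun m m' hmm => hs (by omega)) (by simpa using hm0) (by
        intro n
        refine ⟨k n - Nat.find hex, ?_⟩
        have h1 : k n - Nat.find hex + Nat.find hex = k n := Nat.sub_add_cancel (hk n)
        have h2 := hkD n
        rw [hall n] at h2
        simpa [h1] using h2)
    refine ⟨x, hxA, fun i j => ?_⟩
    rw [← hx i j]
    constructor
    · rintro ⟨l, hl⟩
      exact ⟨l, hmono i j _ _ (hs (by omega)) hl⟩
    · rintro ⟨l, hl⟩
      exact ⟨_, hl⟩

theorem agiff_restrict {Q : Type u} [Preorder Q] {A : Set (ℕ → ℕ)} {τ : Name Q} {r r' : Q}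
    (h : ForcesAG A τ r) (hr : r' ≤ r) : ForcesAG A τ r' := fun q hq => h q (hq.trans hr)

theorem forcesAG_iff_btF {Q : Type u} [Preorder Q] {A : Set (ℕ → ℕ)} (hA : UB.{u} A) {bb : ℕ → ℕ → Q → Prop}
    (hmono : ∀ i j q q', q' ≤ q → bb i j q → bb i j q') {τ : Name Q}
    (H1 : ∀ i j r, ForcesVal τ i j r ↔ ∀ r1 ≤ r, ∃ r2 ≤ r1, bb i j r2)
    (H2 : ∀ (X : Name Q) (r : Q), X.fmem τ r → ∃ s ≤ r, ∃ i j,
      X.feq (Name.check (ZFSet.pair (natZ i) (natZ j))) s) {r : Q} : ForcesAG A τ r ↔ BtF A bb r := by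
  constructor
  · intro hF
    refine btF_of_dense hmono fun r1 hr1 => ?_
    obtain ⟨r2, hr2, h4⟩ := dichotomy hA hmono r1
    have hF2 : ForcesAG A τ r2 := agiff_restrict hF (hr2.trans hr1)
    obtain ⟨s, hs, K, T, -, -, hP⟩ := hF2 r2 le_rfl
    have hR := hP.1
    rcases h4 with h4 | h4 | ⟨i, h4⟩ | ⟨i, j, j', hne, h4, h4'⟩
    · exact ⟨r2, hr2, h4⟩
    · exact (not_forcesAG_both hF2 (forcesAG_of_btF hmono H1 H2 h4)).elim
    · obtain ⟨s', hs', j, hv⟩ := hR.2.1 i s le_rfl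
      obtain ⟨r3, hr3, hb⟩ := (H1 i j s').1 hv s' le_rfl
      exact (h4 r3 ((hr3.trans hs').trans hs) j hb).elim
    · refine (hne (hR.2.2 i j j' s le_rfl ?_ ?_)).elim
      · exact (H1 i j s).2 fun r1' hr1' => ⟨r1', le_rfl, hmono i j r2 r1' (hr1'.trans hs) h4⟩
      · exact (H1 i j' s).2 fun r1' hr1' => ⟨r1', le_rfl, hmono i j' r2 r1' (hr1'.trans hs) h4'⟩
  · exact fun hB => forcesAG_of_btF hmono H1 H2 hB

end Pool.Agent.H52.OM
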