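import Pool.Agent.H52.OM.ACM
import Pool.Agent.H17.Omega.TOne

/-!
# OM-25: a code-invariant universally Baire Skolem function gives Omega-provability

PROOF.  `A := {a | F (fun n => a (n + 2)) (Nat.pair (a 0) (a 1)) ≠ 0}` is universally Baire: it is the union over `k ≠ 0` of the preimages of the graph of `F` under the continuous maps `a ↦ (Nat.pair (a 0) (a 1)) :: k :: (fun n => a (n + 2))`
(`UBS.preimage`, `UBS.ex`, `UBS_iff_UB` of `H82/OC/UBcl.lean`).
Let `M` be an `A`-closed ctm, `x ∈ M`; by `models_of_witness` (`H17/Omega/CtmN.lean`) it suffices to find `y ∈ M` with `Tr ψ x y`.  Take `w ∈ M` with `WOn w x` (`exists_WOn`), `pair x w ∈ M`, `C : Col M` and `n0` with `C.ι n0 = pair x w` (`exists_col`, `H17/Omega/Col.lean`).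
`AClosed` for `C.posetIn` and `p = Qs.mk [n0]` gives `q ≤ p`, `σ`.  Apply `mem_of_nonmeagre` (`H17/Omega/TOne.lean`) with `ε g m n := Ec (F (C.cgv g)) m n` (`hε`: `C.av m n g ∈ A` iff `F (C.cgv g) (Nat.pair m n) ≠ 0` by `av_zero`, `av_one`, `av_add`) and `y = Y x w`:
for `g ∈ cyl q.toL` surjective onto `ℕ` we have `g 0 = n0` (`q ≤ p`), so `IsVal (Ec (C.cgv g)) (pair x w) 0` (`isVal_cgv`), so `IsVal (Ec (F (C.cgv g))) (Y x w) 0` by hypothesis.  The set of non-surjective `g` is meagre (see the proofs of `exists_witness_of_countable`, `meagre_not_good` in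
`TOne.lean`), `cyl q.toL` is not (`not_meagre_cyl`).  `HC (Y x w)`: `hc_of_isVal`.
-/

set_option autoImplicit false
set_option linter.unusedVariables false
set_option linter.unusedSectionVars false
set_option linter.unusedSimpArgs false
set_option linter.deprecated false

universe u v w

open scoped ZFSet

namespace Pool.Agent.H52.OM

open Pool.Agent.H17.Omega Pool.Agent.H82.OC

theorem ub_skolemSet {F : (ℕ → ℕ) → ℕ → ℕ}
    (hF : UB.{u} {a : ℕ → ℕ | F (fun n => a (n + 2)) (a 0) = a 1}) :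
    UB.{u} {a : ℕ → ℕ | F (fun n => a (n + 2)) (Nat.pair (a 0) (a 1)) ≠ 0} := by
  have h1 : ∀ k : ℕ, UBS.{u}
      {a : ℕ → ℕ | F (fun n => a (n + 2)) (Nat.pair (a 0) (a 1)) = k + 1} := by
    intro k
    let f : (ℕ → ℕ) → (ℕ → ℕ) := fun a n =>
      if n = 0 then Nat.pair (a 0) (a 1) else if n = 1 then k + 1 else a n
    have hf : Continuous f := by
      refine continuous_pi fun n => ?_
      by_cases h0 : n = 0
      · subst h0
        have h2 : Continuous (fun a : ℕ → ℕ => (a 0, a 1)) :=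
          (continuous_apply 0).prodMk (continuous_apply 1)
        have h3 : Continuous (fun p : ℕ × ℕ => Nat.pair p.1 p.2) := continuous_of_discreteTopology
        have h4 := h3.comp h2
        exact h4
      · by_cases h1 : n = 1
        · subst h1
          simpa [f] using (continuous_const : Continuous fun _ : ℕ → ℕ => k + 1)
        · simpa [f, h0, h1] using (continuous_apply n : Continuous fun a : ℕ → ℕ => a n)
    have h2 := UBS.preimage (UBS_iff_UB.2 hF) hf
    have e : {a : ℕ → ℕ | F (fun n => a (n + 2)) (Nat.pair (a 0) (a 1)) = k + 1} =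
        f ⁻¹' {a : ℕ → ℕ | F (fun n => a (n + 2)) (a 0) = a 1} := by
      ext a
      have e0 : f a 0 = Nat.pair (a 0) (a 1) := by simp [f]
      have e1 : f a 1 = k + 1 := by simp [f]
      have e2 : (fun n => f a (n + 2)) = fun n => a (n + 2) := by
        funext n; simp [f]
      rw [Set.mem_preimage, Set.mem_setOf_eq, Set.mem_setOf_eq, e0, e1, e2]
    rw [e]
    exact h2
  have h2 := UBS.ex h1
  have e : {a : ℕ → ℕ | F (fun n => a (n + 2)) (Nat.pair (a 0) (a 1)) ≠ 0} =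
      {a : ℕ → ℕ | ∃ k, F (fun n => a (n + 2)) (Nat.pair (a 0) (a 1)) = k + 1} := by
    ext a
    rw [Set.mem_setOf_eq, Set.mem_setOf_eq]
    constructor
    · intro h; exact Nat.exists_eq_succ_of_ne_zero h
    · rintro ⟨k, hk⟩; rw [hk]; exact Nat.succ_ne_zero k
  rw [e]
  exact UBS_iff_UB.1 h2

theorem meagre_not_surj : IsMeagre {g : ℕ → ℕ | ¬ ∀ n, ∃ k, g k = n} := by
  have h1 : ∀ n : ℕ, IsMeagre {g : ℕ → ℕ | ¬ ∃ k, g k = n} := by
    intro n
    have hd : DenseBelow [] {l | n ∈ l} := fun l _ => ⟨l ++ [n], ⟨_, rfl⟩, by simp⟩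
    refine IsMeagre.mono ?_ (meagre_of_dense hd)
    intro g hg
    refine ⟨by rw [mem_cyl]; rfl, fun ⟨k, hk⟩ => hg ?_⟩
    have hk' : n ∈ sg g k := hk
    simp only [sg, List.mem_map, List.mem_range] at hk'
    obtain ⟨i, _, hi⟩ := hk'
    exact ⟨i, hi⟩
  refine IsMeagre.mono ?_ (isMeagre_iUnion h1)
  intro g hg
  rw [Set.mem_setOf_eq, not_forall] at hg
  exact Set.mem_iUnion.2 hg

theorem provOmega_of_skolem {ψ : Fml} (hψ : ψ.Delta0) (hfree : ∀ n, ψ.Free n → n = 0 ∨ n = 1)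
    {F : (ℕ → ℕ) → ℕ → ℕ} (hF : UB.{u} {a : ℕ → ℕ | F (fun n => a (n + 2)) (a 0) = a 1})
    {Y : ZFSet.{u} → ZFSet.{u} → ZFSet.{u}}
    (hY : ∀ x w c, WOn w x → WellFounded (Ec c) → IsVal (Ec c) (ZFSet.pair x w) 0 →
      IsVal (Ec (F c)) (Y x w) 0 ∧ Tr ψ x (Y x w)) : ProvOmega.{u} (piTwo ψ) := by
  refine ⟨_, ub_skolemSet hF, fun M hM hcl => ?_⟩
  apply hM.models_of_witness hψ hfree
  intro x hx
  obtain ⟨w, hw, hwx⟩ := exists_WOn hM hx
  have hp : ZFSet.pair x w ∈ M := hM.pair_mem hx hw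
  obtain ⟨C, n0, hx0⟩ := Col.exists_col hM hp
  obtain ⟨q, hq, σ, hσ, hAA⟩ := hcl Qs C.c C.posetIn (Qs.mk [n0])
  have hg0 : ∀ g ∈ cyl q.toL, C.ι (g 0) = ZFSet.pair x w := by
    intro g hg
    have h1 : g ∈ cyl [n0] := Qs.cyl_mono hq hg
    rw [mem_cyl] at h1
    have h2 : g 0 = n0 := by simpa [sg] using h1
    rw [h2, hx0]
  have hval : ∀ g ∈ cyl q.toL, (∀ n, ∃ k, g k = n) →
      IsVal (Ec (F (C.cgv g))) (Y x w) 0 ∧ Tr ψ x (Y x w) := by
    intro g hg hs
    refine hY x w _ hwx (C.wf_cgv _) ?_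
    have h1 := C.isVal_cgv hs 0
    rwa [hg0 g hg] at h1
  have hn : ¬ IsMeagre (cyl q.toL ∩ {g | IsVal (Ec (F (C.cgv g))) (Y x w) 0}) := by
    intro hc
    apply not_meagre_cyl q.toL
    refine IsMeagre.mono ?_ (hc.union meagre_not_surj)
    intro g hg
    by_cases hs : ∀ n, ∃ k, g k = n
    · exact Or.inl ⟨hg, (hval g hg hs).1⟩
    · exact Or.inr hs
  obtain ⟨g, hg, hs⟩ : ∃ g ∈ cyl q.toL, ∀ n, ∃ k, g k = n := by
    by_contra hc
    apply not_meagre_cyl q.toL
    refine IsMeagre.mono ?_ meagre_not_surj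
    intro g hg hs
    exact hc ⟨g, hg, hs⟩
  have hgv := hval g hg hs
  refine ⟨Y x w, ?_, hgv.2⟩
  refine mem_of_nonmeagre C (ub_skolemSet hF) hσ hAA (ε := fun g m n => Ec (F (C.cgv g)) m n) ?_
    (hc_of_isVal hgv.1) hn
  intro g m n
  exact Iff.rfl

end Pool.Agent.H52.OM
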