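import Pool.Agent.H52.OM.Defs

/-!
# OM-11: the hierarchy below an inaccessible cardinal: ranks and cardinalities

`κ` strongly inaccessible, `w.rank < κ.ord`.

PROOF.
* `card_lt`: by induction on `α < κ.ord`: for `u` with `rank u ≤ α`, `#u < κ`.  All subsets of `{x | rank x < α}`; let `V_ α` (`ZFSet.vonNeumann`) ; `#(V_ α) < κ` by induction on `α`: `V_ α` is the union over `β < α` of the
  power sets of `V_ β`, so `#(V_ α) ≤ Σ β<α 2^#(V_ β) < κ` by regularity and strong limit.  (`u ⊆ V_ (rank u)`.)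
* `exists_bound`: a function from a set with fewer than `κ` elements into `κ.ord` is bounded (`Cardinal.iSup_lt_ord_of_isRegular` or `Ordinal.iSup_lt_ord`, cofinality of `κ.ord` is `κ`).
* `rank_step`: `step B W ⊆ prod U U` with `U = fld W ∪ powerset (fld W)`, `fld W ⊆ ⋃ ⋃ W`; so `rank (step B W) ≤ rank W + ω` (crude bounds), which is `< κ.ord` if `rank W < κ.ord` (`κ.ord` is additively
  indecomposable / a limit closed under `succ`: five successors suffice: `rank (powerset x) = rank x + 1`, `ZFSet.rank_pair`, ...).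
* `rank_Wl`: induction on `γ < κ.ord`: `Wl γ = w ∪ ⋃ δ<γ step (Wl δ)`, the ranks of `step (Wl δ)`, `δ < γ`, are bounded below `κ.ord` (`exists_bound`), and the rank of a union is at most the supremum.
* `exists_bound_seq`: the index type `ι × (ℕ → x)` has cardinality `≤ ℵ₀ * #x ^ ℵ₀ < κ` (strong limit, `#x < κ`, `ℵ₀ < κ`: `a ^ b ≤ 2 ^ (max a b)`).
-/

set_option autoImplicit false
set_option linter.unusedVariables false
set_option linter.unusedSectionVars false
set_option linter.unusedSimpArgs false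
set_option linter.deprecated false

universe u v w

open scoped ZFSet

namespace Pool.Agent.H52.OM

open Pool.Agent.H17.Omega Pool.Agent.H82.OC

theorem card_lt {κ : Cardinal.{u}} (hκ : κ.IsInaccessible) {x : ZFSet.{u}} (hx : x.rank < κ.ord) :
    Cardinal.mk (Shrink.{u} {y : ZFSet.{u} // y ∈ x}) < κ := by
  have h1 : x.card ≤ (ZFSet.vonNeumann x.rank).card := ZFSet.card_mono (ZFSet.subset_vonNeumann_self x)
  rw [ZFSet.card_vonNeumann] at h1
  have h2 : Cardinal.preBeth x.rank < Cardinal.preBeth κ.ord := Cardinal.preBeth_strictMono hx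
  rw [hκ.preBeth_ord] at h2
  exact h1.trans_lt h2

theorem exists_bound {κ : Cardinal.{u}} (hκ : κ.IsInaccessible) {x : ZFSet.{u}} (hx : x.rank < κ.ord)
    {g : ZFSet.{u} → Ordinal.{u}} (hg : ∀ y ∈ x, g y < κ.ord) : ∃ γ < κ.ord, ∀ y ∈ x, g y ≤ γ := by
  refine ⟨⨆ y : Shrink.{u} {y : ZFSet.{u} // y ∈ x}, g ((equivShrink _).symm y).1, ?_, ?_⟩
  · apply Ordinal.iSup_lt_of_lt_cof
    · rw [hκ.isRegular.cof_ord]
      exact card_lt hκ hx
    · intro y
      exact hg _ ((equivShrink _).symm y).2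
  · intro y hy
    have := Ordinal.le_iSup (fun y : Shrink.{u} {y : ZFSet.{u} // y ∈ x} =>
      g ((equivShrink _).symm y).1) (equivShrink _ ⟨y, hy⟩)
    simpa using this

/-- Countably many formulas, and sequences of elements. -/
theorem exists_bound_seq {κ : Cardinal.{u}} (hκ : κ.IsInaccessible) {x : ZFSet.{u}} (hx : x.rank < κ.ord)
    {ι : Type} [Countable ι] {g : ι → (ℕ → ZFSet.{u}) → Ordinal.{u}}
    (hg : ∀ i f, (∀ n, f n ∈ x) → g i f < κ.ord) : ∃ γ < κ.ord, ∀ i f, (∀ n, f n ∈ x) → g i f ≤ γ := by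
  refine ⟨⨆ p : ι × (ℕ → Shrink.{u} {y : ZFSet.{u} // y ∈ x}),
    g p.1 (fun n => ((equivShrink _).symm (p.2 n)).1), ?_, ?_⟩
  · apply Ordinal.iSup_lt_of_lt_cof
    · rw [hκ.isRegular.cof_ord]
      have h1 := card_lt hκ hx
      set S := Shrink.{u} {y : ZFSet.{u} // y ∈ x} with hS
      have h0 : Cardinal.aleph0 < κ := hκ.1
      have hcount : Cardinal.lift.{u} (Cardinal.mk ι) ≤ Cardinal.aleph0 := by
        rw [Cardinal.lift_le_aleph0]
        exact Cardinal.mk_le_aleph0
      have hpow : Cardinal.mk (ℕ → S) < κ := by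
        have : Cardinal.mk (ℕ → S) = Cardinal.mk S ^ Cardinal.aleph0.{u} := by
          simp
        rw [this]
        calc Cardinal.mk S ^ Cardinal.aleph0.{u}
            ≤ (2 ^ (max (Cardinal.mk S) Cardinal.aleph0)) ^ (max (Cardinal.mk S) Cardinal.aleph0) := by
              refine (Cardinal.power_le_power_right ?_).trans (Cardinal.power_le_power_left ?_ (le_max_right _ _))
              · exact (le_max_left _ _).trans (Cardinal.cantor _).le
              · exact (Cardinal.power_ne_zero _ two_ne_zero)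
          _ = 2 ^ (max (Cardinal.mk S) Cardinal.aleph0) := by
              rw [← Cardinal.power_mul, Cardinal.mul_eq_self (le_max_right _ _)]
          _ < κ := hκ.isStrongLimit.isStrongPrelimit (max_lt h1 h0)
      have : Cardinal.mk (ι × (ℕ → S)) = Cardinal.lift.{u} (Cardinal.mk ι) * Cardinal.mk (ℕ → S) := by
        simp [Cardinal.mk_prod]
      rw [this]
      exact Cardinal.mul_lt_of_lt h0.le (hcount.trans_lt h0) hpow
    · rintro ⟨i, f⟩
      exact hg _ _ fun n => ((equivShrink _).symm (f n)).2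
  · intro i f hf
    have := Ordinal.le_iSup (fun p : ι × (ℕ → Shrink.{u} {y : ZFSet.{u} // y ∈ x}) =>
      g p.1 (fun n => ((equivShrink _).symm (p.2 n)).1)) (i, fun n => equivShrink _ ⟨f n, hf n⟩)
    simpa using this

theorem rank_fld_le (W : ZFSet.{u}) : (fld W).rank ≤ W.rank :=
  calc (fld W).rank ≤ (ZFSet.sUnion (ZFSet.sUnion W)).rank := ZFSet.rank_mono fun z hz => (ZFSet.mem_sep.1 hz).1
    _ ≤ (ZFSet.sUnion W).rank := ZFSet.rank_sUnion_le _
    _ ≤ W.rank := ZFSet.rank_sUnion_le _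

theorem succ_lt_ord {κ : Cardinal.{u}} (hκ : κ.IsInaccessible) {a : Ordinal.{u}} (ha : a < κ.ord) :
    Order.succ a < κ.ord :=
  (Cardinal.isSuccLimit_ord hκ.1.le).succ_lt ha

theorem rank_step {κ : Cardinal.{u}} (hκ : κ.IsInaccessible) {B : ZFSet.{u} → Prop} {W : ZFSet.{u}}
    (hW : W.rank < κ.ord) : (step B W).rank < κ.ord := by
  set U := fld W ∪ ZFSet.powerset (fld W) with hU
  have h1 : U.rank < κ.ord := by
    rw [hU, ZFSet.rank_union, ZFSet.rank_powerset]
    exact max_lt ((rank_fld_le W).trans_lt hW) (succ_lt_ord hκ ((rank_fld_le W).trans_lt hW))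
  have h2 : (step B W).rank ≤ (ZFSet.powerset (ZFSet.powerset (U ∪ U))).rank := by
    refine ZFSet.rank_mono fun z hz => ?_
    rw [step, ZFSet.mem_sep] at hz
    have h3 := hz.1
    rw [ZFSet.prod] at h3
    rw [ZFSet.pairSep, ZFSet.mem_sep] at h3
    exact h3.1
  refine h2.trans_lt ?_
  rw [ZFSet.rank_powerset, ZFSet.rank_powerset, ZFSet.rank_union, max_self]
  exact succ_lt_ord hκ (succ_lt_ord hκ h1)

theorem rank_Wl {κ : Cardinal.{u}} (hκ : κ.IsInaccessible) {B : ZFSet.{u} → Prop} {w : ZFSet.{u}}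
    (hw : w.rank < κ.ord) {γ : Ordinal.{u}} (hγ : γ < κ.ord) : (Wl B w γ).rank < κ.ord := by
  induction γ using WellFoundedLT.induction with
  | _ γ ih =>
    have h1 : (⨆ i : γ.ToType, (step B (Wl B w (Ordinal.ToType.mk.symm i).1)).rank) < κ.ord := by
      apply Ordinal.iSup_lt_of_lt_cof
      · rw [hκ.isRegular.cof_ord, Cardinal.mk_toType]
        exact Cardinal.lt_ord.1 hγ
      · intro i
        have h2 : (Ordinal.ToType.mk.symm i).1 < γ := (Ordinal.ToType.mk.symm i).2
        exact rank_step hκ (ih _ h2 (h2.trans hγ))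
    refine lt_of_le_of_lt ?_ (max_lt hw h1)
    rw [ZFSet.rank_le_iff]
    intro z hz
    rcases (mem_Wl B).1 hz with h | ⟨δ, hδ, h⟩
    · exact lt_of_lt_of_le (ZFSet.rank_lt_of_mem h) (le_max_left _ _)
    · refine lt_of_lt_of_le (ZFSet.rank_lt_of_mem h) (le_trans ?_ (le_max_right _ _))
      have := Ordinal.le_iSup (fun i : γ.ToType => (step B (Wl B w (Ordinal.ToType.mk.symm i).1)).rank)
        (Ordinal.ToType.mk ⟨δ, hδ⟩)
      simpa using this

end Pool.Agent.H52.OM
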