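import Pool.Agent.H52.OM.HullA

/-!
# OM-17: the transitive collapse of a countable hull

`col Z x = {col Z y : y ∈ x ∩ Z}`.

PROOF.  Only the fields `cnt`, `wit` of `HZ` are used.  `mem_col`: unfold.  The pairing etc. below come from elementarity: apply `wit` to suitable formulas, or use `HZ.d0_wit`:
* `d0_wit`: for `P` in `D0` (formula `φ` with free variables `< n + 1`), `v : Fin n → Z`: if `∃ z, P (snoc v z)` then `∃ z ∈ Z, P (snoc v z)`: apply `wit` to `φ`, `k = n` and an assignment extending `v` by an element of `Z` (`Z` is nonempty: `wit` for a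
  valid formula, or the values outside do not matter: `Sat.congr_free`).  (See the definition of `D0` in `H17/Omega/D0.lean`.)
* `ext`: for `a ≠ b` in `Z` there is `z ∈ Z` in exactly one of them: `d0_wit` for `(z ∈ a ∧ z ∉ b) ∨ (z ∈ b ∧ z ∉ a)`.
* `col_inj`: by `∈`-induction on `x`: if `col x = col y`, `x, y ∈ Z`, `z ∈ Z`, `z ∈ x`: `col z ∈ col y`, so `col z = col z'` with `z' ∈ y ∩ Z`, `z = z'` by induction; conversely the same (the induction hypothesis is for elements of `x`).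
* `col_mem_iff`: from `mem_col` and `col_inj`.
* `sat_Z`: Tarski-Vaught: `Sat` in the structure `(Z, ∈)` iff `Sat` in `V`, for all formulas and assignments in `Z` (induction; `wit` for `φ` and for `¬ φ`).
* `col_d0`: for `Δ₀` formulas: `Sat_V θ f ↔ Sat_Z θ f ↔ Sat_{col '' Z} θ (col ∘ f) ↔ Sat_V θ (col ∘ f)`: `Sat.iso` (`Base.lean`) for the isomorphism `col` of `Z` onto the transitive set `col '' Z`, and `Delta0.absolute` (`hψ.absolute`, see `LSd.lean`: absoluteness of `Δ₀` formulas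
  for transitive sets).
* `pair_mem_Z`, `col_pair`: `d0_wit` for `z = pair a b` (`D0.isPair`), and `col_d0` for the predicate `z = pair a b`.  `of_pair_mem_Z`: `a` is the only `a` with `∃ b ∈ ⋃⋃ ..`: use `d0_wit` for `∃ s ∈ z, ∃ b ∈ s, z = pair a b` and `ZFSet.pair_inj`.
* `natZ_mem_Z`, `col_natZ`: induction on `n` (`natZ (n+1) = insert (natZ n) (natZ n)` is `Δ₀`), `mem_natZ`.
* `omZ_mem_Z`: `wit`/`d0_wit` for the `D0` predicate `z` is a limit ordinal and no element is one, or: `z = omZ ↔ ∅ ∈ z ∧ (∀ x ∈ z, insert x x ∈ z) ∧ ∀ x ∈ z, IsNatZ x`.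
* `col_id`: if `T ⊆ Z` is transitive then `col Z x = x` for `x ∈ T` (`∈`-induction).
* `col_ord`: the ordinals (`Ordinal.toZFSet`): `x ∈ γ.toZFSet ↔ ∃ δ < γ, x = δ.toZFSet`.  `col Z γ.toZFSet` is a transitive set of ordinals for `γ.toZFSet ∈ Z`: by induction on `γ`: it is the set of all `col Z δ.toZFSet`, `δ < γ`, `δ.toZFSet ∈ Z`, which are of the
  form `(co Z δ).toZFSet`, and it is downward closed (transitive: elements of `col Z δ.toZFSet` are `col Z ε.toZFSet`, `ε < δ`), so it is of the form `β.toZFSet` (`β` = the least ordinal not in it), `co Z γ := rank (col Z γ.toZFSet) = β`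
  (`Ordinal.rank_toZFSet` or similar).
* `co_lt`, `exists_of_lt_co`: `mem_col`, `col_mem_iff`, `Ordinal.toZFSet_mem_toZFSet_iff`.
* `co_limit`: `0 ∈ Z` is below `γ`; if `δ < γ`, `δ.toZFSet ∈ Z` then `(succ δ).toZFSet = insert δ.toZFSet δ.toZFSet ∈ Z` (`d0_wit`) and `succ δ < γ`; so by `exists_of_lt_co`, `co_lt` every `β < co Z γ` has some `β' ` with `β < β' < co Z γ`.
* `co_countable`: the ordinals below `co Z γ` are the `co Z δ`, `δ.toZFSet ∈ Z`, a countable set.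
-/

set_option autoImplicit false
set_option linter.unusedVariables false
set_option linter.unusedSectionVars false
set_option linter.unusedSimpArgs false
set_option linter.deprecated false

universe u v w

open scoped ZFSet

namespace Pool.Agent.H52.OM

open Pool.Agent.H17.Omega Pool.Agent.H82.OC

instance small_mem_and (x : ZFSet.{u}) (Z : Set ZFSet.{u}) : Small.{u} {y : ZFSet.{u} // y ∈ x ∧ y ∈ Z} :=
  small_of_injective (β := {y : ZFSet.{u} // y ∈ x}) (f := fun y => ⟨y.1, y.2.1⟩)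
    fun a b h => Subtype.ext (Subtype.mk.inj h)

/-- The transitive collapse. -/
noncomputable def col (Z : Set ZFSet.{u}) (x : ZFSet.{u}) : ZFSet.{u} :=
  ZFSet.range (fun y : {y : ZFSet.{u} // y ∈ x ∧ y ∈ Z} => col Z y.1)
termination_by x
decreasing_by exact y.2.1

theorem mem_col {Z : Set ZFSet.{u}} {x z : ZFSet.{u}} : z ∈ col Z x ↔ ∃ y ∈ x, y ∈ Z ∧ z = col Z y := by
  rw [col, ZFSet.mem_range]
  exact ⟨fun ⟨y, h⟩ => ⟨y.1, y.2.1, y.2.2, h.symm⟩, fun ⟨y, h1, h2, h3⟩ => ⟨⟨y, h1, h2⟩, h3.symm⟩⟩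

/-- The order type of the ordinals below `γ` in `Z`. -/
noncomputable def co (Z : Set ZFSet.{u}) (γ : Ordinal.{u}) : Ordinal.{u} := (col Z γ.toZFSet).rank

section

variable {A : Set (ℕ → ℕ)} {w : ZFSet.{u}} {Z : Set ZFSet.{u}} (hZ : HZ A w Z)

include hZ

omit hZ in
theorem cola_snoc {n : ℕ} (v : Fin n → ZFSet.{u}) (z0 y : ZFSet.{u}) :
    (fun i : Fin (n + 1) => upd (fun i : ℕ => if h : i < n then v ⟨i, h⟩ else z0) n y i) =
      Fin.snoc (α := fun _ => ZFSet.{u}) v y := by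
  funext i
  refine Fin.lastCases ?_ (fun j => ?_) i
  · rw [Fin.snoc_last]
    exact upd_same _ _ _
  · rw [Fin.snoc_castSucc]
    have h1 : ((j.castSucc : Fin (n + 1)) : ℕ) ≠ n := by
      have := j.2
      simp only [Fin.val_castSucc]
      omega
    rw [upd_ne _ _ h1]
    have h2 : ((j.castSucc : Fin (n + 1)) : ℕ) < n := j.2
    rw [dif_pos h2]
    rfl

theorem HZ.d0_wit {n : ℕ} {P : (Fin (n + 1) → ZFSet.{u}) → Prop} (hP : D0 P) (v : Fin n → ZFSet.{u})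
    (hv : ∀ i, v i ∈ Z) (h : ∃ z, P (Fin.snoc (α := fun _ => ZFSet.{u}) v z)) :
    ∃ z ∈ Z, P (Fin.snoc (α := fun _ => ZFSet.{u}) v z) := by
  obtain ⟨θ, h1, h2, h3⟩ := hP
  obtain ⟨z0, hz0⟩ := hZ.ne
  obtain ⟨z, hz⟩ := h
  obtain ⟨y, hy, hs⟩ := hZ.wit θ n (fun i : ℕ => if h : i < n then v ⟨i, h⟩ else z0) (fun i => by
    show (if h : i < n then v ⟨i, h⟩ else z0) ∈ Z
    split_ifs with h
    · exact hv _
    · exact hz0) ⟨z, (h3 _).2 (by rw [cola_snoc]; exact hz)⟩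
  have h4 := (h3 _).1 hs
  rw [cola_snoc] at h4
  exact ⟨y, hy, h4⟩

theorem HZ.ext {a b : ZFSet.{u}} (ha : a ∈ Z) (hb : b ∈ Z) (h : ∀ z ∈ Z, z ∈ a ↔ z ∈ b) : a = b := by
  by_contra hab
  have h1 : ∃ z, ¬ (z ∈ a ↔ z ∈ b) := by
    by_contra hc
    push Not at hc
    exact hab (ZFSet.ext hc)
  obtain ⟨z, hz⟩ := h1
  obtain ⟨y, hy, hy'⟩ := hZ.d0_wit (n := 2) (P := fun v => ¬ (v 2 ∈ v 0 ↔ v 2 ∈ v 1))
    ((D0.mem (D0T.var 2) (D0T.var 0)).iff (D0.mem (D0T.var 2) (D0T.var 1))).not ![a, b]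
    (fun i => by fin_cases i <;> assumption) ⟨z, hz⟩
  exact hy' (h y hy)

theorem HZ.col_inj {a b : ZFSet.{u}} (ha : a ∈ Z) (hb : b ∈ Z) (h : col Z a = col Z b) : a = b := by
  induction a using ZFSet.inductionOn generalizing b with
  | _ a ih =>
    refine hZ.ext ha hb fun z hz => ⟨fun hza => ?_, fun hzb => ?_⟩
    · have h1 : col Z z ∈ col Z b := by
        rw [← h]
        exact mem_col.2 ⟨z, hza, hz, rfl⟩
      obtain ⟨y, hy, hyZ, hzy⟩ := mem_col.1 h1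
      rw [ih z hza hz hyZ hzy]
      exact hy
    · have h1 : col Z z ∈ col Z a := by
        rw [h]
        exact mem_col.2 ⟨z, hzb, hz, rfl⟩
      obtain ⟨y, hy, hyZ, hzy⟩ := mem_col.1 h1
      rw [← ih y hy hyZ hz hzy.symm]
      exact hy

theorem HZ.col_mem_iff {a b : ZFSet.{u}} (ha : a ∈ Z) (hb : b ∈ Z) : col Z a ∈ col Z b ↔ a ∈ b := by
  constructor
  · intro h
    obtain ⟨y, hy, hyZ, hay⟩ := mem_col.1 h
    rw [hZ.col_inj ha hyZ hay]
    exact hy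
  · exact fun h => mem_col.2 ⟨a, h, ha, rfl⟩

theorem HZ.cola_satZ {θ : Fml} : ∀ f : ℕ → Z,
    Sat (fun a b : Z => a.1 ∈ b.1) θ f ↔ Sat (fun a b : ZFSet.{u} => a ∈ b) θ (fun i => (f i).1) := by
  have hu : ∀ (f : ℕ → Z) k x, (fun i => (upd f k x i).1) = upd (fun i => (f i).1) k x.1 :=
    fun f k x => upd_comp (fun x : Z => x.1) f k x
  induction θ with
  | mem i j => intro f; rfl
  | eq i j => intro f; exact Subtype.ext_iff
  | bot => intro f; rfl
  | imp φ ψ ih1 ih2 => intro f; exact imp_congr (ih1 f) (ih2 f)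
  | and φ ψ ih1 ih2 => intro f; exact and_congr (ih1 f) (ih2 f)
  | or φ ψ ih1 ih2 => intro f; exact or_congr (ih1 f) (ih2 f)
  | all k φ ih =>
    intro f
    constructor
    · intro h x
      by_contra hx
      obtain ⟨y, hy, hy'⟩ := hZ.wit (.imp φ .bot) k (fun i => (f i).1) (fun i => (f i).2)
        ⟨x, fun h => hx h⟩
      apply hy'
      have h1 := (ih _).1 (h ⟨y, hy⟩)
      rw [hu] at h1
      exact h1
    · intro h x
      rw [ih, hu]
      exact h x.1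
  | ex k φ ih =>
    intro f
    constructor
    · rintro ⟨x, hx⟩
      rw [ih, hu] at hx
      exact ⟨x.1, hx⟩
    · rintro ⟨x, hx⟩
      obtain ⟨y, hy, hy'⟩ := hZ.wit φ k (fun i => (f i).1) (fun i => (f i).2) ⟨x, hx⟩
      refine ⟨⟨y, hy⟩, ?_⟩
      rw [ih, hu]
      exact hy'

omit hZ in
theorem cola_absolute {θ : Fml} (h : θ.Delta0) {T : Set ZFSet.{u}}
    (hT : ∀ x ∈ T, ∀ y ∈ x, y ∈ T) : ∀ f : ℕ → T,
    Sat (SMem T) θ f ↔ Sat (fun a b : ZFSet.{u} => a ∈ b) θ (fun i => (f i).1) := by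
  have hu : ∀ (f : ℕ → T) k x, (fun i => (upd f k x i).1) = upd (fun i => (f i).1) k x.1 :=
    fun f k x => upd_comp (fun x : T => x.1) f k x
  induction h with
  | mem i j => intro f; rfl
  | eq i j => intro f; exact Subtype.ext_iff
  | bot => intro f; rfl
  | imp _ _ ih1 ih2 => intro f; exact imp_congr (ih1 f) (ih2 f)
  | and _ _ ih1 ih2 => intro f; exact and_congr (ih1 f) (ih2 f)
  | or _ _ ih1 ih2 => intro f; exact or_congr (ih1 f) (ih2 f)
  | ball k j hkj _ ih =>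
    intro f
    constructor
    · intro h x hx
      have hx' : x ∈ (f j).1 := by simpa [Sat, upd, hkj, hkj.symm] using hx
      have hxT := hT _ (f j).2 x hx'
      have h1 := h ⟨x, hxT⟩ (by simpa [Sat, upd, hkj, hkj.symm] using hx')
      rw [ih, hu] at h1
      exact h1
    · intro h x hx
      rw [ih, hu]
      refine h x.1 ?_
      simpa [Sat, upd, hkj, hkj.symm] using hx
  | bex k j hkj _ ih =>
    intro f
    constructor
    · rintro ⟨x, hx, h⟩
      rw [ih, hu] at h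
      exact ⟨x.1, by simpa [Sat, upd, hkj, hkj.symm] using hx, h⟩
    · rintro ⟨x, hx, h⟩
      have hx' : x ∈ (f j).1 := by simpa [Sat, upd, hkj, hkj.symm] using hx
      have hxT := hT _ (f j).2 x hx'
      refine ⟨⟨x, hxT⟩, by simpa [Sat, upd, hkj, hkj.symm] using hx', ?_⟩
      rw [ih, hu]
      exact h

theorem HZ.col_sat {θ : Fml} (hθ : θ.Delta0) {f : ℕ → ZFSet.{u}} (hf : ∀ i, f i ∈ Z) :
    Sat (fun a b : ZFSet.{u} => a ∈ b) θ (fun i => col Z (f i)) ↔ Sat (fun a b : ZFSet.{u} => a ∈ b) θ f := by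
  let T : Set ZFSet.{u} := {x | ∃ a ∈ Z, x = col Z a}
  have hT : ∀ x ∈ T, ∀ y ∈ x, y ∈ T := by
    rintro x ⟨a, ha, rfl⟩ y hy
    obtain ⟨b, hb, hbZ, rfl⟩ := mem_col.1 hy
    exact ⟨b, hbZ, rfl⟩
  let e : Z → T := fun a => ⟨col Z a.1, a.1, a.2, rfl⟩
  have he1 : Function.Surjective e := by
    rintro ⟨x, a, ha, rfl⟩
    exact ⟨⟨a, ha⟩, rfl⟩
  have he2 : Function.Injective e := by
    rintro ⟨a, ha⟩ ⟨b, hb⟩ h
    have h1 : col Z a = col Z b := congrArg Subtype.val h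
    exact Subtype.ext (hZ.col_inj ha hb h1)
  have h1 := Sat.iso (E := fun a b : Z => a.1 ∈ b.1) (F := fun a b : T => a.1 ∈ b.1) e he1 he2
    (fun x y => hZ.col_mem_iff x.2 y.2) (φ := θ) (f := fun i => ⟨f i, hf i⟩)
  have h2 := cola_absolute hθ hT (fun i => e ⟨f i, hf i⟩)
  have h3 := hZ.cola_satZ (θ := θ) (fun i => ⟨f i, hf i⟩)
  exact h2.symm.trans (h1.trans h3)

theorem HZ.col_d0 {n : ℕ} {P : (Fin n → ZFSet.{u}) → Prop} (hP : D0 P) (v : Fin n → ZFSet.{u})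
    (hv : ∀ i, v i ∈ Z) : P (fun i => col Z (v i)) ↔ P v := by
  obtain ⟨θ, h1, h2, h3⟩ := hP
  obtain ⟨z0, hz0⟩ := hZ.ne
  have hf : ∀ i : ℕ, (if h : i < n then v ⟨i, h⟩ else z0) ∈ Z := by
    intro i
    split_ifs with h
    · exact hv _
    · exact hz0
  have e1 : (fun i : Fin n => if h : (i : ℕ) < n then v ⟨i, h⟩ else z0) = v := by
    funext i
    rw [dif_pos i.2]
  have e2 : (fun i : Fin n => col Z (if h : (i : ℕ) < n then v ⟨i, h⟩ else z0)) =
      fun i => col Z (v i) := by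
    funext i
    rw [dif_pos i.2]
  have h4 := hZ.col_sat h1 hf
  rw [h3, h3] at h4
  rw [e1, e2] at h4
  exact h4

theorem HZ.empty_mem : (∅ : ZFSet.{u}) ∈ Z := by
  obtain ⟨z, hz, h⟩ := hZ.d0_wit (n := 0) (P := fun v => v 0 = ∅) (D0.isEmpty (D0T.var 0))
    (fun i => i.elim0) (fun i => i.elim0) ⟨∅, rfl⟩
  have h' : z = ∅ := h
  rw [← h']
  exact hz

theorem HZ.pair_mem {a b : ZFSet.{u}} (ha : a ∈ Z) (hb : b ∈ Z) : ZFSet.pair a b ∈ Z := by
  obtain ⟨z, hz, h⟩ := hZ.d0_wit (n := 2) (P := fun v => v 2 = ZFSet.pair (v 0) (v 1))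
    (D0.isPair (D0T.var 2) (D0T.var 0) (D0T.var 1)) ![a, b]
    (fun i => by fin_cases i <;> assumption) ⟨ZFSet.pair a b, rfl⟩
  have h' : z = ZFSet.pair a b := h
  rw [← h']
  exact hz

theorem HZ.of_pair_mem {a b : ZFSet.{u}} (h : ZFSet.pair a b ∈ Z) : a ∈ Z ∧ b ∈ Z := by
  have hm : ({a, b} : ZFSet.{u}) ∈ ZFSet.pair a b := by
    rw [ZFSet.pair, ZFSet.mem_pair]
    exact Or.inr rfl
  constructor
  · obtain ⟨z, hz, s, hs, y, hy, h1⟩ := hZ.d0_wit (n := 1)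
      (P := fun v => ∃ s ∈ v 0, ∃ y ∈ s, v 0 = ZFSet.pair (v 1) y)
      (D0.bexZ (p := fun v s => ∃ y ∈ s, v 0 = ZFSet.pair (v 1) y) (D0T.var 0)
        (D0.bexZ (p := fun v y => v 0 = ZFSet.pair (v 1) y) (D0T.var 2)
          (D0.isPair (D0T.var 0) (D0T.var 1) (D0T.var 3)))) (fun _ => ZFSet.pair a b)
      (fun _ => h) ⟨a, _, hm, b, ZFSet.mem_pair.2 (Or.inr rfl), rfl⟩
    have h' : ZFSet.pair a b = ZFSet.pair z y := h1
    rw [(ZFSet.pair_inj.1 h').1]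
    exact hz
  · obtain ⟨z, hz, s, hs, y, hy, h1⟩ := hZ.d0_wit (n := 1)
      (P := fun v => ∃ s ∈ v 0, ∃ y ∈ s, v 0 = ZFSet.pair y (v 1))
      (D0.bexZ (p := fun v s => ∃ y ∈ s, v 0 = ZFSet.pair y (v 1)) (D0T.var 0)
        (D0.bexZ (p := fun v y => v 0 = ZFSet.pair y (v 1)) (D0T.var 2)
          (D0.isPair (D0T.var 0) (D0T.var 3) (D0T.var 1)))) (fun _ => ZFSet.pair a b)
      (fun _ => h) ⟨b, _, hm, a, ZFSet.mem_pair.2 (Or.inl rfl), rfl⟩
    have h' : ZFSet.pair a b = ZFSet.pair y z := h1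
    rw [(ZFSet.pair_inj.1 h').2]
    exact hz

theorem HZ.col_pair {a b : ZFSet.{u}} (ha : a ∈ Z) (hb : b ∈ Z) :
    col Z (ZFSet.pair a b) = ZFSet.pair (col Z a) (col Z b) := by
  have h1 := hZ.col_d0 (n := 3) (P := fun v => v 0 = ZFSet.pair (v 1) (v 2))
    (D0.isPair (D0T.var 0) (D0T.var 1) (D0T.var 2)) ![ZFSet.pair a b, a, b]
    (fun i => by
      fin_cases i
      · exact hZ.pair_mem ha hb
      · exact ha
      · exact hb)
  exact h1.2 rfl

omit hZ in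
theorem colb_isInsert {n : ℕ} {r s t : (Fin n → ZFSet.{u}) → ZFSet.{u}} (hr : D0T r) (hs : D0T s)
    (ht : D0T t) : D0 (fun v => r v = insert (s v) (t v)) := by
  refine (((D0.mem hs hr).and (D0.subset ht hr)).and (D0.ballZ (p := fun v z => z = s v ∨ z ∈ t v) hr
    ((D0.eqv D0T.last hs.lift).or (D0.mem D0T.last ht.lift)))).congr fun v => ?_
  constructor
  · rintro ⟨⟨h1, h2⟩, h3⟩
    ext z
    rw [ZFSet.mem_insert_iff]
    constructor
    · exact h3 z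
    · rintro (rfl | h)
      · exact h1
      · exact h2 h
  · intro h
    rw [h]
    exact ⟨⟨ZFSet.mem_insert _ _, fun z hz => ZFSet.mem_insert_of_mem _ hz⟩, fun z hz => by
      rwa [ZFSet.mem_insert_iff] at hz⟩

theorem HZ.insert_mem {a : ZFSet.{u}} (ha : a ∈ Z) : insert a a ∈ Z := by
  obtain ⟨z, hz, h⟩ := hZ.d0_wit (n := 1) (P := fun v => v 1 = insert (v 0) (v 0))
    (colb_isInsert (D0T.var 1) (D0T.var 0) (D0T.var 0)) (fun _ => a) (fun _ => ha)
    ⟨insert a a, rfl⟩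
  have h' : z = insert a a := h
  rw [← h']
  exact hz

theorem HZ.natZ_mem (n : ℕ) : natZ n ∈ Z := by
  induction n with
  | zero => exact hZ.empty_mem
  | succ n ih => exact hZ.insert_mem ih

theorem HZ.col_natZ (n : ℕ) : col Z (natZ n) = natZ n := by
  induction n using Nat.strong_induction_on with
  | _ n ih =>
    ext z
    rw [mem_col]
    constructor
    · rintro ⟨y, hy, -, rfl⟩
      obtain ⟨m, hm, rfl⟩ := mem_natZ.1 hy
      rw [ih m hm]
      exact hy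
    · intro hz
      obtain ⟨m, hm, rfl⟩ := mem_natZ.1 hz
      exact ⟨natZ m, hz, hZ.natZ_mem m, (ih m hm).symm⟩

omit hZ in
theorem col_id {T : Set ZFSet.{u}} (hT : ∀ a ∈ T, ∀ b ∈ a, b ∈ T) (hTZ : T ⊆ Z) {x : ZFSet.{u}} (hx : x ∈ T) :
    col Z x = x := by
  induction x using ZFSet.inductionOn with
  | _ x ih =>
    ext z
    rw [mem_col]
    constructor
    · rintro ⟨y, hy, -, rfl⟩
      rw [ih y hy (hT x hx y hy)]
      exact hy
    · intro hz
      exact ⟨z, hz, hTZ (hT x hx z hz), (ih z hz (hT x hx z hz)).symm⟩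

omit hZ in
theorem colb_ord {γ : Ordinal.{u}} : col Z γ.toZFSet = (co Z γ).toZFSet := by
  induction γ using WellFoundedLT.induction with
  | ind γ ih =>
    ext z
    constructor
    · intro hz
      obtain ⟨y, hy, hyZ, rfl⟩ := mem_col.1 hz
      obtain ⟨δ, hδ, rfl⟩ := Ordinal.mem_toZFSet_iff.1 hy
      have h1 := ZFSet.rank_lt_of_mem hz
      rw [ih δ hδ] at h1 ⊢
      rw [Ordinal.rank_toZFSet] at h1
      exact Ordinal.toZFSet_mem_toZFSet_iff.2 h1
    · intro hz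
      obtain ⟨ε, hε, rfl⟩ := Ordinal.mem_toZFSet_iff.1 hz
      rw [co, ZFSet.lt_rank_iff] at hε
      obtain ⟨y, hy, hle⟩ := hε
      obtain ⟨y', hy', hy'Z, rfl⟩ := mem_col.1 hy
      obtain ⟨δ, hδ, rfl⟩ := Ordinal.mem_toZFSet_iff.1 hy'
      rw [ih δ hδ, Ordinal.rank_toZFSet] at hle
      rcases hle.lt_or_eq with h | h
      · have h2 : ε.toZFSet ∈ (co Z δ).toZFSet := Ordinal.toZFSet_mem_toZFSet_iff.2 h
        rw [← ih δ hδ] at h2
        obtain ⟨y, h3, h4, h5⟩ := mem_col.1 h2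
        obtain ⟨δ', hδ', rfl⟩ := Ordinal.mem_toZFSet_iff.1 h3
        exact mem_col.2 ⟨_, Ordinal.toZFSet_mem_toZFSet_iff.2 (hδ'.trans hδ), h4, h5⟩
      · rw [h, ← ih δ hδ]
        exact hy

theorem HZ.col_ord {γ : Ordinal.{u}} (hγ : γ.toZFSet ∈ Z) : col Z γ.toZFSet = (co Z γ).toZFSet :=
  colb_ord

theorem HZ.co_lt {γ δ : Ordinal.{u}} (hγ : γ.toZFSet ∈ Z) (hδ : δ.toZFSet ∈ Z) (h : δ < γ) : co Z δ < co Z γ := by
  have h1 : col Z δ.toZFSet ∈ col Z γ.toZFSet :=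
    mem_col.2 ⟨_, Ordinal.toZFSet_mem_toZFSet_iff.2 h, hδ, rfl⟩
  rw [colb_ord, colb_ord] at h1
  exact Ordinal.toZFSet_mem_toZFSet_iff.1 h1

theorem HZ.exists_of_lt_co {γ β : Ordinal.{u}} (hγ : γ.toZFSet ∈ Z) (h : β < co Z γ) :
    ∃ δ < γ, δ.toZFSet ∈ Z ∧ co Z δ = β := by
  have h1 : β.toZFSet ∈ (co Z γ).toZFSet := Ordinal.toZFSet_mem_toZFSet_iff.2 h
  rw [← colb_ord] at h1
  obtain ⟨y, h2, h3, h4⟩ := mem_col.1 h1
  obtain ⟨δ, hδ, rfl⟩ := Ordinal.mem_toZFSet_iff.1 h2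
  rw [colb_ord] at h4
  exact ⟨δ, hδ, h3, (Ordinal.toZFSet_injective h4).symm⟩

omit hZ in
theorem colb_succ (δ : Ordinal.{u}) :
    (Order.succ δ).toZFSet = insert δ.toZFSet δ.toZFSet := by
  ext z
  rw [ZFSet.mem_insert_iff, Ordinal.mem_toZFSet_iff, Ordinal.mem_toZFSet_iff]
  constructor
  · rintro ⟨ε, hε, rfl⟩
    rcases (Order.lt_succ_iff.1 hε).lt_or_eq with h | h
    · exact Or.inr ⟨ε, h, rfl⟩
    · exact Or.inl (by rw [h])
  · rintro (rfl | ⟨ε, hε, rfl⟩)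
    · exact ⟨δ, Order.lt_succ δ, rfl⟩
    · exact ⟨ε, hε.trans (Order.lt_succ δ), rfl⟩

theorem HZ.co_limit {γ : Ordinal.{u}} (hγ : γ.toZFSet ∈ Z) (h : Order.IsSuccLimit γ) :
    Order.IsSuccLimit (co Z γ) := by
  have h0 : (0 : Ordinal.{u}).toZFSet ∈ Z := by
    have : (0 : Ordinal.{u}).toZFSet = ∅ := by
      rw [ZFSet.eq_empty]
      intro y hy
      obtain ⟨ε, hε, -⟩ := Ordinal.mem_toZFSet_iff.1 hy
      exact absurd hε not_lt_bot
    rw [this]
    exact hZ.empty_mem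
  rw [Ordinal.isSuccLimit_iff]
  refine ⟨?_, Order.isSuccPrelimit_of_succ_lt fun β hβ => ?_⟩
  · intro he
    have h1 := hZ.co_lt hγ h0 h.bot_lt
    rw [he] at h1
    exact absurd h1 not_lt_bot
  · obtain ⟨δ, hδ, hδZ, rfl⟩ := hZ.exists_of_lt_co hγ hβ
    have hs : (Order.succ δ).toZFSet ∈ Z := by
      rw [colb_succ]
      exact hZ.insert_mem hδZ
    have h1 := hZ.co_lt hs hδZ (Order.lt_succ δ)
    have h2 := hZ.co_lt hγ hs (h.succ_lt hδ)
    exact (Order.succ_le_of_lt h1).trans_lt h2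

theorem HZ.co_countable {γ : Ordinal.{u}} (hγ : γ.toZFSet ∈ Z) : (co Z γ).card ≤ Cardinal.aleph0 := by
  have h1 : (Set.Iio (co Z γ)).Countable := by
    refine (hZ.cnt.image fun z => (col Z z).rank).mono ?_
    intro β hβ
    obtain ⟨δ, -, hδZ, rfl⟩ := hZ.exists_of_lt_co hγ hβ
    exact ⟨_, hδZ, rfl⟩
  have h2 := Cardinal.le_aleph0_iff_set_countable.2 h1
  rw [Cardinal.mk_Iio_ordinal, Cardinal.lift_le_aleph0] at h2
  exact h2

end

end Pool.Agent.H52.OM
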