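import Pool.Agent.H52.OM.ColA

/-!
# OM-18: the forcing predicate is preserved by the collapse

PROOF.  Let `π = col Z`.  All of `P, R, r, T` are in `Z`.
* `nice_col`: `Nice P R T ↔ Nice (π P) (π R) (π T)`: `Nice` is a `D0` predicate of `(P, R, T)` (all quantifiers can be bounded: `pair a b ∈ R` means that `{a, b} ∈ pair a b ∈ R`; write `∀ z ∈ R, ∀ s ∈ z, ∀ a ∈ s, ∀ b ∈ s, z = pair a b → ..`); `HZ.col_d0`.
* `denB_col`: `DenB P R r D ↔ DenB (π P) (π R) (π r) (π D)` is `D0`.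
* `badZ_col`: `BadZ P R r T ↔ BadZ (π P) (π R) (π r) (π T)`: for fixed numbers `i, j` the statements `∀ q ∈ P, pair q r ∈ R → pair q (pair (natZ i) (natZ j)) ∉ T` etc. are `D0` in `P, R, r, T` and the parameter `pair (natZ i) (natZ j) ∈ Z`, which is fixed by `π`
  (`col_natZ`, `col_pair`); the quantifiers over `i, j ∈ ℕ` are external (`∀ q, ∀ j` can be exchanged).
* `btZ_col_of`: if `BtZ A P R r T` then `BtZ A (π P) (π R) (π r) (π T)`: take `D` from `hZ.dn`; the sets `π (D n)` are dense (`denB_col`).  Let `s'` be descending below `π r` and meet all `π (D n)`.  `s' k ∈ π P`, so `s' k = π (s k)` with `s k ∈ Z ∩ P`; `s` is a descending sequence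
  below `r` (`pair (π a) (π b) = π (pair a b) ∈ π R ↔ pair a b ∈ R`) and meets all `D n` (`col_mem_iff`), so there is `x ∈ A` with `Ev T s i j ↔ x i = j`, and `Ev (π T) s' i j ↔ Ev T s i j`.  The same for `Aᶜ` with `hZ.dn'`.
* `btZ_col`: converse: if `¬ BtZ A P R r T`, `hZ.db` gives `r' ∈ Z ∩ P` below `r` with `BtZ Aᶜ P R r' T` or `BadZ P R r' T`, so `BtZ Aᶜ (π P) (π R) (π r') (π T)` or `BadZ ..`, and this contradicts `BtZ A (π P) (π R) (π r) (π T)` (`btZ_mono`, `not_btZ_both`, `not_bad_of_btZ`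
  of `BtZF.lean`, for the nice `π P, π R, π T`).
* `BB_col`: if `BB A z`, `z = pair (pair P R) (pair r T)`, all components are in `Z` (`of_pair_mem`) and `π z = pair (pair (π P) (π R)) (pair (π r) (π T))`.  Conversely if `BB A (π z)`, `π z` is a pair of pairs, hence (`D0` predicate of `z`) `z` is one.
-/

set_option autoImplicit false
set_option linter.unusedVariables false
set_option linter.unusedSectionVars false
set_option linter.unusedSimpArgs false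
set_option linter.deprecated false

universe u v w

open scoped ZFSet

namespace Pool.Agent.H52.OM

open Pool.Agent.H17.Omega Pool.Agent.H82.OC

section

variable {A : Set (ℕ → ℕ)} {w : ZFSet.{u}} {Z : Set ZFSet.{u}} (hZ : HZ A w Z)

include hZ

omit hZ in
theorem colb_nice_iff {P R T : ZFSet.{u}} : Nice P R T ↔
    ((∀ p ∈ P, ZFSet.pair p p ∈ R) ∧
    (∀ a ∈ P, ∀ b ∈ P, ∀ c ∈ P, ZFSet.pair a b ∈ R → ZFSet.pair b c ∈ R → ZFSet.pair a c ∈ R)) ∧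
    (∀ z ∈ R, ∀ s ∈ z, ∀ a ∈ s, ∀ b ∈ s, z = ZFSet.pair a b → a ∈ P ∧ b ∈ P) ∧
    (∀ z ∈ T, ∀ s ∈ z, ∀ q ∈ s, ∀ e ∈ s, z = ZFSet.pair q e → ∀ q' ∈ P,
      ZFSet.pair q' q ∈ R → ZFSet.pair q' e ∈ T) := by
  have hs : ∀ a b : ZFSet.{u}, ({a, b} : ZFSet.{u}) ∈ ZFSet.pair a b := by
    intro a b
    rw [pair_eq_upair, ZFSet.mem_pair]
    exact Or.inr rfl
  have h1 : ∀ a b : ZFSet.{u}, a ∈ ({a, b} : ZFSet.{u}) := by
    intro a b
    rw [ZFSet.mem_pair]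
    exact Or.inl rfl
  have h2 : ∀ a b : ZFSet.{u}, b ∈ ({a, b} : ZFSet.{u}) := by
    intro a b
    rw [ZFSet.mem_pair]
    exact Or.inr rfl
  constructor
  · intro h
    refine ⟨⟨h.refl, fun a _ b _ c _ hab hbc => h.trans a b c hab hbc⟩, ?_, ?_⟩
    · rintro z hz s _ a _ b _ rfl
      exact h.dom a b hz
    · rintro z hz s _ q _ e _ rfl q' _ hq'
      exact h.down q q' e hz hq'
  · rintro ⟨⟨h3, h4⟩, h5, h6⟩
    have hd : ∀ a b, ZFSet.pair a b ∈ R → a ∈ P ∧ b ∈ P := fun a b hab =>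
      h5 _ hab _ (hs a b) _ (h1 a b) _ (h2 a b) rfl
    exact ⟨h3, fun a b c hab hbc => h4 a (hd a b hab).1 b (hd a b hab).2 c (hd b c hbc).2 hab hbc,
      hd, fun q q' e hqe hq' => h6 _ hqe _ (hs q e) _ (h1 q e) _ (h2 q e) rfl q' (hd q' q hq').1 hq'⟩

omit hZ in
theorem colb_nice_d0 : D0 (fun v : Fin 3 → ZFSet.{u} => Nice (v 0) (v 1) (v 2)) := by
  have h1 : D0 (fun v : Fin 3 → ZFSet.{u} => ∀ p ∈ v 0, ZFSet.pair p p ∈ v 1) :=
    D0.ballZ (D0T.var _) (D0.pairMem (D0T.var (n := 4) 3) (D0T.var (n := 4) 3) (D0T.var (n := 4) 1))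
  have h2 : D0 (fun v : Fin 3 → ZFSet.{u} => ∀ a ∈ v 0, ∀ b ∈ v 0, ∀ c ∈ v 0,
      ZFSet.pair a b ∈ v 1 → ZFSet.pair b c ∈ v 1 → ZFSet.pair a c ∈ v 1) :=
    D0.ballZ (D0T.var _) (D0.ballZ (D0T.var (n := 4) 0) (D0.ballZ (D0T.var (n := 5) 0)
      ((D0.pairMem (D0T.var (n := 6) 3) (D0T.var (n := 6) 4) (D0T.var (n := 6) 1)).imp
      ((D0.pairMem (D0T.var (n := 6) 4) (D0T.var (n := 6) 5) (D0T.var (n := 6) 1)).imp
      (D0.pairMem (D0T.var (n := 6) 3) (D0T.var (n := 6) 5) (D0T.var (n := 6) 1))))))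
  have h3 : D0 (fun v : Fin 3 → ZFSet.{u} => ∀ z ∈ v 1, ∀ s ∈ z, ∀ a ∈ s, ∀ b ∈ s,
      z = ZFSet.pair a b → a ∈ v 0 ∧ b ∈ v 0) :=
    D0.ballZ (D0T.var _) (D0.ballZ (D0T.var (n := 4) 3) (D0.ballZ (D0T.var (n := 5) 4)
      (D0.ballZ (D0T.var (n := 6) 4)
      ((D0.isPair (D0T.var (n := 7) 3) (D0T.var (n := 7) 5) (D0T.var (n := 7) 6)).imp
      ((D0.mem (D0T.var (n := 7) 5) (D0T.var (n := 7) 0)).and
      (D0.mem (D0T.var (n := 7) 6) (D0T.var (n := 7) 0)))))))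
  have h4 : D0 (fun v : Fin 3 → ZFSet.{u} => ∀ z ∈ v 2, ∀ s ∈ z, ∀ q ∈ s, ∀ e ∈ s,
      z = ZFSet.pair q e → ∀ q' ∈ v 0, ZFSet.pair q' q ∈ v 1 → ZFSet.pair q' e ∈ v 2) :=
    D0.ballZ (D0T.var _) (D0.ballZ (D0T.var (n := 4) 3) (D0.ballZ (D0T.var (n := 5) 4)
      (D0.ballZ (D0T.var (n := 6) 4)
      ((D0.isPair (D0T.var (n := 7) 3) (D0T.var (n := 7) 5) (D0T.var (n := 7) 6)).imp
      (D0.ballZ (D0T.var (n := 7) 0)
      ((D0.pairMem (D0T.var (n := 8) 7) (D0T.var (n := 8) 5) (D0T.var (n := 8) 1)).imp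
      (D0.pairMem (D0T.var (n := 8) 7) (D0T.var (n := 8) 6) (D0T.var (n := 8) 2))))))))
  exact ((h1.and h2).and (h3.and h4)).congr fun v => colb_nice_iff.symm

theorem HZ.nice_col {P R T : ZFSet.{u}} (hP : P ∈ Z) (hR : R ∈ Z) (hT : T ∈ Z) :
    Nice (col Z P) (col Z R) (col Z T) ↔ Nice P R T := by
  have h := hZ.col_d0 colb_nice_d0 ![P, R, T] (by
    intro i
    fin_cases i
    · exact hP
    · exact hR
    · exact hT)
  exact h

theorem HZ.denB_col {P R r D : ZFSet.{u}} (hP : P ∈ Z) (hR : R ∈ Z) (hr : r ∈ Z) (hD : D ∈ Z) :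
    DenB (col Z P) (col Z R) (col Z r) (col Z D) ↔ DenB P R r D := by
  have h1 : D0 (fun v : Fin 4 → ZFSet.{u} => ∀ q ∈ v 0, ZFSet.pair q (v 2) ∈ v 1 →
      ∃ q' ∈ v 3, q' ∈ v 0 ∧ ZFSet.pair q' q ∈ v 1) :=
    D0.ballZ (D0T.var _)
      ((D0.pairMem (D0T.var (n := 5) 4) (D0T.var (n := 5) 2) (D0T.var (n := 5) 1)).imp
      (D0.bexZ (D0T.var (n := 5) 3) ((D0.mem (D0T.var (n := 6) 5) (D0T.var (n := 6) 0)).and
      (D0.pairMem (D0T.var (n := 6) 5) (D0T.var (n := 6) 4) (D0T.var (n := 6) 1)))))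
  have h := hZ.col_d0 h1 ![P, R, r, D] (by
    intro i
    fin_cases i
    · exact hP
    · exact hR
    · exact hr
    · exact hD)
  exact h

theorem HZ.badZ_col {P R r T : ZFSet.{u}} (hP : P ∈ Z) (hR : R ∈ Z) (hr : r ∈ Z) (hT : T ∈ Z) :
    BadZ (col Z P) (col Z R) (col Z r) (col Z T) ↔ BadZ P R r T := by
  have hc : ∀ i j : ℕ, ZFSet.pair (natZ i) (natZ j) ∈ Z := fun i j =>
    hZ.pair_mem (hZ.natZ_mem i) (hZ.natZ_mem j)
  have hcol : ∀ i j : ℕ, col Z (ZFSet.pair (natZ i) (natZ j)) = ZFSet.pair (natZ i) (natZ j) := by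
    intro i j
    rw [hZ.col_pair (hZ.natZ_mem i) (hZ.natZ_mem j), hZ.col_natZ, hZ.col_natZ]
  have h1 : D0 (fun v : Fin 5 → ZFSet.{u} => ∀ q ∈ v 0, ZFSet.pair q (v 2) ∈ v 1 →
      ¬ ZFSet.pair q (v 4) ∈ v 3) :=
    D0.ballZ (D0T.var _)
      ((D0.pairMem (D0T.var (n := 6) 5) (D0T.var (n := 6) 2) (D0T.var (n := 6) 1)).imp
      (D0.pairMem (D0T.var (n := 6) 5) (D0T.var (n := 6) 4) (D0T.var (n := 6) 3)).not)
  have h2 : ∀ i j : ℕ, (∀ q ∈ col Z P, ZFSet.pair q (col Z r) ∈ col Z R →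
      ¬ ZFSet.pair q (ZFSet.pair (natZ i) (natZ j)) ∈ col Z T) ↔
      ∀ q ∈ P, ZFSet.pair q r ∈ R → ¬ ZFSet.pair q (ZFSet.pair (natZ i) (natZ j)) ∈ T := by
    intro i j
    have h := hZ.col_d0 h1 ![P, R, r, T, ZFSet.pair (natZ i) (natZ j)] (by
      intro k
      fin_cases k
      · exact hP
      · exact hR
      · exact hr
      · exact hT
      · exact hc i j)
    have h' : (∀ q ∈ col Z P, ZFSet.pair q (col Z r) ∈ col Z R →
      ¬ ZFSet.pair q (col Z (ZFSet.pair (natZ i) (natZ j))) ∈ col Z T) ↔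
      ∀ q ∈ P, ZFSet.pair q r ∈ R → ¬ ZFSet.pair q (ZFSet.pair (natZ i) (natZ j)) ∈ T := h
    rw [hcol] at h'
    exact h'
  have h3 : ∀ i j : ℕ, ZFSet.pair (col Z r) (ZFSet.pair (natZ i) (natZ j)) ∈ col Z T ↔
      ZFSet.pair r (ZFSet.pair (natZ i) (natZ j)) ∈ T := by
    intro i j
    rw [← hcol i j, ← hZ.col_pair hr (hc i j), hZ.col_mem_iff (hZ.pair_mem hr (hc i j)) hT, hcol]
  rw [BadZ, BadZ]
  refine or_congr ?_ ?_
  · refine exists_congr fun i => ?_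
    constructor
    · intro h q hq hqr j
      exact (h2 i j).1 (fun q' hq' hqr' => h q' hq' hqr' j) q hq hqr
    · intro h q hq hqr j
      exact (h2 i j).2 (fun q' hq' hqr' => h q' hq' hqr' j) q hq hqr
  · refine exists_congr fun i => exists_congr fun j => exists_congr fun j' => ?_
    rw [h3, h3]

theorem HZ.colB_mem_pair {a b X : ZFSet.{u}} (ha : a ∈ Z) (hb : b ∈ Z) (hX : X ∈ Z) :
    ZFSet.pair (col Z a) (col Z b) ∈ col Z X ↔ ZFSet.pair a b ∈ X := by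
  rw [← hZ.col_pair ha hb, hZ.col_mem_iff (hZ.pair_mem ha hb) hX]

theorem HZ.colB_aux {B : Set (ℕ → ℕ)} {P R r T : ZFSet.{u}} (hP : P ∈ Z) (hR : R ∈ Z) (hr : r ∈ Z)
    (hT : T ∈ Z) {D : ℕ → ZFSet.{u}} (hD : ∀ n, D n ∈ Z) (hden : ∀ n, DenB P R r (D n))
    (h : ∀ s : ℕ → ZFSet.{u}, IsSeq P R r s → (∀ n, ∃ k, s k ∈ D n) →
      ∃ x ∈ B, ∀ i j, Ev T s i j ↔ x i = j) :
    BtZ B (col Z P) (col Z R) (col Z r) (col Z T) := by
  refine ⟨fun n => col Z (D n), fun n => (hZ.denB_col hP hR hr (hD n)).2 (hden n), ?_⟩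
  intro s' hs' hm'
  have hex : ∀ k, ∃ y, y ∈ P ∧ y ∈ Z ∧ s' k = col Z y := by
    intro k
    obtain ⟨y, h1, h2, h3⟩ := mem_col.1 (hs'.mem k)
    exact ⟨y, h1, h2, h3⟩
  choose s hsP hsZ hse using hex
  have hseq : IsSeq P R r s := by
    refine ⟨hsP, ?_, fun k => ?_⟩
    · have h1 := hs'.fst
      rw [hse 0] at h1
      exact (hZ.colB_mem_pair (hsZ 0) hr hR).1 h1
    · have h1 := hs'.desc k
      rw [hse k, hse (k + 1)] at h1
      exact (hZ.colB_mem_pair (hsZ _) (hsZ _) hR).1 h1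
  have hmeet : ∀ n, ∃ k, s k ∈ D n := by
    intro n
    obtain ⟨k, hk⟩ := hm' n
    rw [hse k] at hk
    exact ⟨k, (hZ.col_mem_iff (hsZ k) (hD n)).1 hk⟩
  obtain ⟨x, hx, hxe⟩ := h s hseq hmeet
  refine ⟨x, hx, fun i j => ?_⟩
  rw [← hxe i j]
  unfold Ev
  refine exists_congr fun k => ?_
  have h1 : ZFSet.pair (natZ i) (natZ j) ∈ Z := hZ.pair_mem (hZ.natZ_mem i) (hZ.natZ_mem j)
  have h2 : col Z (ZFSet.pair (natZ i) (natZ j)) = ZFSet.pair (natZ i) (natZ j) := by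
    rw [hZ.col_pair (hZ.natZ_mem i) (hZ.natZ_mem j), hZ.col_natZ, hZ.col_natZ]
  rw [← hZ.colB_mem_pair (hsZ k) h1 hT, h2, ← hse k]

theorem HZ.btZ_col_of {P R r T : ZFSet.{u}} (hP : P ∈ Z) (hR : R ∈ Z) (hr : r ∈ Z) (hT : T ∈ Z)
    (h : BtZ A P R r T) : BtZ A (col Z P) (col Z R) (col Z r) (col Z T) := by
  obtain ⟨D, h1, h2, h3⟩ := hZ.dn P hP R hR r hr T hT h
  exact hZ.colB_aux hP hR hr hT h1 h2 h3

theorem HZ.btZ_col_of' {P R r T : ZFSet.{u}} (hP : P ∈ Z) (hR : R ∈ Z) (hr : r ∈ Z) (hT : T ∈ Z)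
    (h : BtZ Aᶜ P R r T) : BtZ Aᶜ (col Z P) (col Z R) (col Z r) (col Z T) := by
  obtain ⟨D, h1, h2, h3⟩ := hZ.dn' P hP R hR r hr T hT h
  exact hZ.colB_aux hP hR hr hT h1 h2 h3

/-- if the collapse of `z` is a pair then `z` is a pair -/
theorem HZ.colB_pair_of {z a' b' : ZFSet.{u}} (hz : z ∈ Z) (h : col Z z = ZFSet.pair a' b') :
    ∃ a ∈ Z, ∃ b ∈ Z, a' = col Z a ∧ b' = col Z b ∧ z = ZFSet.pair a b := by
  have h1 : ({a'} : ZFSet.{u}) ∈ col Z z := by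
    rw [h]
    simp [ZFSet.pair]
  have h2 : ({a', b'} : ZFSet.{u}) ∈ col Z z := by
    rw [h]
    simp [ZFSet.pair]
  obtain ⟨y1, hy1, hy1Z, e1⟩ := mem_col.1 h1
  obtain ⟨y2, hy2, hy2Z, e2⟩ := mem_col.1 h2
  have h3 : a' ∈ col Z y1 := by
    rw [← e1]
    simp
  have h4 : b' ∈ col Z y2 := by
    rw [← e2]
    simp
  obtain ⟨a, -, haZ, ea⟩ := mem_col.1 h3
  obtain ⟨b, -, hbZ, eb⟩ := mem_col.1 h4
  refine ⟨a, haZ, b, hbZ, ea, eb, ?_⟩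
  refine hZ.col_inj hz (hZ.pair_mem haZ hbZ) ?_
  rw [h, ea, eb, hZ.col_pair haZ hbZ]

theorem HZ.BB_col {z : ZFSet.{u}} (hz : z ∈ Z) : BB A (col Z z) ↔ BB A z := by
  constructor
  · rintro ⟨P', R', r', T', he, hr', hN, hB⟩
    obtain ⟨u, huZ, v, hvZ, eu, ev, hzuv⟩ := hZ.colB_pair_of hz he
    obtain ⟨P, hP, R, hR, eP, eR, hu⟩ := hZ.colB_pair_of huZ eu.symm
    obtain ⟨r, hr, T, hT, er, eT, hv⟩ := hZ.colB_pair_of hvZ ev.symm
    rw [eP, eR, eT] at hN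
    rw [eP, eR, er, eT] at hB
    rw [er, eP, hZ.col_mem_iff hr hP] at hr'
    refine ⟨P, R, r, T, by rw [hzuv, hu, hv], hr', (hZ.nice_col hP hR hT).1 hN, ?_⟩
    by_contra hnB
    obtain ⟨r2, hr2Z, hr2P, hr2R, hcase⟩ := hZ.db P hP R hR r hr T hT
      ((hZ.nice_col hP hR hT).1 hN) hr' hnB
    have hr2R' : ZFSet.pair (col Z r2) (col Z r) ∈ col Z R := (hZ.colB_mem_pair hr2Z hr hR).2 hr2R
    rcases hcase with hc | hc
    · exact not_btZ_both hN ((hZ.col_mem_iff hr2Z hP).2 hr2P) (btZ_mono hN hr2R' hB)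
        (hZ.btZ_col_of' hP hR hr2Z hT hc)
    · exact not_bad_of_btZ hN hr2R' hB ((hZ.badZ_col hP hR hr2Z hT).2 hc)
  · rintro ⟨P, R, r, T, rfl, hr, hN, hB⟩
    obtain ⟨h1, h2⟩ := hZ.of_pair_mem hz
    obtain ⟨hP, hR⟩ := hZ.of_pair_mem h1
    obtain ⟨hrZ, hT⟩ := hZ.of_pair_mem h2
    refine ⟨col Z P, col Z R, col Z r, col Z T, ?_, (hZ.col_mem_iff hrZ hP).2 hr,
      (hZ.nice_col hP hR hT).2 hN, hZ.btZ_col_of hP hR hrZ hT hB⟩
    rw [hZ.col_pair h1 h2, hZ.col_pair hP hR, hZ.col_pair hrZ hT]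

end

end Pool.Agent.H52.OM
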