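import Pool.Agent.H52.OM.StepA

/-!
# OM-6b: one step of the hierarchy is a wellorder again (second part)

PROOF.  Throughout `WO W`.  `WO.total`: apply `min` to `{a, b}`.  `WO.mem_fld_of`: `pair a b ∈ W` gives `a, b ∈ fld W` (by `rel` and `ZFSet.pair_inj`).
`mem_step`: membership in the product: if `pair a b ∈ W` then `a, b ∈ fld W`; a new element is some `Hh B W p q θ ⊆ fld W`, so in the power set.
CODES.  `CLt` is a strict linear order on triples `(p, q, θ)` with `p, q ∈ fld W` (lexicographic; `Fml.code_injective` in `H17/Omega/Collapse.lean`) and every nonempty class of such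
triples has a least element: first minimise `p` (`WO.min` for the set `{p ∈ fld W | ...}`), then `q`, then `θ.code` (`Nat.find`/`WellFounded.min`).  Hence `exists_least`, and least codes are unique
(`least_unique`); if `a, b` have the same least code then `a = b` (both are `Hh ..`).
`fld_step`: `StepR a a` iff `a ∈ fld W` or `New a`.
`step_end`: `StepR a b` with `b ∈ fld W`: the last two alternatives have `New b`, so `b ∉ fld W`.
`wo_step`: `rel` by `mem_step`, `fld_step`; `anti`, `trans`: case distinctions (old/old: `W`; old before new; new/new: codes); `min`: if `c` meets `fld W` take the `W`-least element of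
`c ∩ fld W`, otherwise the element of `c` whose least code is the least.
`trans_step`: a new element is a subset of `fld W`.
`subset_step`, `level_new`: `fld W = {z ∈ fld W | z = z}` is definable (`θ = eq 0 0`, `p = q =` any element) and `fld W ∉ fld W` if `fld W` is transitive or not (foundation: `ZFSet.mem_irrefl`), so it is a
new element.
-/

set_option autoImplicit false
set_option linter.unusedVariables false
set_option linter.unusedSectionVars false
set_option linter.unusedSimpArgs false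
set_option linter.deprecated false

universe u v w

open scoped ZFSet

namespace Pool.Agent.H52.OM

open Pool.Agent.H17.Omega Pool.Agent.H82.OC

section

variable {B : ZFSet.{u} → Prop} {W : ZFSet.{u}} (hW : WO W)

include hW

theorem stepb_mem {a b : ZFSet.{u}} (h : StepR B W a b) :
    (a ∈ fld W ∨ New B W a) ∧ (b ∈ fld W ∨ New B W b) := by
  rcases h with h | ⟨h1, h2⟩ | ⟨h1, h2, -⟩
  · exact ⟨Or.inl (hW.mem_fld_of h).1, Or.inl (hW.mem_fld_of h).2⟩
  · exact ⟨Or.inl h1, Or.inr h2⟩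
  · exact ⟨Or.inr h1, Or.inr h2⟩

theorem fld_step {x : ZFSet.{u}} : x ∈ fld (step B W) ↔ x ∈ fld W ∨ New B W x := by
  rw [mem_fld, mem_step hW]
  constructor
  · exact fun h => (stepb_mem hW h).1
  · rintro (h | h)
    · exact Or.inl (mem_fld.1 h)
    · exact Or.inr (Or.inr ⟨h, h, Or.inl rfl⟩)

theorem subset_step : W ⊆ step B W := by
  intro z hz
  obtain ⟨a, ha, b, hb, rfl⟩ := hW.rel z hz
  exact (mem_step hW).2 (Or.inl hz)

theorem step_end {a b : ZFSet.{u}} (h : ZFSet.pair a b ∈ step B W) (hb : b ∈ fld W) : ZFSet.pair a b ∈ W := by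
  rw [mem_step hW] at h
  rcases h with h | ⟨h1, h2⟩ | ⟨h1, h2, -⟩
  · exact h
  · exact (h2.1 hb).elim
  · exact (h2.1 hb).elim

theorem stepb_anti {a b : ZFSet.{u}} (h : StepR B W a b) (h' : StepR B W b a) : a = b := by
  rcases h with h | ⟨h1, h2⟩ | ⟨h1, h2, h3⟩
  · have hf := hW.mem_fld_of h
    rcases h' with h' | ⟨h1', h2'⟩ | ⟨h1', h2', -⟩
    · exact hW.anti a b h h'
    · exact (h2'.1 hf.1).elim
    · exact (h2'.1 hf.1).elim
  · rcases h' with h' | ⟨h1', h2'⟩ | ⟨h1', h2', -⟩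
    · exact (h2.1 (hW.mem_fld_of h').1).elim
    · exact (h2.1 h1').elim
    · exact (h2'.1 h1).elim
  · rcases h' with h' | ⟨h1', h2'⟩ | ⟨h1', h2', h3'⟩
    · exact (h2.1 (hW.mem_fld_of h').1).elim
    · exact (h2.1 h1').elim
    · rcases h3 with rfl | ⟨p, q, θ, p', q', θ', hl1, hl2, hlt⟩
      · rfl
      rcases h3' with rfl | ⟨r, s, χ, r', s', χ', hl1', hl2', hlt'⟩
      · rfl
      obtain ⟨rfl, rfl, rfl⟩ := least_unique hW hl2 hl1'
      obtain ⟨rfl, rfl, rfl⟩ := least_unique hW hl1 hl2'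
      exact (clt_irrefl hW (clt_trans hW hlt hlt')).elim

theorem stepb_trans {a b c : ZFSet.{u}} (h : StepR B W a b) (h' : StepR B W b c) :
    StepR B W a c := by
  rcases h with h | ⟨h1, h2⟩ | ⟨h1, h2, h3⟩
  · have hf := hW.mem_fld_of h
    rcases h' with h' | ⟨h1', h2'⟩ | ⟨h1', h2', -⟩
    · exact Or.inl (hW.trans a b c h h')
    · exact Or.inr (Or.inl ⟨hf.1, h2'⟩)
    · exact (h1'.1 hf.2).elim
  · rcases h' with h' | ⟨h1', h2'⟩ | ⟨h1', h2', -⟩
    · exact (h2.1 (hW.mem_fld_of h').1).elim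
    · exact (h2.1 h1').elim
    · exact Or.inr (Or.inl ⟨h1, h2'⟩)
  · rcases h' with h' | ⟨h1', h2'⟩ | ⟨h1', h2', h3'⟩
    · exact (h2.1 (hW.mem_fld_of h').1).elim
    · exact (h2.1 h1').elim
    · refine Or.inr (Or.inr ⟨h1, h2', ?_⟩)
      rcases h3 with rfl | ⟨p, q, θ, p', q', θ', hl1, hl2, hlt⟩
      · exact h3'
      rcases h3' with rfl | ⟨r, s, χ, r', s', χ', hl1', hl2', hlt'⟩
      · exact Or.inr ⟨p, q, θ, p', q', θ', hl1, hl2, hlt⟩
      obtain ⟨rfl, rfl, rfl⟩ := least_unique hW hl2 hl1'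
      exact Or.inr ⟨p, q, θ, r', s', χ', hl1, hl2', clt_trans hW hlt hlt'⟩

theorem wo_step : WO (step B W) where
  rel z hz := by
    rw [step, ZFSet.mem_sep] at hz
    obtain ⟨-, a, b, rfl, h⟩ := hz
    have h1 := stepb_mem hW h
    exact ⟨a, (fld_step hW).2 h1.1, b, (fld_step hW).2 h1.2, rfl⟩
  anti a b h h' := stepb_anti hW ((mem_step hW).1 h) ((mem_step hW).1 h')
  trans a b c h h' := (mem_step hW).2 (stepb_trans hW ((mem_step hW).1 h) ((mem_step hW).1 h'))
  min c hc hne := by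
    by_cases hex : ∃ x ∈ c, x ∈ fld W
    · have h1 : ZFSet.sep (fun x => x ∈ fld W) c ⊆ fld W := fun x hx => (ZFSet.mem_sep.1 hx).2
      have h2 : ZFSet.sep (fun x => x ∈ fld W) c ≠ ∅ := by
        intro he
        obtain ⟨x, hx, hx'⟩ := hex
        have h3 : x ∈ ZFSet.sep (fun x => x ∈ fld W) c := ZFSet.mem_sep.2 ⟨hx, hx'⟩
        rw [he] at h3
        exact ZFSet.notMem_empty x h3
      obtain ⟨m, hm, hmin⟩ := hW.min _ h1 h2
      rw [ZFSet.mem_sep] at hm
      refine ⟨m, hm.1, fun z hz => ?_⟩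
      rw [mem_step hW]
      rcases (fld_step hW).1 (hc hz) with hz' | hz'
      · exact Or.inl (hmin z (ZFSet.mem_sep.2 ⟨hz, hz'⟩))
      · exact Or.inr (Or.inl ⟨hm.2, hz'⟩)
    · have hnew : ∀ z ∈ c, New B W z := by
        intro z hz
        rcases (fld_step hW).1 (hc hz) with hz' | hz'
        · exact (hex ⟨z, hz, hz'⟩).elim
        · exact hz'
      obtain ⟨z0, hz0⟩ : ∃ z, z ∈ c := by
        by_contra hno
        push Not at hno
        exact hne ((ZFSet.eq_empty c).2 hno)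
      obtain ⟨p0, q0, θ0, hl0⟩ := exists_least hW (hnew z0 hz0).2
      obtain ⟨p, q, θ, ⟨m, hm, hlm⟩, hmin⟩ := clt_min hW
        (C := fun p q θ => ∃ z ∈ c, Least B W z p q θ)
        (fun p q θ h => by
          obtain ⟨z, -, hl⟩ := h
          exact ⟨hl.1.hp, hl.1.hq⟩) ⟨p0, q0, θ0, z0, hz0, hl0⟩
      refine ⟨m, hm, fun z hz => ?_⟩
      rw [mem_step hW]
      obtain ⟨p', q', θ', hl'⟩ := exists_least hW (hnew z hz).2
      refine Or.inr (Or.inr ⟨hnew m hm, hnew z hz, ?_⟩)
      rcases clt_trichotomy (θ := θ) (θ' := θ') hW hlm.1.hp hlm.1.hq hl'.1.hp hl'.1.hq with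
        h | ⟨rfl, rfl, rfl⟩ | h
      · exact Or.inr ⟨p, q, θ, p', q', θ', hlm, hl', h⟩
      · exact Or.inl (hlm.1.eq.trans hl'.1.eq.symm)
      · exact (hmin p' q' θ' ⟨z, hz, hl'⟩ h).elim

theorem trans_step (ht : (fld W).IsTransitive) : (fld (step B W)).IsTransitive := by
  intro y hy x hx
  rw [fld_step hW] at hy ⊢
  left
  rcases hy with hy | ⟨-, p, q, θ, hc⟩
  · exact ht y hy hx
  · rw [hc.eq, Hh, ZFSet.mem_sep] at hx
    exact hx.1

theorem level_new (hne : ∃ x, x ∈ fld W) : New B W (fld W) := by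
  obtain ⟨x, hx⟩ := hne
  refine ⟨ZFSet.mem_irrefl _, x, x, .eq 0 0, ⟨Fml.Delta0.eq 0 0, hx, hx, ?_⟩⟩
  ext z
  rw [Hh, ZFSet.mem_sep]
  exact ⟨fun h => ⟨h, rfl⟩, fun h => h.1⟩

end

end Pool.Agent.H52.OM
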