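import Pool.Agent.H52.OM.ZfcA

/-!
# OM-10: a transitive class that is a union of elementary submodels is a model of ZFC

PROOF.  Use `models_iff` (Defs): `Models K ψ ↔ ∀ f : ℕ → ZFSet, (∀ i, f i ∈ K) → SatIn K ψ f`, and unfold the axioms (Defs of `H17/Omega`).  `∅ ∈ K`: `sep` with a contradictory `D0` predicate.
Because `K` is transitive, `z ∈ x ∈ K` implies `z ∈ K`, so quantifiers over the elements of elements of `K` are absolute.
* Extensionality, Foundation (`ZFSet.regularity` / minimal rank), Pairing (`upair`), Union (`sUn`), Infinity (`inf`; `ins natZ`: `insert (natZ n) (natZ n) = natZ (n+1)`; membership `mem_omZ`).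
* Power set: for `x ∈ K` let `p ∈ K` be from `pow`; `{z ∈ p : z ⊆ x} ∈ K` by `sep` (`D0.subset`).
* Separation: given `x` and the parameters `f` (only finitely many matter: `satIn_congr`), use `refl` for an element `a ∈ K` that codes `x` and these finitely many parameters (pairs), so that all of them are in a transitive
  `v ∈ K` with `SatIn (El v) φ g ↔ SatIn K φ g` for all `g` with values in `v`; replace the irrelevant values of `f` by an element of `v`; then `{z ∈ x : SatIn K φ ..} = {z ∈ x : SatIn (El v) φ ..} ∈ K` by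
  `sep_satIn_mem` (OM-9).
* Replacement: with `v` as above for the formula `ex 1 φ` and `φ`: for `z ∈ x ⊆ v` the unique `y ∈ K` with `φ(z, y)` is in `v` by elementarity; the image is `{y ∈ v : SatIn (El v) (ex 0 (and (mem 0 n) φ)) ..} ∈ K`.
* Choice (in the form of `axChoice`: a family `x` of nonempty pairwise disjoint sets has a transversal): `⋃ x ∈ K`, `wo` gives `W ∈ K`, `WO W`, `⋃ x ⊆ fld W`; the transversal is
  `{z ∈ ⋃ x : ∃ y ∈ x, z ∈ y ∧ ∀ z' ∈ y, pair z z' ∈ W} ∈ K` by `sep` (`D0.pairMem`), with exactly one element in every `y ∈ x` (`WO.min`, `WO.anti`).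
Feel free to split into lemmas, one for each axiom.
-/

set_option autoImplicit false
set_option linter.unusedVariables false
set_option linter.unusedSectionVars false
set_option linter.unusedSimpArgs false
set_option linter.deprecated false

universe u v w

open scoped ZFSet

namespace Pool.Agent.H52.OM

open Pool.Agent.H17.Omega Pool.Agent.H82.OC

theorem UK.choice_aux {K : Set ZFSet.{u}} (h : UK K) {x : ZFSet.{u}} (hx : x ∈ K)
    (h1 : ∀ y ∈ x, ∃ z, z ∈ y) (h2 : ∀ y ∈ x, ∀ y' ∈ x, ∀ z, z ∈ y → z ∈ y' → y = y') :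
    ∃ c ∈ K, ∀ y ∈ x, ∃ a ∈ K, ∀ z, (z ∈ y ∧ z ∈ c) ↔ z = a := by
  obtain ⟨W, hW, hWO, hsub⟩ := h.wo _ (h.sUn x hx)
  have hD : D0 (fun v : Fin 3 → ZFSet.{u} =>
      ∃ y ∈ v 0, v 2 ∈ y ∧ ∀ z' ∈ y, ZFSet.pair (v 2) z' ∈ v 1) :=
    D0.bexZ (p := fun (v : Fin 3 → ZFSet.{u}) y => v 2 ∈ y ∧ ∀ z' ∈ y, ZFSet.pair (v 2) z' ∈ v 1)
      (D0T.var 0)
      ((D0.mem (D0T.var _) D0T.last).and (D0.ballZ
        (p := fun (v : Fin 4 → ZFSet.{u}) z' => ZFSet.pair (v 2) z' ∈ v 1) D0T.last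
        (D0.pairMem (D0T.var _) D0T.last (D0T.var _))))
  have hc := h.sep hD (fun i : Fin 2 => if i = 0 then x else W) (by
    intro i
    split_ifs
    · exact hx
    · exact hW) _ (h.sUn x hx)
  refine ⟨_, hc, ?_⟩
  intro y hy
  have hyf : y ⊆ fld W := fun z hz => hsub (ZFSet.mem_sUnion.2 ⟨y, hy, hz⟩)
  obtain ⟨m, hm, hmin⟩ := hWO.min y hyf (by
    rintro rfl
    obtain ⟨z, hz⟩ := h1 _ hy
    exact ZFSet.notMem_empty _ hz)
  refine ⟨m, h.tr _ (h.tr _ hx _ hy) _ hm, fun z => ?_⟩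
  rw [ZFSet.mem_sep]
  constructor
  · rintro ⟨hz, -, y', hy', hz', hall⟩
    have hyy : y = y' := h2 y hy y' hy' z hz hz'
    subst hyy
    exact hWO.anti _ _ (hall m hm) (hmin z hz)
  · rintro rfl
    exact ⟨hm, ZFSet.mem_sUnion.2 ⟨y, hy, hm⟩, y, hy, hm, hmin⟩

theorem UK.models_choice {K : Set ZFSet.{u}} (h : UK K) : Models K axChoice := by
  rw [models_iff]
  intro f hf
  simp only [axChoice, SatIn, Fml.iff]
  intro x hx hxx
  obtain ⟨hne, hdis⟩ := hxx
  simp [upd] at hne hdis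
  obtain ⟨c, hc, hall⟩ := h.choice_aux hx (fun y hy => by
      obtain ⟨z, -, hz⟩ := hne y (h.tr _ hx _ hy) hy
      exact ⟨z, hz⟩) (fun y hy y' hy' z hz hz' =>
      hdis y (h.tr _ hx _ hy) y' (h.tr _ hx _ hy') hy hy' z (h.tr _ (h.tr _ hx _ hy) _ hz) hz hz')
  refine ⟨c, hc, ?_⟩
  simp [upd]
  intro y hyK hy
  obtain ⟨a, ha, hz⟩ := hall y hy
  exact ⟨a, ha, fun z hzK => ⟨fun h1 h2 => (hz z).1 ⟨h1, h2⟩, fun h1 => (hz z).2 h1⟩⟩

theorem UK.models_ext {K : Set ZFSet.{u}} (h : UK K) : Models K axExt := by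
  rw [models_iff]
  intro f hf
  simp only [axExt, SatIn, Fml.iff]
  intro x hx y hy hxy
  simp [upd] at hxy ⊢
  ext z
  constructor
  · intro hz
    exact (hxy z (h.tr _ hx _ hz)).1 hz
  · intro hz
    exact (hxy z (h.tr _ hy _ hz)).2 hz

theorem UK.models_found {K : Set ZFSet.{u}} (h : UK K) : Models K axFound := by
  rw [models_iff]
  intro f hf
  simp only [axFound, SatIn, Fml.not]
  intro x hx hxy
  simp [upd] at hxy ⊢
  obtain ⟨y, hyK, hy⟩ := hxy
  obtain ⟨m, hm, hmin⟩ := ZFSet.regularity x (by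
    rintro rfl
    exact ZFSet.notMem_empty _ hy)
  refine ⟨m, h.tr _ hx _ hm, hm, fun z _ hz hz' => ?_⟩
  rw [ZFSet.eq_empty] at hmin
  exact hmin z (ZFSet.mem_inter.2 ⟨hz, hz'⟩)

theorem UK.models_pair {K : Set ZFSet.{u}} (h : UK K) : Models K axPair := by
  rw [models_iff]
  intro f hf
  simp only [axPair, SatIn, Fml.iff]
  intro x hx y hy
  refine ⟨_, h.upair x hx y hy, ?_⟩
  simp [upd]

theorem UK.models_union {K : Set ZFSet.{u}} (h : UK K) : Models K axUnion := by
  rw [models_iff]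
  intro f hf
  simp only [axUnion, SatIn, Fml.iff]
  intro x hx
  refine ⟨_, h.sUn x hx, ?_⟩
  simp [upd]
  intro z hz
  refine ⟨fun y hy hzy => ⟨y, h.tr _ hx _ hy, hy, hzy⟩, fun y _ hy hzy => ⟨y, hy, hzy⟩⟩

theorem UK.models_power {K : Set ZFSet.{u}} (h : UK K) : Models K axPower := by
  rw [models_iff]
  intro f hf
  simp only [axPower, SatIn, Fml.iff]
  intro x hx
  obtain ⟨p, hp, hpow⟩ := h.pow x hx
  have hD : D0 (fun v : Fin 2 → ZFSet.{u} => v 1 ⊆ v 0) := D0.subset (D0T.var _) (D0T.var _)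
  have hc := h.sep hD (fun _ : Fin 1 => x) (fun _ => hx) p hp
  refine ⟨_, hc, ?_⟩
  simp [upd]
  intro z hz
  constructor
  · intro _ hzx w _ hw
    exact hzx hw
  · intro hzx
    have h1 : z ⊆ x := fun w hw => hzx w (h.tr _ hz _ hw) hw
    exact ⟨hpow z hz h1, h1⟩

theorem UK.models_inf {K : Set ZFSet.{u}} (h : UK K) : Models K axInf := by
  rw [models_iff]
  intro f hf
  simp only [axInf, SatIn, Fml.iff, Fml.not]
  have hn : ∀ n, natZ n ∈ omZ.{u} := fun n => mem_omZ.2 ⟨n, rfl⟩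
  refine ⟨omZ, h.inf, ⟨natZ 0, h.tr _ h.inf _ (hn 0), ?_⟩, ?_⟩
  · simp [upd]
    refine ⟨hn 0, fun z _ hz => ?_⟩
    exact ZFSet.notMem_empty _ hz
  · intro y hy
    simp [upd]
    intro hy'
    obtain ⟨n, rfl⟩ := mem_omZ.1 hy'
    refine ⟨natZ (n + 1), h.tr _ h.inf _ (hn (n + 1)), hn (n + 1), fun z _ => ?_⟩
    have h1 : z ∈ natZ (n + 1) ↔ z = natZ n ∨ z ∈ natZ n := by
      rw [natZ, ZFSet.mem_insert_iff]
    rw [h1]
    tauto

theorem UK.zfc {K : Set ZFSet.{u}} (h : UK K) (ψ : Fml) (hψ : ZFC ψ) : Models K ψ := by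
  cases hψ with
  | ext => exact h.models_ext
  | found => exact h.models_found
  | pair => exact h.models_pair
  | union => exact h.models_union
  | power => exact h.models_power
  | inf => exact h.models_inf
  | choice => exact h.models_choice
  | sep φ => exact h.models_sep φ
  | repl φ => exact h.models_repl φ

end Pool.Agent.H52.OM
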