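import Pool.Agent.H52.OM.LimKb
import Pool.Agent.H52.OM.ZfcB
import Pool.Agent.H52.OM.Card

/-!
# OM-12: the level `κ` of the hierarchy satisfies ZFC

PROOF.  `K = KL B w κ.ord`.  We verify the fields of `UK`: `tr`: `trans_Wl`; `ne`, `upair`, `sUn`, `sep`, `inf` from `LimKa`, `LimKb` (`κ.ord` is a limit ordinal `> ω`); `wo`: `x ∈ fld (Wl δ)`, `δ < κ`, `W = Wl δ ∈ K`
(`Wl_mem_KL`, `wo_Wl`), `x ⊆ fld (Wl δ)` by transitivity.
`pow`: let `x ∈ K`; for `z ∈ K`, `z ⊆ x` let `g z` be the least `δ < κ.ord` with `z ∈ fld (Wl δ)` (`fld_Wl_limit`), `g z = 0` otherwise; `ZFSet.powerset x` has rank `< κ.ord` (`x ∈ fld (Wl δ)` has rank `< κ.ord` by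
`rank_Wl`), so `exists_bound` gives `γ < κ.ord` bounding `g` on `powerset x`; `p = fld (Wl γ) ∈ K` (`level_mem`, `fld_mono`, `Wl_mono`).
`refl`: let `x ∈ K`.  For `δ < κ.ord` there is `δ' < κ.ord`, `δ < δ'`, such that for all `φ k` and `f : ℕ → L_δ`: `(∃ y ∈ K, SatIn K φ (upd f k y)) → ∃ y ∈ L_δ', SatIn K φ (upd f k y)`: `exists_bound_seq` (OM-11) for the least
level that contains a witness (index type `Fml × ℕ`).  Iterate: `δ_0` with `x ∈ L_{δ_0}`, `δ_{n+1} = (δ_n)'`, `δ = sup δ_n < κ.ord` (regularity, `κ` uncountable), a limit ordinal; `v = L_δ = fld (Wl δ) ∈ K` (`level_mem`).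
Tarski-Vaught: by induction on `φ`: for all `f` with values in `L_δ`: `SatIn (El v) φ f ↔ SatIn K φ f`.  For `ex k φ`: if `y ∈ K` with `SatIn K φ (upd f k y)`: only the values `f i`, `i < φ.bd`, matter (`satIn_congr`); replace
the others by `f 0`; then all values are in some `L_{δ_n}` (finitely many values), so there is a witness in `L_{δ_{n+1}} ⊆ L_δ`.  `all k φ`: apply the witness property to `imp φ bot`, or reduce to the negation.
-/

set_option autoImplicit false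
set_option linter.unusedVariables false
set_option linter.unusedSectionVars false
set_option linter.unusedSimpArgs false
set_option linter.deprecated false

universe u v w

open scoped ZFSet

namespace Pool.Agent.H52.OM

open Pool.Agent.H17.Omega Pool.Agent.H82.OC

section kappa_aux

theorem kap_rank_fld {W x : ZFSet.{u}} (hx : x ∈ fld W) : x.rank < W.rank := by
  have h1 : ZFSet.pair x x ∈ W := mem_fld.1 hx
  have h2 := ZFSet.rank_lt_of_mem h1
  have h3 : x.rank < (ZFSet.pair x x).rank := by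
    rw [ZFSet.pair]
    have h4 : ({x} : ZFSet.{u}) ∈ ({{x}, {x, x}} : ZFSet.{u}) := by
      rw [ZFSet.mem_pair]
      exact Or.inl rfl
    have h5 : x ∈ ({x} : ZFSet.{u}) := ZFSet.mem_singleton.2 rfl
    exact (ZFSet.rank_lt_of_mem h5).trans (ZFSet.rank_lt_of_mem h4)
  exact h3.trans h2

variable {κ : Cardinal.{u}} {B : ZFSet.{u} → Prop} {w : ZFSet.{u}}

theorem kap_lim (hκ : κ.IsInaccessible) : Order.IsSuccLimit κ.ord :=
  Cardinal.isSuccLimit_ord hκ.isRegular.aleph0_le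

theorem kap_rank_level (hκ : κ.IsInaccessible) (hwr : w.rank < κ.ord) {δ : Ordinal.{u}}
    (hδ : δ < κ.ord) {x : ZFSet.{u}} (hx : x ∈ fld (Wl B w δ)) : x.rank < κ.ord :=
  (kap_rank_fld hx).trans (rank_Wl hκ hwr hδ)

theorem kap_next (hκ : κ.IsInaccessible) (hw : WO w) (hne : ∃ x, x ∈ fld w)
    (hwr : w.rank < κ.ord) {δ : Ordinal.{u}} (hδ : δ < κ.ord) :
    ∃ δ', δ < δ' ∧ δ' < κ.ord ∧ ∀ (φ : Fml) (k : ℕ) (f : ℕ → ZFSet.{u}),
      (∀ n, f n ∈ fld (Wl B w δ)) → (∃ y ∈ KL B w κ.ord, SatIn (KL B w κ.ord) φ (upd f k y)) →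
      ∃ y ∈ fld (Wl B w δ'), SatIn (KL B w κ.ord) φ (upd f k y) := by
  classical
  have hlim := kap_lim hκ
  have : Countable Fml := Fml.code_injective.countable
  let Q : Fml × ℕ → (ℕ → ZFSet.{u}) → Prop := fun i f =>
    ∃ ε, ε < κ.ord ∧ ∃ y ∈ fld (Wl B w ε), SatIn (KL B w κ.ord) i.1 (upd f i.2 y)
  let g : Fml × ℕ → (ℕ → ZFSet.{u}) → Ordinal.{u} := fun i f =>
    if h : Q i f then h.choose else 0
  have hrk : (fld (Wl B w δ)).rank < κ.ord :=
    kap_rank_level hκ hwr (hlim.succ_lt hδ) (level_mem hw (Order.lt_succ δ) hne)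
  obtain ⟨γ, hγ, hb⟩ := exists_bound_seq hκ hrk (g := g) (by
    intro i f _
    by_cases h : Q i f
    · simp only [g, dif_pos h]
      exact h.choose_spec.1
    · simp only [g, dif_neg h]
      exact hlim.bot_lt)
  refine ⟨max γ (Order.succ δ), (Order.lt_succ δ).trans_le (le_max_right _ _),
    max_lt hγ (hlim.succ_lt hδ), ?_⟩
  rintro φ k f hf ⟨y, hy, hs⟩
  have hQ : Q (φ, k) f := by
    obtain ⟨ε, hε, hy'⟩ := (fld_Wl_limit hw hlim).1 hy
    exact ⟨ε, hε, y, hy', hs⟩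
  have h1 := hb (φ, k) f hf
  simp only [g, dif_pos hQ] at h1
  obtain ⟨z, hz, hs'⟩ := hQ.choose_spec.2
  exact ⟨z, fld_mono (Wl_mono (h1.trans (le_max_left _ _))) hz, hs'⟩

/-- A level that reflects all formulas. -/
theorem kap_refl (hκ : κ.IsInaccessible) (hw : WO w) (hne : ∃ x, x ∈ fld w)
    (hwr : w.rank < κ.ord) {x : ZFSet.{u}} (hx : x ∈ KL B w κ.ord) :
    ∃ δ, δ < κ.ord ∧ x ∈ fld (Wl B w δ) ∧ ∀ (φ : Fml) (k : ℕ) (f : ℕ → ZFSet.{u}),
      (∀ n, f n ∈ fld (Wl B w δ)) → (∃ y ∈ KL B w κ.ord, SatIn (KL B w κ.ord) φ (upd f k y)) →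
      ∃ y ∈ fld (Wl B w δ), SatIn (KL B w κ.ord) φ (upd f k y) := by
  classical
  have hlim := kap_lim hκ
  obtain ⟨δ₀, hδ₀, hx₀⟩ := (fld_Wl_limit hw hlim).1 hx
  choose F hF1 hF2 hF3 using fun (δ : Set.Iio κ.ord) =>
    kap_next (B := B) hκ hw hne hwr (δ := δ.1) δ.2
  let d : ℕ → Set.Iio κ.ord := fun n => Nat.rec ⟨δ₀, hδ₀⟩ (fun _ δ => ⟨F δ, hF2 δ⟩) n
  have hd0 : (d 0).1 = δ₀ := rfl
  have hds : ∀ n, (d (n + 1)).1 = F (d n) := fun n => rfl
  have hlt : ∀ n, (d n).1 < (d (n + 1)).1 := fun n => by rw [hds]; exact hF1 (d n)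
  have hmono : Monotone fun n => (d n).1 := monotone_nat_of_le_succ fun n => (hlt n).le
  obtain ⟨γ, hγ, hb⟩ := exists_bound_seq hκ (x := ({∅} : ZFSet.{u})) (by
      rw [ZFSet.rank_singleton, ZFSet.rank_empty]
      exact hlim.succ_lt hlim.bot_lt) (ι := ℕ) (g := fun n _ => (d n).1)
    (fun n f _ => (d n).2)
  have hdγ : ∀ n, (d n).1 ≤ γ := fun n => hb n (fun _ => ∅) fun _ => ZFSet.mem_singleton.2 rfl
  set δ : Ordinal.{u} := ⨆ n, (d n).1 with hδdef
  have hle : ∀ n, (d n).1 ≤ δ := fun n => Ordinal.le_iSup (fun n => (d n).1) n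
  have hδκ : δ < κ.ord := (Ordinal.iSup_le hdγ).trans_lt hγ
  have hlt' : ∀ n, (d n).1 < δ := fun n => (hlt n).trans_le (hle (n + 1))
  have hex : ∀ a < δ, ∃ n, a < (d n).1 := fun a ha => (Ordinal.lt_iSup_iff).1 ha
  have hδlim : Order.IsSuccLimit δ := by
    refine ⟨?_, Order.isSuccPrelimit_of_succ_lt fun a ha => ?_⟩
    · intro hmin
      exact absurd (hmin (hlt' 0).le) (not_le.2 (hlt' 0))
    · obtain ⟨n, hn⟩ := hex a ha
      exact (Order.succ_le_of_lt hn).trans_lt (hlt' n)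
  refine ⟨δ, hδκ, fld_mono (Wl_mono (hle 0)) (by rw [hd0]; exact hx₀), ?_⟩
  rintro φ k f hf ⟨y, hy, hs⟩
  have hlev : ∀ i, ∃ n, f i ∈ fld (Wl B w (d n).1) := by
    intro i
    obtain ⟨ε, hε, hi⟩ := (fld_Wl_limit hw hδlim).1 (hf i)
    obtain ⟨n, hn⟩ := hex ε hε
    exact ⟨n, fld_mono (Wl_mono hn.le) hi⟩
  choose N hN using hlev
  let M := (Finset.range (φ.bd + 1)).sup N
  let f' : ℕ → ZFSet.{u} := fun i => if i < φ.bd then f i else f 0
  have hf' : ∀ i, f' i ∈ fld (Wl B w (d M).1) := by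
    intro i
    by_cases hi : i < φ.bd
    · simp only [f', if_pos hi]
      exact fld_mono (Wl_mono (hmono (Finset.le_sup (f := N)
        (Finset.mem_range.2 (by omega))))) (hN i)
    · simp only [f', if_neg hi]
      exact fld_mono (Wl_mono (hmono (Finset.le_sup (f := N)
        (Finset.mem_range.2 (by omega))))) (hN 0)
  have hcg : ∀ y, SatIn (KL B w κ.ord) φ (upd f k y) ↔ SatIn (KL B w κ.ord) φ (upd f' k y) := by
    intro y
    refine satIn_congr fun i hi => ?_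
    unfold upd
    split_ifs with h
    · rfl
    · simp only [f', if_pos hi]
  obtain ⟨z, hz, hs'⟩ := hF3 (d M) φ k f' hf' ⟨y, hy, (hcg y).1 hs⟩
  refine ⟨z, ?_, (hcg z).2 hs'⟩
  rw [← hds] at hz
  exact fld_mono (Wl_mono (hle (M + 1))) hz

theorem kap_tv {K : Set ZFSet.{u}} {v : ZFSet.{u}} (hvK : ∀ x ∈ v, x ∈ K)
    (hW : ∀ (φ : Fml) (k : ℕ) (f : ℕ → ZFSet.{u}), (∀ n, f n ∈ v) →
      (∃ y ∈ K, SatIn K φ (upd f k y)) → ∃ y ∈ v, SatIn K φ (upd f k y)) (φ : Fml) :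
    ∀ f : ℕ → ZFSet.{u}, (∀ i, f i ∈ v) → (SatIn (El v) φ f ↔ SatIn K φ f) := by
  have hupd : ∀ (f : ℕ → ZFSet.{u}) (k : ℕ) (y : ZFSet.{u}), (∀ i, f i ∈ v) → y ∈ v →
      ∀ i, upd f k y i ∈ v := by
    intro f k y hf hy i
    unfold upd
    split_ifs
    · exact hy
    · exact hf i
  induction φ with
  | mem i j => exact fun f _ => Iff.rfl
  | eq i j => exact fun f _ => Iff.rfl
  | bot => exact fun f _ => Iff.rfl
  | imp φ ψ ih1 ih2 => exact fun f hf => imp_congr (ih1 f hf) (ih2 f hf)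
  | and φ ψ ih1 ih2 => exact fun f hf => and_congr (ih1 f hf) (ih2 f hf)
  | or φ ψ ih1 ih2 => exact fun f hf => or_congr (ih1 f hf) (ih2 f hf)
  | all k φ ih =>
    intro f hf
    constructor
    · intro h1 y hy
      by_contra hc
      obtain ⟨z, hz, hs⟩ := hW (.imp φ .bot) k f hf ⟨y, hy, fun h => hc h⟩
      exact hs ((ih _ (hupd f k z hf hz)).1 (h1 z hz))
    · intro h1 y hy
      exact (ih _ (hupd f k y hf hy)).2 (h1 y (hvK y hy))
  | ex k φ ih =>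
    intro f hf
    constructor
    · rintro ⟨y, hy, hs⟩
      exact ⟨y, hvK y hy, (ih _ (hupd f k y hf hy)).1 hs⟩
    · rintro ⟨y, hy, hs⟩
      obtain ⟨z, hz, hs'⟩ := hW φ k f hf ⟨y, hy, hs⟩
      exact ⟨z, hz, (ih _ (hupd f k z hf hz)).2 hs'⟩

end kappa_aux

theorem uk_kappa {κ : Cardinal.{u}} (hκ : κ.IsInaccessible) {B : ZFSet.{u} → Prop} {w : ZFSet.{u}}
    (hw : WO w) (ht : (fld w).IsTransitive) (hne : ∃ x, x ∈ fld w) (hwr : w.rank < κ.ord) :
    UK (KL B w κ.ord) := by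
  classical
  have hlim := kap_lim hκ
  refine ⟨?_, ?_, ?_, ?_, ?_, ?_, ?_, ?_, ?_⟩
  · exact fun x hx y hy => trans_Wl hw ht κ.ord x hx hy
  · obtain ⟨x, hx⟩ := hne
    refine ⟨x, ?_⟩
    have h0 := Wl_mono (B := B) (w := w) (zero_le (a := κ.ord))
    rw [Wl_zero] at h0
    exact fld_mono h0 hx
  · exact fun x hx y hy => KL_upair hw ht hne hlim hx hy
  · exact fun x hx => KL_sUnion hw ht hne hlim hx
  · exact fun hP v hv x hx => KL_sep hw ht hne hlim hP v hv hx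
  · intro x hx
    obtain ⟨δ, hδ, hx'⟩ := (fld_Wl_limit hw hlim).1 hx
    exact ⟨Wl B w δ, Wl_mem_KL hw ht hne hlim hδ, wo_Wl hw δ, trans_Wl hw ht δ x hx'⟩
  · exact omZ_mem_KL hw ht hne hlim (Cardinal.omega0_lt_ord.2 hκ.aleph0_lt)
  · intro x hx
    obtain ⟨δ, hδ, hx'⟩ := (fld_Wl_limit hw hlim).1 hx
    let Q : ZFSet.{u} → Prop := fun z => ∃ ε, ε < κ.ord ∧ z ∈ fld (Wl B w ε)
    let g : ZFSet.{u} → Ordinal.{u} := fun z => if h : Q z then h.choose else 0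
    obtain ⟨γ, hγ, hb⟩ := exists_bound hκ (x := ZFSet.powerset x) (g := g) (by
      rw [ZFSet.rank_powerset]
      exact hlim.succ_lt (kap_rank_level hκ hwr hδ hx')) (by
      intro z _
      by_cases h : Q z
      · simp only [g, dif_pos h]
        exact h.choose_spec.1
      · simp only [g, dif_neg h]
        exact hlim.bot_lt)
    refine ⟨fld (Wl B w γ), level_mem hw hγ hne, fun z hz hzx => ?_⟩
    have hQ : Q z := by
      obtain ⟨ε, hε, hz'⟩ := (fld_Wl_limit hw hlim).1 hz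
      exact ⟨ε, hε, hz'⟩
    have h1 := hb z (ZFSet.mem_powerset.2 hzx)
    simp only [g, dif_pos hQ] at h1
    exact fld_mono (Wl_mono h1) hQ.choose_spec.2
  · intro x hx
    obtain ⟨δ, hδ, hx', hW⟩ := kap_refl hκ hw hne hwr hx
    refine ⟨fld (Wl B w δ), level_mem hw hδ hne, hx', trans_Wl hw ht δ, fun φ f hf => ?_⟩
    exact kap_tv (fun y hy => fld_mono (Wl_mono hδ.le) hy) hW φ f hf

theorem zl_kappa {κ : Cardinal.{u}} (hκ : κ.IsInaccessible) {B : ZFSet.{u} → Prop} {w : ZFSet.{u}}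
    (hw : WO w) (ht : (fld w).IsTransitive) (hne : ∃ x, x ∈ fld w) (hwr : w.rank < κ.ord) :
    Zl B w κ.ord :=
  ⟨kap_lim hκ, fun ψ hψ => (uk_kappa hκ hw ht hne hwr).zfc ψ hψ⟩

end Pool.Agent.H52.OM
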