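import Pool.Agent.H52.OM.ColC
import Pool.Agent.H52.OM.Kappa

/-!
# OM-20: the hierarchy commutes with the collapse; a countable level satisfies ZFC

PROOF.
* `col_Wl`: `w ∈ Z`, `col Z w = w`, `WO w`.  By induction on `γ` (for `γ.toZFSet ∈ Z`): `col Z (Wl γ) = Wl (co Z γ)`.  `Wl γ ∈ Z` by `hZ.lv`.  `y ∈ col Z (Wl γ)` iff `y = col Z z` with `z ∈ Z`, `z ∈ w` or `z ∈ step (Wl δ)` for some `δ < γ`, where we may take `δ.toZFSet ∈ Z` (`hZ.lw`).  In the first
  case `y ∈ col Z w = w`; in the second case `y ∈ col Z (step (Wl δ)) = step (col Z (Wl δ)) = step (Wl (co Z δ))` (`col_step`; `WO (Wl δ)` by `wo_Wl`, `WO (col Z (Wl δ))` because it is `Wl (co Z δ)`), `co Z δ < co Z γ`.  Conversely use `w = col Z w` and `exists_of_lt_co`.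
* `satIn_col`: for `v ∈ Z` and `f` with values in `Z`: `SatIn (El (col Z v)) φ (col Z ∘ f) ↔ SatIn (El v) φ f`: `d0_satIn` (`Rel.lean`; `n = φ.bd`) and `HZ.col_d0`; `satIn_congr` for the values of the variables `≥ n` (`col Z ∅ = ∅`).
* `models_col`: by `models_iff` (Defs): every assignment with values in `El (col Z v)` is `col Z ∘ f` with `f` with values in `Z ∩ v`.
* `exists_countable_Zl`: `HC w` gives a countable transitive `T ∋ w`.  Take an inaccessible `κ` with `w.rank < κ.ord` (`ManyInacc`; `lt_ord` etc.: choose `μ = w.rank.card`, then `w.rank < κ.ord` because `w.rank.card < κ`), `P0 = T ∪ {κ.ord.toZFSet}`, `Z` from `exists_HZ`.  `col Z w = w` by `col_id`.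
  `β = co Z κ.ord`: limit (`co_limit`), countable (`co_countable`).  `KL B w γ = El (fld (Wl B w γ))`.  `zl_kappa` (`Kappa.lean`) gives `Models (KL B w κ.ord) ψ`; `fld (Wl κ.ord) ∈ Z` and `col Z (fld (Wl κ.ord)) = fld (col Z (Wl κ.ord)) = fld (Wl β)` (`col_fld`, `col_Wl`); `models_col`.
-/

set_option autoImplicit false
set_option linter.unusedVariables false
set_option linter.unusedSectionVars false
set_option linter.unusedSimpArgs false
set_option linter.deprecated false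

universe u v w

open scoped ZFSet

namespace Pool.Agent.H52.OM

open Pool.Agent.H17.Omega Pool.Agent.H82.OC

section

variable {A : Set (ℕ → ℕ)} {w : ZFSet.{u}} {Z : Set ZFSet.{u}} (hZ : HZ A w Z)

include hZ

theorem HZ.col_Wl (hw : WO w) (hwZ : w ∈ Z) (hcw : col Z w = w) (γ : Ordinal.{u}) (hγ : γ.toZFSet ∈ Z) :
    col Z (Wl (BB A) w γ) = Wl (BB A) w (co Z γ) := by
  induction γ using WellFoundedLT.induction with
  | ind γ ih =>
    have key : ∀ δ < γ, δ.toZFSet ∈ Z →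
        col Z (step (BB A) (Wl (BB A) w δ)) = step (BB A) (Wl (BB A) w (co Z δ)) := by
      intro δ hδ hδZ
      rw [← ih δ hδ hδZ]
      refine hZ.col_step (hZ.lv δ hδZ) (wo_Wl hw δ) ?_
      rw [ih δ hδ hδZ]
      exact wo_Wl hw _
    ext y
    constructor
    · intro hy
      obtain ⟨z, hz, hzZ, rfl⟩ := mem_col.1 hy
      rcases (mem_Wl _).1 hz with h | ⟨δ, hδ, h⟩
      · refine (mem_Wl _).2 (Or.inl ?_)
        rw [← hcw]
        exact mem_col.2 ⟨z, h, hzZ, rfl⟩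
      · obtain ⟨δ, hδ, hδZ, h⟩ := hZ.lw γ hγ z hzZ ⟨δ, hδ, h⟩
        refine (mem_Wl _).2 (Or.inr ⟨co Z δ, hZ.co_lt hγ hδZ hδ, ?_⟩)
        rw [← key δ hδ hδZ]
        exact mem_col.2 ⟨z, h, hzZ, rfl⟩
    · intro hy
      rcases (mem_Wl _).1 hy with h | ⟨ε, hε, h⟩
      · rw [← hcw] at h
        obtain ⟨z, hz, hzZ, rfl⟩ := mem_col.1 h
        exact mem_col.2 ⟨z, (mem_Wl _).2 (Or.inl hz), hzZ, rfl⟩
      · obtain ⟨δ, hδ, hδZ, rfl⟩ := hZ.exists_of_lt_co hγ hε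
        rw [← key δ hδ hδZ] at h
        obtain ⟨z, hz, hzZ, rfl⟩ := mem_col.1 h
        exact mem_col.2 ⟨z, (mem_Wl _).2 (Or.inr ⟨δ, hδ, hz⟩), hzZ, rfl⟩

theorem HZ.satIn_col {v : ZFSet.{u}} (hv : v ∈ Z) (φ : Fml) {f : ℕ → ZFSet.{u}} (hf : ∀ i, f i ∈ Z) :
    SatIn (El (col Z v)) φ (fun i => col Z (f i)) ↔ SatIn (El v) φ f := by
  have h := hZ.col_d0 (d0_satIn φ φ.bd le_rfl)
    (fun i : Fin (φ.bd + 1) => if i = Fin.last φ.bd then v else f i) (by
      intro i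
      split_ifs
      · exact hv
      · exact hf _)
  have e1 : ∀ i : ℕ, ∀ hi : i < φ.bd, (⟨i, Nat.lt_succ_of_lt hi⟩ : Fin (φ.bd + 1)) ≠ Fin.last φ.bd := by
    intro i hi he
    have := congrArg Fin.val he
    simp only [Fin.val_last] at this
    omega
  simp only [if_true] at h
  refine (satIn_congr ?_).trans (h.trans (satIn_congr ?_))
  · intro i hi
    rw [dif_pos hi, if_neg (e1 i hi)]
  · intro i hi
    rw [dif_pos hi, if_neg (e1 i hi)]

theorem HZ.models_col {v : ZFSet.{u}} (hv : v ∈ Z) {φ : Fml} (h : Models (El v) φ) :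
    Models (El (col Z v)) φ := by
  rw [models_iff] at h ⊢
  intro g hg
  have h1 : ∀ i, ∃ y ∈ v, y ∈ Z ∧ g i = col Z y := fun i => mem_col.1 (hg i)
  choose f hf1 hf2 hf3 using h1
  have hgf : g = fun i => col Z (f i) := funext hf3
  rw [hgf, hZ.satIn_col hv φ hf2]
  exact h f hf1

end

theorem exists_countable_Zl (hI : ManyInacc.{u}) {A : Set (ℕ → ℕ)} (hA : UB.{u} A) {w x : ZFSet.{u}}
    (hc : HC w) (hw : WOn w x) : ∃ β : Ordinal.{u}, β.card ≤ Cardinal.aleph0 ∧ Zl (BB A) w β := by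
  obtain ⟨T, hTc, hTt, hwT⟩ := hc
  obtain ⟨κ, hμ, hκ⟩ := hI w.rank.card
  have hwr : w.rank < κ.ord := Cardinal.lt_ord.2 hμ
  obtain ⟨Z, hPZ, hZ⟩ := exists_HZ hA w (P0 := T ∪ {κ.ord.toZFSet}) (hTc.union (Set.countable_singleton _))
  have hTZ : T ⊆ Z := fun a ha => hPZ (Or.inl ha)
  have hκZ : κ.ord.toZFSet ∈ Z := hPZ (Or.inr rfl)
  have hcw : col Z w = w := col_id hTt hTZ hwT
  have hzl := zl_kappa (B := BB A) hκ hw.wo hw.tr ⟨x, hw.mem⟩ hwr
  refine ⟨co Z κ.ord, hZ.co_countable hκZ, hZ.co_limit hκZ hzl.1, fun ψ hψ => ?_⟩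
  have hWZ := hZ.lv κ.ord hκZ
  have h1 := hZ.models_col (hZ.fl _ hWZ) (hzl.2 ψ hψ)
  rw [hZ.col_fld hWZ (wo_Wl hw.wo _), hZ.col_Wl hw.wo (hTZ hwT) hcw κ.ord hκZ] at h1
  exact h1

end Pool.Agent.H52.OM
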