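import Pool.Agent.H17.Omega.D0
import Pool.Agent.H17.Omega.Collapse
import Pool.Agent.H82.OC.UBcl

/-!
# OM: Omega-provability and code-invariant universally Baire Skolem functions (MP_6e6bcb_lc, T6): definitions

Plan (`V = ZFSet`, `A` universally Baire).

* `BB A z`: `z = ((P, R), (r, T))`, `R` a preorder on `P`, `T` a downward closed relation between conditions and pairs of
  numbers (`q` forces `τ(i) = j`), and there are countably many dense sets such that every descending sequence below `r` that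
  meets them evaluates `T` to a member of `A` (`r` forces that the real with the name `T` is in `A`).
* `Wl B w γ`: canonical wellorder of the `γ`-th level `fld (Wl B w γ)` of the constructible hierarchy relative to the predicate `B`
  over a wellorder `w` of a transitive set.  New elements of level `γ + 1`: all sets `{z ∈ L : θ(z, L, W, B ∩ L, p, q)}` with
  `θ` a `Δ₀` formula, `L = fld W`, `W = Wl B w γ`, `p, q ∈ L`.
-/

set_option autoImplicit false
set_option linter.unusedVariables false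
set_option linter.unusedSectionVars false
set_option linter.unusedSimpArgs false
set_option linter.deprecated false

universe u v w

open scoped ZFSet

namespace Pool.Agent.H52.OM

open Pool.Agent.H17.Omega Pool.Agent.H82.OC

/-! ## Wellorders as sets -/

/-- The field of a reflexive relation. -/
noncomputable def fld (W : ZFSet.{u}) : ZFSet.{u} :=
  ZFSet.sep (fun x => ZFSet.pair x x ∈ W) (ZFSet.sUnion (ZFSet.sUnion W))

theorem mem_fld {W x : ZFSet.{u}} : x ∈ fld W ↔ ZFSet.pair x x ∈ W := by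
  rw [fld, ZFSet.mem_sep]
  refine ⟨fun h => h.2, fun h => ⟨?_, h⟩⟩
  exact (mem_sUnion_sUnion_pair h).1

/-- `W` is a (reflexive) wellorder, as a set of pairs. -/
structure WO (W : ZFSet.{u}) : Prop where
  rel : ∀ z ∈ W, ∃ a ∈ fld W, ∃ b ∈ fld W, z = ZFSet.pair a b
  anti : ∀ a b, ZFSet.pair a b ∈ W → ZFSet.pair b a ∈ W → a = b
  trans : ∀ a b c, ZFSet.pair a b ∈ W → ZFSet.pair b c ∈ W → ZFSet.pair a c ∈ W
  min : ∀ c, c ⊆ fld W → c ≠ ∅ → ∃ m ∈ c, ∀ z ∈ c, ZFSet.pair m z ∈ W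

/-- `w` is a wellorder of a transitive set that contains `x`. -/
structure WOn (w x : ZFSet.{u}) : Prop where
  wo : WO w
  tr : (fld w).IsTransitive
  mem : x ∈ fld w

/-! ## The hierarchy -/

section Hierarchy

variable (B : ZFSet.{u} → Prop)

/-- The parameters of the definable sets: `L`, `W`, `B ∩ L`, `p`, `q`, and the element `z`. -/
noncomputable def asH (W p q z : ZFSet.{u}) : ℕ → ZFSet.{u}
  | 0 => z
  | 1 => fld W
  | 2 => W
  | 3 => ZFSet.sep B (fld W)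
  | 4 => p
  | 5 => q
  | _ => ∅

/-- `{z ∈ L : θ(z, L, W, B ∩ L, p, q)}`, `L = fld W`. -/
noncomputable def Hh (W p q : ZFSet.{u}) (θ : Fml) : ZFSet.{u} :=
  ZFSet.sep (fun z => Sat (fun a b : ZFSet.{u} => a ∈ b) θ (asH B W p q z)) (fld W)

/-- `(p, q, θ)` is a definition of `z`. -/
structure IsCode (W z p q : ZFSet.{u}) (θ : Fml) : Prop where
  d0 : θ.Delta0
  hp : p ∈ fld W
  hq : q ∈ fld W
  eq : z = Hh B W p q θ

/-- Lexicographic (strict) order of definitions. -/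
def CLt (W p q : ZFSet.{u}) (θ : Fml) (p' q' : ZFSet.{u}) (θ' : Fml) : Prop :=
  (ZFSet.pair p p' ∈ W ∧ p ≠ p') ∨ (p = p' ∧ ZFSet.pair q q' ∈ W ∧ q ≠ q') ∨
    (p = p' ∧ q = q' ∧ θ.code < θ'.code)

/-- `(p, q, θ)` is the least definition of `z`. -/
def Least (W z p q : ZFSet.{u}) (θ : Fml) : Prop :=
  IsCode B W z p q θ ∧ ∀ p' q' θ', IsCode B W z p' q' θ' → ¬ CLt W p' q' θ' p q θ

/-- `z` is a new element. -/
def New (W z : ZFSet.{u}) : Prop := z ∉ fld W ∧ ∃ p q θ, IsCode B W z p q θ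

/-- The wellorder of the next level. -/
def StepR (W a b : ZFSet.{u}) : Prop :=
  ZFSet.pair a b ∈ W ∨ (a ∈ fld W ∧ New B W b) ∨ (New B W a ∧ New B W b ∧
    (a = b ∨ ∃ p q θ p' q' θ', Least B W a p q θ ∧ Least B W b p' q' θ' ∧ CLt W p q θ p' q' θ'))

/-- The wellorder of the next level, as a set. -/
noncomputable def step (W : ZFSet.{u}) : ZFSet.{u} :=
  ZFSet.sep (fun z => ∃ a b, z = ZFSet.pair a b ∧ StepR B W a b)
    (ZFSet.prod (fld W ∪ ZFSet.powerset (fld W)) (fld W ∪ ZFSet.powerset (fld W)))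

/-- The canonical wellorder of the `γ`-th level. -/
noncomputable def Wl (w : ZFSet.{u}) (γ : Ordinal.{u}) : ZFSet.{u} :=
  w ∪ ZFSet.sUnion (ZFSet.range (fun δ : Set.Iio γ => step B (Wl w δ.1)))
termination_by γ
decreasing_by exact δ.2

theorem mem_Wl {w : ZFSet.{u}} {γ : Ordinal.{u}} {z : ZFSet.{u}} :
    z ∈ Wl B w γ ↔ z ∈ w ∨ ∃ δ < γ, z ∈ step B (Wl B w δ) := by
  rw [Wl, ZFSet.mem_union]
  simp only [ZFSet.mem_sUnion, ZFSet.mem_range]
  constructor
  · rintro (h | ⟨y, ⟨δ, rfl⟩, h⟩)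
    · exact Or.inl h
    · exact Or.inr ⟨δ.1, δ.2, h⟩
  · rintro (h | ⟨δ, hδ, h⟩)
    · exact Or.inl h
    · exact Or.inr ⟨_, ⟨⟨δ, hδ⟩, rfl⟩, h⟩

/-- The `γ`-th level, as a set of `ZFSet`s. -/
def KL (w : ZFSet.{u}) (γ : Ordinal.{u}) : Set ZFSet.{u} := {x | x ∈ fld (Wl B w γ)}

/-- The level `γ` is a limit level that satisfies ZFC. -/
def Zl (w : ZFSet.{u}) (γ : Ordinal.{u}) : Prop :=
  Order.IsSuccLimit γ ∧ ∀ ψ, ZFC ψ → Models (KL B w γ) ψ

/-- The first limit level that satisfies ZFC. -/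
noncomputable def bet (w : ZFSet.{u}) : Ordinal.{u} := sInf {γ | Zl B w γ}

end Hierarchy

/-! ## Satisfaction in a set -/

/-- `φ(f)` holds in `(K, ∈)`. -/
def SatIn (K : Set ZFSet.{u}) : Fml → (ℕ → ZFSet.{u}) → Prop
  | .mem i j, f => f i ∈ f j
  | .eq i j, f => f i = f j
  | .bot, _ => False
  | .imp φ ψ, f => SatIn K φ f → SatIn K ψ f
  | .and φ ψ, f => SatIn K φ f ∧ SatIn K ψ f
  | .or φ ψ, f => SatIn K φ f ∨ SatIn K ψ f
  | .all k φ, f => ∀ x ∈ K, SatIn K φ (upd f k x)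
  | .ex k φ, f => ∃ x ∈ K, SatIn K φ (upd f k x)

theorem satIn_iff {K : Set ZFSet.{u}} {φ : Fml} : ∀ (f : ℕ → K),
    Sat (fun a b : K => a.1 ∈ b.1) φ f ↔ SatIn K φ (fun i => (f i).1) := by
  induction φ with
  | mem i j => exact fun f => Iff.rfl
  | eq i j => exact fun f => Subtype.ext_iff
  | bot => exact fun f => Iff.rfl
  | imp φ ψ ih1 ih2 => exact fun f => imp_congr (ih1 f) (ih2 f)
  | and φ ψ ih1 ih2 => exact fun f => and_congr (ih1 f) (ih2 f)
  | or φ ψ ih1 ih2 => exact fun f => or_congr (ih1 f) (ih2 f)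
  | all k φ ih =>
    intro f
    have h : ∀ x : K, (fun i => (upd f k x i).1) = upd (fun i => (f i).1) k x.1 := by
      intro x; funext i; unfold upd; split_ifs <;> rfl
    constructor
    · intro h1 x hx
      have := (ih _).1 (h1 ⟨x, hx⟩)
      rwa [h] at this
    · intro h1 x
      refine (ih _).2 ?_
      rw [h]; exact h1 x.1 x.2
  | ex k φ ih =>
    intro f
    have h : ∀ x : K, (fun i => (upd f k x i).1) = upd (fun i => (f i).1) k x.1 := by
      intro x; funext i; unfold upd; split_ifs <;> rfl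
    constructor
    · rintro ⟨x, h1⟩
      refine ⟨x.1, x.2, ?_⟩
      have := (ih _).1 h1
      rwa [h] at this
    · rintro ⟨x, hx, h1⟩
      refine ⟨⟨x, hx⟩, (ih _).2 ?_⟩
      rw [h]; exact h1

theorem models_iff {K : Set ZFSet.{u}} {φ : Fml} :
    Models K φ ↔ ∀ f : ℕ → ZFSet.{u}, (∀ i, f i ∈ K) → SatIn K φ f := by
  constructor
  · intro h f hf
    exact (satIn_iff (fun i => (⟨f i, hf i⟩ : K))).1 (h _)
  · intro h f
    exact (satIn_iff f).2 (h _ fun i => (f i).2)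

/-! ## Forcing relations in Banach-Mazur form -/

/-- `s` is a descending sequence of conditions below `r`. -/
structure IsSeq (P R r : ZFSet.{u}) (s : ℕ → ZFSet.{u}) : Prop where
  mem : ∀ k, s k ∈ P
  fst : ZFSet.pair (s 0) r ∈ R
  desc : ∀ k, ZFSet.pair (s (k + 1)) (s k) ∈ R

/-- `D` is dense below `r`. -/
def DenB (P R r D : ZFSet.{u}) : Prop :=
  ∀ q ∈ P, ZFSet.pair q r ∈ R → ∃ q' ∈ D, q' ∈ P ∧ ZFSet.pair q' q ∈ R

/-- `s` decides `τ(i) = j`. -/
def Ev (T : ZFSet.{u}) (s : ℕ → ZFSet.{u}) (i j : ℕ) : Prop :=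
  ∃ k, ZFSet.pair (s k) (ZFSet.pair (natZ i) (natZ j)) ∈ T

/-- There are countably many sets `D n`, dense below `r`, such that every descending sequence below `r` that meets them
evaluates `T` to a member of `A`. -/
def BtZ (A : Set (ℕ → ℕ)) (P R r T : ZFSet.{u}) : Prop :=
  ∃ D : ℕ → ZFSet.{u}, (∀ n, DenB P R r (D n)) ∧
    ∀ s : ℕ → ZFSet.{u}, IsSeq P R r s → (∀ n, ∃ k, s k ∈ D n) → ∃ x ∈ A, ∀ i j, Ev T s i j ↔ x i = j

/-- `R` is a preorder on `P` and `T` is downward closed. -/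
structure Nice (P R T : ZFSet.{u}) : Prop where
  refl : ∀ p ∈ P, ZFSet.pair p p ∈ R
  trans : ∀ a b c, ZFSet.pair a b ∈ R → ZFSet.pair b c ∈ R → ZFSet.pair a c ∈ R
  dom : ∀ a b, ZFSet.pair a b ∈ R → a ∈ P ∧ b ∈ P
  down : ∀ q q' e, ZFSet.pair q e ∈ T → ZFSet.pair q' q ∈ R → ZFSet.pair q' e ∈ T

/-- The forcing relation for `A`. -/
def BB (A : Set (ℕ → ℕ)) (z : ZFSet.{u}) : Prop :=
  ∃ P R r T, z = ZFSet.pair (ZFSet.pair P R) (ZFSet.pair r T) ∧ r ∈ P ∧ Nice P R T ∧ BtZ A P R r T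

/-- There is no total evaluation below `r`, or `r` has two values at the same place. -/
def BadZ (P R r T : ZFSet.{u}) : Prop :=
  (∃ i : ℕ, ∀ q ∈ P, ZFSet.pair q r ∈ R → ∀ j : ℕ, ZFSet.pair q (ZFSet.pair (natZ i) (natZ j)) ∉ T) ∨
  ∃ i j j' : ℕ, j ≠ j' ∧ ZFSet.pair r (ZFSet.pair (natZ i) (natZ j)) ∈ T ∧
    ZFSet.pair r (ZFSet.pair (natZ i) (natZ j')) ∈ T

/-- The same for types: `bb i j q` says that `q` decides that the `i`-th digit is `j`. -/
def BtF {Q : Type u} [Preorder Q] (A : Set (ℕ → ℕ)) (bb : ℕ → ℕ → Q → Prop) (r : Q) : Prop :=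
  ∃ D : ℕ → Set Q, (∀ n, ∀ q ≤ r, ∃ q' ≤ q, q' ∈ D n) ∧
    ∀ s : ℕ → Q, Antitone s → s 0 ≤ r → (∀ n, ∃ k, s k ∈ D n) → ∃ x ∈ A, ∀ i j, (∃ k, bb i j (s k)) ↔ x i = j

/-! ## Witness functions on terms -/

/-- Terms over the set `t`: (names of) the elements of `t`, the point `t`, pairs and Skolem terms. -/
inductive Tz (t : ZFSet.{u}) : ZFSet.{u} → Prop
  | el (a : ZFSet.{u}) : a ∈ t → Tz t (ZFSet.pair t a)
  | pt : Tz t t
  | pr (z₁ z₂ : ZFSet.{u}) : Tz t z₁ → Tz t z₂ → Tz t (ZFSet.pair {t} (ZFSet.pair z₁ z₂))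
  | sk (z₁ z₂ : ZFSet.{u}) : Tz t z₁ → Tz t z₂ → Tz t (ZFSet.pair (ZFSet.pair t t) (ZFSet.pair z₁ z₂))

/-- `f` is a function on the terms over `t` onto a transitive set, its value at the point `t` is a witness for `x`. -/
structure GoodF (ψ : Fml) (x t f : ZFSet.{u}) : Prop where
  fn : ∀ z, Tz t z → ∃ v, ZFSet.pair z v ∈ f ∧ ∀ v', ZFSet.pair z v' ∈ f → v' = v
  tr : ∀ z v, Tz t z → ZFSet.pair z v ∈ f → ∀ a ∈ v, ∃ z', Tz t z' ∧ ZFSet.pair z' a ∈ f
  wit : ∀ v, ZFSet.pair t v ∈ f → Tr ψ x v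

/-- `f` is the least witness function for `x` in the first model over `w`. -/
def LeastF (B : ZFSet.{u} → Prop) (ψ : Fml) (x w f : ZFSet.{u}) : Prop :=
  f ∈ fld (Wl B w (bet B w)) ∧ GoodF ψ x (fld w) f ∧
    ∀ f' ∈ fld (Wl B w (bet B w)), GoodF ψ x (fld w) f' → ZFSet.pair f f' ∈ Wl B w (bet B w)

end Pool.Agent.H52.OM
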