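import Pool.Agent.H52.OM.Defs

/-!
# OM-1: dichotomy for universally Baire sets on an arbitrary preorder

PROOF.  Suppose that no `r' ≤ r` satisfies the third or the fourth alternative.  So (a) for all `q ≤ r`, `i` there are `q' ≤ q`, `j` with
`bb i j q'`, and (b) `bb i j q`, `bb i j' q`, `q ≤ r` imply `j = j'`.

Let `X` be the type (in `Type u`) of all filters `G : Set Q` (upward closed; any two members have a lower bound in `G`) with `r ∈ G` and
`∀ i, ∃ j, ∃ q ∈ G, bb i j q`, with the topology generated by the sets `N q = {G | q ∈ G}`.  The `N q` (`q ≤ r`) are a basis: if `G ∈ N q ∩ N q'`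
there is `q'' ∈ G` below `q, q', r`.  Every `N q` (`q ≤ r`) is nonempty (take a descending sequence below `q` that decides all digits, by (a), and the
filter it generates).  By (b) and a common lower bound (with `r`) the digit `F G i` with `∃ q ∈ G, bb i (F G i) q` is unique; `F : X → ℕ → ℕ` is
continuous (`{G | F G i = j} = ⋃ {N q | bb i j q}`, use `continuous_pi` and discreteness of `ℕ`).

`hA X F` gives `BaireMeasurableSet (F ⁻¹' A)`, so `residualEq_isOpen` gives an open `U` and a meager set outside which `F G ∈ A ↔ G ∈ U`.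
By `isMeagre_iff_countable_union_isNowhereDense` (or similar) the meager set is contained in `⋃ n, C n` with `C n` closed nowhere dense.
* If `U` is nonempty: it contains some `N q`, `q ≤ r`.  Then `BtF A bb q` with the sets `D (2n) = {q' ≤ q | N q' ∩ C n = ∅}` and
  `D (2n+1) = {q' | ∃ j, bb n j q'}`.  Density of `D (2n)`: for `q1 ≤ q` the set `N q1` is open and nonempty, so not contained in `C n`; take `G ∈ N q1 \ C n`;
  the complement of `C n` is open, so contains a basic neighbourhood `N q2` of `G`, and a lower bound `q3 ∈ G` of `q1, q2` works.  If `s` is descending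
  below `q` and meets all `D n`, the filter `G = {p | ∃ k, s k ≤ p}` belongs to `X`, to `N q` and to no `C n`, so `x = F G ∈ A`; and
  `(∃ k, bb i j (s k)) ↔ x i = j` (`hmono` for the direction `←`).
* If `U = ∅`: `F ⁻¹' A` is contained in `⋃ n, C n`, and `BtF Aᶜ bb r` in the same way.
-/

set_option autoImplicit false
set_option linter.unusedVariables false
set_option linter.unusedSectionVars false
set_option linter.unusedSimpArgs false
set_option linter.deprecated false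

universe u v w

open scoped ZFSet

namespace Pool.Agent.H52.OM

open Pool.Agent.H17.Omega Pool.Agent.H82.OC

section

variable {Q : Type u} [Preorder Q]

/-- The filters that contain `r` and decide all digits. -/
def Flt (bb : ℕ → ℕ → Q → Prop) (r : Q) : Type u :=
  {G : Set Q // (∀ a b, a ∈ G → a ≤ b → b ∈ G) ∧ (∀ a ∈ G, ∀ b ∈ G, ∃ c ∈ G, c ≤ a ∧ c ≤ b) ∧
    r ∈ G ∧ ∀ i, ∃ j, ∃ q ∈ G, bb i j q}

/-- The basic open sets. -/
def Nb (bb : ℕ → ℕ → Q → Prop) (r : Q) (q : Q) : Set (Flt bb r) := {G | q ∈ G.1}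

instance fltTop (bb : ℕ → ℕ → Q → Prop) (r : Q) : TopologicalSpace (Flt bb r) :=
  TopologicalSpace.generateFrom (Set.range (Nb bb r))

variable {bb : ℕ → ℕ → Q → Prop} {r : Q}

theorem isOpen_Nb (q : Q) : IsOpen (Nb bb r q) :=
  TopologicalSpace.isOpen_generateFrom_of_mem ⟨q, rfl⟩

theorem Nb_mono {q q' : Q} (h : q' ≤ q) : Nb bb r q' ⊆ Nb bb r q := fun G hG => G.2.1 _ _ hG h

theorem exists_Nb {U : Set (Flt bb r)} (hU : IsOpen U) :
    ∀ G ∈ U, ∃ q ≤ r, q ∈ G.1 ∧ Nb bb r q ⊆ U := by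
  have hU' : TopologicalSpace.GenerateOpen (Set.range (Nb bb r)) U := hU
  induction hU' with
  | basic s hs =>
    intro G hG
    obtain ⟨q0, rfl⟩ := hs
    obtain ⟨c, hc, h1, h2⟩ := G.2.2.1 q0 hG r G.2.2.2.1
    exact ⟨c, h2, hc, Nb_mono h1⟩
  | univ =>
    intro G _
    exact ⟨r, le_refl r, G.2.2.2.1, Set.subset_univ _⟩
  | inter s t _ _ ihs iht =>
    rename_i h1 h2
    intro G hG
    obtain ⟨q1, hq1, hg1, hs1⟩ := ihs h1 G hG.1
    obtain ⟨q2, hq2, hg2, hs2⟩ := iht h2 G hG.2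
    obtain ⟨c, hc, hc1, hc2⟩ := G.2.2.1 q1 hg1 q2 hg2
    exact ⟨c, hc1.trans hq1, hc, fun G' hG' => ⟨hs1 (Nb_mono hc1 hG'), hs2 (Nb_mono hc2 hG')⟩⟩
  | sUnion S _ ih =>
    rename_i h1
    intro G hG
    obtain ⟨s, hs, hGs⟩ := hG
    obtain ⟨q, hq, hg, hqs⟩ := ih s hs (h1 s hs) G hGs
    exact ⟨q, hq, hg, fun G' hG' => ⟨s, hs, hqs hG'⟩⟩

/-- The filter generated by a descending sequence. -/
def fltOf (s : ℕ → Q) (hs : Antitone s) (h0 : s 0 ≤ r) (hd : ∀ i, ∃ j, ∃ k, bb i j (s k)) : Flt bb r :=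
  ⟨{p | ∃ k, s k ≤ p}, by
    refine ⟨?_, ?_, ⟨0, h0⟩, ?_⟩
    · rintro a b ⟨k, hk⟩ hab
      exact ⟨k, hk.trans hab⟩
    · rintro a ⟨k, hk⟩ b ⟨l, hl⟩
      exact ⟨s (max k l), ⟨max k l, le_refl _⟩, (hs (le_max_left k l)).trans hk,
        (hs (le_max_right k l)).trans hl⟩
    · intro i
      obtain ⟨j, k, hk⟩ := hd i
      exact ⟨j, s k, ⟨k, le_refl _⟩, hk⟩⟩

theorem Nb_nonempty (ha : ∀ q ≤ r, ∀ i, ∃ q' ≤ q, ∃ j, bb i j q') {q : Q} (hq : q ≤ r) :
    (Nb bb r q).Nonempty := by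
  classical
  have step : ∀ (n : ℕ) (p : {p : Q // p ≤ r}), ∃ p' : {p : Q // p ≤ r}, p'.1 ≤ p.1 ∧ ∃ j, bb n j p'.1 := by
    intro n p
    obtain ⟨q', hq', j, hj⟩ := ha p.1 p.2 n
    exact ⟨⟨q', hq'.trans p.2⟩, hq', j, hj⟩
  choose f hf using step
  let s : ℕ → {p : Q // p ≤ r} := fun n => Nat.rec ⟨q, hq⟩ (fun n p => f n p) n
  have hs1 : ∀ n, s (n + 1) = f n (s n) := fun n => rfl
  have hanti : Antitone (fun n => (s n).1) := by
    apply antitone_nat_of_succ_le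
    intro n
    rw [hs1]
    exact (hf n (s n)).1
  refine ⟨fltOf (fun n => (s n).1) hanti hq ?_, ⟨0, le_refl _⟩⟩
  intro i
  obtain ⟨j, hj⟩ := (hf i (s i)).2
  exact ⟨j, i + 1, hj⟩

/-- The digits. -/
noncomputable def Fd (G : Flt bb r) (i : ℕ) : ℕ := (G.2.2.2.2 i).choose

theorem Fd_spec (G : Flt bb r) (i : ℕ) : ∃ q ∈ G.1, bb i (Fd G i) q := (G.2.2.2.2 i).choose_spec

theorem Fd_eq (hmono : ∀ i j q q', q' ≤ q → bb i j q → bb i j q')
    (hb : ∀ q ≤ r, ∀ i j j', bb i j q → bb i j' q → j = j') (G : Flt bb r) {i j : ℕ} {q : Q}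
    (hq : q ∈ G.1) (h : bb i j q) : Fd G i = j := by
  obtain ⟨p, hp, h1⟩ := Fd_spec G i
  obtain ⟨c, hc, hc1, hc2⟩ := G.2.2.1 q hq p hp
  obtain ⟨d, hd, hd1, hd2⟩ := G.2.2.1 c hc r G.2.2.2.1
  exact hb d hd2 i _ _ (hmono _ _ _ _ (hd1.trans hc2) h1) (hmono _ _ _ _ (hd1.trans hc1) h)

theorem continuous_Fd (hmono : ∀ i j q q', q' ≤ q → bb i j q → bb i j q')
    (hb : ∀ q ≤ r, ∀ i j j', bb i j q → bb i j' q → j = j') :
    Continuous (Fd : Flt bb r → ℕ → ℕ) := by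
  apply continuous_pi
  intro i
  rw [continuous_iff_continuousAt]
  intro G0
  obtain ⟨q, hq, h1⟩ := Fd_spec G0 i
  have h2 : ∀ᶠ G in nhds G0, Fd G0 i = Fd G i := by
    filter_upwards [(isOpen_Nb (bb := bb) (r := r) q).mem_nhds hq] with G hG
    exact (Fd_eq hmono hb G hG h1).symm
  exact (tendsto_const_nhds (x := Fd G0 i)).congr' h2

theorem dich_btF_of_dense {B : Set (ℕ → ℕ)} (hmono : ∀ i j q q', q' ≤ q → bb i j q → bb i j q')
    (ha : ∀ q ≤ r, ∀ i, ∃ q' ≤ q, ∃ j, bb i j q')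
    (hb : ∀ q ≤ r, ∀ i j j', bb i j q → bb i j' q → j = j')
    {O : ℕ → Set (Flt bb r)} (hO : ∀ n, IsOpen (O n)) (hD : ∀ n, Dense (O n)) {q : Q} (hq : q ≤ r)
    (h : ∀ G ∈ Nb bb r q, (∀ n, G ∈ O n) → Fd G ∈ B) : BtF B bb q := by
  refine ⟨fun n => {q' | Nb bb r q' ⊆ O n ∧ ∃ j, bb n j q'}, ?_, ?_⟩
  · intro n q1 hq1
    have hne := Nb_nonempty ha (hq1.trans hq)
    obtain ⟨G, hG1, hG2⟩ := (hD n).inter_open_nonempty _ (isOpen_Nb q1) hne
    obtain ⟨q2, hq2, hg2, hs2⟩ := exists_Nb (hO n) G hG2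
    obtain ⟨q3, hq3, h31, h32⟩ := G.2.2.1 q1 hG1 q2 hg2
    obtain ⟨q4, hq4, j, hj⟩ := ha q3 (h32.trans hq2) n
    exact ⟨q4, hq4.trans h31, fun G' hG' => hs2 (Nb_mono (hq4.trans h32) hG'), j, hj⟩
  · intro s hs hs0 hmeet
    have hd : ∀ i, ∃ j, ∃ k, bb i j (s k) := by
      intro i
      obtain ⟨k, hk⟩ := hmeet i
      obtain ⟨j, hj⟩ := hk.2
      exact ⟨j, k, hj⟩
    let G : Flt bb r := fltOf s hs (hs0.trans hq) hd
    have hGq : G ∈ Nb bb r q := ⟨0, hs0⟩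
    have hGO : ∀ n, G ∈ O n := by
      intro n
      obtain ⟨k, hk⟩ := hmeet n
      exact hk.1 (⟨k, le_refl _⟩ : G ∈ Nb bb r (s k))
    refine ⟨Fd G, h G hGq hGO, fun i j => ⟨?_, ?_⟩⟩
    · rintro ⟨k, hk⟩
      exact Fd_eq hmono hb G (⟨k, le_refl _⟩ : s k ∈ G.1) hk
    · rintro rfl
      obtain ⟨p, ⟨k, hk⟩, h1⟩ := Fd_spec G i
      exact ⟨k, hmono _ _ _ _ hk h1⟩

end

theorem dichotomy {Q : Type u} [Preorder Q] {A : Set (ℕ → ℕ)} (hA : UB.{u} A) {bb : ℕ → ℕ → Q → Prop}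
    (hmono : ∀ i j q q', q' ≤ q → bb i j q → bb i j q') (r : Q) :
    ∃ r' ≤ r, BtF A bb r' ∨ BtF Aᶜ bb r' ∨ (∃ i, ∀ q ≤ r', ∀ j, ¬ bb i j q) ∨
      ∃ i j j', j ≠ j' ∧ bb i j r' ∧ bb i j' r' := by
  by_cases ha : ∀ q ≤ r, ∀ i, ∃ q' ≤ q, ∃ j, bb i j q'
  swap
  · push Not at ha
    obtain ⟨q, hq, i, h⟩ := ha
    exact ⟨q, hq, Or.inr (Or.inr (Or.inl ⟨i, h⟩))⟩
  by_cases hb : ∀ q ≤ r, ∀ i j j', bb i j q → bb i j' q → j = j'
  swap
  · push Not at hb
    obtain ⟨q, hq, i, j, j', h1, h2, h3⟩ := hb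
    exact ⟨q, hq, Or.inr (Or.inr (Or.inr ⟨i, j, j', h3, h1, h2⟩))⟩
  have hBM := hA (Flt bb r) Fd (continuous_Fd hmono hb)
  obtain ⟨U, hU, hEq⟩ := hBM.residualEq_isOpen
  have hres : {G : Flt bb r | Fd G ∈ A ↔ G ∈ U} ∈ residual (Flt bb r) := by
    filter_upwards [hEq] with G hG
    exact iff_of_eq hG
  obtain ⟨S, hS1, hS2, hS3, hS4⟩ := mem_residual_iff.mp hres
  obtain ⟨O, hO⟩ := (hS3.insert Set.univ).exists_eq_range (Set.insert_nonempty _ _)
  have hOS : ∀ n, O n = Set.univ ∨ O n ∈ S := by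
    intro n
    have : O n ∈ insert Set.univ S := by
      rw [hO]
      exact ⟨n, rfl⟩
    exact this
  have hOopen : ∀ n, IsOpen (O n) := by
    intro n
    rcases hOS n with h | h
    · rw [h]
      exact isOpen_univ
    · exact hS1 _ h
  have hOdense : ∀ n, Dense (O n) := by
    intro n
    rcases hOS n with h | h
    · rw [h]
      exact dense_univ
    · exact hS2 _ h
  have hkey : ∀ G : Flt bb r, (∀ n, G ∈ O n) → (Fd G ∈ A ↔ G ∈ U) := by
    intro G hG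
    apply hS4
    intro t ht
    have : t ∈ insert Set.univ S := Set.mem_insert_of_mem _ ht
    rw [hO] at this
    obtain ⟨n, rfl⟩ := this
    exact hG n
  by_cases hUe : U.Nonempty
  · obtain ⟨G0, hG0⟩ := hUe
    obtain ⟨q, hq, hg, hs⟩ := exists_Nb hU G0 hG0
    refine ⟨q, hq, Or.inl ?_⟩
    exact dich_btF_of_dense hmono ha hb hOopen hOdense hq fun G hG hn => (hkey G hn).mpr (hs hG)
  · refine ⟨r, le_refl r, Or.inr (Or.inl ?_)⟩
    refine dich_btF_of_dense hmono ha hb hOopen hOdense (le_refl r) fun G hG hn hA' => ?_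
    exact hUe ⟨G, (hkey G hn).mp hA'⟩

end Pool.Agent.H52.OM
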