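import Pool.Agent.H52.OM.UDa
import Pool.Agent.H52.OM.Hier

/-!
# OM-33: the Skolem function on codes

`c` a code of `pair x w`, `t = fld w`; `DenT c t s z`: the term shape `s` (leaves are numbers, read as names of elements of `t` via `c`) denotes the term `z` over `t`.  `Gk B ψ c i j`: `f(d_i) ∈ f(d_j)` where `d_i` is the term with the `i`-th shape, `f` the least witness function.
`Fn B ψ c` is the real coding this relation.

PROOF.
* `exists_en`: `Sh` is countable and infinite (or: nonempty): take a surjection `g : ℕ → Sh` (`exists_surjective_nat`) and let `e 0 = pt`, `e (n+1) = g n`.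
* `denT_unique`: induction on the shape; leaf: `IsVal.unique`.  `denT_tz`: a denoted object is a term.
* `exists_denT`: every term `z` over `t = fld w` is denoted: by induction on `Tz`; for `pair t a`, `a ∈ fld w`: `a` has a number `n` with `IsVal (Ec c) a n`: because `pair a a ∈ w`, and `w` is a component of `pair x w`: `has_num` : if `IsVal E y n` and `a ∈ y` there is `m` with `IsVal E a m` (`isVal_iff`), applied along
  `{x, w} ∈ pair x w`, `w ∈ {x, w}`, `pair a a ∈ w`, `{a, a} ∈ pair a a`, `a ∈ {a, a}`.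
* `least_unique`: two least witness functions `f, f'` for the same `x, w` are equal (`WO.anti`, `wo_Wl`).
* `fn_val`: let `LeastF B ψ x w f`, `c` a code of `pair x w`.  For every shape number `j` with `DenT c (fld w) (en j) z` and `pair z v ∈ f`: `IsVal (Ec (Fn B ψ c)) v j`.  By `∈`-induction on `v`, `isVal_iff`: `Ec (Fn B ψ c) i j` iff `Gk B ψ c i j` (`Nat.unpair_pair`), i.e. (uniqueness of `x, w` (`IsVal.unique`, `ZFSet.pair_inj`),
  `f` (`least_unique`), `z` (`denT_unique`), `v` (`GoodF.fn`)) iff `DenT (en i) z1`, `pair z1 u1 ∈ f`, `u1 ∈ v` for some `z1, u1`; then `u1` is the value of `i` by induction.  Conversely every `a ∈ v` is `f(z')` for a term `z'` (`GoodF.tr`), which is denoted by some `en i` (`exists_denT`, surjectivity of `en`).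
* `fn_code`: `j = 0`, `en 0 = pt` denotes `t = fld w`.
-/

set_option autoImplicit false
set_option linter.unusedVariables false
set_option linter.unusedSectionVars false
set_option linter.unusedSimpArgs false
set_option linter.deprecated false

universe u v w

open scoped ZFSet

namespace Pool.Agent.H52.OM

open Pool.Agent.H17.Omega Pool.Agent.H82.OC

/-- Shapes of terms. -/
inductive Sh : Type
  | el (n : ℕ) : Sh
  | pt : Sh
  | pr (a b : Sh) : Sh
  | sk (a b : Sh) : Sh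

/-- The shape `s` denotes the term `z`. -/
def DenT (c : ℕ → ℕ) (t : ZFSet.{u}) : Sh → ZFSet.{u} → Prop
  | .el n, z => ∃ a ∈ t, IsVal (Ec c) a n ∧ z = ZFSet.pair t a
  | .pt, z => z = t
  | .pr a b, z => ∃ z₁ z₂, DenT c t a z₁ ∧ DenT c t b z₂ ∧ z = ZFSet.pair {t} (ZFSet.pair z₁ z₂)
  | .sk a b, z => ∃ z₁ z₂, DenT c t a z₁ ∧ DenT c t b z₂ ∧
      z = ZFSet.pair (ZFSet.pair t t) (ZFSet.pair z₁ z₂)

/-- A number for each shape. -/
def fdef_num : Sh → ℕ
  | .el n => Nat.pair 0 n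
  | .pt => Nat.pair 1 0
  | .pr a b => Nat.pair 2 (Nat.pair (fdef_num a) (fdef_num b))
  | .sk a b => Nat.pair 3 (Nat.pair (fdef_num a) (fdef_num b))

theorem fdef_num_inj : Function.Injective fdef_num := by
  intro s
  induction s with
  | el n =>
    intro t h
    cases t with
    | el m =>
      simp only [fdef_num, Nat.pair_eq_pair] at h
      rw [h.2]
    | pt => simp [fdef_num, Nat.pair_eq_pair] at h
    | pr a b => simp [fdef_num, Nat.pair_eq_pair] at h
    | sk a b => simp [fdef_num, Nat.pair_eq_pair] at h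
  | pt =>
    intro t h
    cases t with
    | el m => simp [fdef_num, Nat.pair_eq_pair] at h
    | pt => rfl
    | pr a b => simp [fdef_num, Nat.pair_eq_pair] at h
    | sk a b => simp [fdef_num, Nat.pair_eq_pair] at h
  | pr a b iha ihb =>
    intro t h
    cases t with
    | el m => simp [fdef_num, Nat.pair_eq_pair] at h
    | pt => simp [fdef_num, Nat.pair_eq_pair] at h
    | pr a' b' =>
      simp only [fdef_num, Nat.pair_eq_pair] at h
      rw [iha h.2.1, ihb h.2.2]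
    | sk a b => simp [fdef_num, Nat.pair_eq_pair] at h
  | sk a b iha ihb =>
    intro t h
    cases t with
    | el m => simp [fdef_num, Nat.pair_eq_pair] at h
    | pt => simp [fdef_num, Nat.pair_eq_pair] at h
    | pr a' b' => simp [fdef_num, Nat.pair_eq_pair] at h
    | sk a' b' =>
      simp only [fdef_num, Nat.pair_eq_pair] at h
      rw [iha h.2.1, ihb h.2.2]

theorem exists_en : ∃ e : ℕ → Sh, Function.Surjective e ∧ e 0 = Sh.pt := by
  have : Countable Sh := fdef_num_inj.countable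
  have : Nonempty Sh := ⟨Sh.pt⟩
  obtain ⟨g, hg⟩ := exists_surjective_nat Sh
  refine ⟨fun n => match n with | 0 => Sh.pt | (n + 1) => g n, ?_, rfl⟩
  intro s
  obtain ⟨n, hn⟩ := hg s
  exact ⟨n + 1, hn⟩

/-- An enumeration of the shapes. -/
noncomputable def en : ℕ → Sh := exists_en.choose

theorem en_surj : Function.Surjective en := exists_en.choose_spec.1

theorem en_zero : en 0 = Sh.pt := exists_en.choose_spec.2

/-- The membership relation between the values of the terms. -/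
def Gk (B : ZFSet.{u} → Prop) (ψ : Fml) (c : ℕ → ℕ) (i j : ℕ) : Prop :=
  ∃ x w f : ZFSet.{u}, Cd c (ZFSet.pair x w) ∧ (WOn w x ∧ LeastF B ψ x w f) ∧ ∃ z₁ z₂ u₁ u₂ : ZFSet.{u},
    DenT c (fld w) (en i) z₁ ∧ DenT c (fld w) (en j) z₂ ∧ ZFSet.pair z₁ u₁ ∈ f ∧ ZFSet.pair z₂ u₂ ∈ f ∧ u₁ ∈ u₂

open Classical in
/-- The real coding the relation `Gk`. -/
noncomputable def Fn (B : ZFSet.{u} → Prop) (ψ : Fml) (c : ℕ → ℕ) : ℕ → ℕ :=
  fun k => if Gk B ψ c k.unpair.1 k.unpair.2 then 1 else 0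

theorem denT_unique {c : ℕ → ℕ} {t : ZFSet.{u}} {s : Sh} {z z' : ZFSet.{u}} (h : DenT c t s z)
    (h' : DenT c t s z') : z = z' := by
  induction s generalizing z z' with
  | el n =>
    obtain ⟨a, ha, h1, rfl⟩ := h
    obtain ⟨b, hb, h2, rfl⟩ := h'
    rw [h1.unique h2]
  | pt =>
    have h1 : z = t := h
    have h2 : z' = t := h'
    rw [h1, h2]
  | pr a b iha ihb =>
    obtain ⟨z1, z2, h1, h2, rfl⟩ := h
    obtain ⟨z3, z4, h3, h4, rfl⟩ := h'
    rw [iha h1 h3, ihb h2 h4]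
  | sk a b iha ihb =>
    obtain ⟨z1, z2, h1, h2, rfl⟩ := h
    obtain ⟨z3, z4, h3, h4, rfl⟩ := h'
    rw [iha h1 h3, ihb h2 h4]

theorem denT_tz {c : ℕ → ℕ} {t : ZFSet.{u}} {s : Sh} {z : ZFSet.{u}} (h : DenT c t s z) : Tz t z := by
  induction s generalizing z with
  | el n =>
    obtain ⟨a, ha, h1, rfl⟩ := h
    exact Tz.el a ha
  | pt =>
    have h1 : z = t := h
    rw [h1]
    exact Tz.pt
  | pr a b iha ihb =>
    obtain ⟨z1, z2, h1, h2, rfl⟩ := h
    exact Tz.pr z1 z2 (iha h1) (ihb h2)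
  | sk a b iha ihb =>
    obtain ⟨z1, z2, h1, h2, rfl⟩ := h
    exact Tz.sk z1 z2 (iha h1) (ihb h2)

/-- Elements of a coded set have numbers. -/
theorem has_num {E : ℕ → ℕ → Prop} {y a : ZFSet.{u}} (hy : ∃ n, IsVal E y n) (ha : a ∈ y) :
    ∃ m, IsVal E a m := by
  obtain ⟨n, hn⟩ := hy
  rw [isVal_iff] at hn
  obtain ⟨m, -, hm⟩ := hn.2 a ha
  exact ⟨m, hm⟩

theorem exists_denT {c : ℕ → ℕ} {x w z : ZFSet.{u}} (hc : Cd c (ZFSet.pair x w)) (h : Tz (fld w) z) :
    ∃ s, DenT c (fld w) s z := by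
  have h1 : ∃ n, IsVal (Ec c) w n := by
    have h2 : ∃ n, IsVal (Ec c) ({x, w} : ZFSet.{u}) n := by
      refine has_num ⟨0, hc⟩ ?_
      rw [ZFSet.pair]
      exact ZFSet.mem_pair.2 (Or.inr rfl)
    exact has_num h2 (ZFSet.mem_pair.2 (Or.inr rfl))
  induction h with
  | el a ha =>
    have h2 : ∃ n, IsVal (Ec c) ({a, a} : ZFSet.{u}) n := by
      refine has_num (has_num h1 (mem_fld.1 ha)) ?_
      rw [ZFSet.pair]
      exact ZFSet.mem_pair.2 (Or.inr rfl)
    obtain ⟨n, hn⟩ := has_num h2 (ZFSet.mem_pair.2 (Or.inr rfl))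
    exact ⟨Sh.el n, a, ha, hn, rfl⟩
  | pt => exact ⟨Sh.pt, rfl⟩
  | pr z1 z2 _ _ ih1 ih2 =>
    obtain ⟨s1, h1⟩ := ih1
    obtain ⟨s2, h2⟩ := ih2
    exact ⟨Sh.pr s1 s2, z1, z2, h1, h2, rfl⟩
  | sk z1 z2 _ _ ih1 ih2 =>
    obtain ⟨s1, h1⟩ := ih1
    obtain ⟨s2, h2⟩ := ih2
    exact ⟨Sh.sk s1 s2, z1, z2, h1, h2, rfl⟩

theorem leastF_unique {B : ZFSet.{u} → Prop} {ψ : Fml} {x w f f' : ZFSet.{u}} (hw : WOn w x)
    (h : LeastF B ψ x w f) (h' : LeastF B ψ x w f') : f = f' :=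
  (wo_Wl hw.wo (bet B w)).anti _ _ (h.2.2 f' h'.1 h'.2.1) (h'.2.2 f h.1 h.2.1)

theorem fdef_ec {B : ZFSet.{u} → Prop} {ψ : Fml} {c : ℕ → ℕ} {i j : ℕ} :
    Ec (Fn B ψ c) i j ↔ Gk B ψ c i j := by
  classical
  have h1 : Fn B ψ c (Nat.pair i j) = if Gk B ψ c i j then 1 else 0 := by
    have h2 : Fn B ψ c (Nat.pair i j) =
      if Gk B ψ c (Nat.pair i j).unpair.1 (Nat.pair i j).unpair.2 then 1 else 0 := by
      unfold Fn
      congr
    rw [h2, Nat.unpair_pair]
  show Fn B ψ c (Nat.pair i j) ≠ 0 ↔ _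
  rw [h1]
  by_cases hG : Gk B ψ c i j
  · rw [if_pos hG]
    exact ⟨fun _ => hG, fun _ => one_ne_zero⟩
  · rw [if_neg hG]
    exact ⟨fun h => (h rfl).elim, fun h => (hG h).elim⟩

theorem fn_val {B : ZFSet.{u} → Prop} {ψ : Fml} {x w f : ZFSet.{u}} (hw : WOn w x) (h : LeastF B ψ x w f)
    {c : ℕ → ℕ} (hc : Cd c (ZFSet.pair x w)) (v : ZFSet.{u}) : ∀ (j : ℕ) (z : ZFSet.{u}),
    DenT c (fld w) (en j) z → ZFSet.pair z v ∈ f → IsVal (Ec (Fn B ψ c)) v j := by
  induction v using ZFSet.inductionOn with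
  | _ v ih =>
    intro j z hd hz
    rw [isVal_iff]
    constructor
    · intro m hm
      obtain ⟨x', w', f', hc', ⟨hw', hl'⟩, z1, z2, u1, u2, hd1, hd2, hp1, hp2, hu⟩ := fdef_ec.1 hm
      obtain ⟨rfl, rfl⟩ := ZFSet.pair_inj.1 (hc.unique hc')
      obtain rfl := leastF_unique hw h hl'
      obtain rfl := denT_unique hd hd2
      obtain ⟨v0, -, hv0⟩ := h.2.1.fn z (denT_tz hd)
      have e : u2 = v := (hv0 u2 hp2).trans (hv0 v hz).symm
      rw [e] at hu
      exact ⟨u1, hu, ih u1 hu m z1 hd1 hp1⟩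
    · intro a ha
      obtain ⟨z', hz', hf'⟩ := h.2.1.tr z v (denT_tz hd) hz a ha
      obtain ⟨s, hs⟩ := exists_denT hc hz'
      obtain ⟨m, rfl⟩ := en_surj s
      exact ⟨m, fdef_ec.2 ⟨x, w, f, hc, ⟨hw, h⟩, z', z, a, v, hs, hd, hf', hz, ha⟩,
        ih a ha m z' hs hf'⟩

theorem fn_code {B : ZFSet.{u} → Prop} {ψ : Fml} {x w f v : ZFSet.{u}} (hw : WOn w x) (h : LeastF B ψ x w f)
    {c : ℕ → ℕ} (hc : Cd c (ZFSet.pair x w)) (hv : ZFSet.pair (fld w) v ∈ f) :
    IsVal (Ec (Fn B ψ c)) v 0 := by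
  refine fn_val hw h hc v 0 (fld w) ?_ hv
  rw [en_zero]
  rfl

end Pool.Agent.H52.OM
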