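import Pool.Agent.H52.OM.Terms
import Pool.Agent.H17.Omega.LSd

/-!
# OM-23: witness functions exist in countable transitive models (downward Löwenheim-Skolem)

PROOF.  This is a variation of the proof of `CTM.exists_small` in `H17/Omega/LSd.lean` (read it first; most of the code can be copied).  Write `s` for the given transitive set (there called `s`), `x ∈ s`.
1. `Te ∈ M` the set of terms over `s` (`exists_terms`).  Let `t ∈ M` be transitive with `s, x, y ∈ t` (`exists_transitive`); `L1` from `exists_TV hψ`, `L = (thExt, 2) :: L1`, `F` from `exists_hull hN x0 L hsN ht ⟨y, hy⟩`, `x0 = x`.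
2. `W = {a | ∃ z1 : M, Tz s z1 ∧ F z1 = a}` (values of terms): contains the elements of `s` (terms `pair s a`), `y` (term `s`), and is closed under pairs (terms `pair {s} (pair z1 z2)`), so it contains the tuples needed in `hWtg`, `hWtup`.
3. `X = {a ∈ t : a ∈ W}`; `SkC N t L X` as in `exists_small` (terms `pair (pair s s) (pair z1 z2)`); `hext` (extensionality of `X`).
4. `D = {z ∈ Te : F z ∈ t} ∈ M`, `E = {(z1, z2) ∈ D × D : F z1 ∈ F z2} ∈ M` (separation; `prod_mem`).  `exists_collapse_of_min` (`CtmW.lean`; the minimality hypothesis because `∈` is well-founded) gives a definable `G : M → M` with `z ∈ G x ↔ ∃ y, pair y x ∈ E ∧ G y = z`.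
   For a term `z ∉ D` we have `G z = ∅`.  `f := {(z, G z) : z ∈ Te} ∈ M` (replacement).
5. `GoodF`: `fn`: clear.  `tr`: elements of `G z` are `G z'` with `(z', z) ∈ E`, so `z' ∈ D` is a term.  `wit`: `G s` is the value at the point `s`.  As in `exists_small` the map `a ↦ G z1` (`z1 ∈ D`, `F z1 = a`) is well defined and injective on `X` (extensionality; induction), its image is
   transitive, it is the identity on `s` (`∈`-induction, `s ⊆ X` transitive), so it is an isomorphism of `(X, ∈)` and `(π '' X, ∈)`, and `ψ(x, y)` in `V`, equivalently in `M` (`Delta0.absolute`), equivalently in `X` (`exists_TV`), equivalently `ψ(x, π y)` in `π '' X`, i.e. in `V` (`Delta0.absolute`),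
   and `π y = G s` because `F s = y`.
-/

set_option autoImplicit false
set_option linter.unusedVariables false
set_option linter.unusedSectionVars false
set_option linter.unusedSimpArgs false
set_option linter.deprecated false

universe u v w

open scoped ZFSet

namespace Pool.Agent.H52.OM

open Pool.Agent.H17.Omega Pool.Agent.H82.OC

theorem exists_goodF {M : Set ZFSet.{u}} (hM : CTM M) {ψ : Fml} (hψ : ψ.Delta0)
    (hfree : ∀ n, ψ.Free n → n = 0 ∨ n = 1) {s x y : ZFSet.{u}} (hs : s ∈ M) (hstr : s.IsTransitive)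
    (hx : x ∈ s) (hy : y ∈ M) (hxy : Tr ψ x y) : ∃ f ∈ M, GoodF ψ x s f := by
  classical
  have hxM : x ∈ M := hM.mem_of_mem hs hx
  obtain ⟨Te, hTe, hTe'⟩ := exists_terms hM hs
  have hTM : ∀ z, Tz s z → z ∈ M := fun z hz => hM.mem_of_mem hTe ((hTe' z).2 hz)
  -- a transitive set that contains everything
  obtain ⟨t, ht, httr, htm⟩ := hM.exists_transitive (hM.pair_mem hs (hM.pair_mem hxM hy))
  have hpm : ∀ a b w : ZFSet.{u}, w.IsTransitive → ZFSet.pair a b ∈ w → a ∈ w ∧ b ∈ w := by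
    intro a b w hw h
    have h1 : ({a, b} : ZFSet.{u}) ∈ w := hw _ h (by rw [ZFSet.pair, ZFSet.mem_pair]; exact Or.inr rfl)
    exact ⟨hw _ h1 (by simp), hw _ h1 (by simp)⟩
  have hst : s ∈ t := (hpm _ _ _ httr htm).1
  have hxt : x ∈ t := (hpm _ _ _ httr (hpm _ _ _ httr htm).2).1
  have hyt : y ∈ t := (hpm _ _ _ httr (hpm _ _ _ httr htm).2).2
  -- the hull
  obtain ⟨L1, hL1⟩ := exists_TV hψ
  let L : List (Fml × ℕ) := (thExt, 2) :: L1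
  obtain ⟨n, hn⟩ := exists_bd L
  let x0 : M := ⟨x, hxM⟩
  obtain ⟨F, hF, hF1, hF2, hF3, hF4⟩ := CTM.exists_hull hM x0 L hs ht ⟨y, hy⟩
  let W : Set M := {a | ∃ z1 : M, Tz s z1.1 ∧ F z1 = a}
  have hWs : ∀ a : M, a.1 ∈ s → a ∈ W := by
    intro a ha
    have h1 : Tz s (ZFSet.pair s a.1) := Tz.el _ ha
    exact ⟨⟨_, hTM _ h1⟩, h1, hF1 _ a rfl ha⟩
  have hWy : (⟨y, hy⟩ : M) ∈ W := ⟨⟨s, hs⟩, Tz.pt, hF2 _ rfl⟩
  have hWp : ∀ a b : M, a ∈ W → b ∈ W → ∀ c : M, c.1 = ZFSet.pair a.1 b.1 → c ∈ W := by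
    rintro a b ⟨z1, h1, rfl⟩ ⟨z2, h2, rfl⟩ c hc
    have h4 : Tz s (ZFSet.pair {s} (ZFSet.pair z1.1 z2.1)) := Tz.pr _ _ h1 h2
    refine ⟨⟨_, hTM _ h4⟩, h4, Subtype.ext ?_⟩
    rw [hc]
    exact hF3 _ ⟨_, hM.pair_mem z1.2 z2.2⟩ z1 z2 rfl rfl
  have hWx : x0 ∈ W := hWs x0 hx
  have hWtg : ∀ i, ∃ c : M, c ∈ W ∧ c.1 = tg x i := by
    intro i
    induction i with
    | zero => exact ⟨x0, hWx, rfl⟩
    | succ i ih =>
      obtain ⟨c, hc, hc'⟩ := ih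
      refine ⟨⟨_, hM.pair_mem c.2 hxM⟩, hWp c x0 hc hWx _ rfl, ?_⟩
      show ZFSet.pair c.1 x = ZFSet.pair (tg x i) x
      rw [hc']
  have hWtup : ∀ m (f : ℕ → M), (∀ i, f i ∈ W) → ∃ c : M, c ∈ W ∧ c.1 = tup x m (fun i => (f i).1) := by
    intro m
    induction m with
    | zero => intro f _; exact ⟨x0, hWx, rfl⟩
    | succ m ih =>
      intro f hf
      obtain ⟨c, hc, hc'⟩ := ih (fun i => f (i + 1)) fun i => hf (i + 1)
      refine ⟨⟨_, hM.pair_mem (f 0).2 c.2⟩, hWp (f 0) c (hf 0) hc _ rfl, ?_⟩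
      show ZFSet.pair (f 0).1 c.1 = ZFSet.pair (f 0).1 (tup x m fun i => (f (i + 1)).1)
      rw [hc']
  let X : Set ZFSet.{u} := {a | a ∈ t ∧ ∃ h : a ∈ M, (⟨a, h⟩ : M) ∈ W}
  have hXN : X ⊆ M := fun a ha => ha.2.1
  have hXt : ∀ a ∈ X, a ∈ t := fun a ha => ha.1
  have hSk : SkC M t L X := by
    intro p hp f hf hb
    obtain ⟨i, hi, hpi⟩ := List.getElem_of_mem hp
    obtain ⟨g, ⟨z1, hz1, hg1⟩, hg⟩ := hWtg i
    obtain ⟨e, ⟨z2, hz2, he1⟩, he⟩ := hWtup n f (fun i => (hf i).2.2)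
    have hdec : ∀ b : M, Sat (SMem M) p.1 (upd (hM.dec e) p.2 b) ↔ Sat (SMem M) p.1 (upd f p.2 b) := by
      intro b
      apply Sat.congr
      intro j hj
      by_cases hjp : j = p.2
      · rw [hjp, upd_same, upd_same]
      · rw [upd_ne _ _ hjp, upd_ne _ _ hjp]
        exact Subtype.ext (hM.dec_tup x n _ e he j (lt_of_lt_of_le hj (hn p hp)))
    have hWWp : ∀ b : M, CTM.WW hM x0 L g e b ↔ Sat (SMem M) p.1 (upd f p.2 b) := by
      intro b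
      rw [CTM.WW_iff x0 L i hi g e b hg, hpi]
      exact hdec b
    have h4 : Tz s (ZFSet.pair (ZFSet.pair s s) (ZFSet.pair z1.1 z2.1)) := Tz.sk _ _ hz1 hz2
    have h5 := hF4 ⟨_, hTM _ h4⟩ ⟨_, hM.pair_mem z1.2 z2.2⟩ z1 z2 rfl rfl (by
      obtain ⟨b, hb1, hb2⟩ := hb
      refine ⟨b, hb1, ?_⟩
      rw [hg1, he1]
      exact (hWWp b).2 hb2)
    rw [hg1, he1] at h5
    refine ⟨F ⟨_, hTM _ h4⟩, ⟨h5.1, (F _).2, _, h4, rfl⟩, (hWWp _).1 h5.2⟩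
  have hsX : ∀ a ∈ s, a ∈ X := fun a ha => by
    have hat := httr _ hst ha
    exact ⟨hat, hM.mem_of_mem ht hat, hWs ⟨a, hM.mem_of_mem ht hat⟩ ha⟩
  have hyX : y ∈ X := ⟨hyt, hy, hWy⟩
  have hxX : x ∈ X := hsX x hx
  -- extensionality of `X`
  have hext : ∀ a ∈ X, ∀ b ∈ X, (∀ c ∈ X, c ∈ a ↔ c ∈ b) → a = b := by
    intro a ha b hb h
    by_contra hab
    have hdiff : ∃ c, (c ∈ a ∧ c ∉ b) ∨ (c ∈ b ∧ c ∉ a) := by
      by_contra hc
      push Not at hc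
      exact hab (ZFSet.ext fun c => ⟨fun h1 => (hc c).1 h1, fun h1 => (hc c).2 h1⟩)
    let f : ℕ → M := asg ⟨a, hXN ha⟩ ⟨b, hXN hb⟩
    have hsat : ∀ c : M, Sat (SMem M) thExt (upd f 2 c) ↔ (c.1 ∈ a ∧ c.1 ∉ b) ∨ (c.1 ∈ b ∧ c.1 ∉ a) := by
      intro c; rfl
    obtain ⟨c, hc⟩ := hdiff
    have hct : c ∈ t := by
      rcases hc with hc | hc
      · exact httr _ ha.1 hc.1
      · exact httr _ hb.1 hc.1
    obtain ⟨c', hc', h1⟩ := hSk (thExt, 2) (List.mem_cons_self) f (fun i => by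
      show (asg (⟨a, hXN ha⟩ : M) ⟨b, hXN hb⟩ i).1 ∈ X
      unfold asg; split_ifs
      · exact ha
      · exact hb) ⟨⟨c, hM.mem_of_mem ht hct⟩, hct, (hsat _).2 hc⟩
    rcases (hsat c').1 h1 with h2 | h2
    · exact h2.2 ((h _ hc').1 h2.1)
    · exact h2.2 ((h _ hc').2 h2.1)
  -- the coded structure
  obtain ⟨D, hD, hD'⟩ := hM.exists_sep (P := fun z1 => ∃ w : M, F z1 = w ∧ w.1 ∈ t)
    (CTM.Dfn.ex (P := fun v w => F (v 0) = w ∧ w.1 ∈ t) (CTM.Dfn.and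
      (CTM.Dfn.subst2 (P := fun a b => F a = b) hF (CTM.DT.var _) (CTM.DT.var _))
      (CTM.Dfn.mem (CTM.DT.var _) (CTM.DT.const ⟨t, ht⟩)))) hTe
  have hDs : ∀ a ∈ D, Tz s a := fun a ha => (hTe' a).1 ((hD' a).1 ha).1
  have hDm : ∀ z1 : M, z1.1 ∈ D ↔ Tz s z1.1 ∧ (F z1).1 ∈ t := by
    intro z1
    rw [hD', hTe']
    constructor
    · rintro ⟨h1, _, w, h2, h3⟩
      have h2 : F z1 = w := h2
      rw [h2]; exact ⟨h1, h3⟩
    · rintro ⟨h1, h2⟩; exact ⟨h1, z1.2, _, rfl, h2⟩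
  obtain ⟨E, hE, hE'⟩ := hM.exists_sep (P := fun p => ∃ z1 z2 a b : M, p.1 = ZFSet.pair z1.1 z2.1 ∧
      z1.1 ∈ D ∧ z2.1 ∈ D ∧ F z1 = a ∧ F z2 = b ∧ a.1 ∈ b.1)
    (CTM.Dfn.ex (P := fun v z1 => ∃ z2 a b : M, (v 0).1 = ZFSet.pair z1.1 z2.1 ∧
      z1.1 ∈ D ∧ z2.1 ∈ D ∧ F z1 = a ∧ F z2 = b ∧ a.1 ∈ b.1)
    (CTM.Dfn.ex (P := fun v z2 => ∃ a b : M, (v 0).1 = ZFSet.pair (v 1).1 z2.1 ∧
      (v 1).1 ∈ D ∧ z2.1 ∈ D ∧ F (v 1) = a ∧ F z2 = b ∧ a.1 ∈ b.1)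
    (CTM.Dfn.ex (P := fun v a => ∃ b : M, (v 0).1 = ZFSet.pair (v 1).1 (v 2).1 ∧
      (v 1).1 ∈ D ∧ (v 2).1 ∈ D ∧ F (v 1) = a ∧ F (v 2) = b ∧ a.1 ∈ b.1)
    (CTM.Dfn.ex (P := fun v b => (v 0).1 = ZFSet.pair (v 1).1 (v 2).1 ∧
      (v 1).1 ∈ D ∧ (v 2).1 ∈ D ∧ F (v 1) = (v 3) ∧ F (v 2) = b ∧ (v 3).1 ∈ b.1)
    (CTM.Dfn.and (CTM.Dfn.isPair (CTM.DT.var _) (CTM.DT.var _) (CTM.DT.var _))
    (CTM.Dfn.and (CTM.Dfn.mem (CTM.DT.var _) (CTM.DT.const ⟨D, hD⟩))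
    (CTM.Dfn.and (CTM.Dfn.mem (CTM.DT.var _) (CTM.DT.const ⟨D, hD⟩))
    (CTM.Dfn.and (CTM.Dfn.subst2 (P := fun a b => F a = b) hF (CTM.DT.var _) (CTM.DT.var _))
    (CTM.Dfn.and (CTM.Dfn.subst2 (P := fun a b => F a = b) hF (CTM.DT.var _) (CTM.DT.var _))
    (CTM.Dfn.mem (CTM.DT.var _) (CTM.DT.var _))))))))))) (hM.prod_mem hD hD)
  have hED : ∀ a b, ZFSet.pair a b ∈ E → a ∈ D ∧ b ∈ D := by
    intro a b h
    exact ZFSet.pair_mem_prod.1 ((hE' _).1 h).1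
  have hEm : ∀ z1 z2 : M, z1.1 ∈ D → z2.1 ∈ D → (ZFSet.pair z1.1 z2.1 ∈ E ↔ (F z1).1 ∈ (F z2).1) := by
    intro z1 z2 h1 h2
    rw [hE']
    constructor
    · rintro ⟨_, _, z1', z2', a, b, h3, _, _, h4, h5, h6⟩
      have h3 : ZFSet.pair z1.1 z2.1 = ZFSet.pair z1'.1 z2'.1 := h3
      rw [ZFSet.pair_inj] at h3
      have e1 : z1 = z1' := Subtype.ext h3.1
      have e2 : z2 = z2' := Subtype.ext h3.2
      subst e1; subst e2
      have h4 : F z1 = a := h4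
      have h5 : F z2 = b := h5
      rw [h4, h5]; exact h6
    · intro h3
      exact ⟨ZFSet.pair_mem_prod.2 ⟨h1, h2⟩, hM.pair_mem z1.2 z2.2, z1, z2, _, _, rfl, h1, h2, rfl, rfl, h3⟩
  obtain ⟨G, hG, hG'⟩ := CTM.exists_collapse_of_min hM hD hE hED (by
    intro c hcM hcD hce
    obtain ⟨e, he⟩ : ∃ e, e ∈ c := by
      by_contra hno
      push Not at hno
      exact hce ((ZFSet.eq_empty c).2 hno)
    obtain ⟨m, hm, hmin⟩ := (InvImage.wf (fun z1 : M => (F z1).1) ZFSet.mem_wf).has_min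
      {z1 : M | z1.1 ∈ c} ⟨⟨e, hM.mem_of_mem hcM he⟩, he⟩
    refine ⟨m.1, hm, fun y1 hy1 h1 => ?_⟩
    have hy1M := hM.mem_of_mem hcM hy1
    exact hmin ⟨y1, hy1M⟩ hy1 ((hEm ⟨y1, hy1M⟩ m (hcD hy1) (hcD hm)).1 h1))
  -- the collapse
  let Pi : ZFSet.{u} → ZFSet.{u} → Prop := fun a a' => ∃ y1 : M, y1.1 ∈ D ∧ (F y1).1 = a ∧ (G y1).1 = a'
  have hcode : ∀ a ∈ X, ∃ y1 : M, y1.1 ∈ D ∧ (F y1).1 = a := by
    rintro a ⟨hat, haM, z1, hz1, h1⟩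
    have h2 : (F z1).1 = a := congrArg Subtype.val h1
    exact ⟨z1, (hDm z1).2 ⟨hz1, by rw [h2]; exact hat⟩, h2⟩
  have hcodeX : ∀ y1 : M, y1.1 ∈ D → (F y1).1 ∈ X := fun y1 h1 =>
    ⟨((hDm y1).1 h1).2, (F y1).2, y1, ((hDm y1).1 h1).1, rfl⟩
  have hPtot : ∀ a ∈ X, ∃ a', Pi a a' := by
    intro a ha
    obtain ⟨y1, h1, h2⟩ := hcode a ha
    exact ⟨(G y1).1, y1, h1, h2, rfl⟩
  have hPmem : ∀ a a', Pi a a' → ∀ b', b' ∈ a' ↔ ∃ b ∈ a, b ∈ X ∧ Pi b b' := by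
    rintro a a' ⟨y1, h1, h2, h3⟩ b'
    constructor
    · intro hb'
      rw [← h3] at hb'
      have hbM : b' ∈ M := hM.mem_of_mem (G y1).2 hb'
      obtain ⟨y2, h6, h7⟩ := (hG' y1 ⟨b', hbM⟩).1 hb'
      have hy2 := (hED _ _ h6).1
      have h8 := (hEm y2 y1 hy2 h1).1 h6
      rw [h2] at h8
      exact ⟨_, h8, hcodeX _ hy2, y2, hy2, rfl, congrArg Subtype.val h7⟩
    · rintro ⟨b, hb, hbX, y2, h6, h7, h8⟩
      rw [← h3, ← h8]
      exact (hG' y1 (G y2)).2 ⟨y2, (hEm y2 y1 h6 h1).2 (by rw [h7, h2]; exact hb), rfl⟩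
  have hPu : ∀ a a' a'', Pi a a' → Pi a a'' → a' = a'' := by
    intro a a' a'' h h'
    ext b'
    rw [hPmem a a' h, hPmem a a'' h']
  have hPX : ∀ a a', Pi a a' → a ∈ X := by
    rintro a a' ⟨y1, h1, h2, _⟩
    rw [← h2]; exact hcodeX y1 h1
  have hPinj : ∀ a : ZFSet.{u}, ∀ b c, Pi a c → Pi b c → a = b := by
    intro a
    induction a using ZFSet.inductionOn with
    | _ a ih =>
      intro b c ha hb
      apply hext a (hPX _ _ ha) b (hPX _ _ hb)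
      intro d hd
      obtain ⟨d', hd'⟩ := hPtot d hd
      constructor
      · intro hda
        have h1 : d' ∈ c := (hPmem a c ha d').2 ⟨d, hda, hd, hd'⟩
        obtain ⟨e, he, _, he'⟩ := (hPmem b c hb d').1 h1
        rw [ih d hda e d' hd' he']; exact he
      · intro hdb
        have h1 : d' ∈ c := (hPmem b c hb d').2 ⟨d, hdb, hd, hd'⟩
        obtain ⟨e, he, _, he'⟩ := (hPmem a c ha d').1 h1
        rw [← ih e he d d' he' hd']; exact he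
  have hPs : ∀ a : ZFSet.{u}, a ∈ s → Pi a a := by
    intro a
    induction a using ZFSet.inductionOn with
    | _ a ih =>
      intro ha
      obtain ⟨a', ha'⟩ := hPtot a (hsX a ha)
      have : a' = a := by
        ext b'
        rw [hPmem a a' ha']
        constructor
        · rintro ⟨b, hb, _, h1⟩
          rw [hPu _ _ _ h1 (ih b hb (hstr a ha hb))]; exact hb
        · intro hb'
          have h1 := hstr a ha hb'
          exact ⟨b', hb', hsX b' h1, ih b' hb' h1⟩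
      rw [this] at ha'; exact ha'
  let Xb : Set ZFSet.{u} := {a' | ∃ a, Pi a a'}
  have hXb : ∀ a' ∈ Xb, ∀ b' ∈ a', b' ∈ Xb := by
    rintro a' ⟨a, ha⟩ b' hb'
    obtain ⟨b, _, _, h1⟩ := (hPmem a a' ha b').1 hb'
    exact ⟨b, h1⟩
  choose π hπ using hPtot
  let e : X → Xb := fun a => ⟨π a.1 a.2, a.1, hπ a.1 a.2⟩
  have he1 : Function.Surjective e := by
    rintro ⟨a', a, ha⟩
    exact ⟨⟨a, hPX _ _ ha⟩, Subtype.ext (hPu _ _ _ (hπ a (hPX _ _ ha)) ha)⟩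
  have he2 : Function.Injective e := by
    intro a b h
    have h1 : π a.1 a.2 = π b.1 b.2 := congrArg Subtype.val h
    have h2 := hπ a.1 a.2
    rw [h1] at h2
    exact Subtype.ext (hPinj _ _ _ h2 (hπ b.1 b.2))
  have he3 : ∀ a b : X, SMem Xb (e a) (e b) ↔ SMem X a b := by
    intro a b
    show π a.1 a.2 ∈ π b.1 b.2 ↔ a.1 ∈ b.1
    rw [hPmem b.1 _ (hπ b.1 b.2)]
    constructor
    · rintro ⟨c, hc, _, h1⟩
      rw [hPinj _ _ _ (hπ a.1 a.2) h1]; exact hc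
    · intro h1; exact ⟨a.1, h1, a.2, hπ a.1 a.2⟩
  have h1 : Sat (SMem M) ψ (asg ⟨x, hxM⟩ ⟨y, hy⟩) := by
    rw [hψ.absolute hM.trans]
    have : (fun i => (asg (⟨x, hxM⟩ : M) ⟨y, hy⟩ i).1) = asg x y := by
      funext i; simp only [asg]; split_ifs <;> rfl
    rw [this]; exact hxy
  have h2 : Sat (SMem X) ψ (asg ⟨x, hxX⟩ ⟨y, hyX⟩) := by
    rw [hL1 M t X hXN hXt httr (hSk.mono (List.subset_cons_self _ _))]
    have : (fun i => (⟨(asg (⟨x, hxX⟩ : X) ⟨y, hyX⟩ i).1, hXN (asg (⟨x, hxX⟩ : X) ⟨y, hyX⟩ i).2⟩ : M)) =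
        asg ⟨x, hxM⟩ ⟨y, hy⟩ := by
      funext i; simp only [asg]; split_ifs <;> rfl
    rw [this]; exact h1
  rw [← Sat.iso e he1 he2 he3, hψ.absolute hXb] at h2
  have h3 : (fun i => (e (asg (⟨x, hxX⟩ : X) ⟨y, hyX⟩ i)).1) = asg x (π y hyX) := by
    funext i
    simp only [asg]
    split_ifs
    · exact hPu _ _ _ (hπ x hxX) (hPs x hx)
    · rfl
  rw [h3] at h2
  -- the function
  have hsG : Pi y (G ⟨s, hs⟩).1 := by
    refine ⟨⟨s, hs⟩, (hDm _).2 ⟨Tz.pt, ?_⟩, ?_, rfl⟩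
    · rw [hF2 _ rfl]; exact hyt
    · rw [hF2 _ rfl]
  have hπy : π y hyX = (G ⟨s, hs⟩).1 := hPu _ _ _ (hπ y hyX) hsG
  rw [hπy] at h2
  obtain ⟨f, hf, hf'⟩ := hM.exists_repl (F := fun z p : M => ∃ w : M, G z = w ∧ p.1 = ZFSet.pair z.1 w.1)
    (CTM.Dfn.ex (P := fun v w => G (v 0) = w ∧ (v 1).1 = ZFSet.pair (v 0).1 w.1) (CTM.Dfn.and
      (CTM.Dfn.subst2 (P := fun a b => G a = b) hG (CTM.DT.var _) (CTM.DT.var _))
      (CTM.Dfn.isPair (CTM.DT.var _) (CTM.DT.var _) (CTM.DT.var _)))) hTe (by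
    rintro z _ p p' ⟨w, hw, hp⟩ ⟨w', hw', hp'⟩
    apply Subtype.ext
    rw [hp, hp', ← hw, ← hw'])
  have hfm : ∀ z v, ZFSet.pair z v ∈ f ↔ ∃ h : z ∈ M, Tz s z ∧ (G ⟨z, h⟩).1 = v := by
    intro z v
    constructor
    · intro h
      obtain ⟨z', hz', w, hw, h4⟩ := (hf' ⟨_, hM.mem_of_mem hf h⟩).1 h
      have h4 : ZFSet.pair z v = ZFSet.pair z'.1 w.1 := h4
      rw [ZFSet.pair_inj] at h4
      obtain ⟨rfl, rfl⟩ := h4
      exact ⟨z'.2, (hTe' _).1 hz', congrArg Subtype.val hw⟩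
    · rintro ⟨h, hz, rfl⟩
      exact (hf' ⟨_, hM.pair_mem h (G ⟨z, h⟩).2⟩).2 ⟨⟨z, h⟩, (hTe' _).2 hz, _, rfl, rfl⟩
  refine ⟨f, hf, ⟨?_, ?_, ?_⟩⟩
  · intro z hz
    refine ⟨(G ⟨z, hTM z hz⟩).1, (hfm _ _).2 ⟨_, hz, rfl⟩, fun v' hv' => ?_⟩
    obtain ⟨_, _, h4⟩ := (hfm _ _).1 hv'
    exact h4.symm
  · intro z v hz hzv a ha
    obtain ⟨hzM, _, h4⟩ := (hfm _ _).1 hzv
    rw [← h4] at ha
    have haM : a ∈ M := hM.mem_of_mem (G ⟨z, hzM⟩).2 ha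
    obtain ⟨y2, h6, h7⟩ := (hG' ⟨z, hzM⟩ ⟨a, haM⟩).1 ha
    have hy2 := hDs _ (hED _ _ h6).1
    exact ⟨y2.1, hy2, (hfm _ _).2 ⟨y2.2, hy2, congrArg Subtype.val h7⟩⟩
  · intro v hv
    obtain ⟨_, _, h4⟩ := (hfm _ _).1 hv
    rw [← h4]
    exact h2

end Pool.Agent.H52.OM
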