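import Pool.Agent.H52.OM.AGiff
import Pool.Agent.H52.OM.BtZF

/-!
# OM-16: countable hulls

`HZ A w Z`: `Z` is a countable set (of `ZFSet`s), an elementary submodel of `(V, ∈)` and closed under countably many further choice functions.

PROOF of `exists_HZ`.  `exists_closed`: for countably many relations `R n l z` (`l` a list of elements of `V`) and a countable `P0` there is a countable `Z ⊇ P0` such that for all `n` and all `l` with entries in `Z`, if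
`∃ z, R n l z` then `∃ z ∈ Z, R n l z`: choose `f n l` with `R n l (f n l)` if possible; `Z_0 = P0`, `Z_{k+1} = Z_k ∪ {f n l : n, l with entries in Z_k}` (countable: lists over a countable set are countable), `Z = ⋃ Z_k`.
Then use the relations (index type: a countable sum type, e.g. encode each field separately and use `exists_closed` with `R : ι → List V → V → Prop`, `ι` a countable inductive type with one constructor for each field):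
* `wit`: for `φ, k`: `R l z := Sat (∈) φ (upd (fun i => l.getD i ∅) k z)` with lists of length `φ.bd` (`Sat.congr`: only the values `f i`, `i < φ.bd`, matter);
* `fl`: `l = [W]`, `z = fld W`; `sp`: `z = sep (BB A) x`; `hh θ`: `l = [W, p, q]`, `z = Hh (BB A) W p q θ`; `st`: `z = step (BB A) W`;
* `cd1 θ`, `cd2 θ`: `l = [W, z']`: the first (second) component of the least code: `R l p := ∃ q θ, Least (BB A) W z' p q θ` and, for the second one, `l = [W, z', p]`, `R l q := ∃ θ, Least (BB A) W z' p q θ`;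
* `lv`: `l = [a]`: `R l z := ∃ γ, a = γ.toZFSet ∧ z = Wl (BB A) w γ`;
* `lw`: `l = [a, y]`: `R l d := ∃ γ δ, a = γ.toZFSet ∧ d = δ.toZFSet ∧ δ < γ ∧ y ∈ step (BB A) (Wl (BB A) w δ)` (`Ordinal.toZFSet` is injective);
* `dn`: `l = [P, R, r, T]`, for every `n`: `z = D n` where `D` is a (chosen) witness of `BtZ A P R r T`; `dn'` the same for `Aᶜ`;
* `db`: `l = [P, R, r, T]`: `r'` as in the statement; it exists by `exists_bad` below.
`exists_bad`: suppose that there is no `r' ∈ P`, `r' ≤ r` with `BtZ Aᶜ P R r' T ∨ BadZ P R r' T`.  By `dichotomyZ` every `r1 ≤ r` has an `r2 ≤ r1` with `BtZ A P R r2 T`, so `BtZ A P R r T` by `exists_poset`, `btZ_iff` and `btF_of_dense`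
(`AGiff.lean`; `hmono` from `Nice.down`).
-/

set_option autoImplicit false
set_option linter.unusedVariables false
set_option linter.unusedSectionVars false
set_option linter.unusedSimpArgs false
set_option linter.deprecated false

universe u v w

open scoped ZFSet

namespace Pool.Agent.H52.OM

open Pool.Agent.H17.Omega Pool.Agent.H82.OC

/-- A countable hull. -/
structure HZ (A : Set (ℕ → ℕ)) (w : ZFSet.{u}) (Z : Set ZFSet.{u}) : Prop where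
  cnt : Z.Countable
  ne : Z.Nonempty
  wit : ∀ (φ : Fml) (k : ℕ) (f : ℕ → ZFSet.{u}), (∀ i, f i ∈ Z) →
    (∃ z, Sat (fun a b : ZFSet.{u} => a ∈ b) φ (upd f k z)) →
    ∃ z ∈ Z, Sat (fun a b : ZFSet.{u} => a ∈ b) φ (upd f k z)
  fl : ∀ W ∈ Z, fld W ∈ Z
  sp : ∀ x ∈ Z, ZFSet.sep (BB A) x ∈ Z
  hh : ∀ θ, ∀ W ∈ Z, ∀ p ∈ Z, ∀ q ∈ Z, Hh (BB A) W p q θ ∈ Z
  st : ∀ W ∈ Z, step (BB A) W ∈ Z
  cd : ∀ W ∈ Z, ∀ z ∈ Z, (∃ p q θ, Least (BB A) W z p q θ) → ∃ p ∈ Z, ∃ q ∈ Z, ∃ θ, Least (BB A) W z p q θ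
  lv : ∀ γ : Ordinal.{u}, γ.toZFSet ∈ Z → Wl (BB A) w γ ∈ Z
  lw : ∀ γ : Ordinal.{u}, γ.toZFSet ∈ Z → ∀ y ∈ Z, (∃ δ < γ, y ∈ step (BB A) (Wl (BB A) w δ)) →
    ∃ δ < γ, δ.toZFSet ∈ Z ∧ y ∈ step (BB A) (Wl (BB A) w δ)
  dn : ∀ P ∈ Z, ∀ R ∈ Z, ∀ r ∈ Z, ∀ T ∈ Z, BtZ A P R r T → ∃ D : ℕ → ZFSet.{u}, (∀ n, D n ∈ Z) ∧
    (∀ n, DenB P R r (D n)) ∧
    ∀ s : ℕ → ZFSet.{u}, IsSeq P R r s → (∀ n, ∃ k, s k ∈ D n) → ∃ x ∈ A, ∀ i j, Ev T s i j ↔ x i = j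
  dn' : ∀ P ∈ Z, ∀ R ∈ Z, ∀ r ∈ Z, ∀ T ∈ Z, BtZ Aᶜ P R r T → ∃ D : ℕ → ZFSet.{u}, (∀ n, D n ∈ Z) ∧
    (∀ n, DenB P R r (D n)) ∧
    ∀ s : ℕ → ZFSet.{u}, IsSeq P R r s → (∀ n, ∃ k, s k ∈ D n) → ∃ x ∈ Aᶜ, ∀ i j, Ev T s i j ↔ x i = j
  db : ∀ P ∈ Z, ∀ R ∈ Z, ∀ r ∈ Z, ∀ T ∈ Z, Nice P R T → r ∈ P → ¬ BtZ A P R r T →
    ∃ r' ∈ Z, r' ∈ P ∧ ZFSet.pair r' r ∈ R ∧ (BtZ Aᶜ P R r' T ∨ BadZ P R r' T)

/-- Countable closure under witnesses for countably many relations. -/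
theorem exists_closed {ι : Type} [Countable ι] (R : ι → List ZFSet.{u} → ZFSet.{u} → Prop) {P0 : Set ZFSet.{u}}
    (h0 : P0.Countable) : ∃ Z : Set ZFSet.{u}, Z.Countable ∧ P0 ⊆ Z ∧
      ∀ i l, (∀ a ∈ l, a ∈ Z) → (∃ z, R i l z) → ∃ z ∈ Z, R i l z := by
  classical
  let g : ι × List ZFSet.{u} → ZFSet.{u} := fun x => if h : ∃ z, R x.1 x.2 z then Classical.choose h else ∅
  have hg : ∀ i l, (∃ z, R i l z) → R i l (g (i, l)) := by
    intro i l h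
    have e : g (i, l) = Classical.choose h := dif_pos h
    rw [e]
    exact Classical.choose_spec h
  obtain ⟨S, hS0, hS⟩ : ∃ S : ℕ → Set ZFSet.{u}, S 0 = P0 ∧
      ∀ n, S (n + 1) = S n ∪ g '' ((Set.univ : Set ι) ×ˢ {l : List ZFSet.{u} | ∀ a ∈ l, a ∈ S n}) :=
    ⟨fun n => Nat.rec (motive := fun _ => Set ZFSet.{u}) P0
      (fun _ Y => Y ∪ g '' ((Set.univ : Set ι) ×ˢ {l : List ZFSet.{u} | ∀ a ∈ l, a ∈ Y})) n, rfl, fun _ => rfl⟩
  have hc : ∀ n, (S n).Countable := by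
    intro n
    induction n with
    | zero => rw [hS0]; exact h0
    | succ n ih =>
      rw [hS]
      refine ih.union (Set.Countable.image ?_ _)
      refine Set.Countable.prod Set.countable_univ ?_
      have hsub : {l : List ZFSet.{u} | ∀ a ∈ l, a ∈ S n} ⊆
          Set.range (fun l : List {a : ZFSet.{u} // a ∈ S n} => l.map fun b => b.1) := by
        intro l hl
        refine ⟨l.pmap (fun a h => ⟨a, h⟩) hl, ?_⟩
        simp [List.map_pmap]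
      have hcs : Countable {a : ZFSet.{u} // a ∈ S n} := ih.to_subtype
      exact (Set.countable_range _).mono hsub
  have hmono : Monotone S := monotone_nat_of_le_succ fun n => by rw [hS]; exact Set.subset_union_left
  refine ⟨⋃ n, S n, Set.countable_iUnion hc, hS0 ▸ Set.subset_iUnion S 0, fun i l hl hz => ?_⟩
  have hN : ∃ N, ∀ a ∈ l, a ∈ S N := by
    clear hz
    induction l with
    | nil => exact ⟨0, by simp⟩
    | cons b l ih =>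
      obtain ⟨N, hN⟩ := ih fun a ha => hl a (List.mem_cons_of_mem _ ha)
      obtain ⟨M, hM⟩ := Set.mem_iUnion.1 (hl b List.mem_cons_self)
      refine ⟨max N M, fun a ha => ?_⟩
      rcases List.mem_cons.1 ha with rfl | ha
      · exact hmono (le_max_right _ _) hM
      · exact hmono (le_max_left _ _) (hN a ha)
  obtain ⟨N, hN⟩ := hN
  refine ⟨g (i, l), Set.mem_iUnion.2 ⟨N + 1, ?_⟩, hg i l hz⟩
  rw [hS]
  exact Or.inr ⟨(i, l), ⟨Set.mem_univ _, hN⟩, rfl⟩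

theorem exists_bad {A : Set (ℕ → ℕ)} (hA : UB.{u} A) {P R r T : ZFSet.{u}} (h : Nice P R T) (hr : r ∈ P)
    (hB : ¬ BtZ A P R r T) :
    ∃ r' ∈ P, ZFSet.pair r' r ∈ R ∧ (BtZ Aᶜ P R r' T ∨ BadZ P R r' T) := by
  by_contra hne
  apply hB
  obtain ⟨Q, _, c, hinj, hP, hR⟩ := exists_poset h
  obtain ⟨r0, rfl⟩ := (hP _).1 hr
  refine (btZ_iff hinj hP hR r0).2 (btF_of_dense
    (bb := fun i j q => ZFSet.pair (c q) (ZFSet.pair (natZ i) (natZ j)) ∈ T)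
    (fun i j q q' hq hb => h.down _ _ _ hb ((hR _ _).1 hq)) fun r1 hr1 => ?_)
  obtain ⟨r', hr'P, hr', h3⟩ := dichotomyZ hA h ((hP (c r1)).2 ⟨r1, rfl⟩)
  obtain ⟨r2, rfl⟩ := (hP _).1 hr'P
  have hle : r2 ≤ r1 := (hR _ _).2 hr'
  have hle0 : ZFSet.pair (c r2) (c r0) ∈ R := (hR _ _).1 (hle.trans hr1)
  refine ⟨r2, hle, ?_⟩
  rcases h3 with h3 | h3 | h3
  · exact (btZ_iff hinj hP hR r2).1 h3
  · exact (hne ⟨_, hr'P, hle0, Or.inl h3⟩).elim
  · exact (hne ⟨_, hr'P, hle0, Or.inr h3⟩).elim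

/-- The relations that the hull is closed under. -/
def hullaRel (A : Set (ℕ → ℕ)) (w : ZFSet.{u}) : ℕ × ℕ × Fml → List ZFSet.{u} → ZFSet.{u} → Prop
  | (0, k, φ), l, z => Sat (fun a b : ZFSet.{u} => a ∈ b) φ (upd (fun i => l.getD i ∅) k z)
  | (1, _, _), l, z => z = fld (l.getD 0 ∅)
  | (2, _, _), l, z => z = ZFSet.sep (BB A) (l.getD 0 ∅)
  | (3, _, θ), l, z => z = Hh (BB A) (l.getD 0 ∅) (l.getD 1 ∅) (l.getD 2 ∅) θ
  | (4, _, _), l, z => z = step (BB A) (l.getD 0 ∅)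
  | (5, _, _), l, p => ∃ q θ, Least (BB A) (l.getD 0 ∅) (l.getD 1 ∅) p q θ
  | (6, _, _), l, q => ∃ θ, Least (BB A) (l.getD 0 ∅) (l.getD 1 ∅) (l.getD 2 ∅) q θ
  | (7, _, _), l, z => ∃ γ : Ordinal.{u}, l.getD 0 ∅ = γ.toZFSet ∧ z = Wl (BB A) w γ
  | (8, _, _), l, d => ∃ γ δ : Ordinal.{u}, l.getD 0 ∅ = γ.toZFSet ∧ d = δ.toZFSet ∧ δ < γ ∧
      l.getD 1 ∅ ∈ step (BB A) (Wl (BB A) w δ)
  | (9, n, _), l, z => ∃ h : BtZ A (l.getD 0 ∅) (l.getD 1 ∅) (l.getD 2 ∅) (l.getD 3 ∅), z = Classical.choose h n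
  | (10, n, _), l, z => ∃ h : BtZ Aᶜ (l.getD 0 ∅) (l.getD 1 ∅) (l.getD 2 ∅) (l.getD 3 ∅), z = Classical.choose h n
  | (11, _, _), l, z => z ∈ l.getD 0 ∅ ∧ ZFSet.pair z (l.getD 2 ∅) ∈ l.getD 1 ∅ ∧
      (BtZ Aᶜ (l.getD 0 ∅) (l.getD 1 ∅) z (l.getD 3 ∅) ∨ BadZ (l.getD 0 ∅) (l.getD 1 ∅) z (l.getD 3 ∅))
  | _, _, _ => False

theorem exists_HZ {A : Set (ℕ → ℕ)} (hA : UB.{u} A) (w : ZFSet.{u}) {P0 : Set ZFSet.{u}} (h0 : P0.Countable) :
    ∃ Z : Set ZFSet.{u}, P0 ⊆ Z ∧ HZ A w Z := by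
  have hcf : Countable Fml := Fml.code_injective.countable
  obtain ⟨Z, hZc, hP0', hZ⟩ := exists_closed (hullaRel A w) (h0.insert (∅ : ZFSet.{u}))
  have hP0 : P0 ⊆ Z := fun a ha => hP0' (Set.mem_insert_of_mem _ ha)
  have hne : Z.Nonempty := ⟨∅, hP0' (Set.mem_insert _ _)⟩
  have h1 : ∀ i a, a ∈ Z → (∃ z, hullaRel A w i [a] z) → ∃ z ∈ Z, hullaRel A w i [a] z := by
    intro i a ha
    refine hZ i [a] ?_
    simpa using ha
  have h2 : ∀ i a b, a ∈ Z → b ∈ Z → (∃ z, hullaRel A w i [a, b] z) → ∃ z ∈ Z, hullaRel A w i [a, b] z := by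
    intro i a b ha hb
    refine hZ i [a, b] ?_
    simpa using ⟨ha, hb⟩
  have h3 : ∀ i a b c, a ∈ Z → b ∈ Z → c ∈ Z → (∃ z, hullaRel A w i [a, b, c] z) →
      ∃ z ∈ Z, hullaRel A w i [a, b, c] z := by
    intro i a b c ha hb hc
    refine hZ i [a, b, c] ?_
    simpa using ⟨ha, hb, hc⟩
  have h4 : ∀ i a b c d, a ∈ Z → b ∈ Z → c ∈ Z → d ∈ Z → (∃ z, hullaRel A w i [a, b, c, d] z) →
      ∃ z ∈ Z, hullaRel A w i [a, b, c, d] z := by
    intro i a b c d ha hb hc hd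
    refine hZ i [a, b, c, d] ?_
    simpa using ⟨ha, hb, hc, hd⟩
  refine ⟨Z, hP0, ⟨hZc, hne, ?_, ?_, ?_, ?_, ?_, ?_, ?_, ?_, ?_, ?_, ?_⟩⟩
  · intro φ k f hf hz
    have key : ∀ z, Sat (fun a b : ZFSet.{u} => a ∈ b) φ
        (upd (fun i => ((List.range φ.bd).map f).getD i ∅) k z) ↔
        Sat (fun a b : ZFSet.{u} => a ∈ b) φ (upd f k z) := by
      intro z
      refine Sat.congr fun i hi => ?_
      unfold upd
      split_ifs
      · rfl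
      · simp [List.getD_eq_getElem?_getD, hi]
    obtain ⟨z, hzZ, hz'⟩ := hZ (0, k, φ) ((List.range φ.bd).map f) (by
      intro a ha
      obtain ⟨i, -, rfl⟩ := List.mem_map.1 ha
      exact hf i) (by
      obtain ⟨z, hz⟩ := hz
      exact ⟨z, (key z).2 hz⟩)
    exact ⟨z, hzZ, (key z).1 hz'⟩
  · intro W hW
    obtain ⟨z, hz, e⟩ := h1 (1, 0, .bot) W hW ⟨_, rfl⟩
    rw [show z = fld W from e] at hz
    exact hz
  · intro x hx
    obtain ⟨z, hz, e⟩ := h1 (2, 0, .bot) x hx ⟨_, rfl⟩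
    rw [show z = ZFSet.sep (BB A) x from e] at hz
    exact hz
  · intro θ W hW p hp q hq
    obtain ⟨z, hz, e⟩ := h3 (3, 0, θ) W p q hW hp hq ⟨_, rfl⟩
    rw [show z = Hh (BB A) W p q θ from e] at hz
    exact hz
  · intro W hW
    obtain ⟨z, hz, e⟩ := h1 (4, 0, .bot) W hW ⟨_, rfl⟩
    rw [show z = step (BB A) W from e] at hz
    exact hz
  · rintro W hW z hz ⟨p, q, θ, h⟩
    obtain ⟨p', hp', e⟩ := h2 (5, 0, .bot) W z hW hz ⟨p, q, θ, h⟩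
    obtain ⟨q', hq', e'⟩ := h3 (6, 0, .bot) W z p' hW hz hp' e
    exact ⟨p', hp', q', hq', e'⟩
  · intro γ hγ
    obtain ⟨z, hz, γ', e1, e2⟩ := h1 (7, 0, .bot) γ.toZFSet hγ ⟨_, γ, rfl, rfl⟩
    have : γ = γ' := Ordinal.toZFSet_injective e1
    rw [e2, ← this] at hz
    exact hz
  · rintro γ hγ y hy ⟨δ, hδ, hyδ⟩
    obtain ⟨z, hz, γ', δ', e1, e2, e3, e4⟩ := h2 (8, 0, .bot) γ.toZFSet y hγ hy ⟨_, γ, δ, rfl, rfl, hδ, hyδ⟩
    have : γ = γ' := Ordinal.toZFSet_injective e1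
    rw [e2] at hz
    exact ⟨δ', this ▸ e3, hz, e4⟩
  · intro P hP R hR r hr T hT hB
    refine ⟨Classical.choose hB, fun n => ?_, (Classical.choose_spec hB).1, (Classical.choose_spec hB).2⟩
    obtain ⟨z, hz, h, e⟩ := h4 (9, n, .bot) P R r T hP hR hr hT ⟨_, hB, rfl⟩
    rw [e] at hz
    exact hz
  · intro P hP R hR r hr T hT hB
    refine ⟨Classical.choose hB, fun n => ?_, (Classical.choose_spec hB).1, (Classical.choose_spec hB).2⟩
    obtain ⟨z, hz, h, e⟩ := h4 (10, n, .bot) P R r T hP hR hr hT ⟨_, hB, rfl⟩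
    rw [e] at hz
    exact hz
  · intro P hP R hR r hr T hT hN hrP hB
    obtain ⟨r', h5, h6, h7⟩ := exists_bad hA hN hrP hB
    obtain ⟨z, hz, e1, e2, e3⟩ := h4 (11, 0, .bot) P R r T hP hR hr hT ⟨r', h5, h6, h7⟩
    exact ⟨z, hz, e1, e2, e3⟩

end Pool.Agent.H52.OM
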