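import Pool.Agent.H52.OM.Hier

/-!
# OM-8a (KL_upair, KL_pair, KL_sep, KL_sUnion): closure properties of the limit levels

`K = KL B w γ = {x | x ∈ fld (Wl B w γ)}`, `γ` a limit ordinal, `w` a wellorder of a nonempty transitive set.

PROOF.  (`fld_Wl_limit`: every element of `K`, and finitely many of them simultaneously, lie in a level `δ < γ`; then `δ + 1, δ + 2, .. < γ`.)
* `KL_upair`: `{a, b} = {z ∈ L_δ | z = a ∨ z = b}` is `Hh (Wl δ) a b θ` with `θ = or (eq 0 4) (eq 0 5)`; `Hh_mem`.  `KL_pair`: `ZFSet.pair a b = {{a, a}, {a, b}}` (`pair_eq_upair`).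
* `KL_sep1` (one parameter): if `P : (Fin 4 → ZFSet) → Prop` is `D0` (variables: `L_δ`, `W_δ`... see below) -- prove first: for `Q : (Fin 3 → ZFSet) → Prop` with `D0 Q`, and `p ∈ L_δ`: the set
  `{z ∈ L_δ | Q ![L_δ, p, z]}` is `Hh (Wl δ) p p θ` for the formula `θ` obtained from the formula of `Q` by the renaming `0 ↦ 1, 1 ↦ 4, 2 ↦ 0` (extended injectively; `Fml.Delta0.ren`, `Sat.ren`, `Sat.congr_free`: the values
  of variables that are not free do not matter).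
* `KL_sep`: given `D0 P`, `v : Fin n → K`, `u ∈ K`.  Code the parameters `v` and `u` into one element `p = pair u (pair (v 0) (pair (v 1) ...))` of `K` and choose `δ < γ` with `p, u ∈ L_δ`.
  Then `{z ∈ u | P (snoc v z)} = {z ∈ L_δ | Q ![L_δ, p, z]}` with `Q ![l, p, z] = ∃ y ∈ l, ∃ p' ∈ l, p = pair y p' ∧ z ∈ y ∧ (∃ x_0 ∈ l, ∃ p'' ∈ l, p' = pair x_0 p'' ∧ ... P (snoc x z))`, which is `D0`
  (`D0.bexZ`, `D0.isPair`); components of a pair in the transitive set `L_δ` are in `L_δ`.  It is convenient to argue by induction on `n`, generalising `P`: replace the two parameters `v (n-2), v (n-1)` by their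
  pair: if `D0 P` for `P` with `n + 2` parameters then `P' (.., e, z) := ∃ s ∈ e, ∃ a ∈ s, ∃ b ∈ s, e = pair a b ∧ P (.., a, b, z)` is `D0` (as `{a, b} ∈ pair a b`).
* `KL_sUnion`: `⋃ x = {z ∈ L_δ | ∃ y ∈ x, z ∈ y}`, `KL_sep` with `u = L_δ ∈ K` (`level_mem`).
* `Wl_mem_KL`: for `δ < γ`: choose `δ' < γ` with `δ + 3 ≤ δ'`.  `L_δ, ` and all pairs of elements of `L_δ` are in `L_δ'`.  `Wl δ = {z ∈ L_δ' | z ∈ Wl δ' ∧ ∃ a ∈ p, ∃ b ∈ p, z = pair a b}` with `p = L_δ`
  (`Wl_end`, `Wl_mono`, `WO.rel`), a set `Hh (Wl δ') p p θ`, where `θ` is the formula (variables 0, 2, 4) of that `Δ₀` condition.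
* `KL_amenable`: `B ∩ L_δ = {z ∈ L_δ | z ∈ B ∩ L_δ} = Hh (Wl δ) p p (mem 0 3) ∈ K`, and `sep B u = (B ∩ L_δ) ∩ u` for `u ∈ L_δ` (transitive) by `KL_sep`.
* `natZ_mem_KL`: induction (`KL_upair`, `KL_sUnion`); `omZ_mem_KL`: if `ω < γ`: `natZ n ∈ L_ω` for all `n`, and `omZ = {z ∈ L_ω | IsNatZ z}`, `IsNatZ` is `D0` (see `Dfn.isNat` in `H17/Omega/CtmD.lean`), `isNatZ_iff`.
-/

set_option autoImplicit false
set_option linter.unusedVariables false
set_option linter.unusedSectionVars false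
set_option linter.unusedSimpArgs false
set_option linter.deprecated false

universe u v w

open scoped ZFSet

namespace Pool.Agent.H52.OM

open Pool.Agent.H17.Omega Pool.Agent.H82.OC

/-- Renaming of the variables of a `Δ₀` predicate. -/
theorem limka_ren {n m : ℕ} {P : (Fin n → ZFSet.{u}) → Prop} (hP : D0 P) (σ : Fin n → Fin m)
    (hσ : Function.Injective σ) : D0 (fun v : Fin m → ZFSet.{u} => P (fun i => v (σ i))) := by
  obtain ⟨θ, h1, h2, h3⟩ := hP
  let ρ : ℕ → ℕ := fun k => if h : k < n then (σ ⟨k, h⟩ : ℕ) else m + k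
  have hρ : Function.Injective ρ := by
    intro a b hab
    simp only [ρ] at hab
    by_cases ha : a < n <;> by_cases hb : b < n
    · rw [dif_pos ha, dif_pos hb] at hab
      have := hσ (Fin.ext hab)
      exact Fin.mk.inj_iff.1 this
    · rw [dif_pos ha, dif_neg hb] at hab
      have := (σ ⟨a, ha⟩).2
      omega
    · rw [dif_neg ha, dif_pos hb] at hab
      have := (σ ⟨b, hb⟩).2
      omega
    · rw [dif_neg ha, dif_neg hb] at hab
      omega
  refine ⟨θ.ren ρ, h1.ren hρ, ?_, fun f => ?_⟩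
  · intro k hk
    obtain ⟨j, hj, rfl⟩ := Fml.Free.of_ren hρ hk
    have hjn := h2 j hj
    simp only [ρ]
    rw [dif_pos hjn]
    exact (σ ⟨j, hjn⟩).2
  · rw [Sat.ren hρ, h3]
    have e : (fun i : Fin n => f (ρ i)) = fun i : Fin n => f (σ i) := by
      funext i
      simp only [ρ]
      rw [dif_pos i.2]
    rw [e]

section

variable {B : ZFSet.{u} → Prop} {w : ZFSet.{u}} (hw : WO w) (ht : (fld w).IsTransitive)
  (hne : ∃ x, x ∈ fld w) {γ : Ordinal.{u}} (hγ : Order.IsSuccLimit γ)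

include hw ht hne hγ

theorem limka_up {δ δ' : Ordinal.{u}} (h : δ ≤ δ') {a : ZFSet.{u}} (ha : a ∈ fld (Wl B w δ)) :
    a ∈ fld (Wl B w δ') := fld_mono (Wl_mono h) ha

theorem limka_KL {δ : Ordinal.{u}} (h : δ < γ) {a : ZFSet.{u}} (ha : a ∈ fld (Wl B w δ)) :
    a ∈ KL B w γ := fld_mono (Wl_mono h.le) ha

theorem limka_lev {δ₀ : Ordinal.{u}} (h₀ : δ₀ < γ) {a : ZFSet.{u}} (ha : a ∈ KL B w γ) :
    ∃ δ, δ₀ ≤ δ ∧ δ < γ ∧ a ∈ fld (Wl B w δ) := by
  obtain ⟨δ, hδ, h⟩ := (fld_Wl_limit hw hγ).1 ha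
  exact ⟨max δ₀ δ, le_max_left _ _, max_lt h₀ hδ,
    limka_up hw ht hne hγ (le_max_right _ _) h⟩

theorem limka_Hh {δ : Ordinal.{u}} (h : δ < γ) {θ : Fml} (hθ : θ.Delta0) {p q : ZFSet.{u}}
    (hp : p ∈ fld (Wl B w δ)) (hq : q ∈ fld (Wl B w δ)) : Hh B (Wl B w δ) p q θ ∈ KL B w γ :=
  limka_KL hw ht hne hγ (hγ.succ_lt h) (Hh_mem hw (Order.lt_succ δ) hθ hp hq)

theorem KL_upair {a b : ZFSet.{u}} (ha : a ∈ KL B w γ) (hb : b ∈ KL B w γ) :
    ({a, b} : ZFSet.{u}) ∈ KL B w γ := by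
  obtain ⟨δ₁, _, h1, ha1⟩ := limka_lev hw ht hne hγ hγ.bot_lt ha
  obtain ⟨δ, h2, h3, hb1⟩ := limka_lev hw ht hne hγ h1 hb
  have ha2 := limka_up hw ht hne hγ h2 ha1
  have h4 := limka_Hh hw ht hne hγ h3 (θ := .or (.eq 0 4) (.eq 0 5)) (.or (.eq _ _) (.eq _ _))
    ha2 hb1
  have e : Hh B (Wl B w δ) a b (.or (.eq 0 4) (.eq 0 5)) = {a, b} := by
    ext z
    rw [Hh, ZFSet.mem_sep, ZFSet.mem_pair]
    constructor
    · rintro ⟨_, h⟩
      exact h
    · intro h
      refine ⟨?_, h⟩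
      rcases h with rfl | rfl
      · exact ha2
      · exact hb1
  rw [← e]
  exact h4

theorem KL_pair {a b : ZFSet.{u}} (ha : a ∈ KL B w γ) (hb : b ∈ KL B w γ) :
    ZFSet.pair a b ∈ KL B w γ := by
  rw [pair_eq_upair]
  exact KL_upair hw ht hne hγ (KL_upair hw ht hne hγ ha ha) (KL_upair hw ht hne hγ ha hb)

/-- Separation with one parameter. -/
theorem limka_sep1 {Q : (Fin 3 → ZFSet.{u}) → Prop} (hQ : D0 Q) {δ : Ordinal.{u}} (h : δ < γ)
    {p : ZFSet.{u}} (hp : p ∈ fld (Wl B w δ)) :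
    ZFSet.sep (fun z => Q ![fld (Wl B w δ), p, z]) (fld (Wl B w δ)) ∈ KL B w γ := by
  obtain ⟨θ, h1, h2, h3⟩ := hQ
  let ρ : ℕ → ℕ := fun k => if k = 0 then 1 else if k = 1 then 4 else if k = 2 then 0 else k + 10
  have hρ : Function.Injective ρ := by
    intro a b hab
    simp only [ρ] at hab
    split_ifs at hab <;> omega
  have h4 := limka_Hh hw ht hne hγ h (h1.ren hρ) hp hp
  have e : Hh B (Wl B w δ) p p (θ.ren ρ) =
      ZFSet.sep (fun z => Q ![fld (Wl B w δ), p, z]) (fld (Wl B w δ)) := by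
    ext z
    rw [Hh, ZFSet.mem_sep, ZFSet.mem_sep, Sat.ren hρ, h3]
    have e2 : (fun i : Fin 3 => asH B (Wl B w δ) p p z (ρ i)) = ![fld (Wl B w δ), p, z] := by
      funext i
      fin_cases i <;> rfl
    rw [e2]
  rw [← e]
  exact h4

theorem limka_sepS (n : ℕ) : ∀ {P : (Fin (n + 2) → ZFSet.{u}) → Prop}, D0 P →
    ∀ v : Fin (n + 1) → ZFSet.{u}, (∀ i, v i ∈ KL B w γ) → ∀ δ₀ < γ, ∃ δ, δ₀ ≤ δ ∧ δ < γ ∧
      ZFSet.sep (fun z => P (Fin.snoc (α := fun _ => ZFSet.{u}) v z)) (fld (Wl B w δ)) ∈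
        KL B w γ := by
  induction n with
  | zero =>
    intro P hP v hv δ₀ hδ₀
    obtain ⟨δ, h1, h2, h3⟩ := limka_lev hw ht hne hγ hδ₀ (hv 0)
    refine ⟨δ, h1, h2, ?_⟩
    have hQ : D0 (fun u : Fin 3 → ZFSet.{u} => P (fun i => u (![1, 2] i))) :=
      limka_ren hP ![1, 2] (by decide)
    have h4 := limka_sep1 hw ht hne hγ hQ h2 h3
    have e : ∀ z : ZFSet.{u}, (fun i : Fin 2 => (![fld (Wl B w δ), v 0, z] : Fin 3 → ZFSet.{u})
        ((![1, 2] : Fin 2 → Fin 3) i)) = Fin.snoc (α := fun _ => ZFSet.{u}) v z := by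
      intro z
      funext i
      fin_cases i
      · rfl
      · rfl
    simp only [e] at h4
    exact h4
  | succ n ih =>
    intro P hP v hv δ₀ hδ₀
    let W : (Fin (n + 2) → ZFSet.{u}) → ZFSet.{u} → ZFSet.{u} → Fin (n + 3) → ZFSet.{u} :=
      fun u a b i => if h : (i : ℕ) < n then u ⟨i, by omega⟩ else if (i : ℕ) = n then a else
        if (i : ℕ) = n + 1 then b else u (Fin.last (n + 1))
    have hP' : D0 (fun u : Fin (n + 2) → ZFSet.{u} => ∃ s ∈ u ⟨n, by omega⟩, ∃ a ∈ s, ∃ b ∈ s,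
        u ⟨n, by omega⟩ = ZFSet.pair a b ∧ P (W u a b)) := by
      let σ : Fin (n + 3) → Fin (n + 5) := fun i => if h : (i : ℕ) < n then ⟨i, by omega⟩ else
        if (i : ℕ) = n then ⟨n + 3, by omega⟩ else if (i : ℕ) = n + 1 then ⟨n + 4, by omega⟩ else
          ⟨n + 1, by omega⟩
      have hσ : Function.Injective σ := by
        intro i j hij
        have hi := i.2
        have hj := j.2
        apply Fin.ext
        simp only [σ] at hij
        split_ifs at hij <;> simp only [Fin.mk.injEq] at hij <;> omega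
      refine D0.bexZ (p := fun u s => ∃ a ∈ s, ∃ b ∈ s, u ⟨n, by omega⟩ = ZFSet.pair a b ∧
        P (W u a b)) (D0T.var ⟨n, by omega⟩) ?_
      refine D0.bexZ (s := fun u : Fin (n + 3) → ZFSet.{u} => u (Fin.last (n + 2)))
        (p := fun u a => ∃ b ∈ u (Fin.last (n + 2)), u (⟨n, by omega⟩ : Fin (n + 2)).castSucc =
          ZFSet.pair a b ∧ P (W (fun i => u i.castSucc) a b)) (D0T.var _) ?_
      refine D0.bexZ (s := fun u : Fin (n + 4) → ZFSet.{u} => u (Fin.last (n + 2)).castSucc)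
        (p := fun u b => u (⟨n, by omega⟩ : Fin (n + 2)).castSucc.castSucc =
          ZFSet.pair (u (Fin.last (n + 3))) b ∧
            P (W (fun i => u i.castSucc.castSucc) (u (Fin.last (n + 3))) b)) (D0T.var _) ?_
      refine D0.and (D0.isPair (D0T.var _) (D0T.var _) (D0T.var _)) ?_
      refine (limka_ren hP σ hσ).congr fun u => ?_
      have e : (fun i => u (σ i)) = W (fun i => u i.castSucc.castSucc.castSucc)
          (u (Fin.last (n + 3)).castSucc) (u (Fin.last (n + 4))) := by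
        funext i
        simp only [W, σ]
        split_ifs <;> rfl
      rw [e]
    have hn : n < n + 2 := by omega
    obtain ⟨e, he⟩ : ∃ e, e = ZFSet.pair (v ⟨n, by omega⟩) (v ⟨n + 1, by omega⟩) := ⟨_, rfl⟩
    have heK : e ∈ KL B w γ := by
      rw [he]
      exact KL_pair hw ht hne hγ (hv _) (hv _)
    let v' : Fin (n + 1) → ZFSet.{u} := fun i => if h : (i : ℕ) < n then v ⟨i, by omega⟩ else e
    have hv' : ∀ i, v' i ∈ KL B w γ := by
      intro i
      simp only [v']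
      split_ifs with h
      · exact hv _
      · exact heK
    obtain ⟨δ, h1, h2, h3⟩ := ih hP' v' hv' δ₀ hδ₀
    refine ⟨δ, h1, h2, ?_⟩
    have key : ∀ z : ZFSet.{u}, (∃ s ∈ (Fin.snoc (α := fun _ => ZFSet.{u}) v' z :
        Fin (n + 2) → ZFSet.{u}) ⟨n, by omega⟩, ∃ a ∈ s, ∃ b ∈ s,
        (Fin.snoc (α := fun _ => ZFSet.{u}) v' z : Fin (n + 2) → ZFSet.{u}) ⟨n, by omega⟩ =
          ZFSet.pair a b ∧ P (W (Fin.snoc (α := fun _ => ZFSet.{u}) v' z) a b)) ↔
        P (Fin.snoc (α := fun _ => ZFSet.{u}) v z) := by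
      intro z
      have e1 : (Fin.snoc (α := fun _ => ZFSet.{u}) v' z : Fin (n + 2) → ZFSet.{u})
          ⟨n, by omega⟩ = e := by
        simp [Fin.snoc, v']
      have e2 : W (Fin.snoc (α := fun _ => ZFSet.{u}) v' z) (v ⟨n, by omega⟩)
          (v ⟨n + 1, by omega⟩) = Fin.snoc (α := fun _ => ZFSet.{u}) v z := by
        funext i
        simp only [W]
        by_cases hi : (i : ℕ) < n
        · rw [dif_pos hi]
          have h5 : (i : ℕ) < n + 1 := by omega
          have h6 : (i : ℕ) < n + 2 := by omega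
          simp [Fin.snoc, v', hi, h5, h6, Fin.castLT]
        · rw [dif_neg hi]
          by_cases hi1 : (i : ℕ) = n
          · rw [if_pos hi1]
            have h6 : (i : ℕ) < n + 2 := by omega
            simp [Fin.snoc, h6, Fin.castLT, hi1]
          · rw [if_neg hi1]
            by_cases hi2 : (i : ℕ) = n + 1
            · rw [if_pos hi2]
              have h6 : (i : ℕ) < n + 2 := by omega
              simp [Fin.snoc, h6, Fin.castLT, hi2]
            · rw [if_neg hi2]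
              have hi3 := i.2
              have h6 : ¬ (i : ℕ) < n + 2 := by omega
              simp [Fin.snoc, h6]
      rw [e1]
      constructor
      · rintro ⟨s, _, a, _, b, _, hab, hPW⟩
        rw [he, ZFSet.pair_inj] at hab
        rw [← hab.1, ← hab.2, e2] at hPW
        exact hPW
      · intro hPz
        refine ⟨{v ⟨n, by omega⟩, v ⟨n + 1, by omega⟩}, ?_, v ⟨n, by omega⟩, ?_,
          v ⟨n + 1, by omega⟩, ?_, he, ?_⟩
        · rw [he, pair_eq_upair]; simp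
        · simp
        · simp
        · rw [e2]; exact hPz
    simp only [key] at h3
    exact h3

theorem KL_sep {n : ℕ} {P : (Fin (n + 1) → ZFSet.{u}) → Prop} (hP : D0 P) (v : Fin n → ZFSet.{u})
    (hv : ∀ i, v i ∈ KL B w γ) {x : ZFSet.{u}} (hx : x ∈ KL B w γ) :
    ZFSet.sep (fun z => P (Fin.snoc (α := fun _ => ZFSet.{u}) v z)) x ∈ KL B w γ := by
  let σ : Fin (n + 1) → Fin (n + 2) := fun i => if h : (i : ℕ) < n then ⟨i, by omega⟩ else
    ⟨n + 1, by omega⟩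
  have hσ : Function.Injective σ := by
    intro i j hij
    have hi := i.2
    have hj := j.2
    apply Fin.ext
    simp only [σ] at hij
    split_ifs at hij <;> simp only [Fin.mk.injEq] at hij <;> omega
  have hP' : D0 (fun u : Fin (n + 2) → ZFSet.{u} =>
      u (Fin.last (n + 1)) ∈ u ⟨n, by omega⟩ ∧ P (fun i => u (σ i))) :=
    D0.and (D0.mem (D0T.var _) (D0T.var _)) (limka_ren hP σ hσ)
  let v' : Fin (n + 1) → ZFSet.{u} := Fin.snoc (α := fun _ => ZFSet.{u}) v x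
  have hv' : ∀ i, v' i ∈ KL B w γ := by
    intro i
    simp only [v', Fin.snoc]
    split_ifs with h
    · exact hv _
    · exact hx
  obtain ⟨δ₀, _, hδ₀, hx₀⟩ := limka_lev hw ht hne hγ hγ.bot_lt hx
  obtain ⟨δ, h1, h2, h3⟩ := limka_sepS hw ht hne hγ n hP' v' hv' δ₀ hδ₀
  have hxδ := limka_up hw ht hne hγ h1 hx₀
  have e : ZFSet.sep (fun z => P (Fin.snoc (α := fun _ => ZFSet.{u}) v z)) x =
      ZFSet.sep (fun z => (Fin.snoc (α := fun _ => ZFSet.{u}) v' z : Fin (n + 2) → ZFSet.{u})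
        (Fin.last (n + 1)) ∈ (Fin.snoc (α := fun _ => ZFSet.{u}) v' z : Fin (n + 2) → ZFSet.{u})
          ⟨n, by omega⟩ ∧ P (fun i => (Fin.snoc (α := fun _ => ZFSet.{u}) v' z :
            Fin (n + 2) → ZFSet.{u}) (σ i))) (fld (Wl B w δ)) := by
    ext z
    rw [ZFSet.mem_sep, ZFSet.mem_sep]
    have e1 : (Fin.snoc (α := fun _ => ZFSet.{u}) v' z : Fin (n + 2) → ZFSet.{u})
        (Fin.last (n + 1)) = z := by simp
    have e2 : (Fin.snoc (α := fun _ => ZFSet.{u}) v' z : Fin (n + 2) → ZFSet.{u})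
        ⟨n, by omega⟩ = x := by
      simp [Fin.snoc, v']
    have e3 : (fun i => (Fin.snoc (α := fun _ => ZFSet.{u}) v' z :
        Fin (n + 2) → ZFSet.{u}) (σ i)) = Fin.snoc (α := fun _ => ZFSet.{u}) v z := by
      funext i
      simp only [σ]
      by_cases hi : (i : ℕ) < n
      · rw [dif_pos hi]
        have h5 : (i : ℕ) < n + 1 := by omega
        simp [Fin.snoc, v', hi, h5, Fin.castLT]
      · rw [dif_neg hi]
        simp [Fin.snoc, hi]
    rw [e1, e2, e3]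
    constructor
    · rintro ⟨h4, h5⟩
      exact ⟨(trans_Wl hw ht δ).mem_trans h4 hxδ, h4, h5⟩
    · rintro ⟨_, h4, h5⟩
      exact ⟨h4, h5⟩
  rw [e]
  exact h3

theorem KL_sUnion {x : ZFSet.{u}} (hx : x ∈ KL B w γ) : ZFSet.sUnion x ∈ KL B w γ := by
  obtain ⟨δ, _, hδ, hxδ⟩ := limka_lev hw ht hne hγ hγ.bot_lt hx
  have hL : fld (Wl B w δ) ∈ KL B w γ :=
    limka_KL hw ht hne hγ (hγ.succ_lt hδ) (level_mem hw (Order.lt_succ δ) hne)
  have hP : D0 (fun u : Fin 2 → ZFSet.{u} => ∃ y ∈ u 0, u 1 ∈ y) :=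
    D0.bexZ (s := fun u : Fin 2 → ZFSet.{u} => u 0) (p := fun u y => u 1 ∈ y) (D0T.var 0)
      (D0.mem (D0T.var _) (D0T.var _))
  have h3 := KL_sep hw ht hne hγ hP (fun _ : Fin 1 => x) (fun _ => hx) hL
  have e : ZFSet.sUnion x = ZFSet.sep (fun z => ∃ y ∈
      (Fin.snoc (α := fun _ => ZFSet.{u}) (fun _ : Fin 1 => x) z : Fin 2 → ZFSet.{u}) 0,
      (Fin.snoc (α := fun _ => ZFSet.{u}) (fun _ : Fin 1 => x) z : Fin 2 → ZFSet.{u}) 1 ∈ y)
      (fld (Wl B w δ)) := by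
    ext z
    rw [ZFSet.mem_sUnion, ZFSet.mem_sep]
    have e1 : (Fin.snoc (α := fun _ => ZFSet.{u}) (fun _ : Fin 1 => x) z :
      Fin 2 → ZFSet.{u}) 0 = x := rfl
    have e2 : (Fin.snoc (α := fun _ => ZFSet.{u}) (fun _ : Fin 1 => x) z :
      Fin 2 → ZFSet.{u}) 1 = z := rfl
    rw [e1, e2]
    constructor
    · rintro ⟨y, hy, hz⟩
      have htr := trans_Wl (B := B) hw ht δ
      exact ⟨htr.mem_trans hz (htr.mem_trans hy hxδ), y, hy, hz⟩
    · rintro ⟨_, h⟩
      exact h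
  rw [e]
  exact h3

end

end Pool.Agent.H52.OM
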