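import Pool.Agent.H52.OM.LimKa

/-!
# OM-8b (Wl_mem_KL, KL_amenable, omZ_mem_KL): closure properties of the limit levels

`K = KL B w γ = {x | x ∈ fld (Wl B w γ)}`, `γ` a limit ordinal, `w` a wellorder of a nonempty transitive set.

PROOF.  (`fld_Wl_limit`: every element of `K`, and finitely many of them simultaneously, lie in a level `δ < γ`; then `δ + 1, δ + 2, .. < γ`.)
* `KL_upair`: `{a, b} = {z ∈ L_δ | z = a ∨ z = b}` is `Hh (Wl δ) a b θ` with `θ = or (eq 0 4) (eq 0 5)`; `Hh_mem`.  `KL_pair`: `ZFSet.pair a b = {{a, a}, {a, b}}` (`pair_eq_upair`).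
* `KL_sep1` (one parameter): if `P : (Fin 4 → ZFSet) → Prop` is `D0` (variables: `L_δ`, `W_δ`... see below) -- prove first: for `Q : (Fin 3 → ZFSet) → Prop` with `D0 Q`, and `p ∈ L_δ`: the set
  `{z ∈ L_δ | Q ![L_δ, p, z]}` is `Hh (Wl δ) p p θ` for the formula `θ` obtained from the formula of `Q` by the renaming `0 ↦ 1, 1 ↦ 4, 2 ↦ 0` (extended injectively; `Fml.Delta0.ren`, `Sat.ren`, `Sat.congr_free`: the values
  of variables that are not free do not matter).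
* `KL_sep`: given `D0 P`, `v : Fin n → K`, `u ∈ K`.  Code the parameters `v` and `u` into one element `p = pair u (pair (v 0) (pair (v 1) ...))` of `K` and choose `δ < γ` with `p, u ∈ L_δ`.
  Then `{z ∈ u | P (snoc v z)} = {z ∈ L_δ | Q ![L_δ, p, z]}` with `Q ![l, p, z] = ∃ y ∈ l, ∃ p' ∈ l, p = pair y p' ∧ z ∈ y ∧ (∃ x_0 ∈ l, ∃ p'' ∈ l, p' = pair x_0 p'' ∧ ... P (snoc x z))`, which is `D0`
  (`D0.bexZ`, `D0.isPair`); components of a pair in the transitive set `L_δ` are in `L_δ`.  It is convenient to argue by induction on `n`, generalising `P`: replace the two parameters `v (n-2), v (n-1)` by their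
  pair: if `D0 P` for `P` with `n + 2` parameters then `P' (.., e, z) := ∃ s ∈ e, ∃ a ∈ s, ∃ b ∈ s, e = pair a b ∧ P (.., a, b, z)` is `D0` (as `{a, b} ∈ pair a b`).
* `KL_sUnion`: `⋃ x = {z ∈ L_δ | ∃ y ∈ x, z ∈ y}`, `KL_sep` with `u = L_δ ∈ K` (`level_mem`).
* `Wl_mem_KL`: for `δ < γ`: choose `δ' < γ` with `δ + 3 ≤ δ'`.  `L_δ, ` and all pairs of elements of `L_δ` are in `L_δ'`.  `Wl δ = {z ∈ L_δ' | z ∈ Wl δ' ∧ ∃ a ∈ p, ∃ b ∈ p, z = pair a b}` with `p = L_δ`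
  (`Wl_end`, `Wl_mono`, `WO.rel`), a set `Hh (Wl δ') p p θ`, where `θ` is the formula (variables 0, 2, 4) of that `Δ₀` condition.
* `KL_amenable`: `B ∩ L_δ = {z ∈ L_δ | z ∈ B ∩ L_δ} = Hh (Wl δ) p p (mem 0 3) ∈ K`, and `sep B u = (B ∩ L_δ) ∩ u` for `u ∈ L_δ` (transitive) by `KL_sep`.
* `natZ_mem_KL`: induction (`KL_upair`, `KL_sUnion`); `omZ_mem_KL`: if `ω < γ`: `natZ n ∈ L_ω` for all `n`, and `omZ = {z ∈ L_ω | IsNatZ z}`, `IsNatZ` is `D0` (see `Dfn.isNat` in `H17/Omega/CtmD.lean`), `isNatZ_iff`.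
-/

set_option autoImplicit false
set_option linter.unusedVariables false
set_option linter.unusedSectionVars false
set_option linter.unusedSimpArgs false
set_option linter.deprecated false

universe u v w

open scoped ZFSet

namespace Pool.Agent.H52.OM

open Pool.Agent.H17.Omega Pool.Agent.H82.OC

section

variable {n : ℕ} {r s t : (Fin n → ZFSet.{u}) → ZFSet.{u}}

theorem limkb_isInsert (hr : D0T r) (hs : D0T s) (ht : D0T t) :
    D0 (fun v => r v = insert (s v) (t v)) := by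
  refine (((D0.mem hs hr).and (D0.subset ht hr)).and (D0.ballZ (p := fun v z => z = s v ∨ z ∈ t v) hr
    ((D0.eqv D0T.last hs.lift).or (D0.mem D0T.last ht.lift)))).congr fun v => ?_
  constructor
  · rintro ⟨⟨h1, h2⟩, h3⟩
    ext z
    rw [ZFSet.mem_insert_iff]
    constructor
    · exact h3 z
    · rintro (rfl | h)
      · exact h1
      · exact h2 h
  · intro h
    rw [h]
    exact ⟨⟨ZFSet.mem_insert _ _, fun z hz => ZFSet.mem_insert_of_mem _ hz⟩, fun z hz => by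
      rwa [ZFSet.mem_insert_iff] at hz⟩

theorem limkb_isNat (hs : D0T s) : D0 (fun v => IsNatZ (s v)) :=
  ((D0.isEmpty hs).or (D0.bexZ (p := fun v y => s v = insert y y) hs
    (limkb_isInsert hs.lift D0T.last D0T.last))).and
    ((D0.ballZ (p := fun v y => y = ∅ ∨ ∃ z ∈ y, y = insert z z) hs
      ((D0.isEmpty D0T.last).or (D0.bexZ (p := fun v z => v (Fin.last n) = insert z z) D0T.last
        (limkb_isInsert (D0T.var _) (D0T.var _) (D0T.var _))))).and (D0.isTrans hs))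

end

section

variable {B : ZFSet.{u} → Prop} {w : ZFSet.{u}}

/-- `Δ₀` subsets of a level, with the predicate and the wellorder of the level as parameters. -/
theorem limkb_D0 (hw : WO w) {P : (Fin 6 → ZFSet.{u}) → Prop} (hP : D0 P) {δ γ : Ordinal.{u}}
    (hδ : δ < γ) {p q : ZFSet.{u}} (hp : p ∈ fld (Wl B w δ)) (hq : q ∈ fld (Wl B w δ)) :
    ZFSet.sep (fun z => P (fun i => asH B (Wl B w δ) p q z i)) (fld (Wl B w δ)) ∈
      fld (Wl B w γ) := by
  obtain ⟨θ, h1, h2, h3⟩ := hP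
  have h4 := Hh_mem hw hδ h1 hp hq
  have h5 : Hh B (Wl B w δ) p q θ =
      ZFSet.sep (fun z => P (fun i => asH B (Wl B w δ) p q z i)) (fld (Wl B w δ)) := by
    ext z
    rw [Hh, ZFSet.mem_sep, ZFSet.mem_sep, h3]
  rw [← h5]
  exact h4

theorem limkb_upair (hw : WO w) {δ γ : Ordinal.{u}}
    (hδ : δ < γ) {p q : ZFSet.{u}} (hp : p ∈ fld (Wl B w δ)) (hq : q ∈ fld (Wl B w δ)) :
    ({p, q} : ZFSet.{u}) ∈ fld (Wl B w γ) := by
  have h1 := limkb_D0 (B := B) hw (P := fun v => v 0 = v 4 ∨ v 0 = v 5)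
    ((D0.eqv (D0T.var 0) (D0T.var 4)).or (D0.eqv (D0T.var 0) (D0T.var 5))) hδ hp hq
  have h2 : ZFSet.sep (fun z => (fun v : Fin 6 → ZFSet.{u} => v 0 = v 4 ∨ v 0 = v 5)
      (fun i => asH B (Wl B w δ) p q z i)) (fld (Wl B w δ)) = {p, q} := by
    ext z
    rw [ZFSet.mem_sep, ZFSet.mem_pair]
    show z ∈ fld (Wl B w δ) ∧ (z = p ∨ z = q) ↔ _
    constructor
    · exact fun h => h.2
    · intro h
      refine ⟨?_, h⟩
      rcases h with rfl | rfl
      · exact hp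
      · exact hq
  rw [h2] at h1
  exact h1

theorem limkb_pair (hw : WO w) {δ : Ordinal.{u}}
    {p q : ZFSet.{u}} (hp : p ∈ fld (Wl B w δ)) (hq : q ∈ fld (Wl B w δ)) :
    ZFSet.pair p q ∈ fld (Wl B w (Order.succ (Order.succ δ))) := by
  rw [pair_eq_upair]
  exact limkb_upair hw (Order.lt_succ _) (limkb_upair hw (Order.lt_succ _) hp hp)
    (limkb_upair hw (Order.lt_succ _) hp hq)

end

section

variable {B : ZFSet.{u} → Prop} {w : ZFSet.{u}} (hw : WO w) (ht : (fld w).IsTransitive)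
  (hne : ∃ x, x ∈ fld w) {γ : Ordinal.{u}} (hγ : Order.IsSuccLimit γ)

include hw ht hne hγ

theorem Wl_mem_KL {δ : Ordinal.{u}} (hδ : δ < γ) : Wl B w δ ∈ KL B w γ := by
  have hδ1 : Order.succ δ < γ := hγ.succ_lt hδ
  have hδ2 : Order.succ (Order.succ δ) < γ := hγ.succ_lt hδ1
  have hlt : δ < Order.succ (Order.succ δ) := (Order.lt_succ δ).trans (Order.lt_succ _)
  have hL : fld (Wl B w δ) ∈ fld (Wl B w (Order.succ (Order.succ δ))) := level_mem hw hlt hne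
  have h1 := limkb_D0 (B := B) hw
    (P := fun v => v 0 ∈ v 2 ∧ ∃ a ∈ v 4, ∃ b ∈ v 4, v 0 = ZFSet.pair a b)
    ((D0.mem (D0T.var 0) (D0T.var 2)).and (D0.bexZ
      (p := fun v a => ∃ b ∈ v 4, v 0 = ZFSet.pair a b) (D0T.var 4)
      (D0.bexZ (p := fun v b => v 0 = ZFSet.pair (v (Fin.last 6)) b) (D0T.var 4)
        (D0.isPair (D0T.var _) (D0T.var _) (D0T.var _))))) hδ2 hL hL
  have h2 : ZFSet.sep (fun z => (fun v : Fin 6 → ZFSet.{u} => v 0 ∈ v 2 ∧ ∃ a ∈ v 4, ∃ b ∈ v 4,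
      v 0 = ZFSet.pair a b) (fun i => asH B (Wl B w (Order.succ (Order.succ δ)))
        (fld (Wl B w δ)) (fld (Wl B w δ)) z i)) (fld (Wl B w (Order.succ (Order.succ δ)))) =
      Wl B w δ := by
    ext z
    rw [ZFSet.mem_sep]
    show z ∈ fld (Wl B w (Order.succ (Order.succ δ))) ∧ (z ∈ Wl B w (Order.succ (Order.succ δ)) ∧
      ∃ a ∈ fld (Wl B w δ), ∃ b ∈ fld (Wl B w δ), z = ZFSet.pair a b) ↔ _
    constructor
    · rintro ⟨-, h3, a, ha, b, hb, rfl⟩
      exact Wl_end hw hlt.le h3 hb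
    · intro hz
      obtain ⟨a, ha, b, hb, rfl⟩ := (wo_Wl hw δ).rel z hz
      exact ⟨limkb_pair hw ha hb, Wl_mono hlt.le hz, a, ha, b, hb, rfl⟩
  rw [h2] at h1
  exact h1

theorem KL_amenable {x : ZFSet.{u}} (hx : x ∈ KL B w γ) : ZFSet.sep B x ∈ KL B w γ := by
  obtain ⟨δ, hδ, hxδ⟩ := (fld_Wl_limit hw hγ).1 hx
  have h1 := limkb_D0 (B := B) hw (P := fun v => v 0 ∈ v 3)
    (D0.mem (D0T.var 0) (D0T.var 3)) hδ hxδ hxδ
  have h2 : ZFSet.sep (fun z => (fun v : Fin 6 → ZFSet.{u} => v 0 ∈ v 3)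
      (fun i => asH B (Wl B w δ) x x z i)) (fld (Wl B w δ)) = ZFSet.sep B (fld (Wl B w δ)) := by
    ext z
    rw [ZFSet.mem_sep]
    show z ∈ fld (Wl B w δ) ∧ z ∈ ZFSet.sep B (fld (Wl B w δ)) ↔ _
    exact ⟨fun h => h.2, fun h => ⟨(ZFSet.mem_sep.1 h).1, h⟩⟩
  rw [h2] at h1
  have h3 := KL_sep (B := B) hw ht hne hγ (n := 1) (P := fun v => v 1 ∈ v 0)
    (D0.mem (D0T.var 1) (D0T.var 0)) (fun _ => ZFSet.sep B (fld (Wl B w δ))) (fun _ => h1) hx
  have h4 : ZFSet.sep (fun z => (fun v : Fin 2 → ZFSet.{u} => v 1 ∈ v 0)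
      (Fin.snoc (α := fun _ => ZFSet.{u}) (fun _ : Fin 1 => ZFSet.sep B (fld (Wl B w δ))) z)) x =
      ZFSet.sep B x := by
    ext z
    rw [ZFSet.mem_sep, ZFSet.mem_sep]
    show z ∈ x ∧ z ∈ ZFSet.sep B (fld (Wl B w δ)) ↔ _
    rw [ZFSet.mem_sep]
    exact ⟨fun h => ⟨h.1, h.2.2⟩, fun h => ⟨h.1, trans_Wl hw ht δ x hxδ h.1, h.2⟩⟩
  rw [h4] at h3
  exact h3

theorem limkb_natZ (n : ℕ) : natZ n ∈ KL B w γ := by
  induction n with
  | zero =>
    obtain ⟨x, hx⟩ := hne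
    have hxK : x ∈ KL B w γ := by
      have h0 : x ∈ fld (Wl B w 0) := by rw [Wl_zero]; exact hx
      exact (fld_Wl_limit hw hγ).2 ⟨0, hγ.bot_lt, h0⟩
    have h1 := KL_sep (B := B) hw ht ⟨x, hx⟩ hγ (n := 0) (P := fun _ => False)
      D0.false' (fun _ => x) (fun _ => hxK) hxK
    have h2 : ZFSet.sep (fun z => (fun _ : Fin 1 → ZFSet.{u} => False)
      (Fin.snoc (α := fun _ => ZFSet.{u}) (fun _ : Fin 0 => x) z)) x = natZ 0 := by
      show _ = (∅ : ZFSet.{u})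
      rw [ZFSet.eq_empty]
      intro z hz
      exact (ZFSet.mem_sep.1 hz).2
    rw [h2] at h1
    exact h1
  | succ n ih =>
    have h1 := KL_sUnion hw ht hne hγ (KL_upair hw ht hne hγ ih (KL_upair hw ht hne hγ ih ih))
    have h2 : ZFSet.sUnion ({natZ n, {natZ n, natZ n}} : ZFSet.{u}) = natZ (n + 1) := by
      show _ = insert (natZ n) (natZ n)
      ext z
      rw [ZFSet.mem_sUnion, ZFSet.mem_insert_iff]
      constructor
      · rintro ⟨y, hy, hz⟩
        rw [ZFSet.mem_pair] at hy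
        rcases hy with rfl | rfl
        · exact Or.inr hz
        · rw [ZFSet.mem_pair] at hz
          exact Or.inl (hz.elim id id)
      · rintro (rfl | h)
        · exact ⟨{natZ n, natZ n}, by rw [ZFSet.mem_pair]; exact Or.inr rfl,
            by rw [ZFSet.mem_pair]; exact Or.inl rfl⟩
        · exact ⟨natZ n, by rw [ZFSet.mem_pair]; exact Or.inl rfl, h⟩
    rw [h2] at h1
    exact h1

theorem omZ_mem_KL (h : Ordinal.omega0 < γ) : omZ ∈ KL B w γ := by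
  obtain ⟨x, hx⟩ := hne
  have hxω : x ∈ fld (Wl B w Ordinal.omega0) := fld_mono (hier_w_sub _) hx
  have h1 := limkb_D0 (B := B) hw (P := fun v => IsNatZ (v 0))
    (limkb_isNat (D0T.var 0)) h hxω hxω
  have h2 : ZFSet.sep (fun z => (fun v : Fin 6 → ZFSet.{u} => IsNatZ (v 0))
      (fun i => asH B (Wl B w Ordinal.omega0) x x z i)) (fld (Wl B w Ordinal.omega0)) = omZ := by
    ext z
    rw [ZFSet.mem_sep]
    show z ∈ fld (Wl B w Ordinal.omega0) ∧ IsNatZ z ↔ _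
    rw [isNatZ_iff, mem_omZ]
    constructor
    · exact fun h => h.2
    · rintro ⟨n, rfl⟩
      exact ⟨limkb_natZ hw ht ⟨x, hx⟩ Ordinal.isSuccLimit_omega0 n, n, rfl⟩
  rw [h2] at h1
  exact h1

end

end Pool.Agent.H52.OM
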