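import Pool.Agent.H52.OM.Defs
import Pool.Agent.H17.Omega.TOne

/-!
# OM-35: Omega-star validity gives a universally Baire Skolem function on codes

`F c k = 1` if the `k`-th digit of the structure coded by the leftmost branch for `c` is not `0`, otherwise `0`.
-/

set_option autoImplicit false
set_option linter.unusedVariables false

universe u v w

open scoped ZFSet

namespace Pool.Agent.H52.OM

open Pool.Agent.H17.Omega Pool.Agent.H82.OC

/-- `k.unpair.1, k.unpair.2` prepended to `c`. -/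
def skoPre (k : ℕ) (c : ℕ → ℕ) : ℕ → ℕ := fun n =>
  if n = 0 then k.unpair.1 else if n = 1 then k.unpair.2 else c (n - 2)

theorem continuous_skoPre (k : ℕ) : Continuous (skoPre k) := by
  refine continuous_pi fun n => ?_
  unfold skoPre
  by_cases h0 : n = 0
  · simp only [h0, if_true]; exact continuous_const
  · by_cases h1 : n = 1
    · simp only [h1, if_true, one_ne_zero, if_false]; exact continuous_const
    · simp only [h0, h1, if_false]; exact continuous_apply _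

theorem skoPre_mem {Kr : (ℕ → ℕ) → (ℕ → ℕ) → Prop} {k : ℕ} {c : ℕ → ℕ} :
    skoPre k c ∈ ASet.{u} Kr ↔ epsOf (fun n => (lmb.{u} Kr c n).1) k ≠ 0 := by
  have h1 : (fun n => skoPre k c (n + 2)) = c := by
    funext n
    simp [skoPre]
  show (lmb.{u} Kr (fun n => skoPre k c (n + 2)) (Nat.pair (skoPre k c 0) (skoPre k c 1))).1.unpair.1 ≠ 0 ↔ _
  rw [h1]
  have h2 : Nat.pair (skoPre k c 0) (skoPre k c 1) = k := by
    simp [skoPre]
  rw [h2]
  rfl

open Classical in
theorem exists_skolem (hI : ManyInacc.{u}) {ψ : Fml} (hψ : ψ.Delta0)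
    (hfree : ∀ n, ψ.Free n → n = 0 ∨ n = 1) (hφ : ValidStar.{u} (piTwo ψ)) :
    ∃ F : (ℕ → ℕ) → ℕ → ℕ, UB.{u} {a : ℕ → ℕ | F (fun n => a (n + 2)) (a 0) = a 1} ∧
      ∀ (x : ZFSet.{u}) (c : ℕ → ℕ), WellFounded (Ec c) → IsVal (Ec c) x 0 →
        ∃ y : ZFSet.{u}, IsVal (Ec (F c)) y 0 ∧ Tr ψ x y := by
  obtain ⟨Kr, hK, hKP⟩ := exists_Kr ψ
  have hUB := ub_ASet hψ hfree hK hKP hI hφ
  let F : (ℕ → ℕ) → ℕ → ℕ := fun c k => if skoPre k c ∈ ASet.{u} Kr then 1 else 0
  have hFE : ∀ c, Ec (F c) = Ec (epsOf fun n => (lmb.{u} Kr c n).1) := by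
    intro c
    funext m n
    apply propext
    show F c (Nat.pair m n) ≠ 0 ↔ (epsOf fun n => (lmb.{u} Kr c n).1) (Nat.pair m n) ≠ 0
    rw [← skoPre_mem]
    show (if skoPre (Nat.pair m n) c ∈ ASet.{u} Kr then 1 else 0) ≠ 0 ↔ _
    split_ifs with h
    · exact ⟨fun _ => h, fun _ => one_ne_zero⟩
    · exact ⟨fun h' => absurd rfl h', fun h' => absurd h' h⟩
  refine ⟨F, ?_, fun x c wf hx => ?_⟩
  · have hsh : Continuous fun a : ℕ → ℕ => (fun n => a (n + 2) : ℕ → ℕ) := by fun_prop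
    have h1 : ∀ k, UBS.{u} {a : ℕ → ℕ | skoPre k (fun n => a (n + 2)) ∈ ASet.{u} Kr} := fun k =>
      UBS.preimage (UBS_iff_UB.2 hUB) ((continuous_skoPre k).comp hsh)
    have h2 : ∀ i k : ℕ, UBS.{u} {a : ℕ → ℕ | a i = k} := by
      intro i k
      refine UBS.of_isClosed (isClosed_eq (continuous_apply i) continuous_const)
    have h3 := UBS.ex (P := fun (k : ℕ) (a : ℕ → ℕ) => a 0 = k ∧
      ((skoPre k (fun n => a (n + 2)) ∈ ASet.{u} Kr ∧ a 1 = 1) ∨
        (¬ skoPre k (fun n => a (n + 2)) ∈ ASet.{u} Kr ∧ a 1 = 0)))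
      (fun k => UBS.inter (h2 0 k) (UBS.union (UBS.inter (h1 k) (h2 1 1)) (UBS.inter (h1 k).compl (h2 1 0))))
    refine UBS_iff_UB.1 ?_
    convert h3 using 1
    ext a
    show (if skoPre (a 0) (fun n => a (n + 2)) ∈ ASet.{u} Kr then 1 else 0) = a 1 ↔ _
    constructor
    · intro h
      refine ⟨a 0, rfl, ?_⟩
      split_ifs at h with h'
      · exact Or.inl ⟨h', h.symm⟩
      · exact Or.inr ⟨h', h.symm⟩
    · rintro ⟨k, rfl, h | h⟩
      · rw [if_pos h.1, h.2]
      · rw [if_neg h.1, h.2]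
  · rw [hFE]
    exact witness_of_branch hψ hK hKP
      (lmb_spec (exists_branch_real hψ hfree hK hKP hI hφ c)).1 wf hx

end Pool.Agent.H52.OM
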