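import Pool.Agent.H52.OM.UDF
import Pool.Agent.H52.OM.FDef

/-!
# OM-34: the Skolem function is universally Baire

PROOF.
* `ud_denT s`: induction on the shape `s`: leaf: `∃ a ∈ v t, IsVal (Ec c) a n ∧ v z = pair (v t) a` (`UD.bex`, `UD.val` with `f = id` (the real parameter is `c`), `ud_pair`); `pr`, `sk`: introduce `z1, z2, pair z1 z2, {t}, pair t t` by `UD.exH` (all in `HC`: `UD.congr`, `denT_tz`, `hc_tz`, `HC.pair`; see also `ud_tzn`/`ud_tz` in `UDF.lean`).
* `ubs_Gk`: context `Fin 0` at the outside: `Gk B ψ c i j` iff there are `x, w, p, f, t, z1, z2, u1, u2 ∈ HC` with `p = pair x w`, `IsVal (Ec c) p 0` (`UD.val`), `WOn w x ∧ LeastF B ψ x w f` (`ud_leastF`), `t = fld w` (`ud_fldEq`), `DenT c t (en i) z1` etc. (`ud_denT`), `pair z1 u1 ∈ f` etc. (`ud_pairMem`, `UD.mem`).  All are in `HC`: `p` because it has a code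
  (`Cd.hc`), `x, w` by `HC.of_pair`, `f ∈ fld (Wl ..)` is in `HC` (`hc_Wl`, `hbet`, `hc_fld`), the others by `hc_tz`, `HC.of_pair`.  Conclude with `UD.toUBS`.
* `ub_Fn`: the set is the union over `k, l` of `{a | a 0 = k ∧ a 1 = l ∧ Fn B ψ (fun n => a (n + 2)) k = l}`, and `Fn B ψ c k = l` iff (`Gk ..` and `l = 1`) or (not `Gk ..` and `l = 0`): `UBS.ex`, `UBS.inter`, `UBS.union`, `UBS.preimage` (continuous shift), `UBS.compl`.
-/

set_option autoImplicit false
set_option linter.unusedVariables false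
set_option linter.unusedSectionVars false
set_option linter.unusedSimpArgs false
set_option linter.deprecated false

universe u v w

open scoped ZFSet

namespace Pool.Agent.H52.OM

open Pool.Agent.H17.Omega Pool.Agent.H82.OC

section

variable (hW : ManyWoodin.{u}) {ι : Type}

include hW

theorem udg_denT (s : Sh) : ∀ {ι : Type} (t z : ι),
    UD (fun (c : ℕ → ℕ) (v : ι → ZFSet.{u}) => DenT c (v t) s (v z)) := by
  induction s with
  | el n =>
    intro ι t z
    exact UD.bex hW t (P := fun c v a => IsVal (Ec c) a n ∧ v z = ZFSet.pair (v t) a)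
      ((UD.val hW continuous_id none n).and (ud_pair hW (some z) (some t) none))
  | pt =>
    intro ι t z
    exact UD.eq hW z t
  | pr a b iha ihb =>
    intro ι t z
    have h : UD (fun (c : ℕ → ℕ) (v : ι → ZFSet.{u}) => ∃ z₁, HC z₁ ∧ ∃ z₂, HC z₂ ∧
        (DenT c (v t) a z₁ ∧ DenT c (v t) b z₂ ∧ ∃ p, HC p ∧ (p = ZFSet.pair z₁ z₂ ∧
          ∃ s, HC s ∧ ((∀ y, HC y → (y ∈ s ↔ y = v t)) ∧ v z = ZFSet.pair s p)))) := by
      refine UD.exH hW (UD.exH hW ?_)
      refine UD.and (iha (some (some t)) (some none)) ?_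
      refine UD.and (ihb (some (some t)) none) ?_
      refine UD.exH hW ?_
      refine UD.and (ud_pair hW none (some (some none)) (some none)) ?_
      refine UD.exH hW ?_
      refine UD.and ?_ (ud_pair hW (some (some (some (some z)))) none (some none))
      refine UD.allH hW ?_
      exact UD.iff hW (UD.mem hW none (some none)) (UD.eq hW none (some (some (some (some (some t))))))
    refine UD.congr (fun _ v hv => ?_) h
    constructor
    · rintro ⟨z₁, -, z₂, -, h1, h2, p, -, rfl, s, hs, h4, h5⟩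
      refine ⟨z₁, z₂, h1, h2, ?_⟩
      have h6 : s = {v t} := by
        ext y
        rw [ZFSet.mem_singleton]
        constructor
        · intro hy
          exact (h4 y (hs.mem hy)).1 hy
        · rintro rfl
          exact (h4 _ (hv t)).2 rfl
      rw [h5, h6]
    · rintro ⟨z₁, z₂, h1, h2, h3⟩
      have hz1 : HC z₁ := hc_tz (hv t) (denT_tz h1)
      have hz2 : HC z₂ := hc_tz (hv t) (denT_tz h2)
      exact ⟨z₁, hz1, z₂, hz2, h1, h2, _, HC.pair hz1 hz2, rfl, {v t}, udf_hc_sing (hv t),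
        fun y _ => ZFSet.mem_singleton, h3⟩
  | sk a b iha ihb =>
    intro ι t z
    have h : UD (fun (c : ℕ → ℕ) (v : ι → ZFSet.{u}) => ∃ z₁, HC z₁ ∧ ∃ z₂, HC z₂ ∧
        (DenT c (v t) a z₁ ∧ DenT c (v t) b z₂ ∧ ∃ p, HC p ∧ (p = ZFSet.pair z₁ z₂ ∧
          ∃ q, HC q ∧ (q = ZFSet.pair (v t) (v t) ∧ v z = ZFSet.pair q p)))) := by
      refine UD.exH hW (UD.exH hW ?_)
      refine UD.and (iha (some (some t)) (some none)) ?_
      refine UD.and (ihb (some (some t)) none) ?_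
      refine UD.exH hW ?_
      refine UD.and (ud_pair hW none (some (some none)) (some none)) ?_
      refine UD.exH hW ?_
      refine UD.and (ud_pair hW none (some (some (some (some t)))) (some (some (some (some t))))) ?_
      exact ud_pair hW (some (some (some (some z)))) none (some none)
    refine UD.congr (fun _ v hv => ?_) h
    constructor
    · rintro ⟨z₁, -, z₂, -, h1, h2, p, -, rfl, q, -, rfl, h5⟩
      exact ⟨z₁, z₂, h1, h2, h5⟩
    · rintro ⟨z₁, z₂, h1, h2, h3⟩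
      have hz1 : HC z₁ := hc_tz (hv t) (denT_tz h1)
      have hz2 : HC z₂ := hc_tz (hv t) (denT_tz h2)
      exact ⟨z₁, hz1, z₂, hz2, h1, h2, _, HC.pair hz1 hz2, rfl, _, HC.pair (hv t) (hv t), rfl, h3⟩

theorem ud_denT (s : Sh) (t z : ι) :
    UD (fun (c : ℕ → ℕ) (v : ι → ZFSet.{u}) => DenT c (v t) s (v z)) :=
  udg_denT hW s t z

variable {B : ZFSet.{u} → Prop} (hB : UPred B)

include hB

theorem ubs_Gk (hbet : ∀ w x : ZFSet.{u}, HC w → WOn w x → Zl B w (bet B w) ∧ (bet B w).card ≤ Cardinal.aleph0)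
    {ψ : Fml} (hψ : ψ.Delta0) (i j : ℕ) : UBS.{u} {c : ℕ → ℕ | Gk B ψ c i j} := by
  refine UD.toUBS ?_
  have h : UD (ι := Fin 0) (fun (c : ℕ → ℕ) (_ : Fin 0 → ZFSet.{u}) => ∃ x, HC x ∧ ∃ w, HC w ∧
      ((∃ p, HC p ∧ (p = ZFSet.pair x w ∧ IsVal (Ec c) p 0)) ∧ ∃ f, HC f ∧
        ((WOn w x ∧ LeastF B ψ x w f) ∧ ∃ t, HC t ∧ (t = fld w ∧ ∃ z₁, HC z₁ ∧
          (DenT c t (en i) z₁ ∧ ∃ z₂, HC z₂ ∧ (DenT c t (en j) z₂ ∧ ∃ u₁, HC u₁ ∧
            (ZFSet.pair z₁ u₁ ∈ f ∧ ∃ u₂, HC u₂ ∧ (ZFSet.pair z₂ u₂ ∈ f ∧ u₁ ∈ u₂)))))))) := by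
    refine UD.exH hW (UD.exH hW ?_)
    refine UD.and ?_ ?_
    · refine UD.exH hW ?_
      exact UD.and (ud_pair hW none (some (some none)) (some none)) (UD.val hW continuous_id none 0)
    · refine UD.exH hW ?_
      refine UD.and (ud_leastF hW hB hbet hψ (some (some none)) (some none) none) ?_
      refine UD.exH hW ?_
      refine UD.and (ud_fldEq hW none (some (some none))) ?_
      refine UD.exH hW ?_
      refine UD.and (ud_denT hW (en i) (some none) none) ?_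
      refine UD.exH hW ?_
      refine UD.and (ud_denT hW (en j) (some (some none)) none) ?_
      refine UD.exH hW ?_
      refine UD.and (ud_pairMem hW (some (some none)) none (some (some (some (some none))))) ?_
      refine UD.exH hW ?_
      refine UD.and (ud_pairMem hW (some (some none)) none (some (some (some (some (some none)))))) ?_
      exact UD.mem hW (some none) none
  refine UD.congr (fun c v _ => ?_) h
  constructor
  · rintro ⟨x, -, w, -, ⟨p, -, rfl, hp⟩, f, -, hf, t, -, rfl, z₁, -, h1, z₂, -, h2, u₁, -, h3, u₂, -, h4, h5⟩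
    exact ⟨x, w, f, hp, hf, z₁, z₂, u₁, u₂, h1, h2, h3, h4, h5⟩
  · rintro ⟨x, w, f, hp, hf, z₁, z₂, u₁, u₂, h1, h2, h3, h4, h5⟩
    have hxw : HC (ZFSet.pair x w) := hp.hc
    have hx : HC x := (HC.of_pair hxw).1
    have hw : HC w := (HC.of_pair hxw).2
    have ht : HC (fld w) := hc_fld hw
    have hWc : HC (Wl B w (bet B w)) := hc_Wl hf.1.wo hw (hbet _ _ hw hf.1).2
    have hfc : HC f := HC.mem (hc_fld hWc) hf.2.1
    have hz1 : HC z₁ := hc_tz ht (denT_tz h1)
    have hz2 : HC z₂ := hc_tz ht (denT_tz h2)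
    exact ⟨x, hx, w, hw, ⟨_, hxw, rfl, hp⟩, f, hfc, hf, _, ht, rfl, z₁, hz1, h1, z₂, hz2, h2,
      u₁, (HC.of_pair (HC.mem hfc h3)).2, h3, u₂, (HC.of_pair (HC.mem hfc h4)).2, h4, h5⟩

theorem ub_Fn (hbet : ∀ w x : ZFSet.{u}, HC w → WOn w x → Zl B w (bet B w) ∧ (bet B w).card ≤ Cardinal.aleph0)
    {ψ : Fml} (hψ : ψ.Delta0) : UB.{u} {a : ℕ → ℕ | Fn B ψ (fun n => a (n + 2)) (a 0) = a 1} := by
  have hs : Continuous (fun a : ℕ → ℕ => (fun n => a (n + 2) : ℕ → ℕ)) := by fun_prop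
  have h1 : ∀ k : ℕ, UBS.{u} {a : ℕ → ℕ | a 0 = k ∧
      ((Gk B ψ (fun n => a (n + 2)) k.unpair.1 k.unpair.2 ∧ a 1 = 1) ∨
        (¬ Gk B ψ (fun n => a (n + 2)) k.unpair.1 k.unpair.2 ∧ a 1 = 0))} := by
    intro k
    have g0 : UBS.{u} {a : ℕ → ℕ | a 0 = k} := uda_clopen (f := fun a : ℕ → ℕ => a 0) (by fun_prop) {k}
    have g1 : UBS.{u} {a : ℕ → ℕ | a 1 = 1} := uda_clopen (f := fun a : ℕ → ℕ => a 1) (by fun_prop) {1}
    have g2 : UBS.{u} {a : ℕ → ℕ | a 1 = 0} := uda_clopen (f := fun a : ℕ → ℕ => a 1) (by fun_prop) {0}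
    have g3 : UBS.{u} {a : ℕ → ℕ | Gk B ψ (fun n => a (n + 2)) k.unpair.1 k.unpair.2} :=
      UBS.preimage (ubs_Gk hW hB hbet hψ k.unpair.1 k.unpair.2) hs
    exact UBS.inter g0 (UBS.union (UBS.inter g3 g1) (UBS.inter (UBS.compl g3) g2))
  refine UBS_iff_UB.1 (ubs_congr_set (UBS.ex h1) fun a => ?_)
  show (∃ k, a 0 = k ∧ ((Gk B ψ (fun n => a (n + 2)) k.unpair.1 k.unpair.2 ∧ a 1 = 1) ∨
        (¬ Gk B ψ (fun n => a (n + 2)) k.unpair.1 k.unpair.2 ∧ a 1 = 0))) ↔
      Fn B ψ (fun n => a (n + 2)) (a 0) = a 1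
  rw [exists_eq_left']
  unfold Fn
  split_ifs with h
  · constructor
    · rintro (⟨_, h2⟩ | ⟨h2, _⟩)
      · exact h2.symm
      · exact absurd h h2
    · intro h2
      exact Or.inl ⟨h, h2.symm⟩
  · constructor
    · rintro (⟨h2, _⟩ | ⟨_, h2⟩)
      · exact absurd h2 h
      · exact h2.symm
    · intro h2
      exact Or.inr ⟨h, h2.symm⟩

end

end Pool.Agent.H52.OM
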