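import Pool.Agent.H52.OM.CtmK
import Pool.Agent.H52.OM.GoodEx
import Pool.Agent.H52.OM.UDG
import Pool.Agent.H52.OM.Back
import Pool.Agent.H52.OM.Sko

/-!
# OM: the main theorem
-/

set_option autoImplicit false
set_option linter.unusedVariables false
set_option linter.unusedSectionVars false
set_option linter.unusedSimpArgs false
set_option linter.deprecated false

universe u v w

open scoped ZFSet

namespace Pool.Agent.H52.OM

open Pool.Agent.H17.Omega Pool.Agent.H82.OC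

theorem manyInacc_of_manyWoodin (h : ManyWoodin.{u}) : ManyInacc.{u} := by
  intro μ
  obtain ⟨δ, hδ, hW⟩ := h μ.ord
  refine ⟨δ.card, ?_, hW.inacc⟩
  rw [← Cardinal.ord_lt_ord, hW.ord]
  exact hδ

theorem exists_leastF (hI : ManyInacc.{u}) {A : Set (ℕ → ℕ)} (hA : UB.{u} A) {ψ : Fml} (hψ : ψ.Delta0)
    (hfree : ∀ n, ψ.Free n → n = 0 ∨ n = 1) {w x : ZFSet.{u}} (hc : HC w) (hw : WOn w x)
    (hM : Models (KL (BB A) w (bet (BB A) w)) (piTwo ψ)) : ∃ f, LeastF (BB A) ψ x w f := by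
  have hK := ctm_bet hI hA hc hw
  obtain ⟨y, hy, hxy⟩ := hK.exists_witness hψ hfree hM (subset_bet hw).1
  obtain ⟨f, hf, hg⟩ := exists_goodF hK hψ hfree (fld_mem_bet hI hA hc hw) hw.tr hw.mem hy hxy
  obtain ⟨m, hm, hmin⟩ := (wo_Wl (B := BB A) hw.wo (bet (BB A) w)).min
    (ZFSet.sep (fun f => GoodF ψ x (fld w) f) (fld (Wl (BB A) w (bet (BB A) w))))
    (fun a ha => (ZFSet.mem_sep.1 ha).1) (by
      intro h0
      have h1 : f ∈ ZFSet.sep (fun f => GoodF ψ x (fld w) f) (fld (Wl (BB A) w (bet (BB A) w))) :=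
        ZFSet.mem_sep.2 ⟨hf, hg⟩
      rw [h0] at h1
      exact ZFSet.notMem_empty _ h1)
  rw [ZFSet.mem_sep] at hm
  exact ⟨m, hm.1, hm.2, fun f' h1 h2 => hmin f' (ZFSet.mem_sep.2 ⟨h1, h2⟩)⟩

open Classical in
/-- The value of the least witness function. -/
noncomputable def Yv (B : ZFSet.{u} → Prop) (ψ : Fml) (x w : ZFSet.{u}) : ZFSet.{u} :=
  if h : ∃ v f, LeastF B ψ x w f ∧ ZFSet.pair (fld w) v ∈ f then h.choose else ∅

theorem skolem_of_provOmega (hW : ManyWoodin.{u}) {ψ : Fml} (hψ : ψ.Delta0)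
    (hfree : ∀ n, ψ.Free n → n = 0 ∨ n = 1) (hφ : ProvOmega.{u} (piTwo ψ)) :
    ∃ (F : (ℕ → ℕ) → ℕ → ℕ) (Y : ZFSet.{u} → ZFSet.{u} → ZFSet.{u}),
      UB.{u} {a : ℕ → ℕ | F (fun n => a (n + 2)) (a 0) = a 1} ∧
      ∀ x w c, WOn w x → IsVal (Ec c) (ZFSet.pair x w) 0 →
        IsVal (Ec (F c)) (Y x w) 0 ∧ Tr ψ x (Y x w) := by
  have hI := manyInacc_of_manyWoodin hW
  obtain ⟨A, hA, hp⟩ := hφ
  have hbet : ∀ w x : ZFSet.{u}, HC w → WOn w x →
      Zl (BB A) w (bet (BB A) w) ∧ (bet (BB A) w).card ≤ Cardinal.aleph0 :=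
    fun w x hc hw => bet_spec hI hA hc hw
  refine ⟨Fn (BB A) ψ, Yv (BB A) ψ, ub_Fn hW (upred_BB hW hA) hbet hψ, fun x w c hw hc => ?_⟩
  have hcw : HC w := (HC.of_pair (Cd.hc hc)).2
  obtain ⟨f, hf⟩ := exists_leastF hI hA hψ hfree hcw hw
    (hp _ (ctm_bet hI hA hcw hw) (aclosed_bet hI hA hcw hw))
  obtain ⟨v, hv, _⟩ := hf.2.1.fn (fld w) Tz.pt
  have hex : ∃ v f, LeastF (BB A) ψ x w f ∧ ZFSet.pair (fld w) v ∈ f := ⟨v, f, hf, hv⟩
  have hY : Yv (BB A) ψ x w = hex.choose := by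
    rw [Yv, dif_pos hex]
  obtain ⟨f', hf', hv'⟩ := hex.choose_spec
  rw [hY]
  exact ⟨fn_code hw hf' hc hv', hf'.2.1.wit _ hv'⟩

/-- Under a proper class of Woodin cardinals: a `Π₂` sentence is Ω-provable iff it has a universally Baire Skolem
function whose value does not depend on the code. -/
theorem provOmega_iff (hW : ManyWoodin.{u}) {ψ : Fml} (hψ : ψ.Delta0)
    (hfree : ∀ n, ψ.Free n → n = 0 ∨ n = 1) : ProvOmega.{u} (piTwo ψ) ↔
    ∃ (F : (ℕ → ℕ) → ℕ → ℕ) (Y : ZFSet.{u} → ZFSet.{u} → ZFSet.{u}),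
      UB.{u} {a : ℕ → ℕ | F (fun n => a (n + 2)) (a 0) = a 1} ∧
      ∀ x w c, WOn w x → WellFounded (Ec c) → IsVal (Ec c) (ZFSet.pair x w) 0 →
        IsVal (Ec (F c)) (Y x w) 0 ∧ Tr ψ x (Y x w) := by
  constructor
  · intro h
    obtain ⟨F, Y, hF, hY⟩ := skolem_of_provOmega hW hψ hfree h
    exact ⟨F, Y, hF, fun x w c h1 _ h2 => hY x w c h1 h2⟩
  · rintro ⟨F, Y, hF, hY⟩
    exact provOmega_of_skolem hψ hfree hF hY

end Pool.Agent.H52.OM
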