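import Pool.Agent.H52.OM.Defs

/-!
# OM-9: relativisation to an element, congruence and change of the structure for `SatIn`

PROOF.  `satIn_congr`: only the values of variables `< φ.bd` matter (induction on `φ`, as `Sat.congr` in `H17/Omega/Base.lean`).
`satIn_mono_delta0`: for `φ` a `Δ₀` formula and `K` transitive containing all values of `f`: `SatIn K φ f ↔ Sat (∈) φ f` (induction on `Fml.Delta0`; bounded quantifiers: elements of `f j ∈ K` are in `K`).
`d0_satIn`: relativise: `rel n : Fml → Fml` replaces `all k φ` by `all k (imp (mem k n) (rel n φ))` and `ex k φ` by `ex k (and (mem k n) (rel n φ))`, which is `Delta0` if all `k ≠ n`; all variables of `φ` are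
`< φ.bd ≤ n`.  The value of the variable `n` is the set `g (Fin.last n)`.  Free variables of `rel n φ` are `≤ n`.  `Sat (∈) (rel n φ) f ↔ SatIn (El (f n)) φ f` by induction on `φ` with `bd φ ≤ n`
(`upd f k x n = f n` as `k ≠ n`), then `satIn_congr` to replace the values of variables `≥ n` by `∅`.
`models_el_iff`: `models_iff` of Defs for `K = El v`.
`sep_satIn_mem`: apply `hsep` to the `D0` predicate in the variables `v, f 0, .., f (n-1)` and the last variable `z` (value of the variable `k`), obtained from `d0_satIn φ n` (`n ≥ max φ.bd (k+1)`) by renaming: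
for `D0` predicates one may substitute variables: `D0 P → D0 (fun g : Fin m → _ => P (fun i => g (ρ i)))` for INJECTIVE `ρ` by `Fml.Delta0.ren`, `Sat.ren`; prove this small lemma first (extend `ρ` to an
injection `ℕ → ℕ`); here the place `k` of the assignment is the last variable and the old variable `k` is a dummy parameter with value `∅`.
-/

set_option autoImplicit false
set_option linter.unusedVariables false
set_option linter.unusedSectionVars false
set_option linter.unusedSimpArgs false
set_option linter.deprecated false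

universe u v w

open scoped ZFSet

namespace Pool.Agent.H52.OM

open Pool.Agent.H17.Omega Pool.Agent.H82.OC

theorem satIn_congr {K : Set ZFSet.{u}} {φ : Fml} : ∀ {f g : ℕ → ZFSet.{u}}, (∀ i < φ.bd, f i = g i) →
    (SatIn K φ f ↔ SatIn K φ g) := by
  induction φ with
  | mem i j =>
    intro f g h
    simp only [SatIn]
    rw [h i (by simp [Fml.bd]), h j (by simp [Fml.bd])]
  | eq i j =>
    intro f g h
    simp only [SatIn]
    rw [h i (by simp [Fml.bd]), h j (by simp [Fml.bd])]
  | bot => intro f g h; rfl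
  | imp φ ψ ih1 ih2 =>
    intro f g h
    exact imp_congr (ih1 fun i hi => h i (lt_of_lt_of_le hi (le_max_left _ _)))
      (ih2 fun i hi => h i (lt_of_lt_of_le hi (le_max_right _ _)))
  | and φ ψ ih1 ih2 =>
    intro f g h
    exact and_congr (ih1 fun i hi => h i (lt_of_lt_of_le hi (le_max_left _ _)))
      (ih2 fun i hi => h i (lt_of_lt_of_le hi (le_max_right _ _)))
  | or φ ψ ih1 ih2 =>
    intro f g h
    exact or_congr (ih1 fun i hi => h i (lt_of_lt_of_le hi (le_max_left _ _)))
      (ih2 fun i hi => h i (lt_of_lt_of_le hi (le_max_right _ _)))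
  | all k φ ih =>
    intro f g h
    refine forall_congr' fun x => forall_congr' fun _ => ih fun i hi => ?_
    by_cases hk : i = k
    · subst hk; simp
    · rw [upd_ne _ _ hk, upd_ne _ _ hk]; exact h i (lt_of_lt_of_le hi (le_max_right _ _))
  | ex k φ ih =>
    intro f g h
    refine exists_congr fun x => and_congr_right fun _ => ih fun i hi => ?_
    by_cases hk : i = k
    · subst hk; simp
    · rw [upd_ne _ _ hk, upd_ne _ _ hk]; exact h i (lt_of_lt_of_le hi (le_max_right _ _))

theorem satIn_delta0 {K : Set ZFSet.{u}} (hK : ∀ x ∈ K, ∀ y ∈ x, y ∈ K) {φ : Fml} (hφ : φ.Delta0) :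
    ∀ {f : ℕ → ZFSet.{u}}, (∀ i, f i ∈ K) → (SatIn K φ f ↔ Sat (fun a b : ZFSet.{u} => a ∈ b) φ f) := by
  have hupd : ∀ {f : ℕ → ZFSet.{u}}, (∀ i, f i ∈ K) → ∀ (k : ℕ) (x : ZFSet.{u}), x ∈ K →
      ∀ i, upd f k x i ∈ K := by
    intro f hf k x hx i
    by_cases hi : i = k
    · subst hi; simpa using hx
    · rw [upd_ne _ _ hi]; exact hf i
  induction hφ with
  | mem i j => intro f hf; exact Iff.rfl
  | eq i j => intro f hf; exact Iff.rfl
  | bot => intro f hf; exact Iff.rfl
  | imp _ _ ih1 ih2 => intro f hf; exact imp_congr (ih1 hf) (ih2 hf)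
  | and _ _ ih1 ih2 => intro f hf; exact and_congr (ih1 hf) (ih2 hf)
  | or _ _ ih1 ih2 => intro f hf; exact or_congr (ih1 hf) (ih2 hf)
  | ball k j hkj _ ih =>
    intro f hf
    constructor
    · intro h x hx
      have hx' : x ∈ f j := by
        have : upd f k x k ∈ upd f k x j := hx
        rwa [upd_same, upd_ne _ _ (Ne.symm hkj)] at this
      have hxK : x ∈ K := hK _ (hf j) x hx'
      exact (ih (hupd hf k x hxK)).1 (h x hxK hx)
    · intro h x hxK hx
      exact (ih (hupd hf k x hxK)).2 (h x hx)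
  | bex k j hkj _ ih =>
    intro f hf
    constructor
    · rintro ⟨x, hxK, hx, h⟩
      exact ⟨x, hx, (ih (hupd hf k x hxK)).1 h⟩
    · rintro ⟨x, hx, h⟩
      have hx' : x ∈ f j := by
        have : upd f k x k ∈ upd f k x j := hx
        rwa [upd_same, upd_ne _ _ (Ne.symm hkj)] at this
      have hxK : x ∈ K := hK _ (hf j) x hx'
      exact ⟨x, hxK, hx, (ih (hupd hf k x hxK)).2 h⟩

/-- Relativisation of a formula to the variable `n`. -/
def relF (n : ℕ) : Fml → Fml
  | .mem i j => .mem i j
  | .eq i j => .eq i j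
  | .bot => .bot
  | .imp φ ψ => .imp (relF n φ) (relF n ψ)
  | .and φ ψ => .and (relF n φ) (relF n ψ)
  | .or φ ψ => .or (relF n φ) (relF n ψ)
  | .all k φ => .all k (.imp (.mem k n) (relF n φ))
  | .ex k φ => .ex k (.and (.mem k n) (relF n φ))

theorem relF_delta0 {n : ℕ} {φ : Fml} : φ.bd ≤ n → (relF n φ).Delta0 := by
  induction φ with
  | mem i j => exact fun _ => .mem _ _
  | eq i j => exact fun _ => .eq _ _
  | bot => exact fun _ => .bot
  | imp φ ψ ih1 ih2 =>
    intro h
    exact .imp (ih1 ((le_max_left _ _).trans h)) (ih2 ((le_max_right _ _).trans h))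
  | and φ ψ ih1 ih2 =>
    intro h
    exact .and (ih1 ((le_max_left _ _).trans h)) (ih2 ((le_max_right _ _).trans h))
  | or φ ψ ih1 ih2 =>
    intro h
    exact .or (ih1 ((le_max_left _ _).trans h)) (ih2 ((le_max_right _ _).trans h))
  | all k φ ih =>
    intro h
    have h1 : k + 1 ≤ n := (le_max_left _ _).trans h
    exact .ball _ _ (by omega) (ih ((le_max_right _ _).trans h))
  | ex k φ ih =>
    intro h
    have h1 : k + 1 ≤ n := (le_max_left _ _).trans h
    exact .bex _ _ (by omega) (ih ((le_max_right _ _).trans h))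

theorem relF_free {n : ℕ} {φ : Fml} : φ.bd ≤ n → ∀ i, (relF n φ).Free i → i ≤ n := by
  induction φ with
  | mem i j =>
    intro h k hk
    simp only [Fml.bd] at h
    rcases hk with rfl | rfl
    · have := le_max_left k j; omega
    · have := le_max_right i k; omega
  | eq i j =>
    intro h k hk
    simp only [Fml.bd] at h
    rcases hk with rfl | rfl
    · have := le_max_left k j; omega
    · have := le_max_right i k; omega
  | bot => exact fun _ i hi => hi.elim
  | imp φ ψ ih1 ih2 =>
    intro h i hi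
    exact hi.elim (ih1 ((le_max_left _ _).trans h) i) (ih2 ((le_max_right _ _).trans h) i)
  | and φ ψ ih1 ih2 =>
    intro h i hi
    exact hi.elim (ih1 ((le_max_left _ _).trans h) i) (ih2 ((le_max_right _ _).trans h) i)
  | or φ ψ ih1 ih2 =>
    intro h i hi
    exact hi.elim (ih1 ((le_max_left _ _).trans h) i) (ih2 ((le_max_right _ _).trans h) i)
  | all k φ ih =>
    rintro h i ⟨h0, (h1 | h1) | h1⟩
    · exact (h0 h1).elim
    · exact h1.le
    · exact ih ((le_max_right _ _).trans h) i h1
  | ex k φ ih =>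
    rintro h i ⟨h0, (h1 | h1) | h1⟩
    · exact (h0 h1).elim
    · exact h1.le
    · exact ih ((le_max_right _ _).trans h) i h1

theorem relF_sat {n : ℕ} {φ : Fml} : φ.bd ≤ n → ∀ f : ℕ → ZFSet.{u},
    (Sat (fun a b : ZFSet.{u} => a ∈ b) (relF n φ) f ↔ SatIn (El (f n)) φ f) := by
  induction φ with
  | mem i j => exact fun _ _ => Iff.rfl
  | eq i j => exact fun _ _ => Iff.rfl
  | bot => exact fun _ _ => Iff.rfl
  | imp φ ψ ih1 ih2 =>
    intro h f
    exact imp_congr (ih1 ((le_max_left _ _).trans h) f) (ih2 ((le_max_right _ _).trans h) f)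
  | and φ ψ ih1 ih2 =>
    intro h f
    exact and_congr (ih1 ((le_max_left _ _).trans h) f) (ih2 ((le_max_right _ _).trans h) f)
  | or φ ψ ih1 ih2 =>
    intro h f
    exact or_congr (ih1 ((le_max_left _ _).trans h) f) (ih2 ((le_max_right _ _).trans h) f)
  | all k φ ih =>
    intro h f
    have h1 : k + 1 ≤ n := (le_max_left _ _).trans h
    refine forall_congr' fun x => ?_
    have e1 : upd f k x n = f n := upd_ne _ _ (by omega)
    have e2 := ih ((le_max_right _ _).trans h) (upd f k x)
    rw [e1] at e2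
    show (upd f k x k ∈ upd f k x n → _) ↔ (x ∈ El (f n) → _)
    rw [e1, upd_same]
    exact imp_congr Iff.rfl e2
  | ex k φ ih =>
    intro h f
    have h1 : k + 1 ≤ n := (le_max_left _ _).trans h
    refine exists_congr fun x => ?_
    have e1 : upd f k x n = f n := upd_ne _ _ (by omega)
    have e2 := ih ((le_max_right _ _).trans h) (upd f k x)
    rw [e1] at e2
    show (upd f k x k ∈ upd f k x n ∧ _) ↔ (x ∈ El (f n) ∧ _)
    rw [e1, upd_same]
    exact and_congr Iff.rfl e2

/-- Satisfaction in an element is a `Δ₀` predicate. -/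
theorem d0_satIn (φ : Fml) (n : ℕ) (hn : φ.bd ≤ n) : D0 (fun g : Fin (n + 1) → ZFSet.{u} =>
    SatIn (El (g (Fin.last n))) φ (fun i => if h : i < n then g ⟨i, Nat.lt_succ_of_lt h⟩ else ∅)) := by
  refine ⟨relF n φ, relF_delta0 hn, fun k hk => Nat.lt_succ_of_le (relF_free hn k hk), fun f => ?_⟩
  rw [relF_sat hn]
  simp only [Fin.val_last]
  refine satIn_congr fun i hi => ?_
  rw [dif_pos (lt_of_lt_of_le hi hn)]

/-- `{z ∈ x : (El v) ⊨ φ(z, f)}` for a class `K` closed under `Δ₀` separation. -/
theorem sep_satIn_mem {K : Set ZFSet.{u}} (h0 : ∅ ∈ K)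
    (hsep : ∀ {n : ℕ} {P : (Fin (n + 1) → ZFSet.{u}) → Prop}, D0 P → ∀ v : Fin n → ZFSet.{u}, (∀ i, v i ∈ K) →
      ∀ x ∈ K, ZFSet.sep (fun z => P (Fin.snoc (α := fun _ => ZFSet.{u}) v z)) x ∈ K)
    (φ : Fml) (k : ℕ) {v : ZFSet.{u}} (hv : v ∈ K) {f : ℕ → ZFSet.{u}} (hf : ∀ i, f i ∈ K) {x : ZFSet.{u}}
    (hx : x ∈ K) : ZFSet.sep (fun z => SatIn (El v) φ (upd f k z)) x ∈ K := by
  set n := max φ.bd (k + 1) with hn
  have hbd : φ.bd ≤ n := le_max_left _ _
  have hk : k + 1 ≤ n := le_max_right _ _
  let ρ : ℕ → ℕ := fun i => if i = k then n + 1 else if i = n + 1 then k else i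
  have hρ : Function.Injective ρ := by
    intro a b hab
    simp only [ρ] at hab
    split_ifs at hab <;> omega
  have hρn : ρ n = n := by
    simp only [ρ]
    rw [if_neg (by omega), if_neg (by omega)]
  let as : (Fin (n + 2) → ZFSet.{u}) → ℕ → ZFSet.{u} := fun g i =>
    if i = k then g (Fin.last (n + 1)) else if h : i < n then g ⟨i, by omega⟩ else ∅
  have hD : D0 (fun g : Fin (n + 2) → ZFSet.{u} => SatIn (El (g ⟨n, by omega⟩)) φ (as g)) := by
    refine ⟨(relF n φ).ren ρ, (relF_delta0 hbd).ren hρ, ?_, fun g => ?_⟩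
    · intro j hj
      obtain ⟨m, hm, rfl⟩ := Fml.Free.of_ren hρ hj
      have := relF_free hbd m hm
      simp only [ρ]
      split_ifs <;> omega
    · rw [Sat.ren hρ, relF_sat hbd]
      simp only [hρn]
      refine satIn_congr fun i hi => ?_
      simp only [as, ρ]
      by_cases hik : i = k
      · rw [if_pos hik, if_pos hik]; rfl
      · rw [if_neg hik, if_neg (by omega), if_neg hik, dif_pos (by omega)]
  have h1 := hsep hD (Fin.snoc (α := fun _ => ZFSet.{u}) (fun i : Fin n => f i) v) (by
    intro i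
    refine Fin.lastCases ?_ (fun j => ?_) i
    · rw [Fin.snoc_last]; exact hv
    · rw [Fin.snoc_castSucc]; exact hf _) x hx
  have h2 : ZFSet.sep (fun z => SatIn (El v) φ (upd f k z)) x = ZFSet.sep (fun z =>
      (fun g : Fin (n + 2) → ZFSet.{u} => SatIn (El (g ⟨n, by omega⟩)) φ (as g))
        (Fin.snoc (α := fun _ => ZFSet.{u})
          (Fin.snoc (α := fun _ => ZFSet.{u}) (fun i : Fin n => f i) v) z)) x := by
    ext z
    rw [ZFSet.mem_sep, ZFSet.mem_sep]
    refine and_congr_right fun _ => ?_
    have e1 : (Fin.snoc (α := fun _ => ZFSet.{u})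
          (Fin.snoc (α := fun _ => ZFSet.{u}) (fun i : Fin n => f i) v) z : Fin (n + 2) → ZFSet.{u})
          ⟨n, by omega⟩ = v := by
      simp [Fin.snoc]
    simp only [e1]
    refine satIn_congr fun i hi => ?_
    simp only [as]
    by_cases hik : i = k
    · subst hik; rw [upd_same, if_pos rfl]; simp [Fin.snoc]
    · rw [upd_ne _ _ hik, if_neg hik, dif_pos (by omega)]
      have : i < n := by omega
      have h3 : i < n + 1 := by omega
      simp [Fin.snoc, this, h3]
  rw [h2]
  exact h1

end Pool.Agent.H52.OM
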