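import Pool.Agent.H52.OM.Sko
import Pool.Agent.H52.OM.Main

/-!
# OM-36: a universally Baire Skolem function for all codes

`rt c` is the restriction of the coded relation to the numbers below `0`.
-/

set_option autoImplicit false
set_option linter.unusedVariables false
set_option linter.unusedSectionVars false
set_option linter.unusedSimpArgs false
set_option linter.deprecated false

universe u v w

open scoped ZFSet

namespace Pool.Agent.H52.OM

open Pool.Agent.H17.Omega Pool.Agent.H82.OC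

/-- `n` is reached from `0` in `m` steps. -/
def RchN (c : ℕ → ℕ) : ℕ → ℕ → Prop
  | 0, n => n = 0
  | m + 1, n => ∃ n', Ec c n n' ∧ RchN c m n'

/-- `n` is below `0`. -/
def Rch (c : ℕ → ℕ) (n : ℕ) : Prop := ∃ m, RchN c m n

open Classical in
/-- The restriction of the coded relation to the numbers below `0`. -/
noncomputable def rt (c : ℕ → ℕ) : ℕ → ℕ := fun k => if Rch c k.unpair.2 then c k else 0

theorem ec_rt {c : ℕ → ℕ} {m n : ℕ} : Ec (rt c) m n ↔ Rch c n ∧ Ec c m n := by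
  unfold Ec rt
  rw [Nat.unpair_pair]
  by_cases h : Rch c n
  · simp [h]
  · simp [h]

theorem rch_zero (c : ℕ → ℕ) : Rch c 0 := ⟨0, rfl⟩

theorem Rch.step {c : ℕ → ℕ} {m n : ℕ} (h : Rch c n) (hm : Ec c m n) : Rch c m := by
  obtain ⟨k, hk⟩ := h
  exact ⟨k + 1, n, hm, hk⟩

theorem rt_val {c : ℕ → ℕ} (y : ZFSet.{u}) : ∀ n, Rch c n → IsVal (Ec c) y n →
    IsVal (Ec (rt c)) y n ∧ Acc (Ec (rt c)) n := by
  induction y using ZFSet.inductionOn with
  | _ y ih =>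
    intro n hn hy
    rw [isVal_iff] at hy
    constructor
    · rw [isVal_iff]
      constructor
      · intro m hm
        obtain ⟨z, hz, hz'⟩ := hy.1 m (ec_rt.1 hm).2
        exact ⟨z, hz, (ih z hz m (hn.step (ec_rt.1 hm).2) hz').1⟩
      · intro z hz
        obtain ⟨m, hm, hz'⟩ := hy.2 z hz
        exact ⟨m, ec_rt.2 ⟨hn, hm⟩, (ih z hz m (hn.step hm) hz').1⟩
    · refine ⟨n, fun m hm => ?_⟩
      obtain ⟨z, hz, hz'⟩ := hy.1 m (ec_rt.1 hm).2
      exact (ih z hz m (hn.step (ec_rt.1 hm).2) hz').2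

theorem rch_val {c : ℕ → ℕ} {x : ZFSet.{u}} (h : IsVal (Ec c) x 0) : ∀ m n, RchN c m n →
    ∃ y : ZFSet.{u}, IsVal (Ec c) y n := by
  intro m
  induction m with
  | zero => intro n hn; exact ⟨x, by rw [show n = 0 from hn]; exact h⟩
  | succ m ih =>
    rintro n ⟨n', hn, hn'⟩
    obtain ⟨y, hy⟩ := ih n' hn'
    rw [isVal_iff] at hy
    obtain ⟨z, _, hz⟩ := hy.1 n hn
    exact ⟨z, hz⟩

theorem rt_wf {c : ℕ → ℕ} {x : ZFSet.{u}} (h : IsVal (Ec c) x 0) : WellFounded (Ec (rt c)) := by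
  refine ⟨fun n => ?_⟩
  by_cases hn : Rch c n
  · obtain ⟨m, hm⟩ := hn
    obtain ⟨y, hy⟩ := rch_val h m n hm
    exact (rt_val y n ⟨m, hm⟩ hy).2
  · exact ⟨n, fun m hm => absurd (ec_rt.1 hm).1 hn⟩

theorem ubs_rchN (m : ℕ) : ∀ n, UBS.{u} {c : ℕ → ℕ | RchN c m n} := by
  induction m with
  | zero =>
    intro n
    by_cases h : n = 0
    · have e : {c : ℕ → ℕ | RchN c 0 n} = Set.univ := by
        ext c; simp [RchN, h]
      rw [e]; exact UBS.of_isOpen isOpen_univ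
    · have e : {c : ℕ → ℕ | RchN c 0 n} = ∅ := by
        ext c; simp [RchN, h]
      rw [e]; exact UBS.of_isOpen isOpen_empty
  | succ m ih =>
    intro n
    have h : ∀ n', UBS.{u} {c : ℕ → ℕ | Ec c n n' ∧ RchN c m n'} := by
      intro n'
      have h0 : Continuous fun c : ℕ → ℕ => c (Nat.pair n n') := continuous_apply _
      have h1 : IsOpen {c : ℕ → ℕ | Ec c n n'} := (isOpen_discrete {k : ℕ | k ≠ 0}).preimage h0
      exact UBS.inter (UBS.of_isOpen h1) (ih n')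
    exact UBS.ex h

theorem ubs_rch (n : ℕ) : UBS.{u} {c : ℕ → ℕ | Rch c n} := UBS.ex fun m => ubs_rchN m n

theorem ubs_eq_rt : UBS.{u} {p : (ℕ → ℕ) × (ℕ → ℕ) | p.2 = rt p.1} := by
  have h : ∀ k, UBS.{u} {p : (ℕ → ℕ) × (ℕ → ℕ) | p.2 k = rt p.1 k} := by
    intro k
    have h1 : UBS.{u} {p : (ℕ → ℕ) × (ℕ → ℕ) | Rch p.1 k.unpair.2} :=
      UBS.preimage (ubs_rch k.unpair.2) continuous_fst
    have h2 : UBS.{u} {p : (ℕ → ℕ) × (ℕ → ℕ) | p.2 k = p.1 k} := by
      refine UBS.of_isClosed (isClosed_eq ?_ ?_)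
      · exact (continuous_apply k).comp continuous_snd
      · exact (continuous_apply k).comp continuous_fst
    have h3 : UBS.{u} {p : (ℕ → ℕ) × (ℕ → ℕ) | p.2 k = 0} := by
      refine UBS.of_isClosed (isClosed_eq ?_ continuous_const)
      exact (continuous_apply k).comp continuous_snd
    have e : {p : (ℕ → ℕ) × (ℕ → ℕ) | p.2 k = rt p.1 k} =
        ({p | Rch p.1 k.unpair.2} ∩ {p | p.2 k = p.1 k}) ∪ ({p | Rch p.1 k.unpair.2}ᶜ ∩ {p | p.2 k = 0}) := by
      ext p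
      by_cases h : Rch p.1 k.unpair.2
      · simp [rt, h]
      · simp [rt, h]
    rw [e]
    exact (h1.inter h2).union (h1.compl.inter h3)
  have h' := UBS.all h
  have e : {p : (ℕ → ℕ) × (ℕ → ℕ) | p.2 = rt p.1} = {p | ∀ k, p.2 k = rt p.1 k} := by
    ext p
    exact funext_iff
  rw [e]
  exact h'

/-- Omega-star validity gives a universally Baire Skolem function on codes. -/
theorem exists_skolem_all (hW : ManyWoodin.{u}) {ψ : Fml} (hψ : ψ.Delta0)
    (hfree : ∀ n, ψ.Free n → n = 0 ∨ n = 1) (hφ : ValidStar.{u} (piTwo ψ)) :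
    ∃ F : (ℕ → ℕ) → ℕ → ℕ, UB.{u} {a : ℕ → ℕ | F (fun n => a (n + 2)) (a 0) = a 1} ∧
      ∀ (x : ZFSet.{u}) (c : ℕ → ℕ), IsVal (Ec c) x 0 → ∃ y : ZFSet.{u}, IsVal (Ec (F c)) y 0 ∧ Tr ψ x y := by
  obtain ⟨F, hF, hF'⟩ := exists_skolem (manyInacc_of_manyWoodin hW) hψ hfree hφ
  refine ⟨fun c => F (rt c), ?_, fun x c hc => hF' x (rt c) (rt_wf hc) (rt_val x 0 (rch_zero c) hc).1⟩
  have h1 : UBS.{u} {p : (ℕ → ℕ) × (ℕ → ℕ) | p.2 = rt (fun n => p.1 (n + 2)) ∧ F p.2 (p.1 0) = p.1 1} := by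
    refine UBS.inter (A := {p : (ℕ → ℕ) × (ℕ → ℕ) | p.2 = rt (fun n => p.1 (n + 2))})
      (B := {p : (ℕ → ℕ) × (ℕ → ℕ) | F p.2 (p.1 0) = p.1 1}) ?_ ?_
    · have hc : Continuous fun p : (ℕ → ℕ) × (ℕ → ℕ) => ((fun n => p.1 (n + 2) : ℕ → ℕ), p.2) := by
        fun_prop
      exact UBS.preimage ubs_eq_rt hc
    · have hc : Continuous fun p : (ℕ → ℕ) × (ℕ → ℕ) =>
          ((fun n => if n = 0 then p.1 0 else if n = 1 then p.1 1 else p.2 (n - 2)) : ℕ → ℕ) := by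
        refine continuous_pi fun n => ?_
        by_cases h0 : n = 0
        · simp only [h0, if_true]; fun_prop
        · by_cases h1 : n = 1
          · simp only [h1, if_true, one_ne_zero, if_false]; fun_prop
          · simp only [h0, h1, if_false]; fun_prop
      exact UBS.preimage (UBS_iff_UB.2 hF) hc
  have h2 : UBS.{u} {a : ℕ → ℕ | ∃ d : ℕ → ℕ, d = rt (fun n => a (n + 2)) ∧ F d (a 0) = a 1} :=
    UBS.exists' hW (P := fun (a d : ℕ → ℕ) => d = rt (fun n => a (n + 2)) ∧ F d (a 0) = a 1) h1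
  refine UBS_iff_UB.1 ?_
  convert h2 using 1
  ext a
  simp

end Pool.Agent.H52.OM
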