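import Pool.Agent.H52.OM.Defs
import Pool.Agent.H17.Omega.MTau
import Pool.Agent.H17.Omega.GenM

/-!
# OM-14a: nice names for reals in an arbitrary partial order, first part

`T` is a downward closed set of pairs `(q, (i, j))`; `IsTauT F T t`: `t` is the name `{((i,j)ˇ, q) : (q, (i, j)) ∈ T}`, where `F x` is a name of `x` (`hF`).
-/

set_option autoImplicit false
set_option linter.unusedVariables false
set_option linter.unusedSectionVars false
set_option linter.unusedSimpArgs false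
set_option linter.deprecated false

universe u v w

open scoped ZFSet

namespace Pool.Agent.H52.OM

open Pool.Agent.H17.Omega Pool.Agent.H82.OC

/-- `t` is the name `{(F e, x) : (x, e) ∈ T}`. -/
def IsTauT {M : Set ZFSet.{u}} (F : M → M) (T t : ZFSet.{u}) : Prop :=
  ∀ z, z ∈ t ↔ ∃ x e : M, ZFSet.pair x.1 e.1 ∈ T ∧ z = ZFSet.pair (F e).1 x.1

/-- `T` is a set of pairs `(c q, (i, j))`. -/
def IsTT {Q : Type u} (c : Q → ZFSet.{u}) (T : ZFSet.{u}) : Prop :=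
  ∀ z ∈ T, ∃ q : Q, ∃ i j : ℕ, z = ZFSet.pair (c q) (ZFSet.pair (natZ i) (natZ j))

theorem check_inj {Q : Type u} [Preorder Q] {x y : ZFSet.{u}} {q : Q}
    (h : Name.feq (Name.check x) (Name.check y) q) : x = y :=
  Name.feq_check_iff.1 h

section

variable {M : Set ZFSet.{u}} (hM : CTM M) {Q : Type u} [PartialOrder Q] {c : Q → ZFSet.{u}} {P R : ZFSet.{u}}
  (hPR : CTM.PR M c P R) {F : M → M} (hFd : hM.Dfn (fun v : Fin 2 → M => F (v 0) = v 1))
  (hF : ∀ x : M, ∀ q : Q, Name.feq (nm c (F x).1) (Name.check x.1) q)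

include hM hPR hFd hF

theorem val_tau {T t : ZFSet.{u}} (hT : IsTT c T) (hN : Nice P R T) (hTM : T ∈ M) (ht : IsTauT F T t) (i j : ℕ)
    (r : Q) : ForcesVal (nm c t) i j r ↔
      ∀ r1 ≤ r, ∃ r2 ≤ r1, ZFSet.pair (c r2) (ZFSet.pair (natZ i) (natZ j)) ∈ T := by
  unfold ForcesVal
  rw [fmem_nm]
  constructor
  · intro h r1 hr1
    obtain ⟨r2, h1, b, r', h2, h3, h4⟩ := h r1 hr1
    refine ⟨r2, h1, ?_⟩
    obtain ⟨x, e, h5, h6⟩ := (ht _).1 h2
    rw [ZFSet.pair_inj] at h6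
    rw [h6.1] at h4
    have h7 := check_inj (Name.feq_trans h4 (hF e r2))
    rw [h7]
    refine hN.down (c r') (c r2) e.1 ?_ ((CTM.PR.le_iff hPR).2 h3)
    rw [h6.2]
    exact h5
  · intro h r1 hr1
    obtain ⟨r2, h1, h2⟩ := h r1 hr1
    let e : M := ⟨ZFSet.pair (natZ i) (natZ j), hM.pair_mem (hM.natZ_mem_N i) (hM.natZ_mem_N j)⟩
    let x : M := ⟨c r2, CTM.PR.c_mem_N hM hPR r2⟩
    exact ⟨r2, h1, (F e).1, r2, (ht _).2 ⟨x, e, h2, rfl⟩, le_rfl, Name.feq_symm (hF e r2)⟩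

theorem pairs_tau {T t : ZFSet.{u}} (hT : IsTT c T) (hTM : T ∈ M) (ht : IsTauT F T t) (X : Name Q) (r : Q)
    (h : X.fmem (nm c t) r) : ∃ s ≤ r, ∃ i j, X.feq (Name.check (ZFSet.pair (natZ i) (natZ j))) s := by
  rw [fmem_nm] at h
  obtain ⟨q2, h1, b, r', h2, h3, h4⟩ := h r le_rfl
  obtain ⟨x, e, h5, h6⟩ := (ht _).1 h2
  obtain ⟨q, i, j, h7⟩ := hT _ h5
  rw [ZFSet.pair_inj] at h6 h7
  refine ⟨q2, h1, i, j, ?_⟩
  rw [h6.1] at h4
  rw [← h7.2]
  exact Name.feq_trans h4 (hF e q2)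

theorem feq_tau_val {τ T t : ZFSet.{u}} (hτ : τ ∈ M) (hTM : T ∈ M) (hT : IsTT c T)
    (hT' : ∀ q i j, ZFSet.pair (c q) (ZFSet.pair (natZ i) (natZ j)) ∈ T ↔ ForcesVal (nm c τ) i j q)
    (ht : IsTauT F T t) {s : Q} (hs : ForcesReal (nm c τ) s) : Name.feq (nm c τ) (nm c t) s := by
  rw [Name.feq_iff_mem]
  constructor
  · intro k q' hq' hk
    have h0 : Name.fmem ((nm c τ).el k) (nm c τ) q' := Name.fmem_el hk
    apply Name.fmem_reg
    intro q1 hq1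
    obtain ⟨s', hs', i, j, h1⟩ := hs.1 _ q1 (hq1.trans hq') (Name.fmem_mono hq1 h0)
    refine ⟨s', hs', ?_⟩
    have h2 : ForcesVal (nm c τ) i j s' :=
      Name.fmem_congr_left h1 (Name.fmem_mono (hs'.trans hq1) h0)
    have h3 := (hT' s' i j).2 h2
    let e : M := ⟨ZFSet.pair (natZ i) (natZ j), hM.pair_mem (hM.natZ_mem_N i) (hM.natZ_mem_N j)⟩
    let x : M := ⟨c s', CTM.PR.c_mem_N hM hPR s'⟩
    rw [fmem_nm]
    intro q2 hq2
    exact ⟨q2, le_rfl, (F e).1, s', (ht _).2 ⟨x, e, h3, rfl⟩, hq2,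
      Name.feq_trans (Name.feq_mono hq2 h1) (Name.feq_symm (hF e q2))⟩
  · intro k q' hq' hk
    obtain ⟨a, h1, h2⟩ := nm_el c t k
    rw [h2]
    obtain ⟨x, e, h3, h4⟩ := (ht _).1 h1
    obtain ⟨q, i, j, h5⟩ := hT _ h3
    rw [ZFSet.pair_inj] at h4 h5
    have h6 : ZFSet.pair (c ((nm c t).cd k)) (ZFSet.pair (natZ i) (natZ j)) ∈ T := by
      rw [h4.2, ← h5.2]
      exact h3
    have h7 := (hT' _ i j).1 h6
    have h8 : Name.fmem (Name.check e.1) (nm c τ) q' := by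
      rw [h5.2]
      exact Name.fmem_mono hk h7
    rw [h4.1]
    exact Name.fmem_congr_left (Name.feq_symm (hF e q')) h8

end

end Pool.Agent.H52.OM
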