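import Pool.Agent.H52.OM.Defs
import Pool.Agent.H17.Omega.CtmV

/-!
# OM-22: the set of terms over `t` in a countable transitive model

PROOF.  `TCl t c`: `c` is closed under the formation of terms.  `exists_level`/`exists_closed` (`H17/Omega/CtmV.lean`, `CtmV`: with `Φ` trivial) give an ordinal `o` of `M`, closed under successors, with `t.rank < o`, and `s' ∈ M`, `s' = {z ∈ M : z.rank < o}`;
`s'` is transitive, contains `t` and is closed under pairs (`rank` of a pair is at most `+ 3` or so: `ZFSet.rank_pair`), so `TCl t s'`.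
`Te := {z ∈ s' : for all c ∈ M, if c ⊆ s' and TCl t c then z ∈ c} ∈ M` (`sep_mem`/`exists_sep` in `CtmC.lean`; `TCl` is definable).  `Tz t z → z ∈ Te` by induction on `Tz` (every `c` in question contains `z`; `s'` too).
Conversely let `z ∈ Te` not be a term, of minimal rank.  `c := Te \ {z} ∈ M`.  It is closed: `pair t a` (`a ∈ t`), `t` are terms, so different from `z` and in `Te`; for `z1, z2 ∈ c` the element `pair {t} (pair z1 z2)` is in `Te` (`Te` is closed: it is an intersection of closed sets), and if it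
were equal to `z` then `z1, z2` would have smaller rank, so would be terms, and `z` would be a term.  So `z ∈ c`, a contradiction.
-/

set_option autoImplicit false
set_option linter.unusedVariables false
set_option linter.unusedSectionVars false
set_option linter.unusedSimpArgs false
set_option linter.deprecated false

universe u v w

open scoped ZFSet

namespace Pool.Agent.H52.OM

open Pool.Agent.H17.Omega Pool.Agent.H82.OC

/-- `c` is closed under the formation of terms over `t`. -/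
structure TCl (t c : ZFSet.{u}) : Prop where
  el : ∀ a ∈ t, ZFSet.pair t a ∈ c
  pt : t ∈ c
  pr : ∀ z₁ ∈ c, ∀ z₂ ∈ c, ZFSet.pair {t} (ZFSet.pair z₁ z₂) ∈ c
  sk : ∀ z₁ ∈ c, ∀ z₂ ∈ c, ZFSet.pair (ZFSet.pair t t) (ZFSet.pair z₁ z₂) ∈ c

section

variable {N : Set ZFSet.{u}} {hN : CTM N}

theorem terms_dfn_pr (k : N) : hN.Dfn (fun v : Fin 2 → N => ∀ z₁ ∈ (v 1).1, ∀ z₂ ∈ (v 1).1,
    ∃ q : N, q.1 = ZFSet.pair z₁ z₂ ∧ ZFSet.pair k.1 q.1 ∈ (v 1).1) :=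
  CTM.Dfn.ballZ (p := fun v z₁ => ∀ z₂ ∈ (v 1).1,
    ∃ q : N, q.1 = ZFSet.pair z₁ z₂ ∧ ZFSet.pair k.1 q.1 ∈ (v 1).1) (CTM.DT.var _)
  (CTM.Dfn.ballZ (p := fun v z₂ => ∃ q : N, q.1 = ZFSet.pair (v 2).1 z₂ ∧
    ZFSet.pair k.1 q.1 ∈ (v 1).1) (CTM.DT.var (n := 3) 1)
  (CTM.Dfn.ex (P := fun v q => q.1 = ZFSet.pair (v 2).1 (v 3).1 ∧
    ZFSet.pair k.1 q.1 ∈ (v 1).1)
  ((CTM.Dfn.isPair (CTM.DT.var (n := 5) 4) (CTM.DT.var (n := 5) 2) (CTM.DT.var (n := 5) 3)).and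
  (CTM.Dfn.pairMem (CTM.DT.const k) (CTM.DT.var (n := 5) 4) (CTM.DT.var (n := 5) 1)))))

theorem terms_pr_iff (hN : CTM N) (k : N) {c : ZFSet.{u}} (hc : c ∈ N) : (∀ z₁ ∈ c, ∀ z₂ ∈ c,
    ∃ q : N, q.1 = ZFSet.pair z₁ z₂ ∧ ZFSet.pair k.1 q.1 ∈ c) ↔
    ∀ z₁ ∈ c, ∀ z₂ ∈ c, ZFSet.pair k.1 (ZFSet.pair z₁ z₂) ∈ c := by
  refine forall₄_congr fun z₁ h1 z₂ h2 => ?_
  constructor
  · rintro ⟨q, hq, h3⟩
    rw [← hq]
    exact h3
  · intro h3
    exact ⟨⟨ZFSet.pair z₁ z₂, hN.pair_mem (hN.mem_of_mem hc h1) (hN.mem_of_mem hc h2)⟩, rfl, h3⟩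

theorem terms_dfn (t : N) : hN.Dfn (fun v : Fin 2 → N => TCl t.1 (v 1).1) := by
  have h1 : hN.Dfn (fun v : Fin 2 → N => ∀ a ∈ t.1, ZFSet.pair t.1 a ∈ (v 1).1) :=
    CTM.Dfn.ballZ (p := fun v a => ZFSet.pair t.1 a ∈ (v 1).1) (CTM.DT.const t)
      (CTM.Dfn.pairMem (CTM.DT.const t) (CTM.DT.var (n := 3) 2) (CTM.DT.var (n := 3) 1))
  have h2 : hN.Dfn (fun v : Fin 2 → N => t.1 ∈ (v 1).1) :=
    CTM.Dfn.mem (CTM.DT.const t) (CTM.DT.var _)
  have h3 := terms_dfn_pr (hN := hN) ⟨{t.1}, hN.singleton_mem t.2⟩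
  have h4 := terms_dfn_pr (hN := hN) ⟨ZFSet.pair t.1 t.1, hN.pair_mem t.2 t.2⟩
  refine ((h1.and h2).and (h3.and h4)).congr fun v => ?_
  rw [terms_pr_iff hN _ (v 1).2, terms_pr_iff hN _ (v 1).2]
  exact ⟨fun h => ⟨h.1.1, h.1.2, h.2.1, h.2.2⟩, fun h => ⟨⟨h.el, h.pt⟩, h.pr, h.sk⟩⟩

end

theorem terms_rank_left (a b : ZFSet.{u}) : a.rank < (ZFSet.pair a b).rank := by
  have h1 : ({a, a} : ZFSet.{u}) ∈ ZFSet.pair a b := by
    rw [pair_eq_upair, ZFSet.mem_pair]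
    exact Or.inl rfl
  have h2 : a ∈ ({a, a} : ZFSet.{u}) := by
    rw [ZFSet.mem_pair]
    exact Or.inl rfl
  exact (ZFSet.rank_lt_of_mem h2).trans (ZFSet.rank_lt_of_mem h1)

theorem terms_rank_right (a b : ZFSet.{u}) : b.rank < (ZFSet.pair a b).rank := by
  have h1 : ({a, b} : ZFSet.{u}) ∈ ZFSet.pair a b := by
    rw [pair_eq_upair, ZFSet.mem_pair]
    exact Or.inr rfl
  have h2 : b ∈ ({a, b} : ZFSet.{u}) := by
    rw [ZFSet.mem_pair]
    exact Or.inr rfl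
  exact (ZFSet.rank_lt_of_mem h2).trans (ZFSet.rank_lt_of_mem h1)

theorem Tz.mem_of_TCl {t c z : ZFSet.{u}} (hc : TCl t c) (h : Tz t z) : z ∈ c := by
  induction h with
  | el a ha => exact hc.el a ha
  | pt => exact hc.pt
  | pr z₁ z₂ _ _ ih1 ih2 => exact hc.pr z₁ ih1 z₂ ih2
  | sk z₁ z₂ _ _ ih1 ih2 => exact hc.sk z₁ ih1 z₂ ih2

theorem exists_terms {M : Set ZFSet.{u}} (hM : CTM M) {t : ZFSet.{u}} (ht : t ∈ M) :
    ∃ Te ∈ M, ∀ z, z ∈ Te ↔ Tz t z := by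
  -- a level closed under the formation of terms
  obtain ⟨o, ho, hto, hsucc, -⟩ := hM.exists_closed (Φ := fun z w => z = w)
    (CTM.Dfn.eq (CTM.DT.var _) (CTM.DT.var _)) (fun z => ⟨z, rfl⟩) ⟨t, ht⟩
  have hlim : Order.IsSuccLimit o := by
    rw [Ordinal.isSuccLimit_iff]
    refine ⟨?_, Order.isSuccPrelimit_of_succ_lt hsucc⟩
    rintro rfl
    exact absurd hto not_lt_bot
  obtain ⟨s, hs, hs'⟩ := hM.exists_level o ho
  have hpair : ∀ a ∈ s, ∀ b ∈ s, ZFSet.pair a b ∈ s := by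
    intro a ha b hb
    rw [hs'] at ha hb ⊢
    refine ⟨hM.pair_mem ha.1 hb.1, ?_⟩
    have h1 := rank_pair_lt hlim (ZFSet.mem_vonNeumann.2 ha.2) (ZFSet.mem_vonNeumann.2 hb.2)
    exact ZFSet.mem_vonNeumann.1 h1
  have hts : t ∈ s := (hs' t).2 ⟨ht, hto⟩
  have htr : ∀ a ∈ t, a ∈ s := fun a ha =>
    (hs' a).2 ⟨hM.mem_of_mem ht ha, (ZFSet.rank_lt_of_mem ha).trans hto⟩
  have hsing : ({t} : ZFSet.{u}) ∈ s := by
    refine (hs' _).2 ⟨hM.singleton_mem ht, ?_⟩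
    rw [ZFSet.rank_singleton]
    exact hsucc _ hto
  have hsT : TCl t s := ⟨fun a ha => hpair t hts a (htr a ha), hts,
    fun z₁ h1 z₂ h2 => hpair _ hsing _ (hpair _ h1 _ h2),
    fun z₁ h1 z₂ h2 => hpair _ (hpair _ hts _ hts) _ (hpair _ h1 _ h2)⟩
  -- the intersection of the closed sets
  obtain ⟨Te, hTe, hTe'⟩ := hM.exists_sep (P := fun z => ∀ c : M, (c.1 ⊆ s ∧ TCl t c.1) → z.1 ∈ c.1)
    (CTM.Dfn.all (P := fun v c => (c.1 ⊆ s ∧ TCl t c.1) → (v 0).1 ∈ c.1)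
      (((CTM.Dfn.subset (CTM.DT.var (n := 2) 1) (CTM.DT.const ⟨s, hs⟩)).and
        (terms_dfn ⟨t, ht⟩)).imp (CTM.Dfn.mem (CTM.DT.var (n := 2) 0) (CTM.DT.var (n := 2) 1)))) hs
  have hmem : ∀ z, z ∈ Te ↔ z ∈ s ∧ ∀ c ∈ M, c ⊆ s → TCl t c → z ∈ c := by
    intro z
    rw [hTe']
    constructor
    · rintro ⟨h1, h2, h3⟩
      exact ⟨h1, fun c hc hcs hct => h3 ⟨c, hc⟩ ⟨hcs, hct⟩⟩
    · rintro ⟨h1, h2⟩
      exact ⟨h1, hM.mem_of_mem hs h1, fun c hc => h2 c.1 c.2 hc.1 hc.2⟩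
  have hTeT : TCl t Te := by
    refine ⟨fun a ha => ?_, ?_, fun z₁ h1 z₂ h2 => ?_, fun z₁ h1 z₂ h2 => ?_⟩
    · exact (hmem _).2 ⟨hsT.el a ha, fun c hc hcs hct => hct.el a ha⟩
    · exact (hmem _).2 ⟨hsT.pt, fun c hc hcs hct => hct.pt⟩
    · rw [hmem] at h1 h2 ⊢
      exact ⟨hsT.pr z₁ h1.1 z₂ h2.1, fun c hc hcs hct =>
        hct.pr z₁ (h1.2 c hc hcs hct) z₂ (h2.2 c hc hcs hct)⟩
    · rw [hmem] at h1 h2 ⊢
      exact ⟨hsT.sk z₁ h1.1 z₂ h2.1, fun c hc hcs hct =>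
        hct.sk z₁ (h1.2 c hc hcs hct) z₂ (h2.2 c hc hcs hct)⟩
  refine ⟨Te, hTe, fun z => ⟨?_, fun h => h.mem_of_TCl hTeT⟩⟩
  have key : ∀ r : Ordinal.{u}, ∀ z, z.rank = r → z ∈ Te → Tz t z := by
    intro r
    induction r using WellFoundedLT.induction with
    | ind r ih =>
      rintro z rfl hz
      by_contra hnz
      have hzM : z ∈ M := hM.mem_of_mem hTe hz
      obtain ⟨c, hc, hc'⟩ := hM.exists_sep (P := fun x => ¬ x = ⟨z, hzM⟩)
        (CTM.Dfn.eq (CTM.DT.var 0) (CTM.DT.const ⟨z, hzM⟩)).not hTe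
      have hcm : ∀ x, x ∈ c ↔ x ∈ Te ∧ x ≠ z := by
        intro x
        rw [hc']
        constructor
        · rintro ⟨h1, h2, h3⟩
          exact ⟨h1, fun he => h3 (Subtype.ext he)⟩
        · rintro ⟨h1, h2⟩
          exact ⟨h1, hM.mem_of_mem hTe h1, fun he => h2 (congrArg Subtype.val he)⟩
      have hcT : TCl t c := by
        refine ⟨fun a ha => ?_, ?_, fun z₁ h1 z₂ h2 => ?_, fun z₁ h1 z₂ h2 => ?_⟩
        · refine (hcm _).2 ⟨hTeT.el a ha, ?_⟩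
          rintro rfl
          exact hnz (.el a ha)
        · refine (hcm _).2 ⟨hTeT.pt, ?_⟩
          rintro rfl
          exact hnz .pt
        · rw [hcm] at h1 h2
          refine (hcm _).2 ⟨hTeT.pr z₁ h1.1 z₂ h2.1, ?_⟩
          rintro rfl
          have r1 := (terms_rank_left z₁ z₂).trans (terms_rank_right {t} (ZFSet.pair z₁ z₂))
          have r2 := (terms_rank_right z₁ z₂).trans (terms_rank_right {t} (ZFSet.pair z₁ z₂))
          exact hnz (.pr z₁ z₂ (ih _ r1 z₁ rfl h1.1) (ih _ r2 z₂ rfl h2.1))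
        · rw [hcm] at h1 h2
          refine (hcm _).2 ⟨hTeT.sk z₁ h1.1 z₂ h2.1, ?_⟩
          rintro rfl
          have r1 := (terms_rank_left z₁ z₂).trans
            (terms_rank_right (ZFSet.pair t t) (ZFSet.pair z₁ z₂))
          have r2 := (terms_rank_right z₁ z₂).trans
            (terms_rank_right (ZFSet.pair t t) (ZFSet.pair z₁ z₂))
          exact hnz (.sk z₁ z₂ (ih _ r1 z₁ rfl h1.1) (ih _ r2 z₂ rfl h2.1))
      have hcs : c ⊆ s := fun x hx => ((hmem x).1 ((hcm x).1 hx).1).1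
      exact ((hcm z).1 (((hmem z).1 hz).2 c hc hcs hcT)).2 rfl
  exact key _ z rfl

end Pool.Agent.H52.OM
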