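import Pool.Agent.H52.OM.UDc

/-!
# OM-29: the forcing predicate `BB A` is a universally Baire predicate

Context calculus of `UDb.lean`, `UDc.lean`.

PROOF.
* `ud_nice`: `Nice` is `D0` (bounded quantifiers; see also `ColB.lean`), or build it with `ud_pairMem`, `UD.ball`, `UD.allH` (for hereditarily countable `P, R, T` all conditions in `Nice` concern hereditarily countable sets, so quantifiers over all sets may be replaced by quantifiers over `HC`: `UD.congr`).
* `ud_denB`: the same (`q ∈ P`, `q' ∈ P`).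
* `ud_isSeq`: in the context `ι ⊕ ℕ` (a sequence variable `s`): `s k ∈ P` for all `k` etc. (`UD.allN`, `ud_pairMem`).
* `ud_evs`: `Ev T s m n` is `∃ k, pair (s k) (pair (natZ m) (natZ n)) ∈ T`: `UD.exN`, `ud_ev`.
* `ud_inA`: `∃ x ∈ A, ∀ i j, Ev T s i j ↔ x i = j`: `UD.exR` with `UD.real` for `{(z, x) | x ∈ A}` (`UBS.preimage` of `hA`), `{(z, x) | x i = j}` (clopen), `UD.pull` (to add the real variable: `f = Prod.fst`), `UD.allN`, `UD.iff`.
* `ud_btZ`: for hereditarily countable `P, R, r, T`: `BtZ A P R r T` iff there is `D : ℕ → V` with all `D n` in `HC` (replace `D n` by `D n ∩ P`: `ZFSet.sep (· ∈ P) (D n)`; a sequence in `P` meets `D n` iff it meets `D n ∩ P`), all dense, such that for all `s : ℕ → V` with `s n ∈ HC` (automatic: `s k ∈ P`)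
  the implication holds.  `UD.exS`, `UD.allS`, `UD.congr`.
* `ud_BB`: `BB A z ↔ ∃ P R r T` (all in `HC` because `z` is: `HC.of_pair`), `z = pair (pair P R) (pair r T)` (`ud_pair` with intermediate variables), `r ∈ P`, `Nice P R T`, `BtZ A P R r T`.
-/

set_option autoImplicit false
set_option linter.unusedVariables false
set_option linter.unusedSectionVars false
set_option linter.unusedSimpArgs false
set_option linter.deprecated false

universe u v w

open scoped ZFSet

namespace Pool.Agent.H52.OM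

open Pool.Agent.H17.Omega Pool.Agent.H82.OC

/-- Universally Baire predicates of one set (for all contexts). -/
def UPred (B : ZFSet.{u} → Prop) : Prop :=
  ∀ (Z : Type) [TopologicalSpace Z] [Bs Z] (ι : Type) (i : ι),
    UD (fun (_ : Z) (v : ι → ZFSet.{u}) => B (v i))

private theorem udbb_pm {P a b : ZFSet.{u}} (hP : HC P) (h : ZFSet.pair a b ∈ P) : HC a ∧ HC b :=
  HC.of_pair (hP.mem h)

section

variable (hW : ManyWoodin.{u}) {Z : Type} [TopologicalSpace Z] [Bs Z] {ι : Type}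

include hW

theorem ud_nice (P R T : ι) : UD (fun (_ : Z) (v : ι → ZFSet.{u}) => Nice (v P) (v R) (v T)) := by
  have h1 : UD (fun (_ : Z) (v : ι → ZFSet.{u}) => ∀ p ∈ v P, ZFSet.pair p p ∈ v R) :=
    UD.ball hW (P := fun _ v p => ZFSet.pair p p ∈ v R) P (ud_pairMem hW none none (some R))
  have h2 : UD (fun (_ : Z) (v : ι → ZFSet.{u}) => ∀ a, HC a → ∀ b, HC b → ∀ c, HC c →
      ZFSet.pair a b ∈ v R → ZFSet.pair b c ∈ v R → ZFSet.pair a c ∈ v R) := by
    refine UD.allH hW (P := fun _ v a => ∀ b, HC b → ∀ c, HC c →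
      ZFSet.pair a b ∈ v R → ZFSet.pair b c ∈ v R → ZFSet.pair a c ∈ v R) ?_
    refine UD.allH hW (P := fun _ v b => ∀ c, HC c → ZFSet.pair (v none) b ∈ v (some R) →
      ZFSet.pair b c ∈ v (some R) → ZFSet.pair (v none) c ∈ v (some R)) ?_
    refine UD.allH hW (P := fun _ v c => ZFSet.pair (v (some none)) (v none) ∈ v (some (some R)) →
      ZFSet.pair (v none) c ∈ v (some (some R)) →
        ZFSet.pair (v (some none)) c ∈ v (some (some R))) ?_
    exact UD.imp hW (ud_pairMem hW _ _ _) (UD.imp hW (ud_pairMem hW _ _ _) (ud_pairMem hW _ _ _))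
  have h3 : UD (fun (_ : Z) (v : ι → ZFSet.{u}) => ∀ a, HC a → ∀ b, HC b →
      ZFSet.pair a b ∈ v R → (a ∈ v P ∧ b ∈ v P)) := by
    refine UD.allH hW (P := fun _ v a => ∀ b, HC b →
      ZFSet.pair a b ∈ v R → (a ∈ v P ∧ b ∈ v P)) ?_
    refine UD.allH hW (P := fun _ v b => ZFSet.pair (v none) b ∈ v (some R) →
      (v none ∈ v (some P) ∧ b ∈ v (some P))) ?_
    exact UD.imp hW (ud_pairMem hW _ _ _) (UD.and (UD.mem hW _ _) (UD.mem hW _ _))
  have h4 : UD (fun (_ : Z) (v : ι → ZFSet.{u}) => ∀ q, HC q → ∀ q', HC q' → ∀ e, HC e →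
      ZFSet.pair q e ∈ v T → ZFSet.pair q' q ∈ v R → ZFSet.pair q' e ∈ v T) := by
    refine UD.allH hW (P := fun _ v q => ∀ q', HC q' → ∀ e, HC e →
      ZFSet.pair q e ∈ v T → ZFSet.pair q' q ∈ v R → ZFSet.pair q' e ∈ v T) ?_
    refine UD.allH hW (P := fun _ v q' => ∀ e, HC e → ZFSet.pair (v none) e ∈ v (some T) →
      ZFSet.pair q' (v none) ∈ v (some R) → ZFSet.pair q' e ∈ v (some T)) ?_
    refine UD.allH hW (P := fun _ v e => ZFSet.pair (v (some none)) e ∈ v (some (some T)) →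
      ZFSet.pair (v none) (v (some none)) ∈ v (some (some R)) →
        ZFSet.pair (v none) e ∈ v (some (some T))) ?_
    exact UD.imp hW (ud_pairMem hW _ _ _) (UD.imp hW (ud_pairMem hW _ _ _) (ud_pairMem hW _ _ _))
  refine UD.congr ?_ (UD.and h1 (UD.and h2 (UD.and h3 h4)))
  intro z v hv
  constructor
  · rintro ⟨a1, a2, a3, a4⟩
    refine ⟨a1, fun a b c hab hbc => ?_, fun a b hab => ?_, fun q q' e hqe hqq => ?_⟩
    · have := udbb_pm (hv R) hab
      have := udbb_pm (hv R) hbc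
      exact a2 a (by tauto) b (by tauto) c (by tauto) hab hbc
    · have := udbb_pm (hv R) hab
      exact a3 a this.1 b this.2 hab
    · have h5 := udbb_pm (hv T) hqe
      have h6 := udbb_pm (hv R) hqq
      exact a4 q h5.1 q' h6.1 e h5.2 hqe hqq
  · intro h
    exact ⟨h.refl, fun a _ b _ c _ => h.trans a b c, fun a _ b _ => h.dom a b,
      fun q _ q' _ e _ => h.down q q' e⟩

theorem ud_denB (P R r D : ι) : UD (fun (_ : Z) (v : ι → ZFSet.{u}) => DenB (v P) (v R) (v r) (v D)) := by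
  unfold DenB
  refine UD.ball hW (P := fun _ v q => ZFSet.pair q (v r) ∈ v R →
    ∃ q' ∈ v D, q' ∈ v P ∧ ZFSet.pair q' q ∈ v R) P ?_
  refine UD.imp hW (ud_pairMem hW _ _ _) ?_
  refine UD.bex hW (P := fun _ v q' => q' ∈ v (some P) ∧ ZFSet.pair q' (v none) ∈ v (some R))
    (some D) ?_
  exact UD.and (UD.mem hW _ _) (ud_pairMem hW _ _ _)

theorem ud_isSeq (P R r : ι) (s : ℕ → ι) :
    UD (fun (_ : Z) (v : ι → ZFSet.{u}) => IsSeq (v P) (v R) (v r) (fun n => v (s n))) := by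
  have h1 : UD (fun (_ : Z) (v : ι → ZFSet.{u}) => ∀ k, v (s k) ∈ v P) :=
    UD.allN (P := fun k (_ : Z) (v : ι → ZFSet.{u}) => v (s k) ∈ v P) fun k => UD.mem hW _ _
  have h2 : UD (fun (_ : Z) (v : ι → ZFSet.{u}) => ZFSet.pair (v (s 0)) (v r) ∈ v R) :=
    ud_pairMem hW _ _ _
  have h3 : UD (fun (_ : Z) (v : ι → ZFSet.{u}) => ∀ k, ZFSet.pair (v (s (k + 1))) (v (s k)) ∈ v R) :=
    UD.allN (P := fun k (_ : Z) (v : ι → ZFSet.{u}) => ZFSet.pair (v (s (k + 1))) (v (s k)) ∈ v R)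
      fun k => ud_pairMem hW _ _ _
  refine UD.congr ?_ (UD.and h1 (UD.and h2 h3))
  intro z v _
  exact ⟨fun h => ⟨h.1, h.2.1, h.2.2⟩, fun h => ⟨h.mem, h.fst, h.desc⟩⟩

theorem ud_inA {A : Set (ℕ → ℕ)} (hA : UB.{u} A) (T : ι) (s : ℕ → ι) :
    UD (fun (_ : Z) (v : ι → ZFSet.{u}) => ∃ x ∈ A, ∀ i j, Ev (v T) (fun n => v (s n)) i j ↔ x i = j) := by
  refine UD.exR hW (P := fun (_ : Z) (x : ℕ → ℕ) (v : ι → ZFSet.{u}) =>
    x ∈ A ∧ ∀ i j, Ev (v T) (fun n => v (s n)) i j ↔ x i = j) ?_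
  refine UD.and ?_ ?_
  · exact UD.real hW (p := fun z : Z × (ℕ → ℕ) => z.2 ∈ A)
      ((UBS_iff_UB.2 hA).preimage continuous_snd)
  · refine UD.allN (P := fun i (z : Z × (ℕ → ℕ)) (v : ι → ZFSet.{u}) =>
      ∀ j, Ev (v T) (fun n => v (s n)) i j ↔ z.2 i = j) fun i => ?_
    refine UD.allN (P := fun j (z : Z × (ℕ → ℕ)) (v : ι → ZFSet.{u}) =>
      Ev (v T) (fun n => v (s n)) i j ↔ z.2 i = j) fun j => ?_
    refine UD.iff hW ?_ ?_
    · exact UD.exN (P := fun k (_ : Z × (ℕ → ℕ)) (v : ι → ZFSet.{u}) =>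
        ZFSet.pair (v (s k)) (ZFSet.pair (natZ i) (natZ j)) ∈ v T) fun k => ud_ev hW i j (s k) T
    · refine UD.real hW (p := fun z : Z × (ℕ → ℕ) => z.2 i = j) (UBS.of_isOpen ?_)
      have hc : Continuous fun z : Z × (ℕ → ℕ) => z.2 i := by fun_prop
      exact (isOpen_discrete ({j} : Set ℕ)).preimage hc

omit hW in
theorem udbb_btZ_iff {A : Set (ℕ → ℕ)} {P R r T : ZFSet.{u}} (hP : HC P) :
    (∃ D : ℕ → ZFSet.{u}, (∀ n, HC (D n)) ∧ ((∀ n, DenB P R r (D n)) ∧
      ∀ s : ℕ → ZFSet.{u}, (∀ n, HC (s n)) → (IsSeq P R r s → ((∀ n, ∃ k, s k ∈ D n) →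
        ∃ x ∈ A, ∀ i j, Ev T s i j ↔ x i = j)))) ↔ BtZ A P R r T := by
  constructor
  · rintro ⟨D, -, h1, h2⟩
    exact ⟨D, h1, fun s hs hm => h2 s (fun n => hP.mem (hs.mem n)) hs hm⟩
  · rintro ⟨D, h1, h2⟩
    refine ⟨fun n => ZFSet.sep (fun y => y ∈ P) (D n), fun n => ?_, fun n q hq hqr => ?_,
      fun s _ hs hm => h2 s hs fun n => ?_⟩
    · refine hc_iff.2 ⟨?_, fun y hy => hP.mem (ZFSet.mem_sep.1 hy).2⟩
      exact (hc_iff.1 hP).1.mono fun y hy => (ZFSet.mem_sep.1 hy).2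
    · obtain ⟨q', h3, h4, h5⟩ := h1 n q hq hqr
      exact ⟨q', ZFSet.mem_sep.2 ⟨h3, h4⟩, h4, h5⟩
    · obtain ⟨k, hk⟩ := hm n
      exact ⟨k, (ZFSet.mem_sep.1 hk).1⟩

theorem ud_btZ {A : Set (ℕ → ℕ)} (hA : UB.{u} A) (P R r T : ι) :
    UD (fun (_ : Z) (v : ι → ZFSet.{u}) => BtZ A (v P) (v R) (v r) (v T)) := by
  have h1 : UD (Z := Z) (ι := (ι ⊕ ℕ) ⊕ ℕ) (fun _ v =>
      IsSeq (v (Sum.inl (Sum.inl P))) (v (Sum.inl (Sum.inl R))) (v (Sum.inl (Sum.inl r)))
        (fun n => v (Sum.inr n)) → ((∀ n : ℕ, ∃ k : ℕ, v (Sum.inr k) ∈ v (Sum.inl (Sum.inr n))) →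
        ∃ x ∈ A, ∀ i j, Ev (v (Sum.inl (Sum.inl T))) (fun n => v (Sum.inr n)) i j ↔ x i = j)) :=
    UD.imp hW (ud_isSeq hW _ _ _ _) (UD.imp hW (UD.allN fun n => UD.exN fun k => UD.mem hW _ _)
      (ud_inA hW hA _ _))
  have h2 := UD.allS (Z := Z) (ι := ι ⊕ ℕ) hW (P := fun _ v s =>
    IsSeq (v (Sum.inl P)) (v (Sum.inl R)) (v (Sum.inl r)) s →
      ((∀ n : ℕ, ∃ k : ℕ, s k ∈ v (Sum.inr n)) →
        ∃ x ∈ A, ∀ i j, Ev (v (Sum.inl T)) s i j ↔ x i = j)) h1
  have h3 : UD (Z := Z) (ι := ι ⊕ ℕ) (fun _ v =>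
      ∀ n : ℕ, DenB (v (Sum.inl P)) (v (Sum.inl R)) (v (Sum.inl r)) (v (Sum.inr n))) :=
    UD.allN fun n => ud_denB hW _ _ _ _
  have h4 := UD.exS (Z := Z) (ι := ι) hW (P := fun _ v D =>
    (∀ n : ℕ, DenB (v P) (v R) (v r) (D n)) ∧ ∀ s : ℕ → ZFSet.{u}, (∀ n, HC (s n)) →
    (IsSeq (v P) (v R) (v r) s → ((∀ n : ℕ, ∃ k : ℕ, s k ∈ D n) →
        ∃ x ∈ A, ∀ i j, Ev (v T) s i j ↔ x i = j))) (h3.and h2)
  exact h4.congr fun z v hv => udbb_btZ_iff (hv P)

theorem upred_BB {A : Set (ℕ → ℕ)} (hA : UB.{u} A) : UPred (BB.{u} A) := by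
  intro Z _ _ ι i
  have h6 : UD (Z := Z) (ι := Option (Option (Option (Option (Option (Option ι)))))) (fun _ v =>
      (v (some none) = ZFSet.pair (v (some (some (some (some (some none))))))
        (v (some (some (some (some none))))) ∧
      v none = ZFSet.pair (v (some (some (some none)))) (v (some (some none))) ∧
      v (some (some (some (some (some (some i)))))) = ZFSet.pair (v (some none)) (v none)) ∧
      (v (some (some (some none))) ∈ v (some (some (some (some (some none))))) ∧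
      Nice (v (some (some (some (some (some none)))))) (v (some (some (some (some none)))))
        (v (some (some none))) ∧
      BtZ A (v (some (some (some (some (some none)))))) (v (some (some (some (some none)))))
        (v (some (some (some none)))) (v (some (some none))))) :=
    ((ud_pair hW _ _ _).and ((ud_pair hW _ _ _).and (ud_pair hW _ _ _))).and
      ((UD.mem hW _ _).and ((ud_nice hW _ _ _).and (ud_btZ hW hA _ _ _ _)))
  have h5 := UD.exH (Z := Z) hW (P := fun _ (v : Option (Option (Option (Option (Option ι)))) → ZFSet.{u})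
      b => (v none = ZFSet.pair (v (some (some (some (some none)))))
        (v (some (some (some none)))) ∧
      b = ZFSet.pair (v (some (some none))) (v (some none)) ∧
      v (some (some (some (some (some i))))) = ZFSet.pair (v none) b) ∧
      (v (some (some none)) ∈ v (some (some (some (some none)))) ∧
      Nice (v (some (some (some (some none))))) (v (some (some (some none))))
        (v (some none)) ∧
      BtZ A (v (some (some (some (some none))))) (v (some (some (some none))))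
        (v (some (some none))) (v (some none)))) h6
  have h4 := UD.exH (Z := Z) hW (P := fun _ (v : Option (Option (Option (Option ι))) → ZFSet.{u})
      a => ∃ b, HC b ∧ ((a = ZFSet.pair (v (some (some (some none))))
        (v (some (some none))) ∧
      b = ZFSet.pair (v (some none)) (v none) ∧
      v (some (some (some (some i)))) = ZFSet.pair a b) ∧
      (v (some none) ∈ v (some (some (some none))) ∧
      Nice (v (some (some (some none)))) (v (some (some none)))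
        (v none) ∧
      BtZ A (v (some (some (some none)))) (v (some (some none)))
        (v (some none)) (v none)))) h5
  have h3 := UD.exH (Z := Z) hW (P := fun _ (v : Option (Option (Option ι)) → ZFSet.{u})
      T => ∃ a, HC a ∧ ∃ b, HC b ∧ ((a = ZFSet.pair (v (some (some none)))
        (v (some none)) ∧
      b = ZFSet.pair (v none) T ∧
      v (some (some (some i))) = ZFSet.pair a b) ∧
      (v none ∈ v (some (some none)) ∧
      Nice (v (some (some none))) (v (some none)) T ∧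
      BtZ A (v (some (some none))) (v (some none)) (v none) T))) h4
  have h2 := UD.exH (Z := Z) hW (P := fun _ (v : Option (Option ι) → ZFSet.{u})
      r => ∃ T, HC T ∧ ∃ a, HC a ∧ ∃ b, HC b ∧ ((a = ZFSet.pair (v (some none)) (v none) ∧
      b = ZFSet.pair r T ∧
      v (some (some i)) = ZFSet.pair a b) ∧
      (r ∈ v (some none) ∧
      Nice (v (some none)) (v none) T ∧
      BtZ A (v (some none)) (v none) r T))) h3
  have h1 := UD.exH (Z := Z) hW (P := fun _ (v : Option ι → ZFSet.{u})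
      R => ∃ r, HC r ∧ ∃ T, HC T ∧ ∃ a, HC a ∧ ∃ b, HC b ∧ ((a = ZFSet.pair (v none) R ∧
      b = ZFSet.pair r T ∧
      v (some i) = ZFSet.pair a b) ∧
      (r ∈ v none ∧
      Nice (v none) R T ∧
      BtZ A (v none) R r T))) h2
  have h0 := UD.exH (Z := Z) hW (P := fun _ (v : ι → ZFSet.{u})
      P => ∃ R, HC R ∧ ∃ r, HC r ∧ ∃ T, HC T ∧ ∃ a, HC a ∧ ∃ b, HC b ∧ ((a = ZFSet.pair P R ∧
      b = ZFSet.pair r T ∧
      v i = ZFSet.pair a b) ∧
      (r ∈ P ∧
      Nice P R T ∧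
      BtZ A P R r T))) h1
  refine h0.congr fun z v hv => ?_
  constructor
  · rintro ⟨P, _, R, _, r, _, T, _, a, _, b, _, ⟨rfl, rfl, he⟩, h1, h2, h3⟩
    exact ⟨P, R, r, T, he, h1, h2, h3⟩
  · rintro ⟨P, R, r, T, he, h1, h2, h3⟩
    have hz : HC (ZFSet.pair (ZFSet.pair P R) (ZFSet.pair r T)) := he ▸ hv i
    have hab := HC.of_pair hz
    have hPR := HC.of_pair hab.1
    have hrT := HC.of_pair hab.2
    exact ⟨P, hPR.1, R, hPR.2, r, hrT.1, T, hrT.2,
      _, hab.1, _, hab.2, ⟨rfl, rfl, he⟩, h1, h2, h3⟩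

end

end Pool.Agent.H52.OM
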