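import Pool.Agent.H52.OM.UDW

/-!
# OM-32: the least witness function is given by a universally Baire predicate

Context calculus of `UDb.lean`, `UDc.lean`.

PROOF.
* `tz_iff`: `Tz t z ↔ ∃ n, Tzn t n z` (`Tzn` is monotone in `n`; induction on `Tz`, and on `n`).
* `hc_tz`: for `t ∈ HC` every term over `t` is in `HC` (`HC.pair`; `{t} ∈ HC` by `hc_iff`).
* `ud_tzn n`: induction on `n`, uniformly in the context: introduce `z1, z2` and the auxiliary sets `pair z1 z2`, `{t}`, `pair t t` by `UD.exH` (`ud_pair`; `s = {t}` iff `∀ y ∈ HC, y ∈ s ↔ y = t`); `UD.congr` with `hc_tz`.  `ud_tz`: `UD.exN`.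
* `ud_tr`: `Tr ψ (v x) (v y)` is `Sat ψ (asg (v x) (v y))`: `UD.sat` (`UDc.lean`) and `UD.subst` with `σ 0 = x`, `σ (n+1) = y`.
* `ud_goodF`: `GoodF ψ x t f` for `x, t, f ∈ HC`: all the sets quantified over are in `HC` (terms over `t`; values `v` with `pair z v ∈ f`).
* `ud_leastF`: for HC parameters `WOn w x ∧ LeastF B ψ x w f` iff there are `W, L ∈ HC` with (`WOn w x ∧ W = Wl B w (bet B w)`) (`ud_best`; `hc_Wl`), `L = fld w`, `f ∈ fld W`, `GoodF ψ x L f` and for all `f' ∈ HC`: `f' ∈ fld W → GoodF ψ x L f' → pair f f' ∈ W` (elements of `fld W` are in `HC`).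
-/

set_option autoImplicit false
set_option linter.unusedVariables false
set_option linter.unusedSectionVars false
set_option linter.unusedSimpArgs false
set_option linter.deprecated false

universe u v w

open scoped ZFSet

namespace Pool.Agent.H52.OM

open Pool.Agent.H17.Omega Pool.Agent.H82.OC

/-- Terms of depth `n`. -/
def Tzn (t : ZFSet.{u}) : ℕ → ZFSet.{u} → Prop
  | 0, z => (∃ a ∈ t, z = ZFSet.pair t a) ∨ z = t
  | n + 1, z => Tzn t n z ∨ ∃ z₁ z₂, Tzn t n z₁ ∧ Tzn t n z₂ ∧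
      (z = ZFSet.pair {t} (ZFSet.pair z₁ z₂) ∨ z = ZFSet.pair (ZFSet.pair t t) (ZFSet.pair z₁ z₂))

theorem udf_mono {t z : ZFSet.{u}} {n m : ℕ} (h : Tzn t n z) (hnm : n ≤ m) : Tzn t m z := by
  induction hnm with
  | refl => exact h
  | step _ ih => exact Or.inl ih

theorem udf_hc_sing {t : ZFSet.{u}} (ht : HC t) : HC ({t} : ZFSet.{u}) := by
  refine hc_iff.2 ⟨?_, fun y hy => ?_⟩
  · have : {y | y ∈ ({t} : ZFSet.{u})} = {t} := by
      ext y
      simp
    rw [this]
    exact Set.countable_singleton _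
  · rw [ZFSet.mem_singleton] at hy
    rw [hy]
    exact ht

theorem tz_iff {t z : ZFSet.{u}} : Tz t z ↔ ∃ n, Tzn t n z := by
  constructor
  · intro h
    induction h with
    | el a ha => exact ⟨0, Or.inl ⟨a, ha, rfl⟩⟩
    | pt => exact ⟨0, Or.inr rfl⟩
    | pr z₁ z₂ _ _ ih1 ih2 =>
      obtain ⟨n, hn⟩ := ih1
      obtain ⟨m, hm⟩ := ih2
      exact ⟨max n m + 1, Or.inr ⟨z₁, z₂, udf_mono hn (le_max_left _ _), udf_mono hm (le_max_right _ _), Or.inl rfl⟩⟩
    | sk z₁ z₂ _ _ ih1 ih2 =>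
      obtain ⟨n, hn⟩ := ih1
      obtain ⟨m, hm⟩ := ih2
      exact ⟨max n m + 1, Or.inr ⟨z₁, z₂, udf_mono hn (le_max_left _ _), udf_mono hm (le_max_right _ _), Or.inr rfl⟩⟩
  · rintro ⟨n, hn⟩
    induction n generalizing z with
    | zero =>
      rcases hn with ⟨a, ha, rfl⟩ | rfl
      · exact Tz.el a ha
      · exact Tz.pt
    | succ n ih =>
      rcases hn with h | ⟨z₁, z₂, h1, h2, rfl | rfl⟩
      · exact ih h
      · exact Tz.pr z₁ z₂ (ih h1) (ih h2)
      · exact Tz.sk z₁ z₂ (ih h1) (ih h2)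

theorem hc_tz {t z : ZFSet.{u}} (ht : HC t) (h : Tz t z) : HC z := by
  induction h with
  | el a ha => exact HC.pair ht (ht.mem ha)
  | pt => exact ht
  | pr z₁ z₂ _ _ ih1 ih2 => exact HC.pair (udf_hc_sing ht) (HC.pair ih1 ih2)
  | sk z₁ z₂ _ _ ih1 ih2 => exact HC.pair (HC.pair ht ht) (HC.pair ih1 ih2)

section

variable (hW : ManyWoodin.{u}) {Z : Type} [TopologicalSpace Z] [Bs Z] {ι : Type}

include hW

theorem udf_tzn (n : ℕ) : ∀ {ι : Type} (t z : ι), UD (fun (_ : Z) (v : ι → ZFSet.{u}) => Tzn (v t) n (v z)) := by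
  induction n with
  | zero =>
    intro ι t z
    refine UD.or (UD.bex hW t (P := fun _ v a => v z = ZFSet.pair (v t) a) ?_) (UD.eq hW z t)
    exact ud_pair hW (some z) (some t) none
  | succ n ih =>
    intro ι t z
    have h : UD (fun (_ : Z) (v : ι → ZFSet.{u}) => Tzn (v t) n (v z) ∨ ∃ z₁, HC z₁ ∧ ∃ z₂, HC z₂ ∧
        (Tzn (v t) n z₁ ∧ Tzn (v t) n z₂ ∧ ∃ p, HC p ∧ (p = ZFSet.pair z₁ z₂ ∧
          ((∃ s, HC s ∧ ((∀ y, HC y → (y ∈ s ↔ y = v t)) ∧ v z = ZFSet.pair s p)) ∨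
            ∃ q, HC q ∧ (q = ZFSet.pair (v t) (v t) ∧ v z = ZFSet.pair q p))))) := by
      refine UD.or (ih t z) ?_
      refine UD.exH hW ?_
      refine UD.exH hW ?_
      refine UD.and (ih (some (some t)) (some none)) ?_
      refine UD.and (ih (some (some t)) none) ?_
      refine UD.exH hW ?_
      refine UD.and (ud_pair hW none (some (some none)) (some none)) ?_
      refine UD.or ?_ ?_
      · refine UD.exH hW ?_
        refine UD.and ?_ (ud_pair hW (some (some (some (some z)))) none (some none))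
        refine UD.allH hW ?_
        exact UD.iff hW (UD.mem hW none (some none)) (UD.eq hW none (some (some (some (some (some t))))))
      · refine UD.exH hW ?_
        refine UD.and (ud_pair hW none (some (some (some (some t)))) (some (some (some (some t))))) ?_
        exact ud_pair hW (some (some (some (some z)))) none (some none)
    refine UD.congr (fun _ v hv => or_congr Iff.rfl ?_) h
    constructor
    · rintro ⟨z₁, -, z₂, -, h1, h2, p, -, rfl, h3⟩
      refine ⟨z₁, z₂, h1, h2, ?_⟩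
      rcases h3 with ⟨s, hs, h4, h5⟩ | ⟨q, -, rfl, h5⟩
      · left
        have h6 : s = {v t} := by
          ext y
          rw [ZFSet.mem_singleton]
          constructor
          · intro hy
            exact (h4 y (hs.mem hy)).1 hy
          · rintro rfl
            exact (h4 _ (hv t)).2 rfl
        rw [h5, h6]
      · right
        exact h5
    · rintro ⟨z₁, z₂, h1, h2, h3⟩
      have hz1 : HC z₁ := hc_tz (hv t) (tz_iff.2 ⟨n, h1⟩)
      have hz2 : HC z₂ := hc_tz (hv t) (tz_iff.2 ⟨n, h2⟩)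
      refine ⟨z₁, hz1, z₂, hz2, h1, h2, _, HC.pair hz1 hz2, rfl, ?_⟩
      rcases h3 with h3 | h3
      · left
        exact ⟨{v t}, udf_hc_sing (hv t), fun y _ => ZFSet.mem_singleton, h3⟩
      · right
        exact ⟨_, HC.pair (hv t) (hv t), rfl, h3⟩

theorem ud_tz (t z : ι) : UD (fun (_ : Z) (v : ι → ZFSet.{u}) => Tz (v t) (v z)) := by
  refine UD.congr (fun z v _ => tz_iff.symm) ?_
  exact UD.exN fun n => udf_tzn hW n t z

theorem ud_tr {ψ : Fml} (hψ : ψ.Delta0) (x y : ι) : UD (fun (_ : Z) (v : ι → ZFSet.{u}) => Tr ψ (v x) (v y)) := by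
  refine UD.congr (fun z v _ => ?_) (UD.subst hW (UD.sat hW hψ) (fun k : ℕ => if k = 0 then x else y))
  have h : (fun i : ℕ => v (if i = 0 then x else y)) = asg (v x) (v y) := by
    funext i
    unfold asg
    split_ifs <;> rfl
  simp only [h, Tr]

theorem ud_goodF {ψ : Fml} (hψ : ψ.Delta0) (x t f : ι) :
    UD (fun (_ : Z) (v : ι → ZFSet.{u}) => GoodF ψ (v x) (v t) (v f)) := by
  have h1 : UD (fun (_ : Z) (v : ι → ZFSet.{u}) => ∀ z, HC z → (Tz (v t) z → ∃ y, HC y ∧
      (ZFSet.pair z y ∈ v f ∧ ∀ y', HC y' → (ZFSet.pair z y' ∈ v f → y' = y)))) :=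
    UD.allH hW (UD.imp hW (ud_tz hW (some t) none) (UD.exH hW
      ((ud_pairMem hW (some none) none (some (some f))).and
        (UD.allH hW (UD.imp hW (ud_pairMem hW (some (some none)) none (some (some (some f))))
          (UD.eq hW none (some none)))))))
  have h2 : UD (fun (_ : Z) (v : ι → ZFSet.{u}) => ∀ z, HC z → ∀ y, HC y → (Tz (v t) z →
      (ZFSet.pair z y ∈ v f → ∀ a ∈ y, ∃ z', HC z' ∧ (Tz (v t) z' ∧ ZFSet.pair z' a ∈ v f)))) :=
    UD.allH hW (UD.allH hW (UD.imp hW (ud_tz hW (some (some t)) (some none))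
      (UD.imp hW (ud_pairMem hW (some none) none (some (some f))) (UD.ball hW none (UD.exH hW
        ((ud_tz hW (some (some (some (some t)))) none).and
          (ud_pairMem hW none (some none) (some (some (some (some f)))))))))))
  have h3 : UD (fun (_ : Z) (v : ι → ZFSet.{u}) => ∀ y, HC y → (ZFSet.pair (v t) y ∈ v f →
      Tr ψ (v x) y)) :=
    UD.allH hW (UD.imp hW (ud_pairMem hW (some t) none (some f)) (ud_tr hW hψ (some x) none))
  refine UD.congr (fun z v hv => ?_) (h1.and (h2.and h3))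
  constructor
  · rintro ⟨g1, g2, g3⟩
    refine ⟨?_, ?_, ?_⟩
    · intro z hz
      obtain ⟨y, -, hy, hu⟩ := g1 z (hc_tz (hv t) hz) hz
      exact ⟨y, hy, fun y' hy' => hu y' (HC.of_pair (HC.mem (hv f) hy')).2 hy'⟩
    · intro z y hz hy a ha
      obtain ⟨z', -, h4, h5⟩ := g2 z (hc_tz (hv t) hz) y (HC.of_pair (HC.mem (hv f) hy)).2 hz hy a ha
      exact ⟨z', h4, h5⟩
    · intro y hy
      exact g3 y (HC.of_pair (HC.mem (hv f) hy)).2 hy
  · rintro ⟨g1, g2, g3⟩
    refine ⟨?_, ?_, ?_⟩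
    · intro z _ hz
      obtain ⟨y, hy, hu⟩ := g1 z hz
      exact ⟨y, (HC.of_pair (HC.mem (hv f) hy)).2, hy, fun y' _ hy' => hu y' hy'⟩
    · intro z _ y _ hz hy a ha
      obtain ⟨z', h4, h5⟩ := g2 z y hz hy a ha
      exact ⟨z', hc_tz (hv t) h4, h4, h5⟩
    · intro y _ hy
      exact g3 y hy

variable {B : ZFSet.{u} → Prop} (hB : UPred B)

include hB

theorem ud_leastF (hbet : ∀ w x : ZFSet.{u}, HC w → WOn w x → Zl B w (bet B w) ∧ (bet B w).card ≤ Cardinal.aleph0)
    {ψ : Fml} (hψ : ψ.Delta0) (x w f : ι) : UD (fun (_ : Z) (v : ι → ZFSet.{u}) =>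
      WOn (v w) (v x) ∧ LeastF B ψ (v x) (v w) (v f)) := by
  have h1 : UD (fun (_ : Z) (v : ι → ZFSet.{u}) => ∃ W, HC W ∧
      ((WOn (v w) (v x) ∧ W = Wl B (v w) (bet B (v w))) ∧ ∃ L, HC L ∧ (L = fld (v w) ∧
        (v f ∈ fld W ∧ (GoodF ψ (v x) L (v f) ∧ ∀ f', HC f' → (f' ∈ fld W →
          (GoodF ψ (v x) L f' → ZFSet.pair (v f) f' ∈ W))))))) :=
    UD.exH hW ((ud_best hW hB hbet (some w) (some x) none).and (UD.exH hW
      ((ud_fldEq hW none (some (some w))).and ((ud_fldMem hW (some (some f)) (some none)).and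
        ((ud_goodF hW hψ (some (some x)) none (some (some f))).and (UD.allH hW
          (UD.imp hW (ud_fldMem hW none (some (some none)))
            (UD.imp hW (ud_goodF hW hψ (some (some (some x))) (some none) none)
              (ud_pairMem hW (some (some (some f))) none (some (some none)))))))))))
  refine UD.congr (fun z v hv => ?_) h1
  constructor
  · rintro ⟨W, hWc, ⟨g1, g2⟩, L, -, g3, g4, g5, g6⟩
    subst g2 g3
    refine ⟨g1, g4, g5, fun f' hf' hg => ?_⟩
    exact g6 f' (HC.mem (hc_fld hWc) hf') hf' hg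
  · rintro ⟨g1, g4, g5, g6⟩
    have hWc : HC (Wl B (v w) (bet B (v w))) := hc_Wl g1.wo (hv w) (hbet _ _ (hv w) g1).2
    exact ⟨_, hWc, ⟨g1, rfl⟩, _, hc_fld (hv w), rfl, g4, g5, fun f' _ hf' hg => g6 f' hf' hg⟩

end

end Pool.Agent.H52.OM
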