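import Pool.Agent.H52.OM.UDBB
import Pool.Agent.H52.OM.StepA

/-!
# OM-30: one step of the hierarchy is a universally Baire operation on `HC`

Context calculus of `UDb.lean`, `UDc.lean`; `hB : UPred B`.

PROOF.  All quantifiers over sets may be restricted to `HC` by `UD.congr`, because the parameters are in `HC`.
* `hc_fld` (`fld W ⊆ ⋃⋃W`; elements are components of pairs in `W`: `HC.of_pair`), `hc_sep` (subset of an `HC` set), `hc_Hh`, `hc_step`: elements of `step B W` are pairs `(a, b)` with `StepR B W a b`, where `a, b ∈ fld W` or new, i.e. of the form `Hh B W p q θ`: countably many, all in `HC` (`hc_iff`, `HC.pair`).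
* `ud_fldMem`: `v i ∈ fld (v j) ↔ pair (v i) (v i) ∈ v j` (`mem_fld`).  `ud_fldEq`: `v i = fld (v j)` iff `∀ y ∈ HC, y ∈ v i ↔ y ∈ fld (v j)`.
* `ud_sepEq`: `v i = sep B (v j)` iff `∀ y ∈ HC, (y ∈ v i ↔ y ∈ v j ∧ B y)`.
* `ud_Hh`: `v i = Hh B (v W) (v p) (v q) θ` iff there are `L, U, e ∈ HC` with `L = fld W`, `U = sep B L`, `e = ∅` such that for all `z ∈ HC`: `z ∈ v i ↔ z ∈ L ∧ Sat θ (z, L, W, U, p, q, e, e, ..)`; the last predicate by `UD.sat` and `UD.subst` (`asH B W p q z` is the assignment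
  `0 ↦ z, 1 ↦ L, 2 ↦ W, 3 ↦ U, 4 ↦ p, 5 ↦ q`, other variables `↦ ∅`).
* `ud_isCode θ`: `IsCode` is a conjunction (if `θ` is not `Δ₀` it is false).  `ud_clt`: `ud_pairMem`, `UD.eq`, `UD.not`; `θ.code < θ'.code` is a constant (`UD.real` with a constant proposition).
* `ud_least θ`: `IsCode ∧ ∀ p' q' ∈ HC, ∀ θ', IsCode .. → ¬ CLt ..` (`UD.allH`, `UD.allN` over `Fml`).  `ud_new`, `ud_stepR`: `UD.exH`, `UD.exN`.
* `ud_step`: `v i = step B (v W)` iff `(∀ a b ∈ HC, pair a b ∈ v i ↔ StepR B W a b) ∧ ∀ z ∈ v i, ∃ a b ∈ HC, z = pair a b`.  (Membership in the product in the definition of `step`: `StepR B W a b` implies `a, b ∈ fld W ∪ powerset (fld W)` if `W` is a wellorder; to avoid this assumption, we assume `WO W`, see `mem_step` in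
  `StepA.lean`: therefore the statement is about `WO (v W) ∧ v i = step B (v W)`.)
* `ud_wo`: `WO W` for `W ∈ HC`: the clauses are bounded or about `HC` sets; the clause `min` quantifies over subsets `c` of `fld W`, which are in `HC`.
-/

set_option autoImplicit false
set_option linter.unusedVariables false
set_option linter.unusedSectionVars false
set_option linter.unusedSimpArgs false
set_option linter.deprecated false

universe u v w

open scoped ZFSet

namespace Pool.Agent.H52.OM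

open Pool.Agent.H17.Omega Pool.Agent.H82.OC

theorem hc_fld {W : ZFSet.{u}} (h : HC W) : HC (fld W) := by
  rw [hc_iff]
  constructor
  · refine Set.MapsTo.countable_of_injOn (f := fun y => ZFSet.pair y y) (t := {z | z ∈ W}) ?_ ?_ h.countable
    · intro y hy
      exact mem_fld.1 hy
    · intro a _ b _ hab
      exact (ZFSet.pair_inj.1 hab).1
  · intro y hy
    exact (HC.of_pair (HC.mem h (mem_fld.1 hy))).1

theorem hc_sep {p : ZFSet.{u} → Prop} {x : ZFSet.{u}} (h : HC x) : HC (ZFSet.sep p x) := by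
  rw [hc_iff]
  refine ⟨h.countable.mono fun y hy => (ZFSet.mem_sep.1 hy).1, fun y hy => ?_⟩
  exact HC.mem h (ZFSet.mem_sep.1 hy).1

theorem hc_Hh {B : ZFSet.{u} → Prop} {W p q : ZFSet.{u}} {θ : Fml} (h : HC W) : HC (Hh B W p q θ) :=
  hc_sep (hc_fld h)

theorem hc_step {B : ZFSet.{u} → Prop} {W : ZFSet.{u}} (h : HC W) (hW : WO W) : HC (step B W) := by
  have hF := hc_fld h
  have : Countable Fml := Fml.code_injective.countable
  have : Countable {y // y ∈ fld W} := hF.countable.to_subtype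
  set S : Set ZFSet.{u} := {x | x ∈ fld W ∨ New B W x} with hS
  have hSc : S.Countable := by
    have h1 : S ⊆ {y | y ∈ fld W} ∪
        Set.range (fun t : {y // y ∈ fld W} × {y // y ∈ fld W} × Fml => Hh B W t.1.1 t.2.1.1 t.2.2) := by
      rintro x (hx | ⟨-, p, q, θ, hc⟩)
      · exact Or.inl hx
      · exact Or.inr ⟨(⟨p, hc.hp⟩, ⟨q, hc.hq⟩, θ), hc.eq.symm⟩
    exact (hF.countable.union (Set.countable_range _)).mono h1
  have hSh : ∀ x ∈ S, HC x := by
    rintro x (hx | ⟨-, p, q, θ, hc⟩)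
    · exact HC.mem hF hx
    · rw [hc.eq]
      exact hc_Hh h
  have hst : ∀ z ∈ step B W, ∃ a ∈ S, ∃ b ∈ S, z = ZFSet.pair a b := by
    intro z hz
    rw [step, ZFSet.mem_sep] at hz
    obtain ⟨-, a, b, rfl, h2⟩ := hz
    rcases h2 with h2 | ⟨h2, h3⟩ | ⟨h2, h3, -⟩
    · obtain ⟨h3, h4⟩ := hW.mem_fld_of h2
      exact ⟨a, Or.inl h3, b, Or.inl h4, rfl⟩
    · exact ⟨a, Or.inl h2, b, Or.inr h3, rfl⟩
    · exact ⟨a, Or.inr h2, b, Or.inr h3, rfl⟩
  rw [hc_iff]
  constructor
  · refine ((hSc.prod hSc).image fun t => ZFSet.pair t.1 t.2).mono ?_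
    intro z hz
    obtain ⟨a, ha, b, hb, rfl⟩ := hst z hz
    exact ⟨(a, b), ⟨ha, hb⟩, rfl⟩
  · intro z hz
    obtain ⟨a, ha, b, hb, rfl⟩ := hst z hz
    exact HC.pair (hSh a ha) (hSh b hb)

section

variable (hW : ManyWoodin.{u}) {Z : Type} [TopologicalSpace Z] [Bs Z] {ι : Type}

include hW

theorem ud_fldMem (i j : ι) : UD (fun (_ : Z) (v : ι → ZFSet.{u}) => v i ∈ fld (v j)) :=
  UD.congr (fun _ _ _ => mem_fld.symm) (ud_pairMem hW i i j)

theorem ud_fldEq (i j : ι) : UD (fun (_ : Z) (v : ι → ZFSet.{u}) => v i = fld (v j)) := by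
  have h1 : UD (fun (_ : Z) (v : ι → ZFSet.{u}) => ∀ y, HC y → (y ∈ v i ↔ y ∈ fld (v j))) :=
    UD.allH hW (UD.iff hW (UD.mem hW none (some i)) (ud_fldMem hW none (some j)))
  refine UD.congr (fun z v hv => ?_) h1
  constructor
  · intro h
    ext y
    exact ⟨fun hy => (h y (HC.mem (hv i) hy)).1 hy, fun hy => (h y (HC.mem (hc_fld (hv j)) hy)).2 hy⟩
  · intro h y _
    rw [h]

theorem ud_wo (W : ι) : UD (fun (_ : Z) (v : ι → ZFSet.{u}) => WO (v W)) := by
  have h1 : UD (fun (_ : Z) (v : ι → ZFSet.{u}) => ∀ z ∈ v W, ∃ a, HC a ∧ (a ∈ fld (v W) ∧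
      ∃ b, HC b ∧ (b ∈ fld (v W) ∧ z = ZFSet.pair a b))) :=
    UD.ball hW W (UD.exH hW ((ud_fldMem hW none (some (some W))).and
      (UD.exH hW ((ud_fldMem hW none (some (some (some W)))).and
        (ud_pair hW (some (some none)) (some none) none)))))
  have h2 : UD (fun (_ : Z) (v : ι → ZFSet.{u}) => ∀ a, HC a → ∀ b, HC b →
      (ZFSet.pair a b ∈ v W → (ZFSet.pair b a ∈ v W → a = b))) :=
    UD.allH hW (UD.allH hW (UD.imp hW (ud_pairMem hW (some none) none (some (some W)))
      (UD.imp hW (ud_pairMem hW none (some none) (some (some W))) (UD.eq hW (some none) none))))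
  have h3 : UD (fun (_ : Z) (v : ι → ZFSet.{u}) => ∀ a, HC a → ∀ b, HC b → ∀ c, HC c →
      (ZFSet.pair a b ∈ v W → (ZFSet.pair b c ∈ v W → ZFSet.pair a c ∈ v W))) :=
    UD.allH hW (UD.allH hW (UD.allH hW
      (UD.imp hW (ud_pairMem hW (some (some none)) (some none) (some (some (some W))))
        (UD.imp hW (ud_pairMem hW (some none) none (some (some (some W))))
          (ud_pairMem hW (some (some none)) none (some (some (some W))))))))
  have h4 : UD (fun (_ : Z) (v : ι → ZFSet.{u}) => ∀ c, HC c → ((∀ y ∈ c, y ∈ fld (v W)) →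
      ((∃ y ∈ c, y = y) → ∃ m ∈ c, ∀ z ∈ c, ZFSet.pair m z ∈ v W))) :=
    UD.allH hW (UD.imp hW (UD.ball hW none (ud_fldMem hW none (some (some W))))
      (UD.imp hW (UD.bex hW none (UD.eq hW none none))
        (UD.bex hW none (UD.ball hW (some none)
          (ud_pairMem hW (some none) none (some (some (some W))))))))
  refine UD.congr (fun z v hv => ?_) (h1.and (h2.and (h3.and h4)))
  have hF := hc_fld (hv W)
  constructor
  · rintro ⟨g1, g2, g3, g4⟩
    have hp : ∀ a b, ZFSet.pair a b ∈ v W → HC a ∧ HC b := fun a b h => HC.of_pair (HC.mem (hv W) h)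
    refine ⟨?_, ?_, ?_, ?_⟩
    · intro y hy
      obtain ⟨a, -, ha, b, -, hb, h⟩ := g1 y hy
      exact ⟨a, ha, b, hb, h⟩
    · intro a b h h'
      exact g2 a (hp a b h).1 b (hp a b h).2 h h'
    · intro a b c h h'
      exact g3 a (hp a b h).1 b (hp a b h).2 c (hp b c h').2 h h'
    · intro c hc hne
      have hcH : HC c := by
        rw [hc_iff]
        exact ⟨hF.countable.mono fun y hy => hc hy, fun y hy => HC.mem hF (hc hy)⟩
      obtain ⟨y, hy⟩ : ∃ y, y ∈ c := by
        by_contra hcon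
        push Not at hcon
        exact hne ((ZFSet.eq_empty c).2 hcon)
      exact g4 c hcH (fun y hy => hc hy) ⟨y, hy, rfl⟩
  · intro h
    refine ⟨?_, ?_, ?_, ?_⟩
    · intro y hy
      obtain ⟨a, ha, b, hb, e⟩ := h.rel y hy
      exact ⟨a, HC.mem hF ha, ha, b, HC.mem hF hb, hb, e⟩
    · intro a _ b _ e e'
      exact h.anti a b e e'
    · intro a _ b _ c _ e e'
      exact h.trans a b c e e'
    · rintro c _ hc ⟨y, hy, -⟩
      refine h.min c (fun y hy => hc y hy) ?_
      rintro rfl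
      exact ZFSet.notMem_empty _ hy

theorem ud_wOn (w x : ι) : UD (fun (_ : Z) (v : ι → ZFSet.{u}) => WOn (v w) (v x)) := by
  have h1 : UD (fun (_ : Z) (v : ι → ZFSet.{u}) => ∃ L, HC L ∧ (L = fld (v w) ∧ L.IsTransitive)) :=
    UD.exH hW ((ud_fldEq hW none (some w)).and (ud_trans hW none))
  refine UD.congr (fun z v hv => ?_) ((ud_wo hW w).and (h1.and (ud_fldMem hW x w)))
  constructor
  · rintro ⟨g1, ⟨L, -, rfl, g2⟩, g3⟩
    exact ⟨g1, g2, g3⟩
  · rintro ⟨g1, g2, g3⟩
    exact ⟨g1, ⟨_, hc_fld (hv w), rfl, g2⟩, g3⟩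

variable {B : ZFSet.{u} → Prop} (hB : UPred B)

include hB

theorem ud_sepEq (i j : ι) : UD (fun (_ : Z) (v : ι → ZFSet.{u}) => v i = ZFSet.sep B (v j)) := by
  have h1 : UD (fun (_ : Z) (v : ι → ZFSet.{u}) => ∀ y, HC y → (y ∈ v i ↔ (y ∈ v j ∧ B y))) :=
    UD.allH hW (UD.iff hW (UD.mem hW none (some i)) ((UD.mem hW none (some j)).and (hB Z (Option ι) none)))
  refine UD.congr (fun z v hv => ?_) h1
  constructor
  · intro h
    ext y
    rw [ZFSet.mem_sep]
    exact ⟨fun hy => (h y (HC.mem (hv i) hy)).1 hy, fun hy => (h y (HC.mem (hv j) hy.1)).2 hy⟩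
  · intro h y _
    rw [h, ZFSet.mem_sep]

omit hB in
private theorem udh_const (c : Prop) : UD (fun (_ : Z) (_ : ι → ZFSet.{u}) => c) := by
  refine UD.real hW (p := fun _ => c) ?_
  by_cases h : c
  · have : {z : Z | c} = Set.univ := by ext z; simp [h]
    rw [this]
    exact UBS.of_isOpen isOpen_univ
  · have : {z : Z | c} = ∅ := by ext z; simp [h]
    rw [this]
    exact UBS.of_isOpen isOpen_empty

omit hB in
private theorem udh_empty (i : ι) : UD (fun (_ : Z) (v : ι → ZFSet.{u}) => v i = ∅) :=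
  ud_natZ hW 0 i

omit hW hB [TopologicalSpace Z] [Bs Z] in
private theorem udh_asH {W p q z : ZFSet.{u}} (w : Option (Option (Option (Option ι))) → ZFSet.{u})
    (W' p' q' : ι) (hz : w none = z) (he : w (some none) = ∅)
    (hU : w (some (some none)) = ZFSet.sep B (fld W)) (hL : w (some (some (some none))) = fld W)
    (h1 : w (some (some (some (some W')))) = W) (h2 : w (some (some (some (some p')))) = p)
    (h3 : w (some (some (some (some q')))) = q) :
    (fun n : ℕ => w (match n with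
      | 0 => none
      | 1 => some (some (some none))
      | 2 => some (some (some (some W')))
      | 3 => some (some none)
      | 4 => some (some (some (some p')))
      | 5 => some (some (some (some q')))
      | _ => some none)) = asH B W p q z := by
  funext n
  match n with
  | 0 => exact hz
  | 1 => exact hL
  | 2 => exact h1
  | 3 => exact hU
  | 4 => exact h2
  | 5 => exact h3
  | _ + 6 => exact he

theorem ud_Hh {θ : Fml} (hθ : θ.Delta0) (i W p q : ι) :
    UD (fun (_ : Z) (v : ι → ZFSet.{u}) => v i = Hh B (v W) (v p) (v q) θ) := by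
  let σ : ℕ → Option (Option (Option (Option ι))) := fun n => match n with
      | 0 => none
      | 1 => some (some (some none))
      | 2 => some (some (some (some W)))
      | 3 => some (some none)
      | 4 => some (some (some (some p)))
      | 5 => some (some (some (some q)))
      | _ => some none
  let opt4 : ZFSet.{u} → ZFSet.{u} → ZFSet.{u} → ZFSet.{u} → (ι → ZFSet.{u}) →
      Option (Option (Option (Option ι))) → ZFSet.{u} := fun L U e z v k => match k with
      | none => z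
      | some none => e
      | some (some none) => U
      | some (some (some none)) => L
      | some (some (some (some x))) => v x
  have hmain : UD (fun (_ : Z) (v : ι → ZFSet.{u}) => ∃ L, HC L ∧ ∃ U, HC U ∧ ∃ e, HC e ∧
      (L = fld (v W) ∧ U = ZFSet.sep B L ∧ e = ∅ ∧ ∀ z, HC z →
        (z ∈ v i ↔ z ∈ L ∧ Sat (fun a b : ZFSet.{u} => a ∈ b) θ (fun n => opt4 L U e z v (σ n))))) := by
    refine UD.exH hW (P := fun (_ : Z) (v : ι → ZFSet.{u}) L => ∃ U, HC U ∧ ∃ e, HC e ∧
      (L = fld (v W) ∧ U = ZFSet.sep B L ∧ e = ∅ ∧ ∀ z, HC z →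
        (z ∈ v i ↔ z ∈ L ∧ Sat (fun a b : ZFSet.{u} => a ∈ b) θ (fun n => opt4 L U e z v (σ n))))) ?_
    refine UD.exH hW (P := fun (_ : Z) (v : Option ι → ZFSet.{u}) U => ∃ e, HC e ∧
      (v none = fld (v (some W)) ∧ U = ZFSet.sep B (v none) ∧ e = ∅ ∧ ∀ z, HC z →
        (z ∈ v (some i) ↔ z ∈ v none ∧ Sat (fun a b : ZFSet.{u} => a ∈ b) θ
          (fun n => opt4 (v none) U e z (fun x => v (some x)) (σ n))))) ?_
    refine UD.exH hW (P := fun (_ : Z) (v : Option (Option ι) → ZFSet.{u}) e =>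
      (v (some none) = fld (v (some (some W))) ∧ v none = ZFSet.sep B (v (some none)) ∧ e = ∅ ∧
        ∀ z, HC z → (z ∈ v (some (some i)) ↔ z ∈ v (some none) ∧
          Sat (fun a b : ZFSet.{u} => a ∈ b) θ
          (fun n => opt4 (v (some none)) (v none) e z (fun x => v (some (some x))) (σ n))))) ?_
    refine (ud_fldEq hW (some (some none)) (some (some (some W)))).and
      ((ud_sepEq hW hB (some none) (some (some none))).and ((udh_empty hW none).and ?_))
    refine UD.allH hW (P := fun (_ : Z) (v : Option (Option (Option ι)) → ZFSet.{u}) z =>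
      (z ∈ v (some (some (some i))) ↔ z ∈ v (some (some none)) ∧
          Sat (fun a b : ZFSet.{u} => a ∈ b) θ
          (fun n => opt4 (v (some (some none))) (v (some none)) (v none) z
            (fun x => v (some (some (some x)))) (σ n)))) ?_
    refine UD.iff hW (UD.mem hW none (some (some (some (some i)))))
      ((UD.mem hW none (some (some (some none)))).and ?_)
    refine (UD.subst hW (UD.sat hW hθ) σ).congr fun z v _ => ?_
    have : (fun i => v (σ i)) = fun n => opt4 (v (some (some (some none)))) (v (some (some none)))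
        (v (some none)) (v none) (fun x => v (some (some (some (some x))))) (σ n) := by
      funext n
      rcases σ n with _ | _ | _ | _ | x <;> rfl
    rw [this]
  refine hmain.congr fun z v hv => ?_
  have hasH : ∀ z : ZFSet.{u}, (fun n => opt4 (fld (v W)) (ZFSet.sep B (fld (v W))) ∅ z v (σ n))
      = asH B (v W) (v p) (v q) z := by
    intro z
    exact udh_asH (B := B) (opt4 (fld (v W)) (ZFSet.sep B (fld (v W))) ∅ z v) W p q
      rfl rfl rfl rfl rfl rfl rfl
  have hmem : ∀ z : ZFSet.{u}, z ∈ Hh B (v W) (v p) (v q) θ ↔ z ∈ fld (v W) ∧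
      Sat (fun a b : ZFSet.{u} => a ∈ b) θ
        (fun n => opt4 (fld (v W)) (ZFSet.sep B (fld (v W))) ∅ z v (σ n)) := by
    intro z
    rw [hasH z, Hh, ZFSet.mem_sep]
  constructor
  · rintro ⟨L, -, U, -, e, -, rfl, rfl, rfl, h⟩
    ext z
    rw [hmem z]
    constructor
    · intro hz
      exact (h z (HC.mem (hv i) hz)).1 hz
    · intro hz
      exact (h z (HC.mem (hc_fld (hv W)) hz.1)).2 hz
  · intro h
    refine ⟨fld (v W), hc_fld (hv W), ZFSet.sep B (fld (v W)), hc_sep (hc_fld (hv W)), ∅,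
      hc_natZ 0, rfl, rfl, rfl, fun z _ => ?_⟩
    rw [h]
    exact hmem z

theorem ud_isCode (θ : Fml) (W z p q : ι) :
    UD (fun (_ : Z) (v : ι → ZFSet.{u}) => IsCode B (v W) (v z) (v p) (v q) θ) := by
  by_cases hθ : θ.Delta0
  · refine ((ud_fldMem hW p W).and ((ud_fldMem hW q W).and (ud_Hh hW hB hθ z W p q))).congr
      fun _ v _ => ?_
    exact ⟨fun h => ⟨hθ, h.1, h.2.1, h.2.2⟩, fun h => ⟨h.hp, h.hq, h.eq⟩⟩
  · refine (udh_const hW False).congr fun _ v _ => ?_
    exact ⟨fun h => h.elim, fun h => hθ h.d0⟩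

theorem ud_clt (θ θ' : Fml) (W p q p' q' : ι) :
    UD (fun (_ : Z) (v : ι → ZFSet.{u}) => CLt (v W) (v p) (v q) θ (v p') (v q') θ') := by
  exact ((ud_pairMem hW p p' W).and (UD.not hW (UD.eq hW p p'))).or
    (((UD.eq hW p p').and ((ud_pairMem hW q q' W).and (UD.not hW (UD.eq hW q q')))).or
    ((UD.eq hW p p').and ((UD.eq hW q q').and (udh_const hW (θ.code < θ'.code)))))

private theorem udh_fml_nonempty : Nonempty Fml := ⟨Fml.bot⟩

omit hW hB [TopologicalSpace Z] [Bs Z] in
private theorem udh_code_hc {W z p q : ZFSet.{u}} {θ : Fml} (hW' : HC W) (h : IsCode B W z p q θ) :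
    HC p ∧ HC q :=
  ⟨HC.mem (hc_fld hW') h.hp, HC.mem (hc_fld hW') h.hq⟩

theorem ud_least (θ : Fml) (W z p q : ι) :
    UD (fun (_ : Z) (v : ι → ZFSet.{u}) => Least B (v W) (v z) (v p) (v q) θ) := by
  have : Nonempty Fml := ⟨Fml.bot⟩
  have h1 : UD (fun (_ : Z) (v : ι → ZFSet.{u}) => ∀ p', HC p' → ∀ q', HC q' → ∀ θ' : Fml,
      (IsCode B (v W) (v z) p' q' θ' → ¬ CLt (v W) p' q' θ' (v p) (v q) θ)) := by
    refine UD.allH hW (P := fun (_ : Z) (v : ι → ZFSet.{u}) p' => ∀ q', HC q' → ∀ θ' : Fml,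
      (IsCode B (v W) (v z) p' q' θ' → ¬ CLt (v W) p' q' θ' (v p) (v q) θ)) ?_
    refine UD.allH hW (P := fun (_ : Z) (v : Option ι → ZFSet.{u}) q' => ∀ θ' : Fml,
      (IsCode B (v (some W)) (v (some z)) (v none) q' θ' →
        ¬ CLt (v (some W)) (v none) q' θ' (v (some p)) (v (some q)) θ)) ?_
    refine UD.allN fun θ' => ?_
    exact UD.imp hW (ud_isCode hW hB θ' (some (some W)) (some (some z)) (some none) none)
      (UD.not hW (ud_clt hW hB θ' θ (some (some W)) (some none) none (some (some p)) (some (some q))))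
  refine ((ud_isCode hW hB θ W z p q).and h1).congr fun _ v hv => ?_
  constructor
  · rintro ⟨h2, h3⟩
    refine ⟨h2, fun p' q' θ' h4 => ?_⟩
    obtain ⟨h5, h6⟩ := udh_code_hc (hv W) h4
    exact h3 p' h5 q' h6 θ' h4
  · rintro ⟨h2, h3⟩
    exact ⟨h2, fun p' _ q' _ θ' h4 => h3 p' q' θ' h4⟩

theorem ud_new (W z : ι) : UD (fun (_ : Z) (v : ι → ZFSet.{u}) => New B (v W) (v z)) := by
  have : Nonempty Fml := ⟨Fml.bot⟩
  have h1 : UD (fun (_ : Z) (v : ι → ZFSet.{u}) => ∃ p, HC p ∧ ∃ q, HC q ∧ ∃ θ : Fml,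
      IsCode B (v W) (v z) p q θ) := by
    refine UD.exH hW (P := fun (_ : Z) (v : ι → ZFSet.{u}) p => ∃ q, HC q ∧ ∃ θ : Fml,
      IsCode B (v W) (v z) p q θ) ?_
    refine UD.exH hW (P := fun (_ : Z) (v : Option ι → ZFSet.{u}) q => ∃ θ : Fml,
      IsCode B (v (some W)) (v (some z)) (v none) q θ) ?_
    exact UD.exN fun θ => ud_isCode hW hB θ (some (some W)) (some (some z)) (some none) none
  refine ((UD.not hW (ud_fldMem hW z W)).and h1).congr fun _ v hv => ?_
  constructor
  · rintro ⟨h2, p, -, q, -, θ, h3⟩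
    exact ⟨h2, p, q, θ, h3⟩
  · rintro ⟨h2, p, q, θ, h3⟩
    obtain ⟨h5, h6⟩ := udh_code_hc (hv W) h3
    exact ⟨h2, p, h5, q, h6, θ, h3⟩

theorem ud_stepR (W a b : ι) : UD (fun (_ : Z) (v : ι → ZFSet.{u}) => StepR B (v W) (v a) (v b)) := by
  have : Nonempty Fml := ⟨Fml.bot⟩
  have h1 : UD (fun (_ : Z) (v : ι → ZFSet.{u}) => ∃ p, HC p ∧ ∃ q, HC q ∧ ∃ p', HC p' ∧ ∃ q', HC q' ∧
      ∃ θ θ' : Fml, (Least B (v W) (v a) p q θ ∧ Least B (v W) (v b) p' q' θ' ∧
        CLt (v W) p q θ p' q' θ')) := by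
    refine UD.exH hW (P := fun (_ : Z) (v : ι → ZFSet.{u}) p => ∃ q, HC q ∧ ∃ p', HC p' ∧ ∃ q', HC q' ∧
      ∃ θ θ' : Fml, (Least B (v W) (v a) p q θ ∧ Least B (v W) (v b) p' q' θ' ∧
        CLt (v W) p q θ p' q' θ')) ?_
    refine UD.exH hW (P := fun (_ : Z) (v : Option ι → ZFSet.{u}) q => ∃ p', HC p' ∧ ∃ q', HC q' ∧
      ∃ θ θ' : Fml, (Least B (v (some W)) (v (some a)) (v none) q θ ∧
        Least B (v (some W)) (v (some b)) p' q' θ' ∧ CLt (v (some W)) (v none) q θ p' q' θ')) ?_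
    refine UD.exH hW (P := fun (_ : Z) (v : Option (Option ι) → ZFSet.{u}) p' => ∃ q', HC q' ∧
      ∃ θ θ' : Fml, (Least B (v (some (some W))) (v (some (some a))) (v (some none)) (v none) θ ∧
        Least B (v (some (some W))) (v (some (some b))) p' q' θ' ∧
        CLt (v (some (some W))) (v (some none)) (v none) θ p' q' θ')) ?_
    refine UD.exH hW (P := fun (_ : Z) (v : Option (Option (Option ι)) → ZFSet.{u}) q' =>
      ∃ θ θ' : Fml, (Least B (v (some (some (some W)))) (v (some (some (some a))))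
          (v (some (some none))) (v (some none)) θ ∧
        Least B (v (some (some (some W)))) (v (some (some (some b)))) (v none) q' θ' ∧
        CLt (v (some (some (some W)))) (v (some (some none))) (v (some none)) θ (v none) q' θ')) ?_
    refine UD.exN fun θ => UD.exN fun θ' => ?_
    exact (ud_least hW hB θ (some (some (some (some W)))) (some (some (some (some a))))
        (some (some (some none))) (some (some none))).and
      ((ud_least hW hB θ' (some (some (some (some W)))) (some (some (some (some b))))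
        (some none) none).and
      (ud_clt hW hB θ θ' (some (some (some (some W)))) (some (some (some none))) (some (some none))
        (some none) none))
  refine ((ud_pairMem hW a b W).or (((ud_fldMem hW a W).and (ud_new hW hB W b)).or
    ((ud_new hW hB W a).and ((ud_new hW hB W b).and ((UD.eq hW a b).or h1))))).congr
    fun _ v hv => ?_
  refine or_congr Iff.rfl (or_congr Iff.rfl (and_congr Iff.rfl (and_congr Iff.rfl
    (or_congr Iff.rfl ?_))))
  constructor
  · rintro ⟨p, -, q, -, p', -, q', -, θ, θ', h2⟩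
    exact ⟨p, q, θ, p', q', θ', h2⟩
  · rintro ⟨p, q, θ, p', q', θ', h2⟩
    obtain ⟨h5, h6⟩ := udh_code_hc (hv W) h2.1.1
    obtain ⟨h7, h8⟩ := udh_code_hc (hv W) h2.2.1.1
    exact ⟨p, h5, q, h6, p', h7, q', h8, θ, θ', h2⟩

theorem ud_step (i W : ι) :
    UD (fun (_ : Z) (v : ι → ZFSet.{u}) => WO (v W) ∧ v i = step B (v W)) := by
  have h1 : UD (fun (_ : Z) (v : ι → ZFSet.{u}) => ∀ a, HC a → ∀ b, HC b →
      (ZFSet.pair a b ∈ v i ↔ StepR B (v W) a b)) := by
    refine UD.allH hW (P := fun (_ : Z) (v : ι → ZFSet.{u}) a => ∀ b, HC b →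
      (ZFSet.pair a b ∈ v i ↔ StepR B (v W) a b)) ?_
    refine UD.allH hW (P := fun (_ : Z) (v : Option ι → ZFSet.{u}) b =>
      (ZFSet.pair (v none) b ∈ v (some i) ↔ StepR B (v (some W)) (v none) b)) ?_
    exact UD.iff hW (ud_pairMem hW (some none) none (some (some i)))
      (ud_stepR hW hB (some (some W)) (some none) none)
  have h2 : UD (fun (_ : Z) (v : ι → ZFSet.{u}) => ∀ z ∈ v i, ∃ a, HC a ∧ ∃ b, HC b ∧
      z = ZFSet.pair a b) := by
    refine UD.ball hW (P := fun (_ : Z) (v : ι → ZFSet.{u}) z => ∃ a, HC a ∧ ∃ b, HC b ∧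
      z = ZFSet.pair a b) i ?_
    refine UD.exH hW (P := fun (_ : Z) (v : Option ι → ZFSet.{u}) a => ∃ b, HC b ∧
      v none = ZFSet.pair a b) ?_
    refine UD.exH hW (P := fun (_ : Z) (v : Option (Option ι) → ZFSet.{u}) b =>
      v (some none) = ZFSet.pair (v none) b) ?_
    exact ud_pair hW (some (some none)) (some none) none
  refine ((ud_wo hW W).and (h1.and h2)).congr fun _ v hv => ?_
  refine and_congr_right fun hWO => ?_
  have hst : HC (step B (v W)) := hc_step (hv W) hWO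
  have hpair : ∀ z ∈ step B (v W), ∃ a b, z = ZFSet.pair a b := by
    intro z hz
    rw [step, ZFSet.mem_sep] at hz
    obtain ⟨-, a, b, h, -⟩ := hz
    exact ⟨a, b, h⟩
  constructor
  · rintro ⟨h3, h4⟩
    ext z
    constructor
    · intro hz
      obtain ⟨a, ha, b, hb, rfl⟩ := h4 z hz
      exact (mem_step hWO).2 ((h3 a ha b hb).1 hz)
    · intro hz
      obtain ⟨a, b, rfl⟩ := hpair z hz
      obtain ⟨ha, hb⟩ := HC.of_pair (HC.mem hst hz)
      exact (h3 a ha b hb).2 ((mem_step hWO).1 hz)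
  · intro h
    rw [h]
    refine ⟨fun a _ b _ => mem_step hWO, fun z hz => ?_⟩
    obtain ⟨a, b, rfl⟩ := hpair z hz
    obtain ⟨ha, hb⟩ := HC.of_pair (HC.mem hst hz)
    exact ⟨a, ha, b, hb, rfl⟩

end

end Pool.Agent.H52.OM
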