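import Pool.Agent.H52.OM.Defs
import Pool.Agent.H17.Omega.TOne

/-!
# OM-26: validity and equality of codes are universally Baire

PROOF.
* `exists_isVal_iff`: `→`: by `∈`-induction on `x`: a sequence `g` with `g 0 = n` and `E (g (k+1)) (g k)` for all `k` gives (first clause of `isVal_iff`, `CtmM.lean`) `y ∈ x` with `IsVal E y (g 1)`, and `g (· + 1)` contradicts the induction hypothesis.  `←`: if there is no `x` with `IsVal E x n`, then there is
  `m` with `E m n` without value (otherwise take `x = {values of the m with E m n}`, `ZFSet.range`), and so on: a sequence.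
* `eqval_iff`: `→`: `R a b := ∃ y, IsVal E y a ∧ IsVal E' y b`.  `←`: if `R` is a bisimulation, `R a b`, `IsVal E x a`, `IsVal E' y b` then `x = y` by `∈`-induction on `x` (`IsVal.unique` in `CtmM.lean`; the elements of `x` are values of the `a'` with `E a' a`).
* `ubs_valid`: by `exists_isVal_iff` and `UBS.forall'` (`H82/OC/UBcl.lean`; the condition on `(c, g)` is: `g 0 ≠ m` or for some `k` `c (Nat.pair (g (k+1)) (g k)) = 0`, a countable union of clopen sets; such sets are open: `UBS.of_isOpen`).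
* `ubs_eqval`: by `eqval_iff`: relations `R` are coded by reals `r` (`R a b :↔ r (Nat.pair a b) ≠ 0`), `UBS.exists'`, and the matrix is a countable combination (`UBS.all`, `UBS.ex`, `UBS.imp`) of clopen sets.
* `exists_code`: `x` belongs to a countable transitive set `T`; let `e : ℕ → T` be surjective with `e 0 = x`; `c (Nat.pair m n) = 1` if `e m ∈ e n`, otherwise `0`; `IsVal (Ec c) (e n) n` by `∈`-induction on `e n`.
* `hc_val`: `hc_of_isVal` (`TOne.lean`).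
-/

set_option autoImplicit false
set_option linter.unusedVariables false
set_option linter.unusedSectionVars false
set_option linter.unusedSimpArgs false
set_option linter.deprecated false

universe u v w

open scoped ZFSet

namespace Pool.Agent.H52.OM

open Pool.Agent.H17.Omega Pool.Agent.H82.OC

/-- The real `c` is a code of `z`. -/
def Cd (c : ℕ → ℕ) (z : ZFSet.{u}) : Prop := IsVal (Ec c) z 0

theorem uda_range {E : ℕ → ℕ → Prop} {m : ℕ} (h : ∀ a, E a m → ∃ x : ZFSet.{u}, IsVal E x a) :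
    ∃ x : ZFSet.{u}, IsVal E x m := by
  choose f hf using fun a : {a // E a m} => h a.1 a.2
  refine ⟨ZFSet.range f, ?_⟩
  rw [isVal_iff]
  constructor
  · intro a ha
    exact ⟨f ⟨a, ha⟩, ZFSet.mem_range.2 ⟨⟨a, ha⟩, rfl⟩, hf ⟨a, ha⟩⟩
  · intro y hy
    obtain ⟨a, rfl⟩ := ZFSet.mem_range.1 hy
    exact ⟨a.1, a.2, hf a⟩

theorem uda_clopen {Z : Type} [TopologicalSpace Z] {f : Z → ℕ} (hf : Continuous f) (S : Set ℕ) :
    UBS.{u} {z | f z ∈ S} :=
  UBS.of_isOpen ((isOpen_discrete S).preimage hf)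

theorem uda_eval : Continuous (fun p : (ℕ → ℕ) × ℕ => p.1 p.2) := by
  rw [continuous_prod_of_discrete_right]
  intro b
  exact continuous_apply b

theorem uda_eval2 (k : ℕ) : Continuous (fun p : (ℕ → ℕ) × (ℕ → ℕ) =>
    p.1 (Nat.pair (p.2 (k + 1)) (p.2 k))) := by
  have h1 : Continuous (fun p : (ℕ → ℕ) × (ℕ → ℕ) => Nat.pair (p.2 (k + 1)) (p.2 k)) := by
    have h2 : Continuous (fun q : ℕ × ℕ => Nat.pair q.1 q.2) := continuous_of_discreteTopology
    have h3 : Continuous (fun p : (ℕ → ℕ) × (ℕ → ℕ) => (p.2 (k + 1), p.2 k)) := by fun_prop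
    exact h2.comp h3
  exact uda_eval.comp (continuous_fst.prodMk h1)

theorem uda_and {Z : Type} [TopologicalSpace Z] {P P' : Z → Prop} (h : UBS.{u} {z | P z})
    (h' : UBS.{u} {z | P' z}) : UBS.{u} {z | P z ∧ P' z} :=
  h.inter h'

theorem uda_bisim {E E' : ℕ → ℕ → Prop} {R : ℕ → ℕ → Prop}
    (hR : ∀ a b, R a b → (∀ a', E a' a → ∃ b', E' b' b ∧ R a' b') ∧
      (∀ b', E' b' b → ∃ a', E a' a ∧ R a' b')) (x : ZFSet.{u}) :
    ∀ a, IsVal E x a → ∀ (y : ZFSet.{u}) (b : ℕ), IsVal E' y b → R a b → x = y := by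
  induction x using ZFSet.inductionOn with
  | _ x ih =>
    intro a hx y b hy hab
    rw [isVal_iff] at hx hy
    ext z
    constructor
    · intro hz
      obtain ⟨a', h1, h2⟩ := hx.2 z hz
      obtain ⟨b', h3, h4⟩ := (hR a b hab).1 a' h1
      obtain ⟨y', h5, h6⟩ := hy.1 b' h3
      rw [ih z hz a' h2 y' b' h6 h4]
      exact h5
    · intro hz
      obtain ⟨b', h1, h2⟩ := hy.2 z hz
      obtain ⟨a', h3, h4⟩ := (hR a b hab).2 b' h1
      obtain ⟨x', h5, h6⟩ := hx.1 a' h3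
      rw [← ih x' h5 a' h6 z b' h2 h4]
      exact h5

theorem exists_isVal_iff {E : ℕ → ℕ → Prop} {n : ℕ} : (∃ x : ZFSet.{u}, IsVal E x n) ↔
    ∀ g : ℕ → ℕ, g 0 = n → ∃ k, ¬ E (g (k + 1)) (g k) := by
  constructor
  · rintro ⟨x, hx⟩
    have key : ∀ x : ZFSet.{u}, ∀ n, IsVal E x n → ∀ g : ℕ → ℕ, g 0 = n →
        ∃ k, ¬ E (g (k + 1)) (g k) := by
      intro x
      induction x using ZFSet.inductionOn with
      | _ x ih =>
        intro n hx g hg
        by_contra hne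
        push Not at hne
        have h0 := hne 0
        rw [hg] at h0
        obtain ⟨y, hy, h1⟩ := (isVal_iff.1 hx).1 (g 1) h0
        obtain ⟨k, hk⟩ := ih y hy (g 1) h1 (fun k => g (k + 1)) rfl
        exact hk (hne (k + 1))
    exact key x n hx
  · intro h
    by_contra hn
    have step : ∀ m : {m : ℕ // ¬ ∃ x : ZFSet.{u}, IsVal E x m},
        ∃ m' : {m : ℕ // ¬ ∃ x : ZFSet.{u}, IsVal E x m}, E m'.1 m.1 := by
      rintro ⟨m, hm⟩
      by_contra hne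
      push Not at hne
      apply hm
      apply uda_range
      intro a ha
      by_contra hna
      exact hne ⟨a, hna⟩ ha
    choose f hf using step
    obtain ⟨k, hk⟩ := h (fun k => (f^[k] ⟨n, hn⟩).1) rfl
    apply hk
    show E (f^[k + 1] ⟨n, hn⟩).1 (f^[k] ⟨n, hn⟩).1
    rw [Function.iterate_succ_apply']
    exact hf _

theorem eqval_iff {E E' : ℕ → ℕ → Prop} {m n : ℕ} : (∃ x : ZFSet.{u}, IsVal E x m ∧ IsVal E' x n) ↔
    (∃ x : ZFSet.{u}, IsVal E x m) ∧ (∃ y : ZFSet.{u}, IsVal E' y n) ∧ ∃ R : ℕ → ℕ → Prop, R m n ∧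
      ∀ a b, R a b → (∀ a', E a' a → ∃ b', E' b' b ∧ R a' b') ∧ (∀ b', E' b' b → ∃ a', E a' a ∧ R a' b') := by
  constructor
  · rintro ⟨x, h1, h2⟩
    refine ⟨⟨x, h1⟩, ⟨x, h2⟩, fun a b => ∃ y : ZFSet.{u}, IsVal E y a ∧ IsVal E' y b,
      ⟨x, h1, h2⟩, ?_⟩
    rintro a b ⟨y, h3, h4⟩
    rw [isVal_iff] at h3 h4
    constructor
    · intro a' ha'
      obtain ⟨y', h5, h6⟩ := h3.1 a' ha'
      obtain ⟨b', h7, h8⟩ := h4.2 y' h5
      exact ⟨b', h7, y', h6, h8⟩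
    · intro b' hb'
      obtain ⟨y', h5, h6⟩ := h4.1 b' hb'
      obtain ⟨a', h7, h8⟩ := h3.2 y' h5
      exact ⟨a', h7, y', h8, h6⟩
  · rintro ⟨⟨x, hx⟩, ⟨y, hy⟩, R, hmn, hR⟩
    have h := uda_bisim hR x m hx y n hy hmn
    subst h
    exact ⟨x, hx, hy⟩

theorem ubs_valid (hW : ManyWoodin.{u}) (m : ℕ) :
    UBS.{u} {c : ℕ → ℕ | ∃ x : ZFSet.{u}, IsVal (Ec c) x m} := by
  have e : {c : ℕ → ℕ | ∃ x : ZFSet.{u}, IsVal (Ec c) x m} =
      {c : ℕ → ℕ | ∀ g : ℕ → ℕ, g 0 = m → ∃ k, ¬ Ec c (g (k + 1)) (g k)} := by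
    ext c
    exact exists_isVal_iff
  rw [e]
  refine UBS.forall' hW (P := fun c g : ℕ → ℕ => g 0 = m → ∃ k, ¬ Ec c (g (k + 1)) (g k)) ?_
  refine UBS.imp (P := fun p : (ℕ → ℕ) × (ℕ → ℕ) => p.2 0 = m)
    (P' := fun p => ∃ k, ¬ Ec p.1 (p.2 (k + 1)) (p.2 k)) ?_ ?_
  · exact uda_clopen (f := fun p : (ℕ → ℕ) × (ℕ → ℕ) => p.2 0) (by fun_prop) {m}
  · refine UBS.ex fun k => ?_
    exact uda_clopen (uda_eval2 k) {0}ᶜᶜ

theorem ubs_eqval (hW : ManyWoodin.{u}) (m n : ℕ) :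
    UBS.{u} {p : (ℕ → ℕ) × (ℕ → ℕ) | ∃ x : ZFSet.{u}, IsVal (Ec p.1) x m ∧ IsVal (Ec p.2) x n} := by
  have e : {p : (ℕ → ℕ) × (ℕ → ℕ) | ∃ x : ZFSet.{u}, IsVal (Ec p.1) x m ∧ IsVal (Ec p.2) x n} =
      {p : (ℕ → ℕ) × (ℕ → ℕ) | (∃ x : ZFSet.{u}, IsVal (Ec p.1) x m) ∧
        (∃ y : ZFSet.{u}, IsVal (Ec p.2) y n) ∧ ∃ r : ℕ → ℕ, r (Nat.pair m n) ≠ 0 ∧
        ∀ a b, r (Nat.pair a b) ≠ 0 →
          (∀ a', Ec p.1 a' a → ∃ b', Ec p.2 b' b ∧ r (Nat.pair a' b') ≠ 0) ∧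
          (∀ b', Ec p.2 b' b → ∃ a', Ec p.1 a' a ∧ r (Nat.pair a' b') ≠ 0)} := by
    ext p
    constructor
    · intro h
      obtain ⟨h1, h2, R, h3, h4⟩ := eqval_iff.1 h
      classical
      have key : ∀ a b, (if R (Nat.pair a b).unpair.1 (Nat.pair a b).unpair.2 then 1 else 0) ≠ 0 ↔
          R a b := by
        intro a b
        rw [Nat.unpair_pair]
        by_cases h : R a b <;> simp [h]
      refine ⟨h1, h2, fun k => if R k.unpair.1 k.unpair.2 then 1 else 0, (key m n).2 h3, ?_⟩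
      intro a b hab
      have hab' := (key a b).1 hab
      constructor
      · intro a' ha'
        obtain ⟨b', h5, h6⟩ := (h4 a b hab').1 a' ha'
        exact ⟨b', h5, (key a' b').2 h6⟩
      · intro b' hb'
        obtain ⟨a', h5, h6⟩ := (h4 a b hab').2 b' hb'
        exact ⟨a', h5, (key a' b').2 h6⟩
    · rintro ⟨h1, h2, r, h3, h4⟩
      exact eqval_iff.2 ⟨h1, h2, fun a b => r (Nat.pair a b) ≠ 0, h3, h4⟩
  rw [e]
  refine uda_and ((ubs_valid hW m).preimage continuous_fst) (uda_and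
    ((ubs_valid hW n).preimage continuous_snd) ?_)
  refine UBS.exists' hW (P := fun (p : (ℕ → ℕ) × (ℕ → ℕ)) (r : ℕ → ℕ) => r (Nat.pair m n) ≠ 0 ∧
        ∀ a b, r (Nat.pair a b) ≠ 0 →
          (∀ a', Ec p.1 a' a → ∃ b', Ec p.2 b' b ∧ r (Nat.pair a' b') ≠ 0) ∧
          (∀ b', Ec p.2 b' b → ∃ a', Ec p.1 a' a ∧ r (Nat.pair a' b') ≠ 0)) ?_
  have hr : ∀ a b : ℕ, UBS.{u} {q : ((ℕ → ℕ) × (ℕ → ℕ)) × (ℕ → ℕ) | q.2 (Nat.pair a b) ≠ 0} :=
    fun a b => uda_clopen (f := fun q : ((ℕ → ℕ) × (ℕ → ℕ)) × (ℕ → ℕ) => q.2 (Nat.pair a b))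
      (by fun_prop) {0}ᶜ
  have h1 : ∀ a b : ℕ, UBS.{u} {q : ((ℕ → ℕ) × (ℕ → ℕ)) × (ℕ → ℕ) | Ec q.1.1 a b} :=
    fun a b => uda_clopen (f := fun q : ((ℕ → ℕ) × (ℕ → ℕ)) × (ℕ → ℕ) => q.1.1 (Nat.pair a b))
      (by fun_prop) {0}ᶜ
  have h2 : ∀ a b : ℕ, UBS.{u} {q : ((ℕ → ℕ) × (ℕ → ℕ)) × (ℕ → ℕ) | Ec q.1.2 a b} :=
    fun a b => uda_clopen (f := fun q : ((ℕ → ℕ) × (ℕ → ℕ)) × (ℕ → ℕ) => q.1.2 (Nat.pair a b))
      (by fun_prop) {0}ᶜ
  refine uda_and (hr m n) (UBS.all fun a => UBS.all fun b => UBS.imp (hr a b) (uda_and ?_ ?_))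
  · exact UBS.all fun a' => UBS.imp (h1 a' a) (UBS.ex fun b' => uda_and (h2 b' b) (hr a' b'))
  · exact UBS.all fun b' => UBS.imp (h2 b' b) (UBS.ex fun a' => uda_and (h1 a' a) (hr a' b'))

theorem exists_code {x : ZFSet.{u}} (h : HC x) : ∃ c, Cd c x := by
  classical
  obtain ⟨T, hT, htr, hx⟩ := h
  obtain ⟨e0, he0⟩ := hT.exists_eq_range ⟨x, hx⟩
  let e : ℕ → ZFSet.{u} := fun n => if n = 0 then x else e0 (n - 1)
  have he1 : ∀ n, e n ∈ T := by
    intro n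
    show (if n = 0 then x else e0 (n - 1)) ∈ T
    split_ifs
    · exact hx
    · rw [he0]
      exact ⟨n - 1, rfl⟩
  have he2 : ∀ y ∈ T, ∃ n, e n = y := by
    intro y hy
    rw [he0] at hy
    obtain ⟨k, rfl⟩ := hy
    refine ⟨k + 1, ?_⟩
    show (if k + 1 = 0 then x else e0 (k + 1 - 1)) = e0 k
    rw [if_neg (by omega), Nat.add_sub_cancel]
  refine ⟨fun n => if e n.unpair.1 ∈ e n.unpair.2 then 1 else 0, ?_⟩
  have hE : ∀ m n, Ec (fun n => if e n.unpair.1 ∈ e n.unpair.2 then 1 else 0) m n ↔ e m ∈ e n := by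
    intro m n
    unfold Ec
    simp only [Nat.unpair_pair]
    by_cases h : e m ∈ e n <;> simp [h]
  have key : ∀ z : ZFSet.{u}, ∀ n, e n = z →
      IsVal (Ec (fun n => if e n.unpair.1 ∈ e n.unpair.2 then 1 else 0)) z n := by
    intro z
    induction z using ZFSet.inductionOn with
    | _ z ih =>
      intro n hn
      rw [isVal_iff]
      constructor
      · intro m hm
        rw [hE, hn] at hm
        exact ⟨e m, hm, ih (e m) hm m rfl⟩
      · intro y hy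
        have hyT : y ∈ T := htr z (by rw [← hn]; exact he1 n) y hy
        obtain ⟨m, hm⟩ := he2 y hyT
        refine ⟨m, ?_, ih y hy m hm⟩
        rw [hE, hm, hn]
        exact hy
  exact key x 0 rfl

theorem Cd.hc {c : ℕ → ℕ} {x : ZFSet.{u}} (h : Cd c x) : HC x := by
  exact hc_of_isVal h

theorem Cd.unique {c : ℕ → ℕ} {x y : ZFSet.{u}} (h : Cd c x) (h' : Cd c y) : x = y := by
  exact IsVal.unique h h'

end Pool.Agent.H52.OM
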