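import Pool.Agent.H52.OM.UDa

/-!
# OM-27: the calculus of universally Baire predicates of hereditarily countable sets

`UD P`, `P : Z → (ι → V) → Prop` (`z : Z` real parameters, `v : ι → V` hereditarily countable sets): the set of all `(z, c)`, `c` a sequence of reals, such that `c (e i)` is a code of some `v i` (`i : ι`), and `P z v`, is universally Baire, for every `e : ι → ℕ`.
Note: `v` is determined by the codes (`Cd.unique`), and a set `v i` with a code is hereditarily countable (`Cd.hc`), every such set has a code (`exists_code`).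

PROOF.  (`UBS.*` in `H82/OC/UBcl.lean`, `ubs_valid`, `ubs_eqval` in `UDa.lean`.)
* `congr`: only hereditarily countable `v` matter.  `subst`: with `e ∘ σ`, intersected with the validity of all codes.  `pull`: preimage under `(z', c) ↦ (f z', c)`.
* `valid` (`P = True`): `⋂ i, {a | ∃ x, Cd (a.2 (e i)) x}`; the intersection is over the countable set `range e`.  `real`: `valid ∩` preimage.
* `and`, `or`, `not`: `∩` (uniqueness of `v`), `∪`, `valid \ `.  `allN`, `exN`: the same for countable index types.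
* `exH`: for `e : ι → ℕ` let `e' : Option ι → ℕ`, `e' none = 0`, `e' (some i) = e i + 1`; `(z, c)` is in the set for `∃ y, HC y ∧ P z v y` iff there is `d : ℕ → ℕ` such that `(z, d :: c)` is in the set of the hypothesis for `e'` (`UBS.exists'`, preimage under the continuous map `((z, c), d) ↦ (z, d :: c)`).
  `allH` from `exH` by `not`.
* `exS` (sequences): `e' : ι ⊕ ℕ → ℕ`, `e' (inl i) = 2 * e i + 1`, `e' (inr n) = 2 * n`, interleave `c` with the sequence `d : ℕ → ℕ → ℕ` of codes; `allS` from it.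
* `exR`: `(z, r) : Z × (ℕ → ℕ)`, `UBS.exists'`.
* `val f i m` (`f : Z → ℕ → ℕ` continuous): the set of `(z, c)` such that the codes are valid and `∃ x, IsVal (Ec (c (e i))) x 0 ∧ IsVal (Ec (f z)) x m`; `ubs_eqval`.  `eq i j`: `ubs_eqval 0 0`.
* `mem i j`: `v i ∈ v j` iff there is `n` with `Ec (c (e j)) n 0` (clopen) and `∃ x, IsVal (Ec (c (e i))) x 0 ∧ IsVal (Ec (c (e j))) x n` (`isVal_iff`): countable union, `ubs_eqval 0 n`.
* `bex`, `ball`: from `exH`, `mem` (`HC.mem`).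
* `toUBS`: preimage of the set for `e` (arbitrary; `ι` empty) under `z ↦ (z, 0)`.
-/

set_option autoImplicit false
set_option linter.unusedVariables false
set_option linter.unusedSectionVars false
set_option linter.unusedSimpArgs false
set_option linter.deprecated false

universe u v w

open scoped ZFSet

namespace Pool.Agent.H52.OM

open Pool.Agent.H17.Omega Pool.Agent.H82.OC

section

variable {Z Z' : Type} [TopologicalSpace Z] [TopologicalSpace Z'] {ι κ : Type}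

/-- A universally Baire predicate of real parameters and hereditarily countable sets. -/
def UD (P : Z → (ι → ZFSet.{u}) → Prop) : Prop :=
  ∀ e : ι → ℕ, UBS.{u} {a : Z × (ℕ → ℕ → ℕ) | ∃ v : ι → ZFSet.{u}, (∀ i, Cd (a.2 (e i)) (v i)) ∧ P a.1 v}

theorem ubs_congr_set {A B : Set Z} (hA : UBS.{u} A) (h : ∀ z, z ∈ A ↔ z ∈ B) : UBS.{u} B := by
  have : A = B := Set.ext h
  rwa [← this]

theorem ubs_validAll (hW : ManyWoodin.{u}) (e : ι → ℕ) :
    UBS.{u} {a : Z × (ℕ → ℕ → ℕ) | ∀ i, ∃ x : ZFSet.{u}, Cd (a.2 (e i)) x} := by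
  have h1 : UBS.{u} {a : Z × (ℕ → ℕ → ℕ) | ∀ n : Set.range e, ∃ x : ZFSet.{u}, Cd (a.2 n.1) x} := by
    refine UBS.all fun n => ?_
    have hf : Continuous (fun a : Z × (ℕ → ℕ → ℕ) => a.2 n.1) :=
      (continuous_apply n.1).comp continuous_snd
    exact UBS.preimage (ubs_valid hW 0) hf
  refine ubs_congr_set h1 fun a => ?_
  constructor
  · intro h i
    exact h ⟨e i, i, rfl⟩
  · rintro h ⟨_, i, rfl⟩
    exact h i

theorem cd_unique_fun {e : ι → ℕ} {c : ℕ → ℕ → ℕ} {v v' : ι → ZFSet.{u}}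
    (h : ∀ i, Cd (c (e i)) (v i)) (h' : ∀ i, Cd (c (e i)) (v' i)) : v = v' :=
  funext fun i => (h i).unique (h' i)

namespace UD

theorem congr {P P' : Z → (ι → ZFSet.{u}) → Prop} (h : ∀ z v, (∀ i, HC (v i)) → (P z v ↔ P' z v))
    (hP : UD P) : UD P' := by
  intro e
  refine ubs_congr_set (hP e) fun a => ?_
  constructor
  · rintro ⟨v, hv, hp⟩
    exact ⟨v, hv, (h _ _ fun i => (hv i).hc).1 hp⟩
  · rintro ⟨v, hv, hp⟩
    exact ⟨v, hv, (h _ _ fun i => (hv i).hc).2 hp⟩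

theorem and {P P' : Z → (ι → ZFSet.{u}) → Prop} (hP : UD P) (hP' : UD P') : UD (fun z v => P z v ∧ P' z v) := by
  intro e
  refine ubs_congr_set (UBS.inter (hP e) (hP' e)) fun a => ?_
  constructor
  · rintro ⟨⟨v, hv, hp⟩, v', hv', hp'⟩
    have := cd_unique_fun hv hv'
    subst this
    exact ⟨v, hv, hp, hp'⟩
  · rintro ⟨v, hv, hp, hp'⟩
    exact ⟨⟨v, hv, hp⟩, v, hv, hp'⟩

theorem or {P P' : Z → (ι → ZFSet.{u}) → Prop} (hP : UD P) (hP' : UD P') : UD (fun z v => P z v ∨ P' z v) := by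
  intro e
  refine ubs_congr_set (UBS.union (hP e) (hP' e)) fun a => ?_
  constructor
  · rintro (⟨v, hv, hp⟩ | ⟨v, hv, hp⟩)
    · exact ⟨v, hv, Or.inl hp⟩
    · exact ⟨v, hv, Or.inr hp⟩
  · rintro ⟨v, hv, hp | hp⟩
    · exact Or.inl ⟨v, hv, hp⟩
    · exact Or.inr ⟨v, hv, hp⟩

theorem exN {κ : Type} [Countable κ] [Nonempty κ] {P : κ → Z → (ι → ZFSet.{u}) → Prop} (hP : ∀ k, UD (P k)) :
    UD (fun z v => ∃ k, P k z v) := by
  intro e
  refine ubs_congr_set (UBS.ex fun k => hP k e) fun a => ?_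
  constructor
  · rintro ⟨k, v, hv, hp⟩
    exact ⟨v, hv, k, hp⟩
  · rintro ⟨v, hv, k, hp⟩
    exact ⟨k, v, hv, hp⟩

theorem allN {κ : Type} [Countable κ] [Nonempty κ] {P : κ → Z → (ι → ZFSet.{u}) → Prop} (hP : ∀ k, UD (P k)) :
    UD (fun z v => ∀ k, P k z v) := by
  intro e
  refine ubs_congr_set (UBS.all fun k => hP k e) fun a => ?_
  constructor
  · intro h
    obtain ⟨v, hv, _⟩ := h (Classical.arbitrary κ)
    refine ⟨v, hv, fun k => ?_⟩
    obtain ⟨v', hv', hp⟩ := h k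
    rw [cd_unique_fun hv hv']
    exact hp
  · rintro ⟨v, hv, hp⟩ k
    exact ⟨v, hv, hp k⟩

theorem pull {P : Z → (ι → ZFSet.{u}) → Prop} (hP : UD P) {f : Z' → Z} (hf : Continuous f) :
    UD (fun z v => P (f z) v) := by
  intro e
  have hg : Continuous (fun a : Z' × (ℕ → ℕ → ℕ) => (f a.1, a.2)) :=
    (hf.comp continuous_fst).prodMk continuous_snd
  exact UBS.preimage (hP e) hg

theorem toUBS {p : Z → Prop} (h : UD (ι := Fin 0) (fun z (_ : Fin 0 → ZFSet.{u}) => p z)) : UBS.{u} {z | p z} := by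
  have hg : Continuous (fun z : Z => (z, (fun _ _ => 0 : ℕ → ℕ → ℕ))) :=
    continuous_id.prodMk continuous_const
  refine ubs_congr_set (UBS.preimage (h Fin.elim0) hg) fun z => ?_
  constructor
  · rintro ⟨v, _, hp⟩
    exact hp
  · intro hp
    exact ⟨Fin.elim0, fun i => i.elim0, hp⟩

section

variable (hW : ManyWoodin.{u})

include hW

theorem real {p : Z → Prop} (h : UBS.{u} {z | p z}) : UD (fun z (_ : ι → ZFSet.{u}) => p z) := by
  intro e
  refine ubs_congr_set (UBS.inter (ubs_validAll hW e) (UBS.preimage h continuous_fst)) fun a => ?_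
  constructor
  · rintro ⟨h1, h2⟩
    choose v hv using h1
    exact ⟨v, hv, h2⟩
  · rintro ⟨v, hv, hp⟩
    exact ⟨fun i => ⟨v i, hv i⟩, hp⟩

theorem subst {P : Z → (ι → ZFSet.{u}) → Prop} (hP : UD P) (σ : ι → κ) :
    UD (fun z (v : κ → ZFSet.{u}) => P z (fun i => v (σ i))) := by
  intro e
  refine ubs_congr_set (UBS.inter (ubs_validAll hW e) (hP fun i => e (σ i))) fun a => ?_
  constructor
  · rintro ⟨h1, v', hv', hp⟩
    choose v hv using h1
    refine ⟨v, hv, ?_⟩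
    have h2 : v' = fun i => v (σ i) := funext fun i => (hv' i).unique (hv (σ i))
    show P a.1 (fun i => v (σ i))
    rwa [← h2]
  · rintro ⟨v, hv, hp⟩
    exact ⟨fun i => ⟨v i, hv i⟩, fun i => v (σ i), fun i => hv (σ i), hp⟩

theorem not {P : Z → (ι → ZFSet.{u}) → Prop} (hP : UD P) : UD (fun z v => ¬ P z v) := by
  intro e
  refine ubs_congr_set (UBS.inter (ubs_validAll hW e) (UBS.compl (hP e))) fun a => ?_
  constructor
  · rintro ⟨h1, h2⟩
    choose v hv using h1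
    exact ⟨v, hv, fun hp => h2 ⟨v, hv, hp⟩⟩
  · rintro ⟨v, hv, hp⟩
    refine ⟨fun i => ⟨v i, hv i⟩, ?_⟩
    rintro ⟨v', hv', hp'⟩
    rw [cd_unique_fun hv hv'] at hp
    exact hp hp'

theorem imp {P P' : Z → (ι → ZFSet.{u}) → Prop} (hP : UD P) (hP' : UD P') : UD (fun z v => P z v → P' z v) := by
  refine congr (fun z v _ => ?_) (or (not hW hP) hP')
  exact imp_iff_not_or.symm

theorem iff {P P' : Z → (ι → ZFSet.{u}) → Prop} (hP : UD P) (hP' : UD P') : UD (fun z v => P z v ↔ P' z v) := by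
  refine congr (fun z v _ => ?_) (and (imp hW hP hP') (imp hW hP' hP))
  exact iff_def.symm

omit hW in
theorem udb_hc_mem {x y : ZFSet.{u}} (h : HC x) (hy : y ∈ x) : HC y := by
  obtain ⟨T, hT, hT', hx⟩ := h
  exact ⟨T, hT, hT', hT' x hx y hy⟩

theorem udb_valid (e : ι → ℕ) :
    UBS.{u} {a : Z × (ℕ → ℕ → ℕ) | ∃ v : ι → ZFSet.{u}, ∀ i, Cd (a.2 (e i)) (v i)} := by
  have h : UBS.{u} {a : Z × (ℕ → ℕ → ℕ) | ∀ n : ℕ, n ∈ Set.range e →
      ∃ x : ZFSet.{u}, Cd (a.2 n) x} := by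
    refine UBS.all fun n => UBS.imp (P := fun _ => n ∈ Set.range e)
      (P' := fun a : Z × (ℕ → ℕ → ℕ) => ∃ x : ZFSet.{u}, Cd (a.2 n) x) ?_ ?_
    · exact UBS.of_isOpen isOpen_const
    · exact (ubs_valid hW 0).preimage (f := fun a : Z × (ℕ → ℕ → ℕ) => a.2 n) (by fun_prop)
  have e1 : {a : Z × (ℕ → ℕ → ℕ) | ∃ v : ι → ZFSet.{u}, ∀ i, Cd (a.2 (e i)) (v i)} =
      {a : Z × (ℕ → ℕ → ℕ) | ∀ n : ℕ, n ∈ Set.range e → ∃ x : ZFSet.{u}, Cd (a.2 n) x} := by
    ext a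
    constructor
    · rintro ⟨v, hv⟩ n ⟨i, rfl⟩
      exact ⟨v i, hv i⟩
    · intro h
      choose v hv using fun i => h (e i) ⟨i, rfl⟩
      exact ⟨v, hv⟩
  rw [e1]
  exact h

theorem eq (i j : ι) : UD (fun (_ : Z) (v : ι → ZFSet.{u}) => v i = v j) := by
  intro e
  have h1 := (ubs_eqval hW 0 0).preimage
    (f := fun a : Z × (ℕ → ℕ → ℕ) => (a.2 (e i), a.2 (e j))) (by fun_prop)
  have h2 := (udb_valid (Z := Z) hW e).inter h1
  refine (congrArg (fun S => UBS.{u} S) ?_).mpr h2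
  ext a
  constructor
  · rintro ⟨v, hv, hij⟩
    refine ⟨⟨v, hv⟩, v i, hv i, ?_⟩
    have h3 : v i = v j := hij
    rw [h3]
    exact hv j
  · rintro ⟨⟨v, hv⟩, x, hx1, hx2⟩
    exact ⟨v, hv, ((hv i).unique hx1).trans ((hv j).unique hx2).symm⟩

theorem mem (i j : ι) : UD (fun (_ : Z) (v : ι → ZFSet.{u}) => v i ∈ v j) := by
  intro e
  have h0 : ∀ n : ℕ, UBS.{u} {a : Z × (ℕ → ℕ → ℕ) | Ec (a.2 (e j)) n 0} := fun n =>
    uda_clopen (f := fun a : Z × (ℕ → ℕ → ℕ) => a.2 (e j) (Nat.pair n 0)) (by fun_prop) {0}ᶜ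
  have h1 : UBS.{u} {a : Z × (ℕ → ℕ → ℕ) | ∃ n : ℕ, Ec (a.2 (e j)) n 0 ∧
      ∃ x : ZFSet.{u}, IsVal (Ec (a.2 (e i))) x 0 ∧ IsVal (Ec (a.2 (e j))) x n} :=
    UBS.ex fun n => uda_and (h0 n) ((ubs_eqval hW 0 n).preimage
      (f := fun a : Z × (ℕ → ℕ → ℕ) => (a.2 (e i), a.2 (e j))) (by fun_prop))
  have h2 := (udb_valid (Z := Z) hW e).inter h1
  refine (congrArg (fun S => UBS.{u} S) ?_).mpr h2
  ext a
  constructor
  · rintro ⟨v, hv, hij⟩
    refine ⟨⟨v, hv⟩, ?_⟩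
    obtain ⟨n, hn, h3⟩ := (isVal_iff.1 (hv j)).2 (v i) hij
    exact ⟨n, hn, v i, hv i, h3⟩
  · rintro ⟨⟨v, hv⟩, n, hn, x, hx1, hx2⟩
    refine ⟨v, hv, ?_⟩
    obtain ⟨y, hy, h3⟩ := (isVal_iff.1 (hv j)).1 n hn
    have h4 : v i = y := ((hv i).unique hx1).trans (IsVal.unique hx2 h3)
    show v i ∈ v j
    rw [h4]
    exact hy

theorem val {f : Z → ℕ → ℕ} (hf : Continuous f) (i : ι) (m : ℕ) :
    UD (fun (z : Z) (v : ι → ZFSet.{u}) => IsVal (Ec (f z)) (v i) m) := by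
  intro e
  have h1 := (ubs_eqval hW 0 m).preimage
    (f := fun a : Z × (ℕ → ℕ → ℕ) => (a.2 (e i), f a.1)) (by fun_prop)
  have h2 := (udb_valid (Z := Z) hW e).inter h1
  refine (congrArg (fun S => UBS.{u} S) ?_).mpr h2
  ext a
  constructor
  · rintro ⟨v, hv, h3⟩
    exact ⟨⟨v, hv⟩, v i, hv i, h3⟩
  · rintro ⟨⟨v, hv⟩, x, hx1, hx2⟩
    refine ⟨v, hv, ?_⟩
    show IsVal (Ec (f a.1)) (v i) m
    rw [(hv i).unique hx1]
    exact hx2

variable [Bs Z]

theorem exH {P : Z → (ι → ZFSet.{u}) → ZFSet.{u} → Prop}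
    (h : UD (ι := Option ι) (fun z v => P z (fun i => v (some i)) (v none))) :
    UD (fun z v => ∃ y, HC y ∧ P z v y) := by
  intro e
  let e' : Option ι → ℕ := fun o => o.elim 0 (fun i => e i + 1)
  let F : (Z × (ℕ → ℕ → ℕ)) × (ℕ → ℕ) → Z × (ℕ → ℕ → ℕ) := fun b =>
    (b.1.1, fun n => Nat.casesOn n b.2 b.1.2)
  have hF : Continuous F := by
    refine (continuous_fst.comp continuous_fst).prodMk (continuous_pi fun n => ?_)
    cases n with
    | zero => exact continuous_snd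
    | succ n =>
      show Continuous fun b : (Z × (ℕ → ℕ → ℕ)) × (ℕ → ℕ) => b.1.2 n
      fun_prop
  have h1 := (h e').preimage hF
  have h2 := UBS.exists' hW (Z := Z × (ℕ → ℕ → ℕ)) (W := ℕ → ℕ)
    (P := fun a d => (a, d) ∈ F ⁻¹' {a : Z × (ℕ → ℕ → ℕ) | ∃ v : Option ι → ZFSet.{u},
      (∀ i, Cd (a.2 (e' i)) (v i)) ∧ P a.1 (fun i => v (some i)) (v none)}) h1
  refine (congrArg (fun S => UBS.{u} S) ?_).mpr h2
  ext a
  constructor
  · rintro ⟨v, hv, y, hy, h3⟩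
    obtain ⟨d, hd⟩ := exists_code hy
    refine ⟨d, fun o => o.elim y v, ?_, h3⟩
    intro o
    cases o with
    | none => exact hd
    | some i => exact hv i
  · rintro ⟨d, v, hv, h3⟩
    exact ⟨fun i => v (some i), fun i => hv (some i), v none, (hv none).hc, h3⟩

theorem allH {P : Z → (ι → ZFSet.{u}) → ZFSet.{u} → Prop}
    (h : UD (ι := Option ι) (fun z v => P z (fun i => v (some i)) (v none))) :
    UD (fun z v => ∀ y, HC y → P z v y) := by
  have h1 := not hW (exH hW (P := fun z v y => ¬ P z v y) (not hW h))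
  refine congr ?_ h1
  intro z v _
  push Not
  exact Iff.rfl

theorem bex {P : Z → (ι → ZFSet.{u}) → ZFSet.{u} → Prop} (j : ι)
    (h : UD (ι := Option ι) (fun z v => P z (fun i => v (some i)) (v none))) :
    UD (fun z v => ∃ y ∈ v j, P z v y) := by
  have h1 := exH hW (P := fun z v y => y ∈ v j ∧ P z v y) ((mem hW none (some j)).and h)
  refine congr ?_ h1
  intro z v hv
  constructor
  · rintro ⟨y, _, hy, h2⟩
    exact ⟨y, hy, h2⟩
  · rintro ⟨y, hy, h2⟩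
    exact ⟨y, udb_hc_mem (hv j) hy, hy, h2⟩

theorem ball {P : Z → (ι → ZFSet.{u}) → ZFSet.{u} → Prop} (j : ι)
    (h : UD (ι := Option ι) (fun z v => P z (fun i => v (some i)) (v none))) :
    UD (fun z v => ∀ y ∈ v j, P z v y) := by
  have h1 := allH hW (P := fun z v y => y ∈ v j → P z v y) (imp hW (mem hW none (some j)) h)
  refine congr ?_ h1
  intro z v hv
  exact ⟨fun h2 y hy => h2 y (udb_hc_mem (hv j) hy) hy, fun h2 y _ hy => h2 y hy⟩

theorem exS {P : Z → (ι → ZFSet.{u}) → (ℕ → ZFSet.{u}) → Prop}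
    (h : UD (ι := ι ⊕ ℕ) (fun z v => P z (fun i => v (Sum.inl i)) (fun n => v (Sum.inr n)))) :
    UD (fun z v => ∃ D : ℕ → ZFSet.{u}, (∀ n, HC (D n)) ∧ P z v D) := by
  intro e
  let e' : ι ⊕ ℕ → ℕ := fun o => Sum.elim (fun i => 2 * e i + 1) (fun n => 2 * n) o
  let F : (Z × (ℕ → ℕ → ℕ)) × (ℕ → ℕ → ℕ) → Z × (ℕ → ℕ → ℕ) := fun b =>
    (b.1.1, fun n => if n % 2 = 0 then b.2 (n / 2) else b.1.2 (n / 2))
  have hF : Continuous F := by
    refine (continuous_fst.comp continuous_fst).prodMk (continuous_pi fun n => ?_)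
    by_cases hn : n % 2 = 0
    · simp only [hn, if_true]
      fun_prop
    · simp only [hn, if_false]
      fun_prop
  have h1 := (h e').preimage hF
  have h2 := UBS.exists' hW (Z := Z × (ℕ → ℕ → ℕ)) (W := ℕ → ℕ → ℕ)
    (P := fun a d => (a, d) ∈ F ⁻¹' {a : Z × (ℕ → ℕ → ℕ) | ∃ v : ι ⊕ ℕ → ZFSet.{u},
      (∀ i, Cd (a.2 (e' i)) (v i)) ∧ P a.1 (fun i => v (Sum.inl i)) (fun n => v (Sum.inr n))}) h1
  refine (congrArg (fun S => UBS.{u} S) ?_).mpr h2
  have hF1 : ∀ (a : Z × (ℕ → ℕ → ℕ)) (d : ℕ → ℕ → ℕ) (i : ι),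
      (F (a, d)).2 (e' (Sum.inl i)) = a.2 (e i) := by
    intro a d i
    have h3 : ¬ (2 * e i + 1) % 2 = 0 := by omega
    have h4 : (2 * e i + 1) / 2 = e i := by omega
    show (if (2 * e i + 1) % 2 = 0 then d ((2 * e i + 1) / 2) else a.2 ((2 * e i + 1) / 2)) = _
    rw [if_neg h3, h4]
  have hF2 : ∀ (a : Z × (ℕ → ℕ → ℕ)) (d : ℕ → ℕ → ℕ) (n : ℕ),
      (F (a, d)).2 (e' (Sum.inr n)) = d n := by
    intro a d n
    have h3 : (2 * n) % 2 = 0 := by omega
    have h4 : (2 * n) / 2 = n := by omega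
    show (if (2 * n) % 2 = 0 then d ((2 * n) / 2) else a.2 ((2 * n) / 2)) = _
    rw [if_pos h3, h4]
  ext a
  constructor
  · rintro ⟨v, hv, D, hD, h3⟩
    choose d hd using fun n => exists_code (hD n)
    refine ⟨d, Sum.elim v D, ?_, h3⟩
    intro o
    cases o with
    | inl i =>
      rw [hF1]
      exact hv i
    | inr n =>
      rw [hF2]
      exact hd n
  · rintro ⟨d, v, hv, h3⟩
    refine ⟨fun i => v (Sum.inl i), fun i => ?_, fun n => v (Sum.inr n), fun n => ?_, h3⟩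
    · have h4 := hv (Sum.inl i)
      rwa [hF1] at h4
    · exact (hv (Sum.inr n)).hc

theorem allS {P : Z → (ι → ZFSet.{u}) → (ℕ → ZFSet.{u}) → Prop}
    (h : UD (ι := ι ⊕ ℕ) (fun z v => P z (fun i => v (Sum.inl i)) (fun n => v (Sum.inr n)))) :
    UD (fun z v => ∀ D : ℕ → ZFSet.{u}, (∀ n, HC (D n)) → P z v D) := by
  have h1 := not hW (exS hW (P := fun z v D => ¬ P z v D) (not hW h))
  refine congr ?_ h1
  intro z v _
  push Not
  exact Iff.rfl

theorem exR {P : Z → (ℕ → ℕ) → (ι → ZFSet.{u}) → Prop} (h : UD (Z := Z × (ℕ → ℕ)) (fun z v => P z.1 z.2 v)) :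
    UD (fun z v => ∃ r, P z r v) := by
  intro e
  let F : (Z × (ℕ → ℕ → ℕ)) × (ℕ → ℕ) → (Z × (ℕ → ℕ)) × (ℕ → ℕ → ℕ) := fun b =>
    ((b.1.1, b.2), b.1.2)
  have hF : Continuous F := by fun_prop
  have h1 := (h e).preimage hF
  have h2 := UBS.exists' hW (Z := Z × (ℕ → ℕ → ℕ)) (W := ℕ → ℕ)
    (P := fun a r => (a, r) ∈ F ⁻¹' {a : (Z × (ℕ → ℕ)) × (ℕ → ℕ → ℕ) | ∃ v : ι → ZFSet.{u},
      (∀ i, Cd (a.2 (e i)) (v i)) ∧ P a.1.1 a.1.2 v}) h1
  refine (congrArg (fun S => UBS.{u} S) ?_).mpr h2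
  ext a
  constructor
  · rintro ⟨v, hv, r, h3⟩
    exact ⟨r, v, hv, h3⟩
  · rintro ⟨r, v, hv, h3⟩
    exact ⟨v, hv, r, h3⟩

end

end UD

end

end Pool.Agent.H52.OM
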