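import Pool.Agent.H52.OM.UDb
import Pool.Agent.H17.Omega.Coc

/-!
# OM-28: Δ₀ predicates are universally Baire predicates

PROOF.  `sat`: for `θ` in `Δ₀`, in the context `ι = ℕ`: induction on `Fml.Delta0`: atomic formulas by `UD.mem`, `UD.eq`; connectives; `∀ k ∈ j, φ` (`k ≠ j`) is `∀ y ∈ v j, Sat φ (upd v k y)`, by `UD.ball j` and `UD.subst` of the induction hypothesis with `σ i = if i = k then none else some i`
(`upd (fun i => v (some i)) k (v none) = fun i => v (σ i)`).
`d0`: let `θ` be the formula of `P` (definition of `D0` in `H17/Omega/D0.lean`).  If `n = 0` then `P` is constant (`UD.real` with `True`/`False`); otherwise let `σ' m = σ m` for `m < n` and `σ' m = σ 0` for `m ≥ n`, and use `sat` with `UD.subst σ'`.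
`ud_pair`, `ud_pairMem`, `ud_subset`, `ud_trans`: `d0` with `D0.isPair`, `D0.pairMem`, `D0.subset`, `D0.isTrans`.
`ud_natZ`: `v i = natZ m`: for fixed `m` this is `D0`: induction on `m` (`z = natZ (m+1)` iff `∃ y ∈ z, y = natZ m ∧ z = insert y y`, i.e. `∀ a ∈ z, a ∈ y ∨ a = y`, `∀ a ∈ y, a ∈ z`, `y ∈ z`).
`ud_ev`: `pair (v i) (pair (natZ m) (natZ n)) ∈ v j` iff `∃ a, HC a ∧ ∃ b, HC b ∧ ∃ e, HC e ∧ a = natZ m ∧ b = natZ n ∧ e = pair a b ∧ pair (v i) e ∈ v j` (`exH`; all these are hereditarily countable if `v` is: `UD.congr`).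
`HC.pair`, `HC.natZ`: hereditarily countable sets: a set is `HC` iff it has countably many elements and all are `HC` (`hc_iff`: `→` by `HC.countable`, `HC.mem` (`H17/Omega/Coc.lean`); `←`: the union of countable transitive sets containing the elements, together with the set itself).
-/

set_option autoImplicit false
set_option linter.unusedVariables false
set_option linter.unusedSectionVars false
set_option linter.unusedSimpArgs false
set_option linter.deprecated false

universe u v w

open scoped ZFSet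

namespace Pool.Agent.H52.OM

open Pool.Agent.H17.Omega Pool.Agent.H82.OC

namespace OM28

theorem hc_of_countable {x : ZFSet.{u}} (h1 : {y | y ∈ x}.Countable) (h2 : ∀ y ∈ x, HC y) : HC x := by
  choose T hT hT' hx using h2
  refine ⟨insert x (⋃ y : {y : ZFSet.{u} | y ∈ x}, T y.1 y.2), ?_, ?_, Set.mem_insert _ _⟩
  · haveI : Countable {y : ZFSet.{u} | y ∈ x} := h1.to_subtype
    exact (Set.countable_iUnion fun y : {y : ZFSet.{u} | y ∈ x} => hT y.1 y.2).insert x
  · intro a ha b hb
    rcases Set.mem_insert_iff.1 ha with rfl | ha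
    · exact Set.mem_insert_of_mem _ (Set.mem_iUnion.2 ⟨⟨b, hb⟩, hx b hb⟩)
    · obtain ⟨y, hy⟩ := Set.mem_iUnion.1 ha
      exact Set.mem_insert_of_mem _ (Set.mem_iUnion.2 ⟨y, hT' y.1 y.2 a hy b hb⟩)

end OM28

theorem hc_iff {x : ZFSet.{u}} : HC x ↔ {y | y ∈ x}.Countable ∧ ∀ y ∈ x, HC y :=
  ⟨fun h => ⟨Pool.Agent.H17.Omega.HC.countable h, fun y hy => Pool.Agent.H17.Omega.HC.mem h hy⟩,
    fun h => OM28.hc_of_countable h.1 h.2⟩

namespace OM28

theorem hc_upair {x y : ZFSet.{u}} (hx : HC x) (hy : HC y) : HC ({x, y} : ZFSet.{u}) := by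
  refine hc_iff.2 ⟨?_, ?_⟩
  · have h : {z : ZFSet.{u} | z ∈ ({x, y} : ZFSet.{u})} ⊆ {x, y} := by
      intro z hz
      have hz' : z ∈ ({x, y} : ZFSet.{u}) := hz
      rw [ZFSet.mem_pair] at hz'
      exact hz'
    exact Set.Countable.mono h (Set.toFinite _).countable
  · intro z hz
    rw [ZFSet.mem_pair] at hz
    rcases hz with rfl | rfl <;> assumption

end OM28

theorem HC.pair {x y : ZFSet.{u}} (hx : HC x) (hy : HC y) : HC (ZFSet.pair x y) := by
  rw [pair_eq_upair]
  exact OM28.hc_upair (OM28.hc_upair hx hx) (OM28.hc_upair hx hy)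

theorem HC.of_pair {x y : ZFSet.{u}} (h : HC (ZFSet.pair x y)) : HC x ∧ HC y := by
  rw [pair_eq_upair] at h
  have h1 : HC ({x, y} : ZFSet.{u}) := (hc_iff.1 h).2 _ (by rw [ZFSet.mem_pair]; exact Or.inr rfl)
  exact ⟨(hc_iff.1 h1).2 _ (by rw [ZFSet.mem_pair]; exact Or.inl rfl),
    (hc_iff.1 h1).2 _ (by rw [ZFSet.mem_pair]; exact Or.inr rfl)⟩

theorem hc_natZ (n : ℕ) : HC (natZ.{u} n) := by
  induction n using Nat.strong_induction_on with
  | _ n ih =>
    refine hc_iff.2 ⟨?_, ?_⟩
    · refine (Set.countable_range natZ.{u}).mono ?_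
      intro y hy
      obtain ⟨m, _, rfl⟩ := mem_natZ.1 hy
      exact ⟨m, rfl⟩
    · intro y hy
      obtain ⟨m, hm, rfl⟩ := mem_natZ.1 hy
      exact ih m hm

section

variable (hW : ManyWoodin.{u}) {Z : Type} [TopologicalSpace Z] [Bs Z] {ι : Type}

include hW

theorem UD.sat {θ : Fml} (hθ : θ.Delta0) :
    UD (ι := ℕ) (fun (_ : Z) (v : ℕ → ZFSet.{u}) => Sat (fun a b : ZFSet.{u} => a ∈ b) θ v) := by
  induction hθ with
  | mem i j => exact UD.mem hW i j
  | eq i j => exact UD.eq hW i j
  | bot => exact UD.real hW (ubs_congr_set (UBS.of_isOpen (Z := Z) isOpen_empty) fun z => Iff.rfl)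
  | imp _ _ ih1 ih2 => exact UD.imp hW ih1 ih2
  | and _ _ ih1 ih2 => exact UD.and ih1 ih2
  | or _ _ ih1 ih2 => exact UD.or ih1 ih2
  | @ball φ k j hkj _ ih =>
    have h1 := UD.subst hW ih (κ := Option ℕ) (fun i => if i = k then none else some i)
    have h2 : UD (ι := Option ℕ) (fun (z : Z) (v : Option ℕ → ZFSet.{u}) =>
        Sat (fun a b : ZFSet.{u} => a ∈ b) φ (upd (fun i => v (some i)) k (v none))) := by
      refine UD.congr (fun z v _ => ?_) h1
      have e : (fun i : ℕ => v (if i = k then none else some i)) =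
          upd (fun i => v (some i)) k (v none) := by
        funext i
        unfold upd
        split_ifs <;> rfl
      rw [e]
    have h3 := UD.ball hW (P := fun (z : Z) (v : ℕ → ZFSet.{u}) y =>
      Sat (fun a b : ZFSet.{u} => a ∈ b) φ (upd v k y)) j h2
    refine UD.congr (fun z v _ => ?_) h3
    have e2 : ∀ y, upd v k y k = y := fun y => upd_same _ _ _
    have e3 : ∀ y, upd v k y j = v j := fun y => upd_ne _ _ (Ne.symm hkj)
    constructor
    · intro h y hy
      have hy' : upd v k y k ∈ upd v k y j := hy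
      rw [e2, e3] at hy'
      exact h y hy'
    · intro h y hy
      refine h y ?_
      show upd v k y k ∈ upd v k y j
      rw [e2, e3]
      exact hy
  | @bex φ k j hkj _ ih =>
    have h1 := UD.subst hW ih (κ := Option ℕ) (fun i => if i = k then none else some i)
    have h2 : UD (ι := Option ℕ) (fun (z : Z) (v : Option ℕ → ZFSet.{u}) =>
        Sat (fun a b : ZFSet.{u} => a ∈ b) φ (upd (fun i => v (some i)) k (v none))) := by
      refine UD.congr (fun z v _ => ?_) h1
      have e : (fun i : ℕ => v (if i = k then none else some i)) =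
          upd (fun i => v (some i)) k (v none) := by
        funext i
        unfold upd
        split_ifs <;> rfl
      rw [e]
    have h3 := UD.bex hW (P := fun (z : Z) (v : ℕ → ZFSet.{u}) y =>
      Sat (fun a b : ZFSet.{u} => a ∈ b) φ (upd v k y)) j h2
    refine UD.congr (fun z v _ => ?_) h3
    have e2 : ∀ y, upd v k y k = y := fun y => upd_same _ _ _
    have e3 : ∀ y, upd v k y j = v j := fun y => upd_ne _ _ (Ne.symm hkj)
    constructor
    · rintro ⟨y, hy, h⟩
      refine ⟨y, ?_, h⟩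
      show upd v k y k ∈ upd v k y j
      rw [e2, e3]
      exact hy
    · rintro ⟨y, hy, h⟩
      refine ⟨y, ?_, h⟩
      have hy' : upd v k y k ∈ upd v k y j := hy
      rw [e2, e3] at hy'
      exact hy'

theorem UD.d0 {n : ℕ} {P : (Fin n → ZFSet.{u}) → Prop} (hP : D0 P) (σ : Fin n → ι) :
    UD (fun (_ : Z) (v : ι → ZFSet.{u}) => P (fun i => v (σ i))) := by
  obtain ⟨θ, h1, h2, h3⟩ := hP
  rcases Nat.eq_zero_or_pos n with rfl | hn
  · by_cases hp : P Fin.elim0
    · refine UD.congr (fun z v _ => ?_) (UD.real hW (Z := Z) (ι := ι) (p := fun _ => True)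
        (ubs_congr_set (UBS.of_isOpen (Z := Z) isOpen_univ) fun z => Iff.rfl))
      have e : (fun i => v (σ i)) = Fin.elim0 := funext fun i => i.elim0
      rw [e]
      exact ⟨fun _ => hp, fun _ => trivial⟩
    · refine UD.congr (fun z v _ => ?_) (UD.real hW (Z := Z) (ι := ι) (p := fun _ => False)
        (ubs_congr_set (UBS.of_isOpen (Z := Z) isOpen_empty) fun z => Iff.rfl))
      have e : (fun i => v (σ i)) = Fin.elim0 := funext fun i => i.elim0
      rw [e]
      exact ⟨fun h => h.elim, fun h => hp h⟩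
  · let σ' : ℕ → ι := fun m => if h : m < n then σ ⟨m, h⟩ else σ ⟨0, hn⟩
    have h4 := UD.subst hW (UD.sat hW (Z := Z) h1) σ'
    refine UD.congr (fun z v _ => ?_) h4
    rw [h3]
    have e : (fun i : Fin n => v (σ' i)) = fun i => v (σ i) := by
      funext i
      have : σ' i = σ i := by
        simp only [σ', i.2, dif_pos]
      rw [this]
    rw [e]

theorem ud_pair (i j k : ι) : UD (fun (_ : Z) (v : ι → ZFSet.{u}) => v i = ZFSet.pair (v j) (v k)) :=
  UD.d0 hW (D0.isPair (D0T.var (0 : Fin 3)) (D0T.var 1) (D0T.var 2)) ![i, j, k]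

theorem ud_pairMem (i j k : ι) : UD (fun (_ : Z) (v : ι → ZFSet.{u}) => ZFSet.pair (v i) (v j) ∈ v k) :=
  UD.d0 hW (D0.pairMem (D0T.var (0 : Fin 3)) (D0T.var 1) (D0T.var 2)) ![i, j, k]

theorem ud_subset (i j : ι) : UD (fun (_ : Z) (v : ι → ZFSet.{u}) => v i ⊆ v j) :=
  UD.d0 hW (D0.subset (D0T.var (0 : Fin 2)) (D0T.var 1)) ![i, j]

theorem ud_trans (i : ι) : UD (fun (_ : Z) (v : ι → ZFSet.{u}) => (v i).IsTransitive) :=
  UD.d0 hW (D0.isTrans (D0T.var (0 : Fin 1))) ![i]

namespace OM28

omit hW in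
theorem d0_natZ (m : ℕ) : ∀ {n : ℕ} {s : (Fin n → ZFSet.{u}) → ZFSet.{u}}, D0T s →
    D0 (fun v => s v = natZ m) := by
  induction m with
  | zero =>
    intro n s hs
    exact (D0.isEmpty hs).congr fun v => by simp [natZ]
  | succ m ih =>
    intro n s hs
    refine (D0.bexZ (p := fun v y => y = natZ m ∧ ((∀ a ∈ s v, a ∈ y ∨ a = y) ∧ ∀ a ∈ y, a ∈ s v)) hs
      ((ih D0T.last).and ((D0.ballZ (p := fun v a => a ∈ v (Fin.last n) ∨ a = v (Fin.last n)) hs.lift
        ((D0.mem D0T.last (D0T.var _)).or (D0.eqv D0T.last (D0T.var _)))).and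
        (D0.ballZ (p := fun v a => a ∈ s (fun i => v i.castSucc)) (D0T.var (Fin.last n))
          (D0.mem D0T.last hs.lift.lift))))).congr fun v => ?_
    constructor
    · rintro ⟨y, hy, rfl, h1, h2⟩
      ext a
      rw [mem_natZ]
      constructor
      · intro ha
        rcases h1 a ha with h | h
        · obtain ⟨k, hk, rfl⟩ := mem_natZ.1 h
          exact ⟨k, by omega, rfl⟩
        · exact ⟨m, by omega, h⟩
      · rintro ⟨k, hk, rfl⟩
        rcases Nat.lt_or_ge k m with h | h
        · exact h2 _ (natZ_mem.2 h)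
        · have : k = m := by omega
          rw [this]
          exact hy
    · intro h
      refine ⟨natZ m, ?_, rfl, ?_, ?_⟩
      · rw [h]
        exact natZ_mem.2 (by omega)
      · intro a ha
        rw [h] at ha
        obtain ⟨k, hk, rfl⟩ := mem_natZ.1 ha
        rcases Nat.lt_or_ge k m with h | h
        · exact Or.inl (natZ_mem.2 h)
        · right
          have : k = m := by omega
          rw [this]
      · intro a ha
        rw [h]
        obtain ⟨k, hk, rfl⟩ := mem_natZ.1 ha
        exact natZ_mem.2 (by omega)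

end OM28

theorem ud_natZ (m : ℕ) (i : ι) : UD (fun (_ : Z) (v : ι → ZFSet.{u}) => v i = natZ m) :=
  UD.d0 hW (OM28.d0_natZ m (D0T.var (0 : Fin 1))) ![i]

theorem ud_ev (m n : ℕ) (i j : ι) :
    UD (fun (_ : Z) (v : ι → ZFSet.{u}) => ZFSet.pair (v i) (ZFSet.pair (natZ m) (natZ n)) ∈ v j) := by
  have h1 : UD (ι := Option (Option (Option ι))) (fun (_ : Z) (v : Option (Option (Option ι)) → ZFSet.{u}) =>
      v (some (some none)) = natZ m ∧ v (some none) = natZ n ∧
        v none = ZFSet.pair (v (some (some none))) (v (some none)) ∧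
        ZFSet.pair (v (some (some (some i)))) (v none) ∈ v (some (some (some j)))) :=
    (ud_natZ hW m _).and ((ud_natZ hW n _).and ((ud_pair hW _ _ _).and (ud_pairMem hW _ _ _)))
  have h2 := UD.exH hW (P := fun (_ : Z) (v : Option (Option ι) → ZFSet.{u}) e =>
      v (some none) = natZ m ∧ v none = natZ n ∧
        e = ZFSet.pair (v (some none)) (v none) ∧
        ZFSet.pair (v (some (some i))) e ∈ v (some (some j))) h1
  have h3 := UD.exH hW (P := fun (_ : Z) (v : Option ι → ZFSet.{u}) b => ∃ e, HC e ∧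
      (v none = natZ m ∧ b = natZ n ∧
        e = ZFSet.pair (v none) b ∧
        ZFSet.pair (v (some i)) e ∈ v (some j))) h2
  have h4 := UD.exH hW (P := fun (_ : Z) (v : ι → ZFSet.{u}) a => ∃ b, HC b ∧ ∃ e, HC e ∧
      (a = natZ m ∧ b = natZ n ∧
        e = ZFSet.pair a b ∧
        ZFSet.pair (v i) e ∈ v j)) h3
  refine UD.congr (fun z v _ => ?_) h4
  constructor
  · rintro ⟨a, _, b, _, e, _, rfl, rfl, rfl, h⟩
    exact h
  · intro h
    exact ⟨_, hc_natZ m, _, hc_natZ n, _, HC.pair (hc_natZ m) (hc_natZ n), rfl, rfl, rfl, h⟩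

end

end Pool.Agent.H52.OM
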