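import Pool.Agent.H52.OM.Rel

/-!
# OM-10: a transitive class that is a union of elementary submodels is a model of ZFC

PROOF.  Use `models_iff` (Defs): `Models K ψ ↔ ∀ f : ℕ → ZFSet, (∀ i, f i ∈ K) → SatIn K ψ f`, and unfold the axioms (Defs of `H17/Omega`).  `∅ ∈ K`: `sep` with a contradictory `D0` predicate.
Because `K` is transitive, `z ∈ x ∈ K` implies `z ∈ K`, so quantifiers over the elements of elements of `K` are absolute.
* Extensionality, Foundation (`ZFSet.regularity` / minimal rank), Pairing (`upair`), Union (`sUn`), Infinity (`inf`; `ins natZ`: `insert (natZ n) (natZ n) = natZ (n+1)`; membership `mem_omZ`).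
* Power set: for `x ∈ K` let `p ∈ K` be from `pow`; `{z ∈ p : z ⊆ x} ∈ K` by `sep` (`D0.subset`).
* Separation: given `x` and the parameters `f` (only finitely many matter: `satIn_congr`), use `refl` for an element `a ∈ K` that codes `x` and these finitely many parameters (pairs), so that all of them are in a transitive
  `v ∈ K` with `SatIn (El v) φ g ↔ SatIn K φ g` for all `g` with values in `v`; replace the irrelevant values of `f` by an element of `v`; then `{z ∈ x : SatIn K φ ..} = {z ∈ x : SatIn (El v) φ ..} ∈ K` by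
  `sep_satIn_mem` (OM-9).
* Replacement: with `v` as above for the formula `ex 1 φ` and `φ`: for `z ∈ x ⊆ v` the unique `y ∈ K` with `φ(z, y)` is in `v` by elementarity; the image is `{y ∈ v : SatIn (El v) (ex 0 (and (mem 0 n) φ)) ..} ∈ K`.
* Choice (in the form of `axChoice`: a family `x` of nonempty pairwise disjoint sets has a transversal): `⋃ x ∈ K`, `wo` gives `W ∈ K`, `WO W`, `⋃ x ⊆ fld W`; the transversal is
  `{z ∈ ⋃ x : ∃ y ∈ x, z ∈ y ∧ ∀ z' ∈ y, pair z z' ∈ W} ∈ K` by `sep` (`D0.pairMem`), with exactly one element in every `y ∈ x` (`WO.min`, `WO.anti`).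
Feel free to split into lemmas, one for each axiom.
-/

set_option autoImplicit false
set_option linter.unusedVariables false
set_option linter.unusedSectionVars false
set_option linter.unusedSimpArgs false
set_option linter.deprecated false

universe u v w

open scoped ZFSet

namespace Pool.Agent.H52.OM

open Pool.Agent.H17.Omega Pool.Agent.H82.OC

/-- Closure properties of `K` that imply ZFC. -/
structure UK (K : Set ZFSet.{u}) : Prop where
  tr : ∀ x ∈ K, ∀ y ∈ x, y ∈ K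
  ne : K.Nonempty
  upair : ∀ x ∈ K, ∀ y ∈ K, ({x, y} : ZFSet.{u}) ∈ K
  sUn : ∀ x ∈ K, ZFSet.sUnion x ∈ K
  sep : ∀ {n : ℕ} {P : (Fin (n + 1) → ZFSet.{u}) → Prop}, D0 P → ∀ v : Fin n → ZFSet.{u}, (∀ i, v i ∈ K) →
      ∀ x ∈ K, ZFSet.sep (fun z => P (Fin.snoc (α := fun _ => ZFSet.{u}) v z)) x ∈ K
  wo : ∀ x ∈ K, ∃ W ∈ K, WO W ∧ x ⊆ fld W
  inf : omZ ∈ K
  pow : ∀ x ∈ K, ∃ p ∈ K, ∀ z ∈ K, z ⊆ x → z ∈ p
  refl : ∀ x ∈ K, ∃ v ∈ K, x ∈ v ∧ v.IsTransitive ∧ ∀ (φ : Fml) (f : ℕ → ZFSet.{u}), (∀ i, f i ∈ v) →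
    (SatIn (El v) φ f ↔ SatIn K φ f)

theorem zfa_empty_mem {K : Set ZFSet.{u}} (h : UK K) : (∅ : ZFSet.{u}) ∈ K := by
  have h1 : natZ.{u} 0 ∈ omZ := natZ_mem_omZ 0
  exact h.tr _ h.inf _ h1

/-- Finitely many parameters can be coded by one element. -/
theorem zfa_code {K : Set ZFSet.{u}} (h : UK K) {f : ℕ → ZFSet.{u}} (hf : ∀ i, f i ∈ K) (N : ℕ) :
    ∃ c ∈ K, ∀ v : ZFSet.{u}, v.IsTransitive → c ∈ v → ∀ i < N, f i ∈ v := by
  induction N with
  | zero => exact ⟨∅, zfa_empty_mem h, fun v _ _ i hi => (Nat.not_lt_zero i hi).elim⟩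
  | succ N ih =>
    obtain ⟨c, hc, h1⟩ := ih
    refine ⟨{c, f N}, h.upair c hc _ (hf N), fun v hv h2 i hi => ?_⟩
    have h3 : ({c, f N} : ZFSet.{u}) ⊆ v := hv _ h2
    have h4 : c ∈ v := h3 (by simp)
    have h5 : f N ∈ v := h3 (by simp)
    rcases Nat.lt_succ_iff_lt_or_eq.1 hi with h6 | rfl
    · exact h1 v hv h4 i h6
    · exact h5

/-- A transitive elementary `v` that contains finitely many parameters and `a`. -/
theorem zfa_refl {K : Set ZFSet.{u}} (h : UK K) {f : ℕ → ZFSet.{u}} (hf : ∀ i, f i ∈ K) (n : ℕ)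
    {a : ZFSet.{u}} (ha : a ∈ K) : ∃ v ∈ K, v.IsTransitive ∧ a ∈ v ∧ (∀ i < n, f i ∈ v) ∧
      ∀ (φ : Fml) (g : ℕ → ZFSet.{u}), (∀ i, g i ∈ v) → (SatIn (El v) φ g ↔ SatIn K φ g) := by
  obtain ⟨c, hc, h1⟩ := zfa_code h (f := fun i => if i < n then f i else a)
    (fun i => by show (if i < n then f i else a) ∈ K; split_ifs; exacts [hf i, ha]) (n + 1)
  obtain ⟨v, hv, hcv, hvt, h2⟩ := h.refl c hc
  have h3 := h1 v hvt hcv
  refine ⟨v, hv, hvt, ?_, fun i hi => ?_, h2⟩
  · have := h3 n (Nat.lt_succ_self n)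
    simpa using this
  · have := h3 i (by omega)
    simpa [hi] using this

theorem UK.models_sep {K : Set ZFSet.{u}} (h : UK K) (φ : Fml) : Models K (axSep φ) := by
  rw [models_iff]
  intro f hf
  have hn0 : 1 ≤ max φ.bd 1 := le_max_right _ _
  have hn1 : φ.bd ≤ max φ.bd 1 := le_max_left _ _
  show SatIn K (.all (max φ.bd 1) (.ex (max φ.bd 1 + 1) (.all 0
    (.iff (.mem 0 (max φ.bd 1 + 1)) (.and (.mem 0 (max φ.bd 1)) φ))))) f
  generalize max φ.bd 1 = n at hn0 hn1 ⊢
  intro a ha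
  obtain ⟨v, hv, hvt, hav, hfv, hel⟩ := zfa_refl h hf n ha
  have hgv : ∀ i, (fun i => if i < n then f i else a) i ∈ v := by
    intro i
    show (if i < n then f i else a) ∈ v
    split_ifs with h1
    exacts [hfv i h1, hav]
  have hgK : ∀ i, (fun i => if i < n then f i else a) i ∈ K := fun i => h.tr v hv _ (hgv i)
  have hb := sep_satIn_mem (zfa_empty_mem h) h.sep φ 0 hv hgK ha
  refine ⟨_, hb, fun x hx => ?_⟩
  have e0 : upd (upd (upd f n a) (n + 1)
      (ZFSet.sep (fun z => SatIn (El v) φ (upd (fun i => if i < n then f i else a) 0 z)) a)) 0 x 0 = x :=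
    upd_same _ _ _
  have e1 : upd (upd (upd f n a) (n + 1)
      (ZFSet.sep (fun z => SatIn (El v) φ (upd (fun i => if i < n then f i else a) 0 z)) a)) 0 x n = a := by
    rw [upd_ne _ _ (by omega), upd_ne _ _ (by omega), upd_same]
  have e2 : upd (upd (upd f n a) (n + 1)
      (ZFSet.sep (fun z => SatIn (El v) φ (upd (fun i => if i < n then f i else a) 0 z)) a)) 0 x (n + 1) =
      (ZFSet.sep (fun z => SatIn (El v) φ (upd (fun i => if i < n then f i else a) 0 z)) a) := by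
    rw [upd_ne _ _ (by omega), upd_same]
  have e3 : SatIn K φ (upd (upd (upd f n a) (n + 1)
      (ZFSet.sep (fun z => SatIn (El v) φ (upd (fun i => if i < n then f i else a) 0 z)) a)) 0 x) ↔
      SatIn K φ (upd (fun i => if i < n then f i else a) 0 x) := by
    refine satIn_congr fun i hi => ?_
    by_cases h0 : i = 0
    · subst h0; rw [upd_same, upd_same]
    · rw [upd_ne _ _ h0, upd_ne _ _ h0, upd_ne _ _ (by omega), upd_ne _ _ (by omega)]
      show f i = if i < n then f i else a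
      rw [if_pos (by omega)]
  have main : x ∈ ZFSet.sep (fun z => SatIn (El v) φ (upd (fun i => if i < n then f i else a) 0 z)) a ↔
      (x ∈ a ∧ SatIn K φ (upd (upd (upd f n a) (n + 1)
      (ZFSet.sep (fun z => SatIn (El v) φ (upd (fun i => if i < n then f i else a) 0 z)) a)) 0 x)) := by
    rw [ZFSet.mem_sep, e3]
    refine and_congr_right fun hxa => ?_
    have hxv : x ∈ v := hvt _ hav hxa
    refine hel φ _ fun i => ?_
    by_cases h0 : i = 0
    · subst h0; rw [upd_same]; exact hxv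
    · rw [upd_ne _ _ h0]; exact hgv i
  show SatIn K (.iff (.mem 0 (n + 1)) (.and (.mem 0 n) φ)) _
  constructor
  · intro h1
    have h2 : upd (upd (upd f n a) (n + 1)
      (ZFSet.sep (fun z => SatIn (El v) φ (upd (fun i => if i < n then f i else a) 0 z)) a)) 0 x 0 ∈
      upd (upd (upd f n a) (n + 1)
      (ZFSet.sep (fun z => SatIn (El v) φ (upd (fun i => if i < n then f i else a) 0 z)) a)) 0 x (n + 1) := h1
    rw [e0, e2] at h2
    have h3 := main.1 h2
    refine ⟨?_, h3.2⟩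
    show upd (upd (upd f n a) (n + 1)
      (ZFSet.sep (fun z => SatIn (El v) φ (upd (fun i => if i < n then f i else a) 0 z)) a)) 0 x 0 ∈
      upd (upd (upd f n a) (n + 1)
      (ZFSet.sep (fun z => SatIn (El v) φ (upd (fun i => if i < n then f i else a) 0 z)) a)) 0 x n
    rw [e0, e1]
    exact h3.1
  · rintro ⟨h1, h2⟩
    have h3 : upd (upd (upd f n a) (n + 1)
      (ZFSet.sep (fun z => SatIn (El v) φ (upd (fun i => if i < n then f i else a) 0 z)) a)) 0 x 0 ∈
      upd (upd (upd f n a) (n + 1)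
      (ZFSet.sep (fun z => SatIn (El v) φ (upd (fun i => if i < n then f i else a) 0 z)) a)) 0 x n := h1
    rw [e0, e1] at h3
    show upd (upd (upd f n a) (n + 1)
      (ZFSet.sep (fun z => SatIn (El v) φ (upd (fun i => if i < n then f i else a) 0 z)) a)) 0 x 0 ∈
      upd (upd (upd f n a) (n + 1)
      (ZFSet.sep (fun z => SatIn (El v) φ (upd (fun i => if i < n then f i else a) 0 z)) a)) 0 x (n + 1)
    rw [e0, e2]
    exact main.2 ⟨h3, h2⟩

/-- Satisfaction of a biconditional. -/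
theorem zfa_iff {K : Set ZFSet.{u}} {φ ψ : Fml} {f : ℕ → ZFSet.{u}} :
    SatIn K (.iff φ ψ) f ↔ (SatIn K φ f ↔ SatIn K ψ f) :=
  ⟨fun h => ⟨h.1, h.2⟩, fun h => ⟨h.1, h.2⟩⟩

theorem UK.models_repl {K : Set ZFSet.{u}} (h : UK K) (φ : Fml) : Models K (axRepl φ) := by
  rw [models_iff]
  intro f hf
  have hn0 : 2 ≤ max φ.bd 2 := le_max_right _ _
  have hn1 : φ.bd ≤ max φ.bd 2 := le_max_left _ _
  show SatIn K (.all (max φ.bd 2) (.imp
    (.all 0 (.imp (.mem 0 (max φ.bd 2)) (.ex (max φ.bd 2 + 1) (.all 1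
      (.iff φ (.eq 1 (max φ.bd 2 + 1)))))))
    (.ex (max φ.bd 2 + 1) (.all 1 (.iff (.mem 1 (max φ.bd 2 + 1))
      (.ex 0 (.and (.mem 0 (max φ.bd 2)) φ))))))) f
  generalize max φ.bd 2 = n at hn0 hn1 ⊢
  intro a ha hfun
  obtain ⟨v, hv, hvt, hav, hfv, hel⟩ := zfa_refl h hf n ha
  obtain ⟨g, hg⟩ : ∃ g : ℕ → ZFSet.{u}, g = fun i => if i < n then f i else a := ⟨_, rfl⟩
  have hgf : ∀ i < n, g i = f i := by
    intro i hi
    rw [hg]
    exact if_pos hi
  have hgn : g n = a := by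
    rw [hg]
    exact if_neg (lt_irrefl n)
  have hgv : ∀ i, g i ∈ v := by
    intro i
    rw [hg]
    show (if i < n then f i else a) ∈ v
    split_ifs with h1
    exacts [hfv i h1, hav]
  have hgK : ∀ i, g i ∈ K := fun i => h.tr v hv _ (hgv i)
  have hvK : ∀ x, x ∈ v → x ∈ K := fun x hx => h.tr v hv x hx
  have hxv : ∀ x, x ∈ a → x ∈ v := fun x hx => hvt _ hav hx
  -- the assignments with two values changed
  have hel2 : ∀ x ∈ v, ∀ y ∈ v, (SatIn (El v) φ (upd (upd g 1 y) 0 x) ↔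
      SatIn K φ (upd (upd g 1 y) 0 x)) := by
    intro x hx y hy
    refine hel φ _ fun i => ?_
    by_cases h0 : i = 0
    · subst h0; rw [upd_same]; exact hx
    · rw [upd_ne _ _ h0]
      by_cases h1 : i = 1
      · subst h1; rw [upd_same]; exact hy
      · rw [upd_ne _ _ h1]; exact hgv i
  have hF : ∀ x ∈ a, ∃ y0 ∈ K, ∀ y ∈ K, (SatIn K φ (upd (upd g 1 y) 0 x) ↔ y = y0) := by
    intro x hx
    have h1 := hfun x (hvK x (hxv x hx)) (by
      show upd (upd f n a) 0 x 0 ∈ upd (upd f n a) 0 x n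
      rw [upd_same, upd_ne _ _ (by omega), upd_same]
      exact hx)
    obtain ⟨y0, hy0, h2⟩ := h1
    refine ⟨y0, hy0, fun y hy => ?_⟩
    have h3 := zfa_iff.1 (h2 y hy)
    have h4 : SatIn K (.eq 1 (n + 1)) (upd (upd (upd (upd f n a) 0 x) (n + 1) y0) 1 y) ↔ y = y0 := by
      show upd (upd (upd (upd f n a) 0 x) (n + 1) y0) 1 y 1 =
        upd (upd (upd (upd f n a) 0 x) (n + 1) y0) 1 y (n + 1) ↔ y = y0
      rw [upd_same, upd_ne _ _ (by omega), upd_same]
    rw [← h4, ← h3]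
    refine satIn_congr fun i hi => ?_
    by_cases h0 : i = 0
    · subst h0
      rw [upd_same, upd_ne _ _ (by omega), upd_ne _ _ (by omega), upd_same]
    · rw [upd_ne _ _ h0]
      by_cases h1 : i = 1
      · subst h1
        rw [upd_same, upd_same]
      · rw [upd_ne _ _ h1, upd_ne _ _ h1, upd_ne _ _ (by omega), upd_ne _ _ h0,
          upd_ne _ _ (by omega)]
        exact hgf i (by omega)
  have hFv : ∀ x ∈ a, ∀ y ∈ K, SatIn K φ (upd (upd g 1 y) 0 x) → y ∈ v := by
    intro x hx y hy hxy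
    obtain ⟨y0, hy0, h1⟩ := hF x hx
    have h2 : SatIn K (.ex 1 φ) (upd g 0 x) := by
      refine ⟨y, hy, ?_⟩
      refine (satIn_congr fun i hi => ?_).1 hxy
      by_cases h0 : i = 0
      · subst h0
        rw [upd_same, upd_ne _ _ (by omega), upd_same]
      · rw [upd_ne _ _ h0]
        by_cases h1 : i = 1
        · subst h1
          rw [upd_same, upd_same]
        · rw [upd_ne _ _ h1, upd_ne _ _ h1, upd_ne _ _ h0]
    have h3 : SatIn (El v) (.ex 1 φ) (upd g 0 x) := by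
      refine (hel (.ex 1 φ) _ fun i => ?_).2 h2
      by_cases h0 : i = 0
      · subst h0; rw [upd_same]; exact hxv x hx
      · rw [upd_ne _ _ h0]; exact hgv i
    obtain ⟨y', hy', h4⟩ := h3
    have hy'v : y' ∈ v := hy'
    have h5 : SatIn (El v) φ (upd (upd g 1 y') 0 x) := by
      refine (satIn_congr fun i hi => ?_).1 h4
      by_cases h0 : i = 0
      · subst h0
        rw [upd_same, upd_ne _ _ (by omega), upd_same]
      · rw [upd_ne (upd g 1 y') _ h0]
        by_cases h1 : i = 1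
        · subst h1
          rw [upd_same, upd_same]
        · rw [upd_ne _ _ h1, upd_ne _ _ h1, upd_ne _ _ h0]
    have h6 := (hel2 x (hxv x hx) y' hy'v).1 h5
    have h7 := (h1 y' (hvK _ hy'v)).1 h6
    have h8 := (h1 y hy).1 hxy
    rw [h8, ← h7]
    exact hy'v
  have hb := sep_satIn_mem (zfa_empty_mem h) h.sep (.ex 0 (.and (.mem 0 n) φ)) 1 hv hgK hv
  refine ⟨_, hb, fun y hy => ?_⟩
  generalize hbb : ZFSet.sep (fun z => SatIn (El v) (.ex 0 (.and (.mem 0 n) φ)) (upd g 1 z)) v = b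
  have hmem : y ∈ b ↔ y ∈ v ∧ ∃ x ∈ a, SatIn (El v) φ (upd (upd g 1 y) 0 x) := by
    rw [← hbb, ZFSet.mem_sep]
    refine and_congr_right fun hyv => ?_
    constructor
    · rintro ⟨x, hx, h1, h2⟩
      have h3 : upd (upd g 1 y) 0 x 0 ∈ upd (upd g 1 y) 0 x n := h1
      rw [upd_same, upd_ne _ _ (by omega), upd_ne _ _ (by omega), hgn] at h3
      exact ⟨x, h3, h2⟩
    · rintro ⟨x, hx, h1⟩
      refine ⟨x, hxv x hx, ?_, h1⟩
      show upd (upd g 1 y) 0 x 0 ∈ upd (upd g 1 y) 0 x n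
      rw [upd_same, upd_ne _ _ (by omega), upd_ne _ _ (by omega), hgn]
      exact hx
  have hval : ∀ x, (SatIn K φ (upd (upd (upd (upd f n a) (n + 1) b) 1 y) 0 x) ↔
      SatIn K φ (upd (upd g 1 y) 0 x)) := by
    intro x
    refine satIn_congr fun i hi => ?_
    by_cases h0 : i = 0
    · subst h0; rw [upd_same, upd_same]
    · rw [upd_ne _ _ h0, upd_ne _ _ h0]
      by_cases h1 : i = 1
      · subst h1; rw [upd_same, upd_same]
      · rw [upd_ne _ _ h1, upd_ne _ _ h1, upd_ne _ _ (by omega), upd_ne _ _ (by omega)]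
        exact (hgf i (by omega)).symm
  rw [zfa_iff]
  have e1 : SatIn K (.mem 1 (n + 1)) (upd (upd (upd f n a) (n + 1) b) 1 y) ↔ y ∈ b := by
    show upd (upd (upd f n a) (n + 1) b) 1 y 1 ∈ upd (upd (upd f n a) (n + 1) b) 1 y (n + 1) ↔ _
    rw [upd_same, upd_ne _ _ (by omega), upd_same]
  have e2 : SatIn K (.ex 0 (.and (.mem 0 n) φ)) (upd (upd (upd f n a) (n + 1) b) 1 y) ↔
      ∃ x ∈ a, SatIn K φ (upd (upd g 1 y) 0 x) := by
    constructor
    · rintro ⟨x, hx, h1, h2⟩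
      have h3 : upd (upd (upd (upd f n a) (n + 1) b) 1 y) 0 x 0 ∈
        upd (upd (upd (upd f n a) (n + 1) b) 1 y) 0 x n := h1
      rw [upd_same, upd_ne _ _ (by omega), upd_ne _ _ (by omega), upd_ne _ _ (by omega),
        upd_same] at h3
      exact ⟨x, h3, (hval x).1 h2⟩
    · rintro ⟨x, hx, h1⟩
      refine ⟨x, hvK x (hxv x hx), ?_, (hval x).2 h1⟩
      show upd (upd (upd (upd f n a) (n + 1) b) 1 y) 0 x 0 ∈
        upd (upd (upd (upd f n a) (n + 1) b) 1 y) 0 x n
      rw [upd_same, upd_ne _ _ (by omega), upd_ne _ _ (by omega), upd_ne _ _ (by omega),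
        upd_same]
      exact hx
  rw [e1, e2, hmem]
  constructor
  · rintro ⟨hyv, x, hx, h1⟩
    exact ⟨x, hx, (hel2 x (hxv x hx) y hyv).1 h1⟩
  · rintro ⟨x, hx, h1⟩
    have hyv := hFv x hx y hy h1
    exact ⟨hyv, x, hx, (hel2 x (hxv x hx) y hyv).2 h1⟩

end Pool.Agent.H52.OM
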